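import Mathlib
import Pool.Agent.H75.Four.Piv

set_option autoImplicit false
open Finset

/-! A closed dual path between the two faces of an edge separates its ends (helper84, for job 409). -/

namespace Pool.Agent.H81.NC

open Pool.Agent.H75.Perc Pool.Agent.H75.TwoArm Pool.Agent.H75.Four Pool.Agent.H75.Four.PivAux

/-- a closed dual path between the two faces of `e'` separates its ends -/
theorem sep_of_dual {E ω : Finset (ℤ × ℤ)} {e' : ℤ × ℤ} (he' : (e'.1 + e'.2) % 2 = 1)
    (h : Co (du E (insert e' ω)) (fi (zu e')) (fi (zv e'))) :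
    ¬ Co (ω.erase e') (vx (zu e')) (vx (zv e')) := by
  rw [vx_zu he', vx_zv he']
  intro hco
  obtain ⟨n, hn1, hn2⟩ := co_cycle hco
  have hea := eu_ev he'
  set n' : ℤ × ℤ → ZMod 2 := fun l => n l + id1 e' l with hn'
  have hfin : {l : ℤ × ℤ | n' l ≠ 0}.Finite := by
    refine ((ω.erase e') ∪ {e'}).finite_toSet.subset ?_
    intro l hl
    rw [Set.mem_ofPred_eq] at hl
    rw [coe_union, Set.mem_union]
    by_cases h0 : n l = 0
    · right
      rw [coe_singleton, Set.mem_singleton_iff]
      by_contra h3
      apply hl
      simp only [hn', h0, id1, if_neg h3, add_zero]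
    · left
      exact hn1 l h0
  have hdeg : ∀ w, dg n' w = 0 := by
    intro w
    rw [hn', dg_add, hn2]
    have h3 := dg_edge hea.1 w
    rw [hea.2] at h3
    rw [h3]
    exact zmod2_add_self _
  obtain ⟨S, hS⟩ := even_faces n' hfin hdeg
  have hne : n e' = 0 := by
    by_contra h3
    exact (mem_erase.1 (hn1 e' h3)).1 rfl
  have hconst : ∀ f g, Co (du E (insert e' ω)) f g → S f = S g := by
    intro f g h
    induction h with
    | refl => rfl
    | @tail x y _ hxy ih =>
      rw [ih]
      have h3 := hS x y hxy.1
      have h4 := hxy.2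
      unfold du at h4
      rw [mem_map] at h4
      obtain ⟨l, hl, hlxy⟩ := h4
      have h5 : x + y - (1, 1) = l := by
        rw [← hlxy]
        refine Prod.ext ?_ ?_ <;> simp [sh1]
      rw [mem_sdiff, mem_insert] at hl
      have h6 : n l = 0 := by
        by_contra h7
        exact hl.2 (Or.inr (mem_erase.1 (hn1 l h7)).2)
      have h7 : l ≠ e' := fun h8 => hl.2 (Or.inl h8)
      rw [h5, hn'] at h3
      simp only [h6, id1, if_neg h7, add_zero] at h3
      generalize S x = s at h3 ⊢
      generalize S y = t at h3 ⊢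
      revert s t; decide
  have hf := fi_zu_zv he'
  have h3 := hS _ _ hf.1
  rw [hf.2, hn'] at h3
  simp only [hne, id1, if_true, zero_add] at h3
  rw [hconst _ _ h] at h3
  generalize S (fi (zv e')) = s at h3
  revert s; decide

end Pool.Agent.H81.NC
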