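import Mathlib
import Pool.Agent.H75.Perc.Rect
import Pool.Agent.H99.NC.PrP

set_option autoImplicit false
open Finset

/-! Corridors made of cells: if every cell (a square of side `w` of a grid with origin `o`) of a chain
is crossed in both directions and every union of two consecutive cells in the long direction, then the
first cell is connected to the last one inside the chain. -/

namespace Pool.Agent.H81.NC

open Pool.Agent.H75.Perc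

/-! ### Truncation of connections -/

/-- A connection in a box, stopped at the first exit from a smaller box. -/
lemma trunc_box {a b c d a' b' c' d' : ℤ} {ω : Finset (ℤ × ℤ)} {p q : ℤ × ℤ}
    (hp : inB a' b' c' d' p) (h : Co (ω ∩ Bx a b c d) p q) :
    ∃ z, inB a' b' c' d' z ∧ Co (ω ∩ Bx a' b' c' d') p z ∧ Co (ω ∩ Bx a b c d) p z ∧
      (z = q ∨ ∃ z', ¬ inB a' b' c' d' z' ∧ inB a b c d z' ∧ IsUnit4 (z' - z)) := by
  have key : ∀ v, Co (ω ∩ Bx a b c d) p v →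
      (inB a' b' c' d' v ∧ Co (ω ∩ Bx a' b' c' d') p v) ∨
      ∃ z, inB a' b' c' d' z ∧ Co (ω ∩ Bx a' b' c' d') p z ∧ Co (ω ∩ Bx a b c d) p z ∧
        ∃ z', ¬ inB a' b' c' d' z' ∧ inB a b c d z' ∧ IsUnit4 (z' - z) := by
    intro v hv
    induction hv with
    | refl => exact Or.inl ⟨hp, Co.refl _ _⟩
    | @tail x y hxy hyz ih =>
      rcases ih with ⟨h1, h2⟩ | h1
      · by_cases hy : inB a' b' c' d' y
        · refine Or.inl ⟨hy, Relation.ReflTransGen.tail h2 ⟨hyz.1, mem_inter.2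
            ⟨(mem_inter.1 hyz.2).1, add_mem_Bx hyz.1 h1 hy⟩⟩⟩
        · exact Or.inr ⟨x, h1, h2, hxy, y, hy, (hyz.inB inter_subset_right).2, hyz.1⟩
      · exact Or.inr h1
  rcases key q h with ⟨h1, h2⟩ | ⟨z, h1, h2, h3, z', h4⟩
  · exact ⟨q, h1, h2, h, Or.inl rfl⟩
  · exact ⟨z, h1, h2, h3, Or.inr ⟨z', h4⟩⟩

lemma trunc_up {a b c d m : ℤ} {ω : Finset (ℤ × ℤ)} {p q : ℤ × ℤ} (hp : inB a b c d p)
    (hp2 : p.2 ≤ m) (hq2 : m ≤ q.2) (h : Co (ω ∩ Bx a b c d) p q) :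
    ∃ z, z.2 = m ∧ inB a b c m z ∧ Co (ω ∩ Bx a b c m) p z ∧ Co (ω ∩ Bx a b c d) p z := by
  obtain ⟨z, h1, h2, h3, h4⟩ := trunc_box (a' := a) (b' := b) (c' := c) (d' := m)
    (by unfold inB at hp ⊢; omega) h
  refine ⟨z, ?_, h1, h2, h3⟩
  rcases h4 with h4 | ⟨z', h5, h6, h7⟩
  · subst h4; unfold inB at h1; omega
  · have h8 := unit_cases h7
    unfold inB at h1 h5 h6; omega

lemma trunc_down {a b c d m : ℤ} {ω : Finset (ℤ × ℤ)} {p q : ℤ × ℤ} (hp : inB a b c d p)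
    (hp2 : m ≤ p.2) (hq2 : q.2 ≤ m) (h : Co (ω ∩ Bx a b c d) p q) :
    ∃ z, z.2 = m ∧ inB a b m d z ∧ Co (ω ∩ Bx a b m d) p z ∧ Co (ω ∩ Bx a b c d) p z := by
  obtain ⟨z, h1, h2, h3, h4⟩ := trunc_box (a' := a) (b' := b) (c' := m) (d' := d)
    (by unfold inB at hp ⊢; omega) h
  refine ⟨z, ?_, h1, h2, h3⟩
  rcases h4 with h4 | ⟨z', h5, h6, h7⟩
  · subst h4; unfold inB at h1; omega
  · have h8 := unit_cases h7
    unfold inB at h1 h5 h6; omega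

lemma trunc_right {a b c d m : ℤ} {ω : Finset (ℤ × ℤ)} {p q : ℤ × ℤ} (hp : inB a b c d p)
    (hp2 : p.1 ≤ m) (hq2 : m ≤ q.1) (h : Co (ω ∩ Bx a b c d) p q) :
    ∃ z, z.1 = m ∧ inB a m c d z ∧ Co (ω ∩ Bx a m c d) p z ∧ Co (ω ∩ Bx a b c d) p z := by
  obtain ⟨z, h1, h2, h3, h4⟩ := trunc_box (a' := a) (b' := m) (c' := c) (d' := d)
    (by unfold inB at hp ⊢; omega) h
  refine ⟨z, ?_, h1, h2, h3⟩
  rcases h4 with h4 | ⟨z', h5, h6, h7⟩
  · subst h4; unfold inB at h1; omega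
  · have h8 := unit_cases h7
    unfold inB at h1 h5 h6; omega

lemma trunc_left {a b c d m : ℤ} {ω : Finset (ℤ × ℤ)} {p q : ℤ × ℤ} (hp : inB a b c d p)
    (hp2 : m ≤ p.1) (hq2 : q.1 ≤ m) (h : Co (ω ∩ Bx a b c d) p q) :
    ∃ z, z.1 = m ∧ inB m b c d z ∧ Co (ω ∩ Bx m b c d) p z ∧ Co (ω ∩ Bx a b c d) p z := by
  obtain ⟨z, h1, h2, h3, h4⟩ := trunc_box (a' := m) (b' := b) (c' := c) (d' := d)
    (by unfold inB at hp ⊢; omega) h
  refine ⟨z, ?_, h1, h2, h3⟩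
  rcases h4 with h4 | ⟨z', h5, h6, h7⟩
  · subst h4; unfold inB at h1; omega
  · have h8 := unit_cases h7
    unfold inB at h1 h5 h6; omega

/-! ### Full vertices -/

/-- `v` is connected inside the rectangle to its four sides. -/
def Full (a b c d : ℤ) (ω : Finset (ℤ × ℤ)) (v : ℤ × ℤ) : Prop :=
  inB a b c d v ∧ (∃ p, p.1 = a ∧ Co (ω ∩ Bx a b c d) v p) ∧
    (∃ p, p.1 = b ∧ Co (ω ∩ Bx a b c d) v p) ∧ (∃ p, p.2 = c ∧ Co (ω ∩ Bx a b c d) v p) ∧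
    (∃ p, p.2 = d ∧ Co (ω ∩ Bx a b c d) v p)

lemma exists_full {a b c d : ℤ} {ω : Finset (ℤ × ℤ)} (hH : HC a b c d ω) (hV : VC a b c d ω) :
    ∃ v, Full a b c d ω v := by
  obtain ⟨p, q, p1, p2, p3, p4⟩ := hH
  obtain ⟨r, s, r1, r2, r3, r4⟩ := hV
  obtain ⟨z, h1, h2⟩ := cross_co inter_subset_right inter_subset_right p1 r1 p4 r4 p2 p3 r2 r3
  exact ⟨z, h1.inB inter_subset_right p1, ⟨p, p2, h1.symm⟩, ⟨q, p3, h1.symm.trans p4⟩,
    ⟨r, r2, h2.symm⟩, ⟨s, r3, h2.symm.trans r4⟩⟩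

/-- A full vertex is connected to every horizontal crossing of the rectangle. -/
lemma Full.horiz {a b c d : ℤ} {ω : Finset (ℤ × ℤ)} {v p q : ℤ × ℤ} (hv : Full a b c d ω v)
    (hp : inB a b c d p) (hp1 : p.1 = a) (hq1 : q.1 = b) (h : Co (ω ∩ Bx a b c d) p q) :
    Co (ω ∩ Bx a b c d) v p := by
  obtain ⟨h0, -, -, ⟨r, r2, hr⟩, ⟨s, s2, hs⟩⟩ := hv
  have hrB := hr.inB inter_subset_right h0
  obtain ⟨z, h1, h2⟩ := cross_co inter_subset_right inter_subset_right hp hrB h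
    (hr.symm.trans hs) hp1 hq1 r2 s2
  exact hr.trans (h2.trans h1.symm)

/-- A full vertex is connected to every vertical crossing of the rectangle. -/
lemma Full.vert {a b c d : ℤ} {ω : Finset (ℤ × ℤ)} {v p q : ℤ × ℤ} (hv : Full a b c d ω v)
    (hp : inB a b c d p) (hp1 : p.2 = c) (hq1 : q.2 = d) (h : Co (ω ∩ Bx a b c d) p q) :
    Co (ω ∩ Bx a b c d) v p := by
  obtain ⟨h0, ⟨r, r2, hr⟩, ⟨s, s2, hs⟩, -, -⟩ := hv
  have hrB := hr.inB inter_subset_right h0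
  obtain ⟨z, h1, h2⟩ := cross_co inter_subset_right inter_subset_right hrB hp
    (hr.symm.trans hs) h r2 s2 hp1 hq1
  exact hr.trans (h1.trans h2.symm)

lemma Full.all {a b c d : ℤ} {ω : Finset (ℤ × ℤ)} {v v' : ℤ × ℤ} (hv : Full a b c d ω v)
    (hv' : Full a b c d ω v') : Co (ω ∩ Bx a b c d) v v' := by
  obtain ⟨h0, ⟨r, r2, hr⟩, ⟨s, s2, hs⟩, -, -⟩ := hv'
  have := hv.horiz (hr.inB inter_subset_right h0) r2 s2 (hr.symm.trans hs)
  exact this.trans hr.symm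

lemma Full.mono {a b c d : ℤ} {ω ω' : Finset (ℤ × ℤ)} (h : ω ⊆ ω') {v : ℤ × ℤ}
    (hv : Full a b c d ω v) : Full a b c d ω' v := by
  have hm : ω ∩ Bx a b c d ⊆ ω' ∩ Bx a b c d := inter_subset_inter_right h
  obtain ⟨h0, ⟨p1, e1, c1⟩, ⟨p2, e2, c2⟩, ⟨p3, e3, c3⟩, ⟨p4, e4, c4⟩⟩ := hv
  exact ⟨h0, ⟨p1, e1, c1.mono hm⟩, ⟨p2, e2, c2.mono hm⟩, ⟨p3, e3, c3.mono hm⟩,
    ⟨p4, e4, c4.mono hm⟩⟩

/-! ### Cells -/

/-- The cell with index `c` of the grid of mesh `w` with origin `o`. -/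
noncomputable def cell (o : ℤ × ℤ) (w : ℤ) (c : ℤ × ℤ) : Finset (ℤ × ℤ) :=
  Bx (o.1 + w * c.1) (o.1 + w * c.1 + w) (o.2 + w * c.2) (o.2 + w * c.2 + w)

/-- Horizontal crossing of a cell. -/
def CH (o : ℤ × ℤ) (w : ℤ) (c : ℤ × ℤ) (ω : Finset (ℤ × ℤ)) : Prop :=
  HC (o.1 + w * c.1) (o.1 + w * c.1 + w) (o.2 + w * c.2) (o.2 + w * c.2 + w) ω

/-- Vertical crossing of a cell. -/
def CV (o : ℤ × ℤ) (w : ℤ) (c : ℤ × ℤ) (ω : Finset (ℤ × ℤ)) : Prop :=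
  VC (o.1 + w * c.1) (o.1 + w * c.1 + w) (o.2 + w * c.2) (o.2 + w * c.2 + w) ω

/-- Horizontal crossing of the union of a cell and its right neighbour. -/
def HH (o : ℤ × ℤ) (w : ℤ) (c : ℤ × ℤ) (ω : Finset (ℤ × ℤ)) : Prop :=
  HC (o.1 + w * c.1) (o.1 + w * c.1 + 2 * w) (o.2 + w * c.2) (o.2 + w * c.2 + w) ω

/-- Vertical crossing of the union of a cell and its upper neighbour. -/
def VV (o : ℤ × ℤ) (w : ℤ) (c : ℤ × ℤ) (ω : Finset (ℤ × ℤ)) : Prop :=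
  VC (o.1 + w * c.1) (o.1 + w * c.1 + w) (o.2 + w * c.2) (o.2 + w * c.2 + 2 * w) ω

/-- The crossing of the union of two neighbouring cells in the long direction. -/
def PP (o : ℤ × ℤ) (w : ℤ) (c c' : ℤ × ℤ) (ω : Finset (ℤ × ℤ)) : Prop :=
  (c' = c + (1, 0) ∧ HH o w c ω) ∨ (c = c' + (1, 0) ∧ HH o w c' ω) ∨
    (c' = c + (0, 1) ∧ VV o w c ω) ∨ (c = c' + (0, 1) ∧ VV o w c' ω)

/-- full vertex of a cell -/
def CF (o : ℤ × ℤ) (w : ℤ) (c : ℤ × ℤ) (ω : Finset (ℤ × ℤ)) (v : ℤ × ℤ) : Prop :=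
  Full (o.1 + w * c.1) (o.1 + w * c.1 + w) (o.2 + w * c.2) (o.2 + w * c.2 + w) ω v

lemma big_sub_h (x y w : ℤ) : Bx x (x + 2 * w) y (y + w) ⊆
    Bx x (x + w) y (y + w) ∪ Bx (x + w) (x + 2 * w) y (y + w) := by
  intro e he
  rw [mem_union, mem_Bx, mem_Bx]
  rw [mem_Bx] at he
  omega

lemma big_sub_v (x y w : ℤ) : Bx x (x + w) y (y + 2 * w) ⊆
    Bx x (x + w) y (y + w) ∪ Bx x (x + w) (y + w) (y + 2 * w) := by
  intro e he
  rw [mem_union, mem_Bx, mem_Bx]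
  rw [mem_Bx] at he
  omega

lemma cell_right (o : ℤ × ℤ) (w : ℤ) (c : ℤ × ℤ) : cell o w (c + (1, 0)) =
    Bx (o.1 + w * c.1 + w) (o.1 + w * c.1 + 2 * w) (o.2 + w * c.2) (o.2 + w * c.2 + w) := by
  unfold cell
  simp only [Prod.fst_add, Prod.snd_add, add_zero]
  congr 1 <;> ring

lemma cell_top (o : ℤ × ℤ) (w : ℤ) (c : ℤ × ℤ) : cell o w (c + (0, 1)) =
    Bx (o.1 + w * c.1) (o.1 + w * c.1 + w) (o.2 + w * c.2 + w) (o.2 + w * c.2 + 2 * w) := by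
  unfold cell
  simp only [Prod.fst_add, Prod.snd_add, add_zero]
  congr 1 <;> ring

lemma CF_right {o : ℤ × ℤ} {w : ℤ} {c : ℤ × ℤ} {ω : Finset (ℤ × ℤ)} {v : ℤ × ℤ} :
    CF o w (c + (1, 0)) ω v ↔ Full (o.1 + w * c.1 + w) (o.1 + w * c.1 + 2 * w) (o.2 + w * c.2)
      (o.2 + w * c.2 + w) ω v := by
  unfold CF
  simp only [Prod.fst_add, Prod.snd_add, add_zero]
  rw [show o.1 + w * (c.1 + 1) = o.1 + w * c.1 + w by ring,
    show o.1 + w * c.1 + w + w = o.1 + w * c.1 + 2 * w by ring]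

lemma CF_top {o : ℤ × ℤ} {w : ℤ} {c : ℤ × ℤ} {ω : Finset (ℤ × ℤ)} {v : ℤ × ℤ} :
    CF o w (c + (0, 1)) ω v ↔ Full (o.1 + w * c.1) (o.1 + w * c.1 + w) (o.2 + w * c.2 + w)
      (o.2 + w * c.2 + 2 * w) ω v := by
  unfold CF
  simp only [Prod.fst_add, Prod.snd_add, add_zero]
  rw [show o.2 + w * (c.2 + 1) = o.2 + w * c.2 + w by ring,
    show o.2 + w * c.2 + w + w = o.2 + w * c.2 + 2 * w by ring]

lemma HH_join {o : ℤ × ℤ} {w : ℤ} (hw : 0 ≤ w) {c : ℤ × ℤ} {ω : Finset (ℤ × ℤ)} {v v' : ℤ × ℤ}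
    (hv : CF o w c ω v) (hv' : CF o w (c + (1, 0)) ω v') (h : HH o w c ω) :
    Co (ω ∩ (cell o w c ∪ cell o w (c + (1, 0)))) v v' := by
  obtain ⟨p, q, p1, p2, p3, p4⟩ := h
  have hq : inB (o.1 + w * c.1) (o.1 + w * c.1 + 2 * w) (o.2 + w * c.2) (o.2 + w * c.2 + w) q :=
    p4.inB inter_subset_right p1
  obtain ⟨z, z1, z2, z3, z4⟩ := trunc_right (m := o.1 + w * c.1 + w) p1 (by omega) (by omega) p4
  obtain ⟨y, y1, y2, y3, y4⟩ := trunc_left (m := o.1 + w * c.1 + w) hq (by omega) (by omega)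
    p4.symm
  have hvv := Full.horiz hv (by unfold inB at p1 ⊢; omega) p2 z1 z3
  have hvv' := Full.horiz (CF_right.1 hv') y2 y1 p3 y3.symm
  rw [cell_right]
  unfold cell
  have m1 : ω ∩ Bx (o.1 + w * c.1) (o.1 + w * c.1 + w) (o.2 + w * c.2) (o.2 + w * c.2 + w) ⊆
      ω ∩ (Bx (o.1 + w * c.1) (o.1 + w * c.1 + w) (o.2 + w * c.2) (o.2 + w * c.2 + w) ∪
        Bx (o.1 + w * c.1 + w) (o.1 + w * c.1 + 2 * w) (o.2 + w * c.2) (o.2 + w * c.2 + w)) :=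
    inter_subset_inter_left subset_union_left
  have m2 : ω ∩ Bx (o.1 + w * c.1 + w) (o.1 + w * c.1 + 2 * w) (o.2 + w * c.2)
      (o.2 + w * c.2 + w) ⊆
      ω ∩ (Bx (o.1 + w * c.1) (o.1 + w * c.1 + w) (o.2 + w * c.2) (o.2 + w * c.2 + w) ∪
        Bx (o.1 + w * c.1 + w) (o.1 + w * c.1 + 2 * w) (o.2 + w * c.2) (o.2 + w * c.2 + w)) :=
    inter_subset_inter_left subset_union_right
  exact (hvv.mono m1).trans (((p4.trans y4).mono (inter_subset_inter_left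
    (big_sub_h _ _ _))).trans (hvv'.symm.mono m2))

lemma VV_join {o : ℤ × ℤ} {w : ℤ} (hw : 0 ≤ w) {c : ℤ × ℤ} {ω : Finset (ℤ × ℤ)} {v v' : ℤ × ℤ}
    (hv : CF o w c ω v) (hv' : CF o w (c + (0, 1)) ω v') (h : VV o w c ω) :
    Co (ω ∩ (cell o w c ∪ cell o w (c + (0, 1)))) v v' := by
  obtain ⟨p, q, p1, p2, p3, p4⟩ := h
  have hq : inB (o.1 + w * c.1) (o.1 + w * c.1 + w) (o.2 + w * c.2) (o.2 + w * c.2 + 2 * w) q :=
    p4.inB inter_subset_right p1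
  obtain ⟨z, z1, z2, z3, z4⟩ := trunc_up (m := o.2 + w * c.2 + w) p1 (by omega) (by omega) p4
  obtain ⟨y, y1, y2, y3, y4⟩ := trunc_down (m := o.2 + w * c.2 + w) hq (by omega) (by omega)
    p4.symm
  have hvv := Full.vert hv (by unfold inB at p1 ⊢; omega) p2 z1 z3
  have hvv' := Full.vert (CF_top.1 hv') y2 y1 p3 y3.symm
  rw [cell_top]
  unfold cell
  have m1 : ω ∩ Bx (o.1 + w * c.1) (o.1 + w * c.1 + w) (o.2 + w * c.2) (o.2 + w * c.2 + w) ⊆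
      ω ∩ (Bx (o.1 + w * c.1) (o.1 + w * c.1 + w) (o.2 + w * c.2) (o.2 + w * c.2 + w) ∪
        Bx (o.1 + w * c.1) (o.1 + w * c.1 + w) (o.2 + w * c.2 + w) (o.2 + w * c.2 + 2 * w)) :=
    inter_subset_inter_left subset_union_left
  have m2 : ω ∩ Bx (o.1 + w * c.1) (o.1 + w * c.1 + w) (o.2 + w * c.2 + w)
      (o.2 + w * c.2 + 2 * w) ⊆
      ω ∩ (Bx (o.1 + w * c.1) (o.1 + w * c.1 + w) (o.2 + w * c.2) (o.2 + w * c.2 + w) ∪
        Bx (o.1 + w * c.1) (o.1 + w * c.1 + w) (o.2 + w * c.2 + w) (o.2 + w * c.2 + 2 * w)) :=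
    inter_subset_inter_left subset_union_right
  exact (hvv.mono m1).trans (((p4.trans y4).mono (inter_subset_inter_left
    (big_sub_v _ _ _))).trans (hvv'.symm.mono m2))

lemma PP_join {o : ℤ × ℤ} {w : ℤ} (hw : 0 ≤ w) {c c' : ℤ × ℤ} {ω : Finset (ℤ × ℤ)}
    {v v' : ℤ × ℤ} (hv : CF o w c ω v) (hv' : CF o w c' ω v') (h : PP o w c c' ω) :
    Co (ω ∩ (cell o w c ∪ cell o w c')) v v' := by
  rcases h with ⟨rfl, h⟩ | ⟨rfl, h⟩ | ⟨rfl, h⟩ | ⟨rfl, h⟩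
  · exact HH_join hw hv hv' h
  · rw [union_comm]; exact (HH_join hw hv' hv h).symm
  · exact VV_join hw hv hv' h
  · rw [union_comm]; exact (VV_join hw hv' hv h).symm

/-! ### Chains of cells -/

/-- the labels of all the cells of a list -/
noncomputable def cells (o : ℤ × ℤ) (w : ℤ) : List (ℤ × ℤ) → Finset (ℤ × ℤ)
  | [] => ∅
  | c :: l => cell o w c ∪ cells o w l

lemma mem_cells {o : ℤ × ℤ} {w : ℤ} {l : List (ℤ × ℤ)} {e : ℤ × ℤ} :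
    e ∈ cells o w l ↔ ∃ c ∈ l, e ∈ cell o w c := by
  induction l with
  | nil => simp [cells]
  | cons c l ih => simp [cells, ih]

lemma cell_sub_cells {o : ℤ × ℤ} {w : ℤ} {l : List (ℤ × ℤ)} {c : ℤ × ℤ} (h : c ∈ l) :
    cell o w c ⊆ cells o w l := fun _ he => mem_cells.2 ⟨c, h, he⟩

/-- All the crossings along a chain of cells. -/
def Chn (o : ℤ × ℤ) (w : ℤ) (l : List (ℤ × ℤ)) (ω : Finset (ℤ × ℤ)) : Prop :=
  (∀ c ∈ l, CH o w c ω ∧ CV o w c ω) ∧ List.IsChain (fun c c' => PP o w c c' ω) l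

lemma Chn.full {o : ℤ × ℤ} {w : ℤ} {l : List (ℤ × ℤ)} {ω : Finset (ℤ × ℤ)} (h : Chn o w l ω)
    {c : ℤ × ℤ} (hc : c ∈ l) : ∃ v, CF o w c ω v := exists_full (h.1 c hc).1 (h.1 c hc).2

lemma Chn.tail {o : ℤ × ℤ} {w : ℤ} {c : ℤ × ℤ} {l : List (ℤ × ℤ)} {ω : Finset (ℤ × ℤ)}
    (h : Chn o w (c :: l) ω) : Chn o w l ω :=
  ⟨fun c' hc' => h.1 c' (List.mem_cons_of_mem _ hc'), h.2.tail⟩

lemma Chn.head {o : ℤ × ℤ} {w : ℤ} (hw : 0 ≤ w) {c : ℤ × ℤ} {l : List (ℤ × ℤ)}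
    {ω : Finset (ℤ × ℤ)} (h : Chn o w (c :: l) ω) {v : ℤ × ℤ} (hv : CF o w c ω v) :
    ∀ c' ∈ c :: l, ∀ v', CF o w c' ω v' → Co (ω ∩ cells o w (c :: l)) v v' := by
  induction l generalizing c v with
  | nil =>
    intro c' hc' v' hv'
    rw [List.mem_singleton] at hc'
    subst hc'
    exact (hv.all hv').mono (inter_subset_inter_left (cell_sub_cells (by simp)))
  | cons d l ih =>
    intro c' hc' v' hv'
    rcases List.mem_cons.1 hc' with rfl | hc'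
    · exact (hv.all hv').mono (inter_subset_inter_left (cell_sub_cells (by simp)))
    · obtain ⟨u, hu⟩ := h.full (c := d) (by simp)
      have h1 := ih h.tail hu c' hc' v' hv'
      have h2 : PP o w c d ω := by
        have := h.2
        rw [List.isChain_cons_cons] at this
        exact this.1
      refine ((PP_join hw hv hu h2).mono (inter_subset_inter_left ?_)).trans
        (h1.mono (inter_subset_inter_left ?_))
      · exact union_subset (cell_sub_cells (by simp)) (cell_sub_cells (by simp))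
      · unfold cells; exact subset_union_right

/-- Any two full vertices of the cells of a chain are connected inside the chain. -/
theorem Chn.co {o : ℤ × ℤ} {w : ℤ} (hw : 0 ≤ w) {l : List (ℤ × ℤ)} {ω : Finset (ℤ × ℤ)}
    (h : Chn o w l ω) {c c' v v' : ℤ × ℤ} (hc : c ∈ l) (hc' : c' ∈ l) (hv : CF o w c ω v)
    (hv' : CF o w c' ω v') : Co (ω ∩ cells o w l) v v' := by
  rcases l with _ | ⟨d, l⟩
  · simp at hc
  · obtain ⟨u, hu⟩ := h.full (c := d) (by simp)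
    exact (h.head hw hu c hc v hv).symm.trans (h.head hw hu c' hc' v' hv')

/-! ### Monotonicity -/

lemma HC_sub {a b c d a' b' : ℤ} (h1 : a ≤ a') (h2 : a' ≤ b') (h3 : b' ≤ b) {ω : Finset (ℤ × ℤ)}
    (h : HC a b c d ω) : HC a' b' c d ω := by
  obtain ⟨p, q, p1, p2, p3, p4⟩ := h
  obtain ⟨z, z1, z2, z3, -⟩ := trunc_right (m := b') p1 (by omega) (by omega) p4
  obtain ⟨y, y1, y2, y3, -⟩ := trunc_left (m := a') z2 (by omega) (by omega) z3.symm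
  exact ⟨y, z, y2, y1, z1, y3.symm⟩

lemma VC_sub {a b c d c' d' : ℤ} (h1 : c ≤ c') (h2 : c' ≤ d') (h3 : d' ≤ d) {ω : Finset (ℤ × ℤ)}
    (h : VC a b c d ω) : VC a b c' d' ω := by
  obtain ⟨p, q, p1, p2, p3, p4⟩ := h
  obtain ⟨z, z1, z2, z3, -⟩ := trunc_up (m := d') p1 (by omega) (by omega) p4
  obtain ⟨y, y1, y2, y3, -⟩ := trunc_down (m := c') z2 (by omega) (by omega) z3.symm
  exact ⟨y, z, y2, y1, z1, y3.symm⟩

lemma HH_inc (o : ℤ × ℤ) (w : ℤ) (c : ℤ × ℤ) : Inc (HH o w c) := HC_inc _ _ _ _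
lemma VV_inc (o : ℤ × ℤ) (w : ℤ) (c : ℤ × ℤ) : Inc (VV o w c) := VC_inc _ _ _ _
lemma CH_inc (o : ℤ × ℤ) (w : ℤ) (c : ℤ × ℤ) : Inc (CH o w c) := HC_inc _ _ _ _
lemma CV_inc (o : ℤ × ℤ) (w : ℤ) (c : ℤ × ℤ) : Inc (CV o w c) := VC_inc _ _ _ _

lemma PP_inc (o : ℤ × ℤ) (w : ℤ) (c c' : ℤ × ℤ) : Inc (PP o w c c') := by
  rintro ω ω' h (⟨h1, h2⟩ | ⟨h1, h2⟩ | ⟨h1, h2⟩ | ⟨h1, h2⟩)
  · exact Or.inl ⟨h1, HH_inc _ _ _ _ _ h h2⟩
  · exact Or.inr (Or.inl ⟨h1, HH_inc _ _ _ _ _ h h2⟩)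
  · exact Or.inr (Or.inr (Or.inl ⟨h1, VV_inc _ _ _ _ _ h h2⟩))
  · exact Or.inr (Or.inr (Or.inr ⟨h1, VV_inc _ _ _ _ _ h h2⟩))

lemma Chn_inc (o : ℤ × ℤ) (w : ℤ) (l : List (ℤ × ℤ)) : Inc (Chn o w l) := by
  rintro ω ω' h ⟨h1, h2⟩
  refine ⟨fun c hc => ⟨CH_inc _ _ _ _ _ h (h1 c hc).1, CV_inc _ _ _ _ _ h (h1 c hc).2⟩, ?_⟩
  exact h2.imp fun a b hab => PP_inc _ _ _ _ _ _ h hab

/-! ### Probabilities -/

open Pool.Agent.H99.NC

/-- Crossing probabilities of the rectangles `2w × w` in the long direction are at least `c`. -/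
def RS (q : ℤ × ℤ → ℝ) (c : ℝ) (w : ℤ) : Prop := ∀ a b : ℤ,
  c ≤ PrP q (Bx a (a + 2 * w) b (b + w)) (HC a (a + 2 * w) b (b + w)) ∧
  c ≤ PrP q (Bx a (a + w) b (b + 2 * w)) (VC a (a + w) b (b + 2 * w))

lemma PrP_HC {q : ℤ × ℤ → ℝ} {E : Finset (ℤ × ℤ)} {a b c d : ℤ} (h : Bx a b c d ⊆ E) :
    PrP q E (HC a b c d) = PrP q (Bx a b c d) (HC a b c d) :=
  PrP_local h fun ω _ => by
    unfold HC
    rw [inter_assoc, inter_self]

lemma PrP_VC {q : ℤ × ℤ → ℝ} {E : Finset (ℤ × ℤ)} {a b c d : ℤ} (h : Bx a b c d ⊆ E) :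
    PrP q E (VC a b c d) = PrP q (Bx a b c d) (VC a b c d) :=
  PrP_local h fun ω _ => by
    unfold VC
    rw [inter_assoc, inter_self]

lemma PrP_harris_list {α : Type*} [DecidableEq α] {q : α → ℝ} (hq : Pb q) (E : Finset α)
    {c : ℝ} (hc : 0 ≤ c) (L : List (Finset α → Prop)) (hI : ∀ A ∈ L, Inc A)
    (h : ∀ A ∈ L, c ≤ PrP q E A) : c ^ L.length ≤ PrP q E (fun ω => ∀ A ∈ L, A ω) := by
  induction L with
  | nil => simp
  | cons A L ih =>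
    have h1 := ih (fun B hB => hI B (List.mem_cons_of_mem _ hB))
      (fun B hB => h B (List.mem_cons_of_mem _ hB))
    have h2 := h A (by simp)
    have hL : Inc (fun ω => ∀ B ∈ L, B ω) := fun ω ω' hs hB B hBL =>
      hI B (List.mem_cons_of_mem _ hBL) ω ω' hs (hB B hBL)
    have h3 := PrP_harris hq E (hI A (by simp)) hL
    have h4 : PrP q E (fun ω => A ω ∧ ∀ B ∈ L, B ω) = PrP q E (fun ω => ∀ B ∈ A :: L, B ω) :=
      PrP_congr fun ω _ => by simp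
    rw [← h4, List.length_cons, pow_succ, mul_comm]
    exact (mul_le_mul h2 h1 (pow_nonneg hc _) (PrP_nonneg hq _ _)).trans h3

lemma PrP_mul_le {q : ℤ × ℤ → ℝ} (hq : Pb q) {E : Finset (ℤ × ℤ)} {A B : Finset (ℤ × ℤ) → Prop}
    (hA : Inc A) (hB : Inc B) {x y : ℝ} (hx : 0 ≤ x) (hy : 0 ≤ y) (h1 : x ≤ PrP q E A)
    (h2 : y ≤ PrP q E B) : x * y ≤ PrP q E (fun ω => A ω ∧ B ω) :=
  (mul_le_mul h1 h2 hy (hx.trans h1)).trans (PrP_harris hq E hA hB)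

lemma RS.HH {q : ℤ × ℤ → ℝ} {c : ℝ} {w : ℤ} (h : RS q c w) {o : ℤ × ℤ} {k : ℤ × ℤ}
    {E : Finset (ℤ × ℤ)} (h1 : cell o w k ⊆ E) (h2 : cell o w (k + (1, 0)) ⊆ E) :
    c ≤ PrP q E (NC.HH o w k) := by
  unfold NC.HH
  rw [PrP_HC ((big_sub_h _ _ _).trans (union_subset h1 (by rw [cell_right] at h2; exact h2)))]
  exact (h _ _).1

lemma RS.VV {q : ℤ × ℤ → ℝ} {c : ℝ} {w : ℤ} (h : RS q c w) {o : ℤ × ℤ} {k : ℤ × ℤ}
    {E : Finset (ℤ × ℤ)} (h1 : cell o w k ⊆ E) (h2 : cell o w (k + (0, 1)) ⊆ E) :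
    c ≤ PrP q E (NC.VV o w k) := by
  unfold NC.VV
  rw [PrP_VC ((big_sub_v _ _ _).trans (union_subset h1 (by rw [cell_top] at h2; exact h2)))]
  exact (h _ _).2

lemma RS.CH {q : ℤ × ℤ → ℝ} (hq : Pb q) {c : ℝ} {w : ℤ} (hw : 0 ≤ w) (h : RS q c w)
    {o : ℤ × ℤ} {k : ℤ × ℤ} {E : Finset (ℤ × ℤ)} (h1 : cell o w k ⊆ E) :
    c ≤ PrP q E (NC.CH o w k) := by
  have h2 := (h (o.1 + w * k.1) (o.2 + w * k.2)).1
  unfold NC.CH
  rw [PrP_HC h1]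
  refine h2.trans ?_
  have e := PrP_HC (q := q) (E := Bx (o.1 + w * k.1) (o.1 + w * k.1 + 2 * w) (o.2 + w * k.2)
    (o.2 + w * k.2 + w)) (a := o.1 + w * k.1) (b := o.1 + w * k.1 + w) (c := o.2 + w * k.2)
    (d := o.2 + w * k.2 + w) (Bx_sub le_rfl (by omega) le_rfl le_rfl)
  rw [← e]
  refine PrP_mono hq fun ω _ hω => ?_
  exact HC_sub (a := o.1 + w * k.1) (b := o.1 + w * k.1 + 2 * w) le_rfl (by omega) (by omega) hω

lemma RS.CV {q : ℤ × ℤ → ℝ} (hq : Pb q) {c : ℝ} {w : ℤ} (hw : 0 ≤ w) (h : RS q c w)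
    {o : ℤ × ℤ} {k : ℤ × ℤ} {E : Finset (ℤ × ℤ)} (h1 : cell o w k ⊆ E) :
    c ≤ PrP q E (NC.CV o w k) := by
  have h2 := (h (o.1 + w * k.1) (o.2 + w * k.2)).2
  unfold NC.CV
  rw [PrP_VC h1]
  refine h2.trans ?_
  have e := PrP_VC (q := q) (E := Bx (o.1 + w * k.1) (o.1 + w * k.1 + w) (o.2 + w * k.2)
    (o.2 + w * k.2 + 2 * w)) (a := o.1 + w * k.1) (b := o.1 + w * k.1 + w) (c := o.2 + w * k.2)
    (d := o.2 + w * k.2 + w) (Bx_sub le_rfl le_rfl le_rfl (by omega))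
  rw [← e]
  refine PrP_mono hq fun ω _ hω => ?_
  exact VC_sub (c := o.2 + w * k.2) (d := o.2 + w * k.2 + 2 * w) le_rfl (by omega) (by omega) hω

lemma RS.PP {q : ℤ × ℤ → ℝ} (hq : Pb q) {c : ℝ} {w : ℤ} (h : RS q c w) {o : ℤ × ℤ}
    {k k' : ℤ × ℤ} (hk : IsUnit4 (k' - k)) {E : Finset (ℤ × ℤ)} (h1 : cell o w k ⊆ E)
    (h2 : cell o w k' ⊆ E) : c ≤ PrP q E (NC.PP o w k k') := by
  rcases unit_cases hk with ⟨e1, e2⟩ | ⟨e1, e2⟩ | ⟨e1, e2⟩ | ⟨e1, e2⟩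
  · have e : k' = k + (1, 0) := Prod.ext (by simpa using e1) (by simpa using e2)
    refine (h.HH h1 (e ▸ h2)).trans (PrP_mono hq fun ω _ hω => Or.inl ⟨e, hω⟩)
  · have e : k' = k + (0, 1) := Prod.ext (by simpa using e1) (by simpa using e2)
    refine (h.VV h1 (e ▸ h2)).trans
      (PrP_mono hq fun ω _ hω => Or.inr (Or.inr (Or.inl ⟨e, hω⟩)))
  · have e : k = k' + (1, 0) := Prod.ext (by simp; omega) (by simp; omega)
    refine (h.HH h2 (e ▸ h1)).trans (PrP_mono hq fun ω _ hω => Or.inr (Or.inl ⟨e, hω⟩))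
  · have e : k = k' + (0, 1) := Prod.ext (by simp; omega) (by simp; omega)
    refine (h.VV h2 (e ▸ h1)).trans
      (PrP_mono hq fun ω _ hω => Or.inr (Or.inr (Or.inr ⟨e, hω⟩)))

/-- Lower bound for the probability of a chain. -/
theorem RS.Chn {q : ℤ × ℤ → ℝ} (hq : Pb q) {c : ℝ} (hc : 0 ≤ c) (hc1 : c ≤ 1) {w : ℤ}
    (hw : 0 ≤ w) (h : RS q c w) {o : ℤ × ℤ} {l : List (ℤ × ℤ)}
    (hl : List.IsChain (fun k k' => IsUnit4 (k' - k)) l) {E : Finset (ℤ × ℤ)}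
    (hE : cells o w l ⊆ E) : c ^ (3 * l.length) ≤ PrP q E (NC.Chn o w l) := by
  induction l with
  | nil =>
    have : PrP q E (NC.Chn o w []) = 1 := by
      rw [← PrP_true q E]
      exact PrP_congr fun ω _ => by simp [NC.Chn]
    rw [this]; simp
  | cons k l ih =>
    have h1 : cell o w k ⊆ E := (cell_sub_cells (by simp)).trans hE
    have h2 : cells o w l ⊆ E := by
      refine Subset.trans ?_ hE
      conv_rhs => unfold cells
      exact subset_union_right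
    have i1 := ih hl.tail h2
    have i2 := PrP_mul_le hq (CH_inc o w k) (CV_inc o w k) hc hc (h.CH hq hw h1) (h.CV hq hw h1)
    have hI : Inc (fun ω => NC.CH o w k ω ∧ NC.CV o w k ω) := fun ω ω' hs hh =>
      ⟨CH_inc _ _ _ _ _ hs hh.1, CV_inc _ _ _ _ _ hs hh.2⟩
    have i3 := PrP_mul_le hq hI (Chn_inc o w l) (mul_nonneg hc hc) (pow_nonneg hc _) i2 i1
    have hI2 : Inc (fun ω => (NC.CH o w k ω ∧ NC.CV o w k ω) ∧ NC.Chn o w l ω) :=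
      fun ω ω' hs hh => ⟨hI _ _ hs hh.1, Chn_inc _ _ _ _ _ hs hh.2⟩
    rcases l with _ | ⟨k', l⟩
    · refine le_trans ?_ (i3.trans (PrP_mono hq fun ω _ hω => ?_))
      · simp only [List.length_cons, List.length_nil, mul_zero, pow_zero, mul_one, zero_add]
        have : c ^ 3 = c * c * c := by ring
        rw [this]
        exact mul_le_of_le_one_right (mul_nonneg hc hc) hc1
      · refine ⟨fun c' hc' => ?_, by simp⟩
        rw [List.mem_singleton] at hc'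
        subst hc'
        exact hω.1
    · have hkk : IsUnit4 (k' - k) := by
        rw [List.isChain_cons_cons] at hl
        exact hl.1
      have h3 : cell o w k' ⊆ E := (cell_sub_cells (by simp)).trans h2
      have i4 := PrP_mul_le hq (PP_inc o w k k') hI2 hc
        (mul_nonneg (mul_nonneg hc hc) (pow_nonneg hc _)) (h.PP hq hkk h1 h3) i3
      refine le_trans (le_of_eq ?_) (i4.trans (PrP_mono hq fun ω _ hω => ?_))
      · simp only [List.length_cons]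
        ring
      · obtain ⟨g1, g2, g3⟩ := hω
        refine ⟨fun c' hc' => ?_, ?_⟩
        · rcases List.mem_cons.1 hc' with rfl | hc'
          · exact g2
          · exact g3.1 c' hc'
        · rw [List.isChain_cons_cons]
          exact ⟨g1, g3.2⟩

end Pool.Agent.H81.NC
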