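import Mathlib
import Pool.Agent.H81.NC.Cell

set_option autoImplicit false
open Finset

/-! Networks of cells: a finite set `S` of cells of a grid; the event `Net` asks for all crossings of the
cells of `S` and of all the unions of two neighbouring cells of `S`. -/

namespace Pool.Agent.H81.NC

open Pool.Agent.H75.Perc Pool.Agent.H99.NC

/-- labels of the cells of a finite set -/
noncomputable def cs (o : ℤ × ℤ) (w : ℤ) (S : Finset (ℤ × ℤ)) : Finset (ℤ × ℤ) :=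
  S.biUnion (cell o w)

lemma mem_cs {o : ℤ × ℤ} {w : ℤ} {S : Finset (ℤ × ℤ)} {e : ℤ × ℤ} :
    e ∈ cs o w S ↔ ∃ c ∈ S, e ∈ cell o w c := by
  unfold cs; rw [mem_biUnion]

lemma cell_sub_cs {o : ℤ × ℤ} {w : ℤ} {S : Finset (ℤ × ℤ)} {c : ℤ × ℤ} (h : c ∈ S) :
    cell o w c ⊆ cs o w S := fun _ he => mem_cs.2 ⟨c, h, he⟩

lemma cs_mono {o : ℤ × ℤ} {w : ℤ} {S T : Finset (ℤ × ℤ)} (h : S ⊆ T) : cs o w S ⊆ cs o w T :=
  fun _ he => by
    obtain ⟨c, h1, h2⟩ := mem_cs.1 he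
    exact mem_cs.2 ⟨c, h h1, h2⟩

/-- All crossings of the cells of `S` and of the pairs of neighbouring cells of `S`. -/
def Net (o : ℤ × ℤ) (w : ℤ) (S : Finset (ℤ × ℤ)) (ω : Finset (ℤ × ℤ)) : Prop :=
  ∀ c ∈ S, (CH o w c ω ∧ CV o w c ω) ∧ (c + (1, 0) ∈ S → HH o w c ω) ∧
    (c + (0, 1) ∈ S → VV o w c ω)

/-- two cells are linked inside `S` -/
def Lk (S : Finset (ℤ × ℤ)) (c c' : ℤ × ℤ) : Prop :=
  Relation.ReflTransGen (fun a b => a ∈ S ∧ b ∈ S ∧ IsUnit4 (b - a)) c c'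

lemma Lk.refl (S : Finset (ℤ × ℤ)) (c : ℤ × ℤ) : Lk S c c := Relation.ReflTransGen.refl

lemma Lk.trans {S : Finset (ℤ × ℤ)} {a b c : ℤ × ℤ} (h1 : Lk S a b) (h2 : Lk S b c) : Lk S a c :=
  Relation.ReflTransGen.trans h1 h2

lemma Lk.symm {S : Finset (ℤ × ℤ)} {a b : ℤ × ℤ} (h : Lk S a b) : Lk S b a := by
  induction h with
  | refl => exact Lk.refl _ _
  | tail _ hbc ih =>
    refine Relation.ReflTransGen.head ⟨hbc.2.1, hbc.1, ?_⟩ ih
    have := isUnit4_neg hbc.2.2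
    rwa [neg_sub] at this

lemma Lk.mono {S T : Finset (ℤ × ℤ)} (h : S ⊆ T) {a b : ℤ × ℤ} (hl : Lk S a b) : Lk T a b := by
  induction hl with
  | refl => exact Lk.refl _ _
  | tail _ hbc ih => exact Relation.ReflTransGen.tail ih ⟨h hbc.1, h hbc.2.1, hbc.2.2⟩

lemma Lk.mem {S : Finset (ℤ × ℤ)} {a b : ℤ × ℤ} (ha : a ∈ S) (h : Lk S a b) : b ∈ S := by
  induction h with
  | refl => exact ha
  | tail _ hbc _ => exact hbc.2.1

lemma Net.full {o : ℤ × ℤ} {w : ℤ} {S : Finset (ℤ × ℤ)} {ω : Finset (ℤ × ℤ)} (h : Net o w S ω)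
    {c : ℤ × ℤ} (hc : c ∈ S) : ∃ v, CF o w c ω v := exists_full (h c hc).1.1 (h c hc).1.2

lemma Net.pp {o : ℤ × ℤ} {w : ℤ} {S : Finset (ℤ × ℤ)} {ω : Finset (ℤ × ℤ)} (h : Net o w S ω)
    {a b : ℤ × ℤ} (ha : a ∈ S) (hb : b ∈ S) (hab : IsUnit4 (b - a)) : PP o w a b ω := by
  rcases unit_cases hab with ⟨e1, e2⟩ | ⟨e1, e2⟩ | ⟨e1, e2⟩ | ⟨e1, e2⟩
  · have e : b = a + (1, 0) := Prod.ext (by simpa using e1) (by simpa using e2)
    exact Or.inl ⟨e, (h a ha).2.1 (e ▸ hb)⟩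
  · have e : b = a + (0, 1) := Prod.ext (by simpa using e1) (by simpa using e2)
    exact Or.inr (Or.inr (Or.inl ⟨e, (h a ha).2.2 (e ▸ hb)⟩))
  · have e : a = b + (1, 0) := Prod.ext (by simp; omega) (by simp; omega)
    exact Or.inr (Or.inl ⟨e, (h b hb).2.1 (e ▸ ha)⟩)
  · have e : a = b + (0, 1) := Prod.ext (by simp; omega) (by simp; omega)
    exact Or.inr (Or.inr (Or.inr ⟨e, (h b hb).2.2 (e ▸ ha)⟩))

/-- Full vertices of linked cells are connected. -/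
theorem Net.co {o : ℤ × ℤ} {w : ℤ} (hw : 0 ≤ w) {S : Finset (ℤ × ℤ)} {ω : Finset (ℤ × ℤ)}
    (h : Net o w S ω) {c c' v v' : ℤ × ℤ} (hc : c ∈ S) (hl : Lk S c c') (hv : CF o w c ω v)
    (hv' : CF o w c' ω v') : Co (ω ∩ cs o w S) v v' := by
  induction hl generalizing v' with
  | refl => exact (hv.all hv').mono (inter_subset_inter_left (cell_sub_cs hc))
  | @tail b d hab hbd ih =>
    obtain ⟨u, hu⟩ := h.full hbd.1
    have h1 := ih hu
    have h2 := PP_join hw hu hv' (h.pp hbd.1 hbd.2.1 hbd.2.2)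
    exact h1.trans (h2.mono (inter_subset_inter_left
      (union_subset (cell_sub_cs hbd.1) (cell_sub_cs hbd.2.1))))

lemma Net_inc (o : ℤ × ℤ) (w : ℤ) (S : Finset (ℤ × ℤ)) : Inc (Net o w S) := by
  intro ω ω' h hN c hc
  obtain ⟨⟨h1, h2⟩, h3, h4⟩ := hN c hc
  exact ⟨⟨CH_inc _ _ _ _ _ h h1, CV_inc _ _ _ _ _ h h2⟩, fun h5 => HH_inc _ _ _ _ _ h (h3 h5),
    fun h5 => VV_inc _ _ _ _ _ h (h4 h5)⟩

lemma Net_sub {o : ℤ × ℤ} {w : ℤ} {S T : Finset (ℤ × ℤ)} (h : S ⊆ T) {ω : Finset (ℤ × ℤ)}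
    (hN : Net o w T ω) : Net o w S ω := fun c hc =>
  ⟨(hN c (h hc)).1, fun h5 => (hN c (h hc)).2.1 (h h5), fun h5 => (hN c (h hc)).2.2 (h h5)⟩

/-- crossings only depend on the configuration in the rectangle -/
lemma HC_inter {E ω : Finset (ℤ × ℤ)} {a b c d : ℤ} (h : Bx a b c d ⊆ E) :
    HC a b c d (ω ∩ E) ↔ HC a b c d ω := by
  unfold HC
  rw [inter_assoc, inter_eq_right.2 h]

lemma VC_inter {E ω : Finset (ℤ × ℤ)} {a b c d : ℤ} (h : Bx a b c d ⊆ E) :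
    VC a b c d (ω ∩ E) ↔ VC a b c d ω := by
  unfold VC
  rw [inter_assoc, inter_eq_right.2 h]

lemma Net_inter {o : ℤ × ℤ} {w : ℤ} {S E ω : Finset (ℤ × ℤ)} (h : cs o w S ⊆ E) :
    Net o w S (ω ∩ E) ↔ Net o w S ω := by
  unfold Net
  refine forall₂_congr fun c hc => ?_
  have h1 : cell o w c ⊆ E := (cell_sub_cs hc).trans h
  refine and_congr (and_congr (HC_inter h1) (VC_inter h1)) (and_congr ?_ ?_)
  · refine imp_congr_right fun h5 => ?_
    have h2 : cell o w (c + (1, 0)) ⊆ E := (cell_sub_cs h5).trans h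
    exact HC_inter ((big_sub_h _ _ _).trans (union_subset h1 (by rw [cell_right] at h2; exact h2)))
  · refine imp_congr_right fun h5 => ?_
    have h2 : cell o w (c + (0, 1)) ⊆ E := (cell_sub_cs h5).trans h
    exact VC_inter ((big_sub_v _ _ _).trans (union_subset h1 (by rw [cell_top] at h2; exact h2)))

lemma PrP_harris_set {α ι : Type*} [DecidableEq α] [DecidableEq ι] {q : α → ℝ} (hq : Pb q)
    (E : Finset α) {c : ℝ} (hc : 0 ≤ c) (s : Finset ι) (A : ι → Finset α → Prop)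
    (hI : ∀ i ∈ s, Inc (A i)) (h : ∀ i ∈ s, c ≤ PrP q E (A i)) :
    c ^ s.card ≤ PrP q E (fun ω => ∀ i ∈ s, A i ω) := by
  induction s using Finset.induction_on with
  | empty => simp
  | insert i s hi ih =>
    have h1 := ih (fun j hj => hI j (mem_insert_of_mem hj)) (fun j hj => h j (mem_insert_of_mem hj))
    have h2 := h i (mem_insert_self _ _)
    have hL : Inc (fun ω => ∀ j ∈ s, A j ω) := fun ω ω' hs hB j hj =>
      hI j (mem_insert_of_mem hj) ω ω' hs (hB j hj)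
    have h3 := PrP_harris hq E (hI i (mem_insert_self _ _)) hL
    have h4 : PrP q E (fun ω => A i ω ∧ ∀ j ∈ s, A j ω) =
        PrP q E (fun ω => ∀ j ∈ insert i s, A j ω) :=
      PrP_congr fun ω _ => by simp
    rw [← h4, card_insert_of_notMem hi, pow_succ, mul_comm]
    exact (mul_le_mul h2 h1 (pow_nonneg hc _) (PrP_nonneg hq _ _)).trans h3

/-- Lower bound for the probability of a network. -/
theorem RS.Net {q : ℤ × ℤ → ℝ} (hq : Pb q) {c : ℝ} (hc : 0 ≤ c) (hc1 : c ≤ 1) {w : ℤ}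
    (hw : 0 ≤ w) (h : RS q c w) {o : ℤ × ℤ} {S : Finset (ℤ × ℤ)} {E : Finset (ℤ × ℤ)}
    (hE : cs o w S ⊆ E) : c ^ (4 * S.card) ≤ PrP q E (NC.Net o w S) := by
  have key : ∀ k ∈ S, c ^ 4 ≤ PrP q E (fun ω => (NC.CH o w k ω ∧ NC.CV o w k ω) ∧
      (k + (1, 0) ∈ S → NC.HH o w k ω) ∧ (k + (0, 1) ∈ S → NC.VV o w k ω)) := by
    intro k hk
    have h1 : cell o w k ⊆ E := (cell_sub_cs hk).trans hE
    have i1 := PrP_mul_le hq (CH_inc o w k) (CV_inc o w k) hc hc (h.CH hq hw h1) (h.CV hq hw h1)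
    have hI : Inc (fun ω => NC.CH o w k ω ∧ NC.CV o w k ω) := fun ω ω' hs hh =>
      ⟨CH_inc _ _ _ _ _ hs hh.1, CV_inc _ _ _ _ _ hs hh.2⟩
    have hI2 : Inc (fun ω => k + (1, 0) ∈ S → NC.HH o w k ω) := fun ω ω' hs hh h5 =>
      HH_inc _ _ _ _ _ hs (hh h5)
    have hI3 : Inc (fun ω => k + (0, 1) ∈ S → NC.VV o w k ω) := fun ω ω' hs hh h5 =>
      VV_inc _ _ _ _ _ hs (hh h5)
    have i2 : c ≤ PrP q E (fun ω => k + (1, 0) ∈ S → NC.HH o w k ω) := by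
      by_cases h5 : k + (1, 0) ∈ S
      · exact (h.HH h1 ((cell_sub_cs h5).trans hE)).trans (PrP_mono hq fun ω _ hω _ => hω)
      · rw [← PrP_true q E] at hc1
        exact hc1.trans (PrP_mono hq fun ω _ _ h6 => absurd h6 h5)
    have i3 : c ≤ PrP q E (fun ω => k + (0, 1) ∈ S → NC.VV o w k ω) := by
      by_cases h5 : k + (0, 1) ∈ S
      · exact (h.VV h1 ((cell_sub_cs h5).trans hE)).trans (PrP_mono hq fun ω _ hω _ => hω)
      · rw [← PrP_true q E] at hc1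
        exact hc1.trans (PrP_mono hq fun ω _ _ h6 => absurd h6 h5)
    have i4 := PrP_mul_le hq hI2 hI3 hc hc i2 i3
    have hI4 : Inc (fun ω => (k + (1, 0) ∈ S → NC.HH o w k ω) ∧
        (k + (0, 1) ∈ S → NC.VV o w k ω)) := fun ω ω' hs hh =>
      ⟨hI2 _ _ hs hh.1, hI3 _ _ hs hh.2⟩
    have i5 := PrP_mul_le hq hI hI4 (mul_nonneg hc hc) (mul_nonneg hc hc) i1 i4
    refine le_trans (le_of_eq ?_) i5
    ring
  have h1 := PrP_harris_set hq E (pow_nonneg hc 4) S _ (fun k hk => ?_) key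
  · rw [pow_mul]
    exact h1
  · intro ω ω' hs hh
    exact ⟨⟨CH_inc _ _ _ _ _ hs hh.1.1, CV_inc _ _ _ _ _ hs hh.1.2⟩,
      fun h5 => HH_inc _ _ _ _ _ hs (hh.2.1 h5), fun h5 => VV_inc _ _ _ _ _ hs (hh.2.2 h5)⟩

/-! ### Pieces: images of intervals -/

/-- the image of an interval -/
noncomputable def pc (f : ℤ → ℤ × ℤ) (a b : ℤ) : Finset (ℤ × ℤ) := (Icc a b).image f

lemma mem_pc {f : ℤ → ℤ × ℤ} {a b : ℤ} {c : ℤ × ℤ} : c ∈ pc f a b ↔ ∃ t, a ≤ t ∧ t ≤ b ∧ f t = c := by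
  unfold pc
  simp only [mem_image, mem_Icc]
  constructor
  · rintro ⟨t, ⟨h1, h2⟩, h3⟩; exact ⟨t, h1, h2, h3⟩
  · rintro ⟨t, h1, h2, h3⟩; exact ⟨t, ⟨h1, h2⟩, h3⟩

lemma pc_card {f : ℤ → ℤ × ℤ} {a b : ℤ} : (pc f a b).card ≤ (b + 1 - a).toNat := by
  unfold pc
  exact card_image_le.trans (by rw [Int.card_Icc])

/-- a piece with unit steps is linked -/
lemma pc_lk {f : ℤ → ℤ × ℤ} {a b : ℤ} (hf : ∀ t, a ≤ t → t < b → IsUnit4 (f (t + 1) - f t))
    {s t : ℤ} (h1 : a ≤ s) (h2 : s ≤ b) (h3 : a ≤ t) (h4 : t ≤ b) :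
    Lk (pc f a b) (f s) (f t) := by
  have key : ∀ n : ℕ, ∀ s : ℤ, a ≤ s → s + n ≤ b → Lk (pc f a b) (f s) (f (s + n)) := by
    intro n
    induction n with
    | zero => intro s _ _; simpa using Lk.refl _ _
    | succ n ih =>
      intro s hs hn
      push_cast at hn
      refine (ih s hs (by omega)).trans (Relation.ReflTransGen.single ⟨?_, ?_, ?_⟩)
      · exact mem_pc.2 ⟨_, by omega, by omega, rfl⟩
      · exact mem_pc.2 ⟨_, by push_cast; omega, by push_cast; omega, rfl⟩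
      · have := hf (s + n) (by omega) (by omega)
        push_cast
        rwa [← add_assoc]
  rcases le_total s t with h | h
  · have := key (t - s).toNat s h1 (by omega)
    rwa [show s + ((t - s).toNat : ℤ) = t by omega] at this
  · have := key (s - t).toNat t h3 (by omega)
    rw [show t + ((s - t).toNat : ℤ) = s by omega] at this
    exact this.symm

end Pool.Agent.H81.NC
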