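import Mathlib
import Pool.Agent.H81.NC.Net

set_option autoImplicit false
open Finset

/-! Radial and ring segments of cells around the origin, and the networks of four arms. -/

namespace Pool.Agent.H81.NC

open Pool.Agent.H75.Perc Pool.Agent.H99.NC

/-- rotation by `σ` right angles -/
def ro (σ : ℤ) (c : ℤ × ℤ) : ℤ × ℤ :=
  if σ % 4 = 0 then c else if σ % 4 = 1 then (-c.2, c.1) else if σ % 4 = 2 then (-c.1, -c.2)
  else (c.2, -c.1)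

/-- the radial line of side `σ` and height `y` -/
def rad (σ y ρ : ℤ) : ℤ × ℤ := ro σ (ρ, y)

/-- the ring of radius `R`, with a parameter `-4R ≤ t ≤ 4R` (`t = 0` to the East, counterclockwise) -/
def rg (R t : ℤ) : ℤ × ℤ :=
  if t ≤ -(3 * R) then (-R, -(4 * R) - t) else if t ≤ -R then (t + 2 * R, -R)
  else if t ≤ R then (R, t) else if t ≤ 3 * R then (2 * R - t, R) else (-R, 4 * R - t)

/-- sup-distance at least `d` -/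
def Far (d : ℤ) (c c' : ℤ × ℤ) : Prop :=
  c.1 + d ≤ c'.1 ∨ c'.1 + d ≤ c.1 ∨ c.2 + d ≤ c'.2 ∨ c'.2 + d ≤ c.2

lemma Far.symm {d : ℤ} {c c' : ℤ × ℤ} (h : Far d c c') : Far d c' c := by
  unfold Far at *; omega

/-- norm at least `a` and at most `b` -/
def InA (a b : ℤ) (c : ℤ × ℤ) : Prop :=
  (a ≤ c.1 ∨ a ≤ -c.1 ∨ a ≤ c.2 ∨ a ≤ -c.2) ∧ (c.1 ≤ b ∧ -c.1 ≤ b ∧ c.2 ≤ b ∧ -c.2 ≤ b)

lemma InA.far {a b a' b' d : ℤ} {c c' : ℤ × ℤ} (h : InA a b c) (h' : InA a' b' c')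
    (hd : b + d ≤ a') : Far d c c' := by
  unfold Far InA at *; omega

lemma sig_cases {σ : ℤ} (h : -2 ≤ σ ∧ σ ≤ 2) : σ = -2 ∨ σ = -1 ∨ σ = 0 ∨ σ = 1 ∨ σ = 2 := by omega

lemma rad_m2 (y ρ : ℤ) : rad (-2) y ρ = (-ρ, -y) := rfl
lemma rad_m1 (y ρ : ℤ) : rad (-1) y ρ = (y, -ρ) := rfl
lemma rad_0 (y ρ : ℤ) : rad 0 y ρ = (ρ, y) := rfl
lemma rad_1 (y ρ : ℤ) : rad 1 y ρ = (-y, ρ) := rfl
lemma rad_2 (y ρ : ℤ) : rad 2 y ρ = (-ρ, -y) := rfl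

lemma rad_inA {σ y ρ : ℤ} (hσ : -2 ≤ σ ∧ σ ≤ 2) (h1 : y ≤ ρ) (h2 : -y ≤ ρ) :
    InA ρ ρ (rad σ y ρ) := by
  rcases sig_cases hσ with rfl | rfl | rfl | rfl | rfl <;>
  simp only [rad_m2, rad_m1, rad_0, rad_1, rad_2, InA] <;> omega

lemma rg_inA {R t : ℤ} (h1 : -(4 * R) ≤ t) (h2 : t ≤ 4 * R) : InA R R (rg R t) := by
  unfold rg InA
  split_ifs <;> simp only <;> omega

lemma rg_step {R t : ℤ} (h2 : t < 4 * R) :
    IsUnit4 (rg R (t + 1) - rg R t) := by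
  unfold rg
  split_ifs <;> simp only [IsUnit4, Prod.ext_iff, Prod.mk_sub_mk] <;> omega

lemma rad_step (σ y ρ : ℤ) : IsUnit4 (rad σ y (ρ + 1) - rad σ y ρ) := by
  unfold rad ro
  split_ifs <;> simp only [IsUnit4, Prod.ext_iff, Prod.mk_sub_mk] <;> omega

lemma rad_stepy (σ y ρ : ℤ) : IsUnit4 (rad σ (y + 1) ρ - rad σ y ρ) := by
  unfold rad ro
  split_ifs <;> simp only [IsUnit4, Prod.ext_iff, Prod.mk_sub_mk] <;> omega

/-- position on the ring of radius `R` of the radial line of side `σ` and height `y` -/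
def TT (R σ y : ℤ) : ℤ := 2 * R * σ + y

lemma TT_m2 (R y : ℤ) : TT R (-2) y = -(4 * R) + y := by unfold TT; ring
lemma TT_m1 (R y : ℤ) : TT R (-1) y = -(2 * R) + y := by unfold TT; ring
lemma TT_0 (R y : ℤ) : TT R 0 y = y := by unfold TT; ring
lemma TT_1 (R y : ℤ) : TT R 1 y = 2 * R + y := by unfold TT; ring
lemma TT_2 (R y : ℤ) : TT R 2 y = 4 * R + y := by unfold TT; ring

/-- valid keys -/
def Key (Y σ y : ℤ) : Prop :=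
  (-2 ≤ σ ∧ σ ≤ 2) ∧ (-Y ≤ y ∧ y ≤ Y) ∧ (σ = 2 → y ≤ 0) ∧ (σ = -2 → 0 < y)

lemma Key.TT {Y σ y R : ℤ} (h : Key Y σ y) (hR : Y ≤ R) :
    -(4 * R) ≤ TT R σ y ∧ TT R σ y ≤ 4 * R := by
  obtain ⟨h1, h2, h3, h4⟩ := h
  rcases sig_cases h1 with rfl | rfl | rfl | rfl | rfl <;>
  simp only [TT_m2, TT_m1, TT_0, TT_1, TT_2] <;> omega

lemma rad_eq_rg {Y σ y R : ℤ} (h : Key Y σ y) (hR : Y < R) : rg R (TT R σ y) = rad σ y R := by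
  obtain ⟨h1, h2, h3, h4⟩ := h
  rcases sig_cases h1 with rfl | rfl | rfl | rfl | rfl <;>
  simp only [TT_m2, TT_m1, TT_0, TT_1, TT_2, rad_m2, rad_m1, rad_0, rad_1, rad_2] <;> unfold rg <;>
  split_ifs <;> first | (exfalso; omega) | (refine Prod.ext ?_ ?_ <;> simp only <;> omega)

/-- radial line against ring -/
lemma rad_rg_far {Y σ y ρ R t : ℤ} (hk : Key Y σ y) (hρ : Y + 4 ≤ ρ) (hR : Y + 4 ≤ R)
    (h3 : t + 4 ≤ TT R σ y ∨ TT R σ y + 4 ≤ t)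
    (h4 : t + 4 ≤ TT R σ y + 8 * R) (h5 : TT R σ y + 4 ≤ t + 8 * R) :
    Far 4 (rad σ y ρ) (rg R t) := by
  obtain ⟨k1, k2, k3, k4⟩ := hk
  rcases sig_cases k1 with rfl | rfl | rfl | rfl | rfl <;>
  simp only [TT_m2, TT_m1, TT_0, TT_1, TT_2, rad_m2, rad_m1, rad_0, rad_1, rad_2] at * <;>
  unfold rg Far <;> split_ifs <;> simp only <;> omega

/-- radial line against radial line -/
lemma rad_rad_far {Y Y' σ y ρ σ' y' ρ' : ℤ} (hσ : -2 ≤ σ ∧ σ ≤ 2) (hσ' : -2 ≤ σ' ∧ σ' ≤ 2)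
    (hy : -Y ≤ y ∧ y ≤ Y) (hy' : -Y' ≤ y' ∧ y' ≤ Y') (hYY : Y' ≤ Y ∨ Y ≤ Y') (hρ : Y + 4 ≤ ρ)
    (hρ' : Y' + 4 ≤ ρ') (h : (σ' - σ) % 4 = 0 → y + 4 ≤ y' ∨ y' + 4 ≤ y) :
    Far 4 (rad σ y ρ) (rad σ' y' ρ') := by
  rcases sig_cases hσ with rfl | rfl | rfl | rfl | rfl <;>
  rcases sig_cases hσ' with rfl | rfl | rfl | rfl | rfl <;>
  simp only [rad_m2, rad_m1, rad_0, rad_1, rad_2] <;>
  unfold Far <;> simp only <;> omega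

end Pool.Agent.H81.NC
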