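import Mathlib
import Pool.Agent.H81.NC.Geo

set_option autoImplicit false
open Finset

/-! Half networks: four arms joining keys to ports on the East side. -/

namespace Pool.Agent.H81.NC

open Pool.Agent.H75.Perc Pool.Agent.H99.NC

/-- the arm moves counterclockwise from its key to its port -/
def Ccw (σ y p : ℤ) : Prop := σ < 0 ∨ (σ = 0 ∧ y ≤ p)

/-- the cells of an arm: radial line, ring, radial line of the port -/
def HP (ε Y Z σ y p R : ℤ) (c : ℤ × ℤ) : Prop :=
  (∃ ρ, Y + 4 ≤ ρ ∧ ε * ρ ≤ ε * R ∧ rad σ y ρ = c) ∨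
  (∃ t, min (TT R σ y) p ≤ t ∧ t ≤ max (TT R σ y) p ∧ rg R t = c) ∨
  (∃ ρ, Z + 4 ≤ ρ ∧ ε * R ≤ ε * ρ ∧ rad 0 p ρ = c)

lemma TT_lt {Y σ y σ' y' R : ℤ} (k : Key Y σ y) (k' : Key Y σ' y')
    (lex : σ < σ' ∨ (σ = σ' ∧ y + 4 ≤ y')) (wr : σ = -2 → σ' = 2 → y' + 4 ≤ y) (hR : Y + 4 ≤ R) :
    TT R σ y + 4 ≤ TT R σ' y' ∧ TT R σ' y' + 4 ≤ TT R σ y + 8 * R := by
  obtain ⟨k1, k2, k3, k4⟩ := k
  obtain ⟨l1, l2, l3, l4⟩ := k'
  rcases sig_cases k1 with rfl | rfl | rfl | rfl | rfl <;>
  rcases sig_cases l1 with rfl | rfl | rfl | rfl | rfl <;>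
  simp only [TT_m2, TT_m1, TT_0, TT_1, TT_2] <;> omega

lemma Ccw.le {Y σ y p R : ℤ} (k : Key Y σ y) (hp : -Y ≤ p ∧ p ≤ Y) (hR : Y + 4 ≤ R)
    (h : Ccw σ y p) : TT R σ y ≤ p := by
  obtain ⟨k1, k2, k3, k4⟩ := k
  unfold Ccw at h
  rcases sig_cases k1 with rfl | rfl | rfl | rfl | rfl <;>
  simp only [TT_m2, TT_m1, TT_0, TT_1, TT_2] at * <;> omega

lemma not_Ccw_lt {Y σ y p R : ℤ} (k : Key Y σ y) (hp : -Y ≤ p ∧ p ≤ Y) (hR : Y + 4 ≤ R)
    (h : ¬ Ccw σ y p) : p < TT R σ y := by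
  obtain ⟨k1, k2, k3, k4⟩ := k
  unfold Ccw at h
  rcases sig_cases k1 with rfl | rfl | rfl | rfl | rfl <;>
  simp only [TT_m2, TT_m1, TT_0, TT_1, TT_2] <;> omega

lemma key_port {Y p : ℤ} (hp : -Y ≤ p ∧ p ≤ Y) : Key Y 0 p :=
  ⟨by omega, hp, by omega, by omega⟩

/-- The cells of two arms are at distance at least `4`. -/
theorem half_far {ε Y Z σ y p R σ' y' p' R' : ℤ} (hε : ε = 1 ∨ ε = -1) (hZ : Z ≤ Y)
    (k : Key Y σ y) (k' : Key Y σ' y') (hpZ : -Z ≤ p ∧ p ≤ Z) (hpZ' : -Z ≤ p' ∧ p' ≤ Z)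
    (hpp : p + 4 ≤ p')
    (lex : σ < σ' ∨ (σ = σ' ∧ y + 4 ≤ y')) (wr : σ = -2 → σ' = 2 → y' + 4 ≤ y)
    (hR : Y + 4 ≤ R) (hR' : Y + 4 ≤ R')
    (hcc : Ccw σ y p → Ccw σ' y' p' → ε * R' + 4 ≤ ε * R)
    (hww : ¬ Ccw σ y p → ¬ Ccw σ' y' p' → ε * R + 4 ≤ ε * R')
    (hm : ε * R + 4 ≤ ε * R' ∨ ε * R' + 4 ≤ ε * R) {c c' : ℤ × ℤ} (hc : HP ε Y Z σ y p R c)
    (hc' : HP ε Y Z σ' y' p' R' c') : Far 4 c c' := by
  have hp : -Y ≤ p ∧ p ≤ Y := by omega
  have hp' : -Y ≤ p' ∧ p' ≤ Y := by omega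
  have kp := key_port hpZ
  have kp' := key_port hpZ'
  have a1 := k.TT (R := R) (by omega)
  have a2 := k.TT (R := R') (by omega)
  have a3 := k'.TT (R := R) (by omega)
  have a4 := k'.TT (R := R') (by omega)
  have b1 := TT_lt k k' lex wr hR
  have b2 := TT_lt k k' lex wr hR'
  have e0 : ∀ R : ℤ, TT R 0 p = p := fun R => TT_0 R p
  have e0' : ∀ R : ℤ, TT R 0 p' = p' := fun R => TT_0 R p'
  -- in the first case the radius order is such that `c` is nearer to its key
  have c1 : ε * R' + 4 ≤ ε * R → (TT R σ y + 4 ≤ p' ∧ TT R' σ y + 4 ≤ p') := by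
    intro h
    by_cases h1 : Ccw σ y p
    · have := h1.le k hp hR
      have := h1.le k hp hR'
      omega
    · by_cases h2 : Ccw σ' y' p'
      · have := h2.le k' hp' hR
        have := h2.le k' hp' hR'
        omega
      · have := hww h1 h2
        omega
  have c2 : ε * R + 4 ≤ ε * R' → (p + 4 ≤ TT R σ' y' ∧ p + 4 ≤ TT R' σ' y') := by
    intro h
    by_cases h2 : Ccw σ' y' p'
    · by_cases h1 : Ccw σ y p
      · have := hcc h1 h2
        omega
      · have := not_Ccw_lt k hp hR h1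
        have := not_Ccw_lt k hp hR' h1
        omega
    · have := not_Ccw_lt k' hp' hR h2
      have := not_Ccw_lt k' hp' hR' h2
      omega
  have s0 : σ = 0 → ∀ R, TT R σ y = y := by rintro rfl; exact fun R => TT_0 R y
  have s0' : σ' = 0 → ∀ R, TT R σ' y' = y' := by rintro rfl; exact fun R => TT_0 R y'
  rcases hc with ⟨ρ, r1, r2, rfl⟩ | ⟨t, t1, t2, rfl⟩ | ⟨ρ, r1, r2, rfl⟩ <;>
  rcases hc' with ⟨ρ', r1', r2', rfl⟩ | ⟨t', t1', t2', rfl⟩ | ⟨ρ', r1', r2', rfl⟩
  · -- rad rad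
    refine rad_rad_far k.1 k'.1 k.2.1 k'.2.1 (by omega) r1 r1' fun h => ?_
    have k1 := k.1
    have l1 := k'.1
    clear * - k1 l1 lex wr h
    rcases lex with h5 | h5
    · exact Or.inr (wr (by omega) (by omega))
    · exact Or.inl h5.2
  · -- rad ring
    by_cases h : ε * R + 4 ≤ ε * R'
    · have n1 := rad_inA k.1 (y := y) (ρ := ρ) (by have := k.2.1; omega) (by have := k.2.1; omega)
      have n2 := rg_inA (R := R') (t := t') (by omega) (by omega)
      rcases hε with rfl | rfl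
      · exact n1.far n2 (by omega)
      · exact (n2.far n1 (by omega)).symm
    · have h' : ε * R' + 4 ≤ ε * R := hm.resolve_left h
      have h3 := (c1 h').2
      exact rad_rg_far k r1 hR' (by omega) (by omega) (by omega)
  · -- rad port
    by_cases h : ε * R + 4 ≤ ε * R'
    · have n1 := rad_inA k.1 (y := y) (ρ := ρ) (by have := k.2.1; omega) (by have := k.2.1; omega)
      have n2 := rad_inA kp'.1 (y := p') (ρ := ρ') (by omega) (by omega)
      rcases hε with rfl | rfl
      · exact n1.far n2 (by omega)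
      · exact (n2.far n1 (by omega)).symm
    · have h' : ε * R' + 4 ≤ ε * R := hm.resolve_left h
      have h3 := (c1 h').2
      refine rad_rad_far k.1 kp'.1 k.2.1 kp'.2.1 (by omega) r1 r1' fun h4 => ?_
      have h5 : σ = 0 := by have := k.1; omega
      have := s0 h5 R'
      omega
  · -- ring rad
    by_cases h : ε * R' + 4 ≤ ε * R
    · have n1 := rad_inA k'.1 (y := y') (ρ := ρ') (by have := k'.2.1; omega)
        (by have := k'.2.1; omega)
      have n2 := rg_inA (R := R) (t := t) (by omega) (by omega)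
      rcases hε with rfl | rfl
      · exact (n1.far n2 (by omega)).symm
      · exact n2.far n1 (by omega)
    · have h' : ε * R + 4 ≤ ε * R' := hm.resolve_right h
      have h3 := (c2 h').1
      exact (rad_rg_far k' r1' hR (by omega) (by omega) (by omega)).symm
  · -- ring ring
    have n1 := rg_inA (R := R) (t := t) (by omega) (by omega)
    have n2 := rg_inA (R := R') (t := t') (by omega) (by omega)
    have : R + 4 ≤ R' ∨ R' + 4 ≤ R := by rcases hε with rfl | rfl <;> omega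
    rcases this with h | h
    · exact n1.far n2 h
    · exact (n2.far n1 h).symm
  · -- ring port
    by_cases h : ε * R + 4 ≤ ε * R'
    · have n1 := rad_inA kp'.1 (y := p') (ρ := ρ') (by omega) (by omega)
      have n2 := rg_inA (R := R) (t := t) (by omega) (by omega)
      rcases hε with rfl | rfl
      · exact n2.far n1 (by omega)
      · exact (n1.far n2 (by omega)).symm
    · have h' : ε * R' + 4 ≤ ε * R := hm.resolve_left h
      have h3 := (c1 h').1
      have := e0' R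
      exact (rad_rg_far kp' r1' (by omega) (by omega) (by omega) (by omega)).symm
  · -- port rad
    by_cases h : ε * R' + 4 ≤ ε * R
    · have n1 := rad_inA k'.1 (y := y') (ρ := ρ') (by have := k'.2.1; omega)
        (by have := k'.2.1; omega)
      have n2 := rad_inA kp.1 (y := p) (ρ := ρ) (by omega) (by omega)
      rcases hε with rfl | rfl
      · exact (n1.far n2 (by omega)).symm
      · exact n2.far n1 (by omega)
    · have h' : ε * R + 4 ≤ ε * R' := hm.resolve_right h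
      have h3 := (c2 h').1
      refine rad_rad_far kp.1 k'.1 kp.2.1 k'.2.1 (by omega) r1 r1' fun h4 => ?_
      have h5 : σ' = 0 := by have := k'.1; omega
      have := s0' h5 R
      omega
  · -- port ring
    by_cases h : ε * R' + 4 ≤ ε * R
    · have n1 := rad_inA kp.1 (y := p) (ρ := ρ) (by omega) (by omega)
      have n2 := rg_inA (R := R') (t := t') (by omega) (by omega)
      rcases hε with rfl | rfl
      · exact (n2.far n1 (by omega)).symm
      · exact n1.far n2 (by omega)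
    · have h' : ε * R + 4 ≤ ε * R' := hm.resolve_right h
      have h3 := (c2 h').2
      have := e0 R'
      exact rad_rg_far kp r1 (by omega) (by omega) (by omega) (by omega)
  · -- port port
    exact rad_rad_far kp.1 kp'.1 kp.2.1 kp'.2.1 (by omega) r1 r1' fun h => by omega

end Pool.Agent.H81.NC
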