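import Mathlib
import Pool.Agent.H81.NC.Half

set_option autoImplicit false
open Finset

/-! The four disjoint networks joining four separated keys of an inner box to four separated keys of an
outer box, in the same cyclic order, with a possible shift by one. -/

namespace Pool.Agent.H81.NC

open Pool.Agent.H75.Perc Pool.Agent.H99.NC

instance (σ y p : ℤ) : Decidable (Ccw σ y p) := by unfold Ccw; infer_instance

/-- four separated keys, in the order of the angle (from the West, counterclockwise) -/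
def Keys (Y d : ℤ) (σ y : Fin 4 → ℤ) : Prop :=
  (∀ i, Key Y (σ i) (y i)) ∧ ∀ i j, i < j → (σ i < σ j ∨ (σ i = σ j ∧ y i + d ≤ y j)) ∧
    (σ i = -2 → σ j = 2 → y j + d ≤ y i)

/-- inner ports -/
def pI (i : Fin 4) : ℤ := 10 * (i : ℕ) - 15
/-- outer ports -/
def pO (δ : ℤ) (j : Fin 4) : ℤ := 10 * (j : ℕ) - 15 - 10 * δ

/-- radii of the inner rings -/
def RI (R0 : ℤ) (σ y : Fin 4 → ℤ) (i : Fin 4) : ℤ :=
  if Ccw (σ i) (y i) (pI i) then R0 + 10 + 8 * (3 - (i : ℕ)) else R0 + 14 + 8 * (i : ℕ)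

/-- radii of the outer rings -/
def RO (K0 δ : ℤ) (τ z : Fin 4 → ℤ) (j : Fin 4) : ℤ :=
  if Ccw (τ j) (z j) (pO δ j) then K0 - 60 + 8 * (j : ℕ) else K0 - 56 + 8 * (3 - (j : ℕ))

/-- inner part of an arm -/
noncomputable def SI (R0 : ℤ) (σ y : Fin 4 → ℤ) (i : Fin 4) : Finset (ℤ × ℤ) :=
  pc (rad (σ i) (y i)) (R0 + 1) (RI R0 σ y i) ∪
  pc (rg (RI R0 σ y i)) (min (TT (RI R0 σ y i) (σ i) (y i)) (pI i))
    (max (TT (RI R0 σ y i) (σ i) (y i)) (pI i)) ∪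
  pc (rad 0 (pI i)) (RI R0 σ y i) (R0 + 44) ∪ {rad (σ i) (y i - 1) (R0 + 1)}

/-- outer part of an arm -/
noncomputable def SO (R0 K0 δ : ℤ) (τ z : Fin 4 → ℤ) (j : Fin 4) : Finset (ℤ × ℤ) :=
  pc (rad (τ j) (z j)) (RO K0 δ τ z j) K0 ∪
  pc (rg (RO K0 δ τ z j)) (min (TT (RO K0 δ τ z j) (τ j) (z j)) (pO δ j))
    (max (TT (RO K0 δ τ z j) (τ j) (z j)) (pO δ j)) ∪
  pc (rad 0 (pO δ j)) (R0 + 56) (RO K0 δ τ z j) ∪ {rad (τ j) (z j + 1) K0}

/-- middle part of an arm which does not wind -/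
noncomputable def SM (R0 : ℤ) (i : Fin 4) : Finset (ℤ × ℤ) :=
  pc (rad 0 (pI i)) (R0 + 44) (R0 + 56)

/-- middle part of the arm which winds once -/
noncomputable def SW (R0 : ℤ) : Finset (ℤ × ℤ) :=
  pc (rad 0 15) (R0 + 44) (R0 + 50) ∪ pc (rg (R0 + 50)) 15 (4 * (R0 + 50)) ∪
  pc (rg (R0 + 50)) (-(4 * (R0 + 50))) (-25) ∪ pc (rad 0 (-25)) (R0 + 50) (R0 + 56)

lemma pc_union_lk {S : Finset (ℤ × ℤ)} {f : ℤ → ℤ × ℤ} {a b : ℤ} (hS : pc f a b ⊆ S)
    (hf : ∀ t, a ≤ t → t < b → IsUnit4 (f (t + 1) - f t)) {s t : ℤ} (h1 : a ≤ s) (h2 : s ≤ b)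
    (h3 : a ≤ t) (h4 : t ≤ b) : Lk S (f s) (f t) := (pc_lk hf h1 h2 h3 h4).mono hS

lemma pc_mem {f : ℤ → ℤ × ℤ} {a b t : ℤ} (h1 : a ≤ t) (h2 : t ≤ b) : f t ∈ pc f a b :=
  mem_pc.2 ⟨t, h1, h2, rfl⟩

lemma fin4 (i : Fin 4) : (i : ℕ) = 0 ∨ (i : ℕ) = 1 ∨ (i : ℕ) = 2 ∨ (i : ℕ) = 3 := by omega

section

variable {R0 K0 δ : ℤ} {σ y τ z : Fin 4 → ℤ}

lemma RI_bd (i : Fin 4) : R0 + 10 ≤ RI R0 σ y i ∧ RI R0 σ y i ≤ R0 + 38 := by
  unfold RI; split_ifs <;> have := fin4 i <;> omega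

lemma RO_bd (j : Fin 4) : K0 - 60 ≤ RO K0 δ τ z j ∧ RO K0 δ τ z j ≤ K0 - 32 := by
  unfold RO; split_ifs <;> have := fin4 j <;> omega

lemma pI_bd (i : Fin 4) : -30 ≤ pI i ∧ pI i ≤ 30 := by
  unfold pI; have := fin4 i; omega

lemma pO_bd (hδ : δ = 0 ∨ δ = 1) (i : Fin 4) : -30 ≤ pO δ i ∧ pO δ i ≤ 30 := by
  unfold pO; have := fin4 i; omega

/-- where the inner part lives -/
lemma SI_cases (hR : 45 ≤ R0) (k : Keys (R0 - 10) 8 σ y) {i : Fin 4} {c : ℤ × ℤ}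
    (h : c ∈ SI R0 σ y i) :
    (HP 1 (R0 - 10) 30 (σ i) (y i) (pI i) (RI R0 σ y i) c ∧
      (InA (R0 + 1) (R0 + 38) c ∨ ∃ ρ, R0 + 10 ≤ ρ ∧ ρ ≤ R0 + 44 ∧ rad 0 (pI i) ρ = c)) ∨
    c = rad (σ i) (y i - 1) (R0 + 1) := by
  have b := RI_bd (R0 := R0) (σ := σ) (y := y) i
  have ki := k.1 i
  have kb := ki.2.1
  have pb := pI_bd i
  unfold SI at h
  rw [mem_union, mem_union, mem_union, mem_pc, mem_pc, mem_pc, mem_singleton] at h
  rcases h with ((⟨t, h1, h2, h3⟩ | ⟨t, h1, h2, h3⟩) | ⟨t, h1, h2, h3⟩) | h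
  · refine Or.inl ⟨Or.inl ⟨t, by omega, by omega, h3⟩, Or.inl ?_⟩
    have := rad_inA ki.1 (y := y i) (ρ := t) (by omega) (by omega)
    rw [h3] at this
    unfold InA at this ⊢; omega
  · have hT := ki.TT (R := RI R0 σ y i) (by omega)
    refine Or.inl ⟨Or.inr (Or.inl ⟨t, h1, h2, h3⟩), Or.inl ?_⟩
    have := rg_inA (R := RI R0 σ y i) (t := t) (by omega) (by omega)
    rw [h3] at this
    unfold InA at this ⊢; omega
  · refine Or.inl ⟨Or.inr (Or.inr ⟨t, by omega, by omega, h3⟩), Or.inr ⟨t, by omega, by omega, h3⟩⟩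
  · exact Or.inr h

lemma SO_cases (hR : 45 ≤ R0) (hK : R0 + 140 ≤ K0) (hδ : δ = 0 ∨ δ = 1)
    (k : Keys (K0 - 70) 8 τ z) {j : Fin 4} {c : ℤ × ℤ} (h : c ∈ SO R0 K0 δ τ z j) :
    (HP (-1) (K0 - 70) 30 (τ j) (z j) (pO δ j) (RO K0 δ τ z j) c ∧
      (InA (R0 + 60) K0 c ∨ ∃ ρ, R0 + 56 ≤ ρ ∧ ρ ≤ K0 - 32 ∧ rad 0 (pO δ j) ρ = c)) ∨
    c = rad (τ j) (z j + 1) K0 := by
  have b := RO_bd (K0 := K0) (δ := δ) (τ := τ) (z := z) j
  have ki := k.1 j
  have kb := ki.2.1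
  have pb := pO_bd hδ j
  unfold SO at h
  rw [mem_union, mem_union, mem_union, mem_pc, mem_pc, mem_pc, mem_singleton] at h
  rcases h with ((⟨t, h1, h2, h3⟩ | ⟨t, h1, h2, h3⟩) | ⟨t, h1, h2, h3⟩) | h
  · refine Or.inl ⟨Or.inl ⟨t, by omega, by omega, h3⟩, Or.inl ?_⟩
    have := rad_inA ki.1 (y := z j) (ρ := t) (by omega) (by omega)
    rw [h3] at this
    unfold InA at this ⊢; omega
  · have hT := ki.TT (R := RO K0 δ τ z j) (by omega)
    refine Or.inl ⟨Or.inr (Or.inl ⟨t, h1, h2, h3⟩), Or.inl ?_⟩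
    have := rg_inA (R := RO K0 δ τ z j) (t := t) (by omega) (by omega)
    rw [h3] at this
    unfold InA at this ⊢; omega
  · refine Or.inl ⟨Or.inr (Or.inr ⟨t, by omega, by omega, h3⟩), Or.inr ⟨t, by omega, by omega, h3⟩⟩
  · exact Or.inr h

lemma RI_cc {i j : Fin 4} (hij : i < j) (h1 : Ccw (σ i) (y i) (pI i))
    (h2 : Ccw (σ j) (y j) (pI j)) : 1 * RI R0 σ y j + 4 ≤ 1 * RI R0 σ y i := by
  unfold RI; rw [if_pos h1, if_pos h2]; have : (i : ℕ) < j := hij; omega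

lemma RI_ww {i j : Fin 4} (hij : i < j) (h1 : ¬ Ccw (σ i) (y i) (pI i))
    (h2 : ¬ Ccw (σ j) (y j) (pI j)) : 1 * RI R0 σ y i + 4 ≤ 1 * RI R0 σ y j := by
  unfold RI; rw [if_neg h1, if_neg h2]; have : (i : ℕ) < j := hij; omega

lemma RI_ne {i j : Fin 4} (hij : i < j) : 1 * RI R0 σ y i + 4 ≤ 1 * RI R0 σ y j ∨
    1 * RI R0 σ y j + 4 ≤ 1 * RI R0 σ y i := by
  have : (i : ℕ) < j := hij
  unfold RI; split_ifs <;> have := fin4 i <;> have := fin4 j <;> omega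

lemma RO_cc {i j : Fin 4} (hij : i < j) (h1 : Ccw (τ i) (z i) (pO δ i))
    (h2 : Ccw (τ j) (z j) (pO δ j)) : -1 * RO K0 δ τ z j + 4 ≤ -1 * RO K0 δ τ z i := by
  unfold RO; rw [if_pos h1, if_pos h2]; have : (i : ℕ) < j := hij; omega

lemma RO_ww {i j : Fin 4} (hij : i < j) (h1 : ¬ Ccw (τ i) (z i) (pO δ i))
    (h2 : ¬ Ccw (τ j) (z j) (pO δ j)) : -1 * RO K0 δ τ z i + 4 ≤ -1 * RO K0 δ τ z j := by
  unfold RO; rw [if_neg h1, if_neg h2]; have : (i : ℕ) < j := hij; omega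

lemma RO_ne {i j : Fin 4} (hij : i < j) : -1 * RO K0 δ τ z i + 4 ≤ -1 * RO K0 δ τ z j ∨
    -1 * RO K0 δ τ z j + 4 ≤ -1 * RO K0 δ τ z i := by
  have : (i : ℕ) < j := hij
  unfold RO; split_ifs <;> have := fin4 i <;> have := fin4 j <;> omega

/-- the extra cell of the key `i` against everything of another arm -/
lemma extra_far {Y Z a R σ y e σ' y' p' R' ε : ℤ} (hε : ε = 1 ∨ ε = -1) (hZ : Z ≤ Y)
    (k : Key Y σ y) (he : e = 1 ∨ e = -1) (k' : Key Y σ' y') (hpZ' : -Z ≤ p' ∧ p' ≤ Z)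
    (hsep : (σ' - σ) % 4 = 0 → y + 8 ≤ y' ∨ y' + 8 ≤ y) (ha : Y + 5 ≤ a)
    (hR' : Y + 4 ≤ R') (h1 : ε = 1 → a + 4 ≤ R') (h2 : ε = -1 → R' + 4 ≤ a) {c : ℤ × ℤ}
    (hc : HP ε Y Z σ' y' p' R' c) (hT : R = a) : Far 4 (rad σ (y + e) R) c := by
  subst hT
  have kb := k.2.1
  have kp' := key_port hpZ'
  have n1 := rad_inA k.1 (y := y + e) (ρ := R) (by omega) (by omega)
  have b := k'.TT (R := R') (by omega)
  rcases hc with ⟨ρ, r1, r2, rfl⟩ | ⟨t, t1, t2, rfl⟩ | ⟨ρ, r1, r2, rfl⟩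
  · refine rad_rad_far (Y := Y + 1) (Y' := Y) k.1 k'.1 (by omega) k'.2.1 (by omega) (by omega) r1
      fun h => ?_
    have := hsep h
    omega
  · have n2 := rg_inA (R := R') (t := t) (by omega) (by omega)
    rcases hε with rfl | rfl
    · exact n1.far n2 (by omega)
    · exact (n2.far n1 (by omega)).symm
  · have n2 := rad_inA kp'.1 (y := p') (ρ := ρ) (by omega) (by omega)
    rcases hε with rfl | rfl
    · exact n1.far n2 (by omega)
    · exact (n2.far n1 (by omega)).symm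

lemma Keys.sep {Y d : ℤ} (k : Keys Y d σ y) {i j : Fin 4} (hij : i < j) :
    (σ j - σ i) % 4 = 0 → y i + d ≤ y j ∨ y j + d ≤ y i := by
  intro h
  have h1 := k.2 i j hij
  have h2 := (k.1 i).1
  have h3 := (k.1 j).1
  omega

lemma SI_far (hR : 45 ≤ R0) (k : Keys (R0 - 10) 8 σ y) {i j : Fin 4} (hij : i < j)
    {c c' : ℤ × ℤ} (h : c ∈ SI R0 σ y i) (h' : c' ∈ SI R0 σ y j) : Far 4 c c' := by
  have hs := k.sep hij
  have k1 := k.1 i
  have k2 := k.1 j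
  have l := k.2 i j hij
  have b1 := RI_bd (R0 := R0) (σ := σ) (y := y) i
  have b2 := RI_bd (R0 := R0) (σ := σ) (y := y) j
  have hij' : (i : ℕ) < j := hij
  have pb := pI_bd i
  have pb' := pI_bd j
  rcases SI_cases hR k h with ⟨h1, -⟩ | rfl
  · rcases SI_cases hR k h' with ⟨h2, -⟩ | rfl
    · refine half_far (Or.inl rfl) (by omega) k1 k2 pb pb' (by unfold pI; omega) (by omega)
        (fun e1 e2 => ?_) (by omega) (by omega) (fun e1 e2 => RI_cc hij e1 e2)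
        (fun e1 e2 => RI_ww hij e1 e2) (RI_ne hij) h1 h2
      have := l.2 e1 e2
      omega
    · refine (extra_far (e := -1) (a := R0 + 1) (Or.inl rfl) (by omega) k2 (Or.inr rfl) k1 pb ?_
        (by omega) (by omega) (by omega) (by omega) h1 rfl).symm
      omega
  · rcases SI_cases hR k h' with ⟨h2, -⟩ | rfl
    · exact extra_far (e := -1) (a := R0 + 1) (Or.inl rfl) (by omega) k1 (Or.inr rfl) k2 pb'
        (by omega) (by omega) (by omega) (by omega) (by omega) h2 rfl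
    · have c1 := k1.2.1
      have c2 := k2.2.1
      exact rad_rad_far (Y := R0 - 9) (Y' := R0 - 9) k1.1 k2.1 (by omega) (by omega) (by omega)
        (by omega) (by omega) (by omega)

lemma SO_far (hR : 45 ≤ R0) (hK : R0 + 140 ≤ K0) (hδ : δ = 0 ∨ δ = 1)
    (k : Keys (K0 - 70) 8 τ z) {i j : Fin 4} (hij : i < j)
    {c c' : ℤ × ℤ} (h : c ∈ SO R0 K0 δ τ z i) (h' : c' ∈ SO R0 K0 δ τ z j) : Far 4 c c' := by
  have hs := k.sep hij
  have k1 := k.1 i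
  have k2 := k.1 j
  have l := k.2 i j hij
  have b1 := RO_bd (K0 := K0) (δ := δ) (τ := τ) (z := z) i
  have b2 := RO_bd (K0 := K0) (δ := δ) (τ := τ) (z := z) j
  have hij' : (i : ℕ) < j := hij
  have pb := pO_bd hδ i
  have pb' := pO_bd hδ j
  rcases SO_cases hR hK hδ k h with ⟨h1, -⟩ | rfl
  · rcases SO_cases hR hK hδ k h' with ⟨h2, -⟩ | rfl
    · refine half_far (Or.inr rfl) (by omega) k1 k2 pb pb' (by unfold pO; omega) (by omega)
        (fun e1 e2 => ?_) (by omega) (by omega) (fun e1 e2 => RO_cc hij e1 e2)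
        (fun e1 e2 => RO_ww hij e1 e2) (RO_ne hij) h1 h2
      have := l.2 e1 e2
      omega
    · refine (extra_far (e := 1) (a := K0) (Or.inr rfl) (by omega) k2 (Or.inl rfl) k1 pb ?_
        (by omega) (by omega) (by omega) (by omega) h1 rfl).symm
      omega
  · rcases SO_cases hR hK hδ k h' with ⟨h2, -⟩ | rfl
    · exact extra_far (e := 1) (a := K0) (Or.inr rfl) (by omega) k1 (Or.inl rfl) k2 pb'
        (by omega) (by omega) (by omega) (by omega) (by omega) h2 rfl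
    · have c1 := k1.2.1
      have c2 := k2.2.1
      exact rad_rad_far (Y := K0 - 69) (Y' := K0 - 69) k1.1 k2.1 (by omega) (by omega) (by omega)
        (by omega) (by omega) (by omega)

/-! ### The middle part and the whole arms -/

/-- middle part of the arm `i` -/
noncomputable def Mid (R0 δ : ℤ) (i : Fin 4) : Finset (ℤ × ℤ) :=
  if δ = 1 ∧ i = 3 then SW R0 else SM R0 i

/-- the outer key of the arm `i` -/
def jj (δ : ℤ) (i : Fin 4) : Fin 4 := if δ = 1 then i + 1 else i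

/-- the whole arm -/
noncomputable def Arm (R0 K0 δ : ℤ) (σ y τ z : Fin 4 → ℤ) (i : Fin 4) : Finset (ℤ × ℤ) :=
  SI R0 σ y i ∪ Mid R0 δ i ∪ SO R0 K0 δ τ z (jj δ i)

lemma Mid_cases (hδ : δ = 0 ∨ δ = 1) {i : Fin 4} {c : ℤ × ℤ}
    (h : c ∈ Mid R0 δ i) :
    (∃ ρ, R0 + 44 ≤ ρ ∧ ρ ≤ R0 + 50 ∧ rad 0 (pI i) ρ = c) ∨
    (∃ ρ, R0 + 50 ≤ ρ ∧ ρ ≤ R0 + 56 ∧ rad 0 (pO δ (jj δ i)) ρ = c) ∨
    (δ = 1 ∧ i = 3 ∧ ∃ t, -(4 * (R0 + 50)) ≤ t ∧ t ≤ 4 * (R0 + 50) ∧ (15 ≤ t ∨ t ≤ -25) ∧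
      rg (R0 + 50) t = c) := by
  unfold Mid at h
  split_ifs at h with hi
  · obtain ⟨h1, rfl⟩ := hi
    subst h1
    unfold SW at h
    rw [mem_union, mem_union, mem_union, mem_pc, mem_pc, mem_pc, mem_pc] at h
    have e1 : pI 3 = 15 := rfl
    have e2 : pO 1 (jj 1 3) = -25 := rfl
    rcases h with ((⟨t, h1, h2, h3⟩ | ⟨t, h1, h2, h3⟩) | ⟨t, h1, h2, h3⟩) | ⟨t, h1, h2, h3⟩
    · exact Or.inl ⟨t, h1, h2, by rw [e1]; exact h3⟩
    · exact Or.inr (Or.inr ⟨rfl, rfl, t, by omega, h2, by omega, h3⟩)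
    · exact Or.inr (Or.inr ⟨rfl, rfl, t, h1, by omega, by omega, h3⟩)
    · exact Or.inr (Or.inl ⟨t, h1, h2, by rw [e2]; exact h3⟩)
  · unfold SM at h
    rw [mem_pc] at h
    obtain ⟨t, h1, h2, h3⟩ := h
    have e : pO δ (jj δ i) = pI i := by
      rcases hδ with rfl | rfl
      · unfold jj pO pI; norm_num
      · have hi3 : i ≠ 3 := fun h => hi ⟨rfl, h⟩
        fin_cases i
        · rfl
        · rfl
        · rfl
        · exact absurd rfl hi3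
    by_cases h4 : t ≤ R0 + 50
    · exact Or.inl ⟨t, h1, h4, h3⟩
    · exact Or.inr (Or.inl ⟨t, by omega, h2, by rw [e]; exact h3⟩)

lemma jj_ne {i j : Fin 4} (h : i ≠ j) : jj δ i ≠ jj δ j := by
  unfold jj
  split_ifs
  · intro h1; exact h (by simpa using h1)
  · exact h

/-- the port values of two different arms -/
lemma ports_ne (hδ : δ = 0 ∨ δ = 1) {i j : Fin 4} (h : i ≠ j) :
    (pI i + 4 ≤ pI j ∨ pI j + 4 ≤ pI i) ∧
    (pI i + 4 ≤ pO δ (jj δ j) ∨ pO δ (jj δ j) + 4 ≤ pI i) ∧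
    (pO δ (jj δ i) + 4 ≤ pO δ (jj δ j) ∨ pO δ (jj δ j) + 4 ≤ pO δ (jj δ i)) := by
  have key : ∀ i j : Fin 4, i ≠ j → ∀ δ : ℤ, (δ = 0 ∨ δ = 1) →
    (pI i + 4 ≤ pI j ∨ pI j + 4 ≤ pI i) ∧
    (pI i + 4 ≤ pO δ (jj δ j) ∨ pO δ (jj δ j) + 4 ≤ pI i) ∧
    (pO δ (jj δ i) + 4 ≤ pO δ (jj δ j) ∨ pO δ (jj δ j) + 4 ≤ pO δ (jj δ i)) := by
    intro i j h δ hδ
    rcases hδ with rfl | rfl
    · revert i j
      decide
    · revert i j
      decide
  exact key i j h δ hδ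

lemma line_far {p p' ρ ρ' : ℤ} (h : p + 4 ≤ p' ∨ p' + 4 ≤ p) :
    Far 4 (rad 0 p ρ) (rad 0 p' ρ') := by
  rw [rad_0, rad_0]; unfold Far; simp only; omega

lemma line_inA {p ρ : ℤ} (hp : -30 ≤ p ∧ p ≤ 30) (h : 30 ≤ ρ) : InA ρ ρ (rad 0 p ρ) :=
  rad_inA (by omega) (by omega) (by omega)

lemma SI_where (hR : 45 ≤ R0) (k : Keys (R0 - 10) 8 σ y) {i : Fin 4} {c : ℤ × ℤ}
    (h : c ∈ SI R0 σ y i) :
    InA (R0 + 1) (R0 + 38) c ∨ ∃ ρ, R0 + 10 ≤ ρ ∧ ρ ≤ R0 + 44 ∧ rad 0 (pI i) ρ = c := by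
  rcases SI_cases hR k h with ⟨-, h1⟩ | rfl
  · exact h1
  · left
    have ki := k.1 i
    have kb := ki.2.1
    have := rad_inA ki.1 (y := y i - 1) (ρ := R0 + 1) (by omega) (by omega)
    unfold InA at this ⊢; omega

lemma SO_where (hR : 45 ≤ R0) (hK : R0 + 140 ≤ K0) (hδ : δ = 0 ∨ δ = 1)
    (k : Keys (K0 - 70) 8 τ z) {j : Fin 4} {c : ℤ × ℤ} (h : c ∈ SO R0 K0 δ τ z j) :
    InA (R0 + 60) K0 c ∨ ∃ ρ, R0 + 56 ≤ ρ ∧ ρ ≤ K0 - 32 ∧ rad 0 (pO δ j) ρ = c := by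
  rcases SO_cases hR hK hδ k h with ⟨-, h1⟩ | rfl
  · exact h1
  · left
    have ki := k.1 j
    have kb := ki.2.1
    have := rad_inA ki.1 (y := z j + 1) (ρ := K0) (by omega) (by omega)
    unfold InA at this ⊢; omega

/-- the three parts of different arms are far from each other -/
theorem Arm_far (hR : 45 ≤ R0) (hK : R0 + 140 ≤ K0) (hδ : δ = 0 ∨ δ = 1)
    (k : Keys (R0 - 10) 8 σ y) (k' : Keys (K0 - 70) 8 τ z) {i j : Fin 4} (hij : i ≠ j)
    {c c' : ℤ × ℤ} (h : c ∈ Arm R0 K0 δ σ y τ z i) (h' : c' ∈ Arm R0 K0 δ σ y τ z j) :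
    Far 4 c c' := by
  -- inner against middle
  have IM : ∀ {i j : Fin 4}, i ≠ j → ∀ {c c' : ℤ × ℤ}, c ∈ SI R0 σ y i → c' ∈ Mid R0 δ j →
      Far 4 c c' := by
    intro i j hij c c' h h'
    have pb := pI_bd i
    have pb' := pI_bd j
    have pb2 := pO_bd hδ (jj δ j)
    have pn := ports_ne hδ hij
    have pn' := ports_ne hδ (Ne.symm hij)
    rcases Mid_cases hδ h' with ⟨ρ', r1, r2, rfl⟩ | ⟨ρ', r1, r2, rfl⟩ |
      ⟨-, -, t, t1, t2, t3, rfl⟩
    · have n := line_inA pb' (ρ := ρ') (by omega)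
      rcases SI_where hR k h with h1 | ⟨ρ, s1, s2, rfl⟩
      · exact h1.far n (by omega)
      · exact line_far pn.1
    · have n := line_inA pb2 (ρ := ρ') (by omega)
      rcases SI_where hR k h with h1 | ⟨ρ, s1, s2, rfl⟩
      · exact h1.far n (by omega)
      · exact line_far pn.2.1
    · have n := rg_inA (R := R0 + 50) (t := t) t1 t2
      rcases SI_where hR k h with h1 | ⟨ρ, s1, s2, rfl⟩
      · exact h1.far n (by omega)
      · exact (line_inA pb (ρ := ρ) (by omega)).far n (by omega)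
  -- inner against outer
  have IO : ∀ {i j : Fin 4}, i ≠ j → ∀ {c c' : ℤ × ℤ}, c ∈ SI R0 σ y i →
      c' ∈ SO R0 K0 δ τ z (jj δ j) → Far 4 c c' := by
    intro i j hij c c' h h'
    have pb := pI_bd i
    have pb2 := pO_bd hδ (jj δ j)
    have n1 : InA (R0 + 1) (R0 + 44) c := by
      rcases SI_where hR k h with h1 | ⟨ρ, s1, s2, rfl⟩
      · unfold InA at h1 ⊢; omega
      · have := line_inA pb (ρ := ρ) (by omega)
        unfold InA at this ⊢; omega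
    have n2 : InA (R0 + 56) K0 c' := by
      rcases SO_where hR hK hδ k' h' with h1 | ⟨ρ, s1, s2, rfl⟩
      · unfold InA at h1 ⊢; omega
      · have := line_inA pb2 (ρ := ρ) (by omega)
        unfold InA at this ⊢; omega
    exact n1.far n2 (by omega)
  -- middle against outer
  have MO : ∀ {i j : Fin 4}, i ≠ j → ∀ {c c' : ℤ × ℤ}, c ∈ Mid R0 δ i →
      c' ∈ SO R0 K0 δ τ z (jj δ j) → Far 4 c c' := by
    intro i j hij c c' h h'
    have pb := pI_bd i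
    have pb3 := pO_bd hδ (jj δ i)
    have pb2 := pO_bd hδ (jj δ j)
    have pn := ports_ne hδ hij
    rcases SO_where hR hK hδ k' h' with h1 | ⟨ρ', s1, s2, rfl⟩
    · rcases Mid_cases hδ h with ⟨ρ, r1, r2, rfl⟩ | ⟨ρ, r1, r2, rfl⟩ |
        ⟨-, -, t, t1, t2, t3, rfl⟩
      · exact (line_inA pb (ρ := ρ) (by omega)).far h1 (by omega)
      · exact (line_inA pb3 (ρ := ρ) (by omega)).far h1 (by omega)
      · exact (rg_inA (R := R0 + 50) (t := t) t1 t2).far h1 (by omega)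
    · rcases Mid_cases hδ h with ⟨ρ, r1, r2, rfl⟩ | ⟨ρ, r1, r2, rfl⟩ |
        ⟨-, -, t, t1, t2, t3, rfl⟩
      · exact line_far pn.2.1
      · exact line_far pn.2.2
      · exact (rg_inA (R := R0 + 50) (t := t) t1 t2).far
          (line_inA pb2 (ρ := ρ') (by omega)) (by omega)
  -- middle against middle
  have MM : ∀ {i j : Fin 4}, i ≠ j → ∀ {c c' : ℤ × ℤ}, c ∈ Mid R0 δ i → c' ∈ Mid R0 δ j →
      Far 4 c c' := by
    intro i j hij c c' h h'
    have pb := pI_bd i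
    have pb' := pI_bd j
    have pb3 := pO_bd hδ (jj δ i)
    have pb4 := pO_bd hδ (jj δ j)
    have pn := ports_ne hδ hij
    have pn' := ports_ne hδ (Ne.symm hij)
    have RL : ∀ {t p ρ : ℤ}, -(4 * (R0 + 50)) ≤ t → t ≤ 4 * (R0 + 50) → (15 ≤ t ∨ t ≤ -25) →
        (p + 4 ≤ 15 ∧ -25 + 4 ≤ p) → 34 ≤ ρ → Far 4 (rad 0 p ρ) (rg (R0 + 50) t) := by
      intro t p ρ t1 t2 t3 hp hρ
      have e := TT_0 (R0 + 50) p
      exact rad_rg_far (key_port (Y := 30) (p := p) (by omega)) (by omega) (by omega)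
        (by omega) (by omega) (by omega)
    have P3 : ∀ {j : Fin 4}, (3 : Fin 4) ≠ j → δ = 1 → (pI j + 4 ≤ 15 ∧ -25 + 4 ≤ pI j) ∧
        (pO δ (jj δ j) + 4 ≤ 15 ∧ -25 + 4 ≤ pO δ (jj δ j)) := by
      intro j h3 h4
      subst h4
      fin_cases j
      · decide
      · decide
      · decide
      · exact absurd rfl h3
    rcases Mid_cases hδ h with ⟨ρ, r1, r2, rfl⟩ | ⟨ρ, r1, r2, rfl⟩ |
      ⟨d1, rfl, t, t1, t2, t3, rfl⟩
    · rcases Mid_cases hδ h' with ⟨ρ', r1', r2', rfl⟩ | ⟨ρ', r1', r2', rfl⟩ |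
        ⟨d1, rfl, t, t1, t2, t3, rfl⟩
      · exact line_far pn.1
      · exact line_far pn.2.1
      · exact RL t1 t2 t3 (P3 (Ne.symm hij) d1).1 (by omega)
    · rcases Mid_cases hδ h' with ⟨ρ', r1', r2', rfl⟩ | ⟨ρ', r1', r2', rfl⟩ |
        ⟨d1, rfl, t, t1, t2, t3, rfl⟩
      · exact (line_far pn'.2.1).symm
      · exact line_far pn.2.2
      · exact RL t1 t2 t3 (P3 (Ne.symm hij) d1).2 (by omega)
    · rcases Mid_cases hδ h' with ⟨ρ', r1', r2', rfl⟩ | ⟨ρ', r1', r2', rfl⟩ |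
        ⟨-, rfl, t', t1', t2', t3', rfl⟩
      · exact (RL t1 t2 t3 (P3 hij d1).1 (by omega)).symm
      · exact (RL t1 t2 t3 (P3 hij d1).2 (by omega)).symm
      · exact absurd rfl hij
  have II : ∀ {i j : Fin 4}, i ≠ j → ∀ {c c' : ℤ × ℤ}, c ∈ SI R0 σ y i → c' ∈ SI R0 σ y j →
      Far 4 c c' := by
    intro i j hij c c' h h'
    rcases lt_or_gt_of_ne hij with h1 | h1
    · exact SI_far hR k h1 h h'
    · exact (SI_far hR k h1 h' h).symm
  have OO : ∀ {i j : Fin 4}, i ≠ j → ∀ {c c' : ℤ × ℤ}, c ∈ SO R0 K0 δ τ z i →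
      c' ∈ SO R0 K0 δ τ z j → Far 4 c c' := by
    intro i j hij c c' h h'
    rcases lt_or_gt_of_ne hij with h1 | h1
    · exact SO_far hR hK hδ k' h1 h h'
    · exact (SO_far hR hK hδ k' h1 h' h).symm
  unfold Arm at h h'
  rw [mem_union, mem_union] at h h'
  have hji := Ne.symm hij
  rcases h with (h | h) | h <;> rcases h' with (h' | h') | h'
  · exact II hij h h'
  · exact IM hij h h'
  · exact IO hij h h'
  · exact (IM hji h' h).symm
  · exact MM hij h h'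
  · exact MO hij h h'
  · exact (IO hji h' h).symm
  · exact (MO hji h' h).symm
  · exact OO (jj_ne hij) h h'

/-- the arms stay between the two boxes -/
theorem Arm_inA (hR : 45 ≤ R0) (hK : R0 + 140 ≤ K0) (hδ : δ = 0 ∨ δ = 1)
    (k : Keys (R0 - 10) 8 σ y) (k' : Keys (K0 - 70) 8 τ z) {i : Fin 4}
    {c : ℤ × ℤ} (h : c ∈ Arm R0 K0 δ σ y τ z i) : InA (R0 + 1) K0 c := by
  have pb := pI_bd i
  have pb2 := pO_bd hδ (jj δ i)
  unfold Arm at h
  rw [mem_union, mem_union] at h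
  rcases h with (h | h) | h
  · rcases SI_where hR k h with h1 | ⟨ρ, s1, s2, rfl⟩
    · unfold InA at h1 ⊢; omega
    · have := line_inA pb (ρ := ρ) (by omega)
      unfold InA at this ⊢; omega
  · rcases Mid_cases hδ h with ⟨ρ, r1, r2, rfl⟩ | ⟨ρ, r1, r2, rfl⟩ |
      ⟨-, -, t, t1, t2, t3, rfl⟩
    · have := line_inA pb (ρ := ρ) (by omega)
      unfold InA at this ⊢; omega
    · have := line_inA pb2 (ρ := ρ) (by omega)
      unfold InA at this ⊢; omega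
    · have := rg_inA (R := R0 + 50) (t := t) t1 t2
      unfold InA at this ⊢; omega
  · rcases SO_where hR hK hδ k' h with h1 | ⟨ρ, s1, s2, rfl⟩
    · unfold InA at h1 ⊢; omega
    · have := line_inA pb2 (ρ := ρ) (by omega)
      unfold InA at this ⊢; omega

lemma SI_link (hR : 45 ≤ R0) (k : Keys (R0 - 10) 8 σ y) (i : Fin 4) :
    rad (σ i) (y i) (R0 + 1) ∈ SI R0 σ y i ∧ rad (σ i) (y i - 1) (R0 + 1) ∈ SI R0 σ y i ∧
    Lk (SI R0 σ y i) (rad (σ i) (y i) (R0 + 1)) (rad (σ i) (y i - 1) (R0 + 1)) ∧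
    Lk (SI R0 σ y i) (rad (σ i) (y i) (R0 + 1)) (rad 0 (pI i) (R0 + 44)) := by
  have b := RI_bd (R0 := R0) (σ := σ) (y := y) i
  have ki := k.1 i
  have kb := ki.2.1
  have pb := pI_bd i
  set R := RI R0 σ y i with hRdef
  have e0 : SI R0 σ y i = pc (rad (σ i) (y i)) (R0 + 1) R ∪
    pc (rg R) (min (TT R (σ i) (y i)) (pI i)) (max (TT R (σ i) (y i)) (pI i)) ∪
    pc (rad 0 (pI i)) R (R0 + 44) ∪ {rad (σ i) (y i - 1) (R0 + 1)} := rfl
  have m1 : pc (rad (σ i) (y i)) (R0 + 1) R ⊆ SI R0 σ y i := by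
    rw [e0]; exact (subset_union_left.trans subset_union_left).trans subset_union_left
  have m2 : pc (rg R) (min (TT R (σ i) (y i)) (pI i)) (max (TT R (σ i) (y i)) (pI i)) ⊆
      SI R0 σ y i := by
    rw [e0]; exact (subset_union_right.trans subset_union_left).trans subset_union_left
  have m3 : pc (rad 0 (pI i)) R (R0 + 44) ⊆ SI R0 σ y i := by
    rw [e0]; exact subset_union_right.trans subset_union_left
  have s1 : rad (σ i) (y i) (R0 + 1) ∈ SI R0 σ y i := m1 (pc_mem le_rfl (by omega))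
  have s2 : rad (σ i) (y i - 1) (R0 + 1) ∈ SI R0 σ y i := by
    rw [e0]; exact mem_union_right _ (mem_singleton_self _)
  refine ⟨s1, s2, Relation.ReflTransGen.single ⟨s1, s2, ?_⟩, ?_⟩
  · have := rad_stepy (σ i) (y i - 1) (R0 + 1)
    rw [sub_add_cancel] at this
    have := isUnit4_neg this
    rwa [neg_sub] at this
  · have hT := ki.TT (R := R) (by omega)
    have h1 := pc_union_lk m1 (fun t _ _ => rad_step (σ i) (y i) t) (s := R0 + 1) (t := R)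
      le_rfl (by omega) (by omega) le_rfl
    have h2 := pc_union_lk m2 (fun t h1 h2 => rg_step (R := R) (t := t) (by omega))
      (s := TT R (σ i) (y i)) (t := pI i) (by omega) (by omega) (by omega) (by omega)
    have h3 := pc_union_lk m3 (fun t _ _ => rad_step 0 (pI i) t) (s := R) (t := R0 + 44)
      le_rfl (by omega) (by omega) le_rfl
    rw [rad_eq_rg ki (by omega)] at h2
    have e3 : rg R (pI i) = rad 0 (pI i) R := by
      have := rad_eq_rg (key_port (Y := 30) (p := pI i) (by omega)) (R := R) (by omega)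
      rwa [TT_0] at this
    rw [e3] at h2
    exact h1.trans (h2.trans h3)

lemma SO_link (hK : R0 + 140 ≤ K0) (hR : 45 ≤ R0) (hδ : δ = 0 ∨ δ = 1)
    (k : Keys (K0 - 70) 8 τ z) (j : Fin 4) :
    rad (τ j) (z j) K0 ∈ SO R0 K0 δ τ z j ∧ rad (τ j) (z j + 1) K0 ∈ SO R0 K0 δ τ z j ∧
    Lk (SO R0 K0 δ τ z j) (rad (τ j) (z j) K0) (rad (τ j) (z j + 1) K0) ∧
    Lk (SO R0 K0 δ τ z j) (rad 0 (pO δ j) (R0 + 56)) (rad (τ j) (z j) K0) := by
  have b := RO_bd (K0 := K0) (δ := δ) (τ := τ) (z := z) j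
  have ki := k.1 j
  have kb := ki.2.1
  have pb := pO_bd hδ j
  set R := RO K0 δ τ z j with hRdef
  have e0 : SO R0 K0 δ τ z j = pc (rad (τ j) (z j)) R K0 ∪
    pc (rg R) (min (TT R (τ j) (z j)) (pO δ j)) (max (TT R (τ j) (z j)) (pO δ j)) ∪
    pc (rad 0 (pO δ j)) (R0 + 56) R ∪ {rad (τ j) (z j + 1) K0} := rfl
  have m1 : pc (rad (τ j) (z j)) R K0 ⊆ SO R0 K0 δ τ z j := by
    rw [e0]; exact (subset_union_left.trans subset_union_left).trans subset_union_left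
  have m2 : pc (rg R) (min (TT R (τ j) (z j)) (pO δ j)) (max (TT R (τ j) (z j)) (pO δ j)) ⊆
      SO R0 K0 δ τ z j := by
    rw [e0]; exact (subset_union_right.trans subset_union_left).trans subset_union_left
  have m3 : pc (rad 0 (pO δ j)) (R0 + 56) R ⊆ SO R0 K0 δ τ z j := by
    rw [e0]; exact subset_union_right.trans subset_union_left
  have s1 : rad (τ j) (z j) K0 ∈ SO R0 K0 δ τ z j := m1 (pc_mem (by omega) le_rfl)
  have s2 : rad (τ j) (z j + 1) K0 ∈ SO R0 K0 δ τ z j := by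
    rw [e0]; exact mem_union_right _ (mem_singleton_self _)
  refine ⟨s1, s2, Relation.ReflTransGen.single ⟨s1, s2, rad_stepy _ _ _⟩, ?_⟩
  have hT := ki.TT (R := R) (by omega)
  have h1 := pc_union_lk m1 (fun t _ _ => rad_step (τ j) (z j) t) (s := R) (t := K0)
    le_rfl (by omega) (by omega) le_rfl
  have h2 := pc_union_lk m2 (fun t h1 h2 => rg_step (R := R) (t := t) (by omega))
    (s := pO δ j) (t := TT R (τ j) (z j)) (by omega) (by omega) (by omega) (by omega)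
  have h3 := pc_union_lk m3 (fun t _ _ => rad_step 0 (pO δ j) t) (s := R0 + 56) (t := R)
    le_rfl (by omega) (by omega) le_rfl
  rw [rad_eq_rg ki (by omega)] at h2
  have e3 : rg R (pO δ j) = rad 0 (pO δ j) R := by
    have := rad_eq_rg (key_port (Y := 30) (p := pO δ j) (by omega)) (R := R) (by omega)
    rwa [TT_0] at this
  rw [e3] at h2
  exact h3.trans (h2.trans h1)

lemma Mid_link (hR : 45 ≤ R0) (hδ : δ = 0 ∨ δ = 1) (i : Fin 4) :
    Lk (Mid R0 δ i) (rad 0 (pI i) (R0 + 44)) (rad 0 (pO δ (jj δ i)) (R0 + 56)) := by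
  unfold Mid
  split_ifs with hi
  · obtain ⟨h1, rfl⟩ := hi
    subst h1
    have e1 : pI 3 = 15 := rfl
    have e2 : pO 1 (jj 1 3) = -25 := rfl
    rw [e1, e2]
    have e0 : SW R0 = pc (rad 0 15) (R0 + 44) (R0 + 50) ∪
      pc (rg (R0 + 50)) 15 (4 * (R0 + 50)) ∪ pc (rg (R0 + 50)) (-(4 * (R0 + 50))) (-25) ∪
      pc (rad 0 (-25)) (R0 + 50) (R0 + 56) := rfl
    have m1 : pc (rad 0 15) (R0 + 44) (R0 + 50) ⊆ SW R0 := by
      rw [e0]; exact (subset_union_left.trans subset_union_left).trans subset_union_left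
    have m2 : pc (rg (R0 + 50)) 15 (4 * (R0 + 50)) ⊆ SW R0 := by
      rw [e0]; exact (subset_union_right.trans subset_union_left).trans subset_union_left
    have m3 : pc (rg (R0 + 50)) (-(4 * (R0 + 50))) (-25) ⊆ SW R0 := by
      rw [e0]; exact subset_union_right.trans subset_union_left
    have m4 : pc (rad 0 (-25)) (R0 + 50) (R0 + 56) ⊆ SW R0 := by
      rw [e0]; exact subset_union_right
    have h1 := pc_union_lk m1 (fun t _ _ => rad_step 0 15 t) (s := R0 + 44) (t := R0 + 50)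
      le_rfl (by omega) (by omega) le_rfl
    have h2 := pc_union_lk m2 (fun t h1 h2 => rg_step (R := R0 + 50) (t := t) (by omega))
      (s := 15) (t := 4 * (R0 + 50)) (by omega) (by omega) (by omega) (by omega)
    have h3 := pc_union_lk m3 (fun t h1 h2 => rg_step (R := R0 + 50) (t := t) (by omega))
      (s := -(4 * (R0 + 50))) (t := -25) (by omega) (by omega) (by omega) (by omega)
    have h4 := pc_union_lk m4 (fun t _ _ => rad_step 0 (-25) t) (s := R0 + 50) (t := R0 + 56)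
      le_rfl (by omega) (by omega) le_rfl
    have f1 : rg (R0 + 50) 15 = rad 0 15 (R0 + 50) := by
      have := rad_eq_rg (key_port (Y := 30) (p := 15) (by omega)) (R := R0 + 50) (by omega)
      rwa [TT_0] at this
    have f2 : rg (R0 + 50) (-25) = rad 0 (-25) (R0 + 50) := by
      have := rad_eq_rg (key_port (Y := 30) (p := -25) (by omega)) (R := R0 + 50) (by omega)
      rwa [TT_0] at this
    have f3 : rg (R0 + 50) (4 * (R0 + 50)) = rg (R0 + 50) (-(4 * (R0 + 50))) := by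
      unfold rg
      split_ifs <;> first | (exfalso; omega) | (refine Prod.ext ?_ ?_ <;> simp only <;> omega)
    rw [f1, f3] at h2
    rw [f2] at h3
    exact h1.trans (h2.trans (h3.trans h4))
  · have e : pO δ (jj δ i) = pI i := by
      rcases hδ with rfl | rfl
      · unfold jj pO pI; norm_num
      · have hi3 : i ≠ 3 := fun h => hi ⟨rfl, h⟩
        fin_cases i
        · rfl
        · rfl
        · rfl
        · exact absurd rfl hi3
    rw [e]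
    exact pc_lk (fun t _ _ => rad_step 0 (pI i) t) le_rfl (by omega) (by omega) le_rfl

/-- every arm joins its inner key to its outer key -/
theorem Arm_link (hR : 45 ≤ R0) (hK : R0 + 140 ≤ K0) (hδ : δ = 0 ∨ δ = 1)
    (k : Keys (R0 - 10) 8 σ y) (k' : Keys (K0 - 70) 8 τ z) (i : Fin 4) :
    (rad (σ i) (y i) (R0 + 1) ∈ Arm R0 K0 δ σ y τ z i ∧
      rad (σ i) (y i - 1) (R0 + 1) ∈ Arm R0 K0 δ σ y τ z i ∧
      Lk (Arm R0 K0 δ σ y τ z i) (rad (σ i) (y i) (R0 + 1)) (rad (σ i) (y i - 1) (R0 + 1))) ∧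
    (rad (τ (jj δ i)) (z (jj δ i)) K0 ∈ Arm R0 K0 δ σ y τ z i ∧
      rad (τ (jj δ i)) (z (jj δ i) + 1) K0 ∈ Arm R0 K0 δ σ y τ z i ∧
      Lk (Arm R0 K0 δ σ y τ z i) (rad (τ (jj δ i)) (z (jj δ i)) K0)
        (rad (τ (jj δ i)) (z (jj δ i) + 1) K0)) ∧
    Lk (Arm R0 K0 δ σ y τ z i) (rad (σ i) (y i) (R0 + 1))
      (rad (τ (jj δ i)) (z (jj δ i)) K0) := by
  have m1 : SI R0 σ y i ⊆ Arm R0 K0 δ σ y τ z i := by
    unfold Arm; exact subset_union_left.trans subset_union_left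
  have m2 : Mid R0 δ i ⊆ Arm R0 K0 δ σ y τ z i := by
    unfold Arm; exact subset_union_right.trans subset_union_left
  have m3 : SO R0 K0 δ τ z (jj δ i) ⊆ Arm R0 K0 δ σ y τ z i := by
    unfold Arm; exact subset_union_right
  obtain ⟨a1, a2, a3, a4⟩ := SI_link hR k i
  obtain ⟨b1, b2, b3, b4⟩ := SO_link hK hR hδ k' (jj δ i)
  exact ⟨⟨m1 a1, m1 a2, a3.mono m1⟩, ⟨m3 b1, m3 b2, b3.mono m3⟩,
    (a4.mono m1).trans (((Mid_link hR hδ i).mono m2).trans (b4.mono m3))⟩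

/-- the cells of norm at most `K` -/
noncomputable def CB (K : ℤ) : Finset (ℤ × ℤ) := (Icc (-K) K) ×ˢ (Icc (-K) K)

theorem Arm_card (hR : 45 ≤ R0) (hK : R0 + 140 ≤ K0) (hδ : δ = 0 ∨ δ = 1)
    (k : Keys (R0 - 10) 8 σ y) (k' : Keys (K0 - 70) 8 τ z) (i : Fin 4) :
    (Arm R0 K0 δ σ y τ z i).card ≤ ((2 * K0 + 1) ^ 2).toNat := by
  have h1 : Arm R0 K0 δ σ y τ z i ⊆ CB K0 := by
    intro c hc
    have := Arm_inA hR hK hδ k k' hc
    unfold CB
    rw [mem_product, mem_Icc, mem_Icc]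
    unfold InA at this
    omega
  refine (card_le_card h1).trans ?_
  unfold CB
  rw [card_product, Int.card_Icc]
  have h2 : 0 ≤ K0 := by omega
  obtain ⟨n, rfl⟩ := Int.eq_ofNat_of_zero_le h2
  have h3 : ((n : ℤ) + 1 - -(n : ℤ)).toNat = 2 * n + 1 := by omega
  have h4 : ((2 * (n : ℤ) + 1) ^ 2) = (((2 * n + 1) ^ 2 : ℕ) : ℤ) := by push_cast; ring
  rw [h3, h4, Int.toNat_natCast]
  exact le_of_eq (by ring)

end

end Pool.Agent.H81.NC
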