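import Mathlib
import Pool.Agent.H81.NC.Four
import Pool.Agent.H75.Four.Defs
import Pool.Agent.H65.Four.Defs

set_option autoImplicit false
open Finset

/-! Four arms, gluing: shared definitions.

Conventions. Labels, vertices, corners, faces as in `H75/TwoArm/Defs`. The mesh of the grid of cells is
`8 s`, the cell `(i,j)` is `[8si-4s, 8si+4s] × [8sj-4s, 8sj+4s]` (centred at `(8si, 8sj)`). The inner box
is `BB r` with `4s(2R0+1) - s ≤ r ≤ 4s(2R0+1) - 2`, the hole is `BB k` with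
`4s(2K0+1) + 2 ≤ k ≤ 4s(2K0+1) + s`. The frame `φ` is obtained by the rotation by `-φ` right angles; the
strand leaves to the East of its frame. -/

namespace Pool.Agent.H81.NC

open Pool.Agent.H75.Perc Pool.Agent.H75.TwoArm Pool.Agent.H75.Four Pool.Agent.H99.NC

/-! ### Strands of an edge (`zu`, `zv`, `A4`, `U4`: see `H75/Four/Defs`) -/

/-- The exit of the strand number `κ`: `0` forward strand of the first end, `1` backward strand of the
first end, `2` forward strand of the second end, `3` backward strand of the second end. -/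
def Ext (B : Finset (ℤ × ℤ)) (e : ℤ × ℤ) (ω : Finset (ℤ × ℤ)) (κ : Fin 4) (x : ℤ × ℤ) : Prop :=
  (κ = 0 → FX B (ω.erase e) (zu e) x) ∧ (κ = 1 → BX B (ω.erase e) (zu e) x) ∧
  (κ = 2 → FX B (ω.erase e) (zv e) x) ∧ (κ = 3 → BX B (ω.erase e) (zv e) x)

/-- end of the edge to which the strand `κ` is attached (for `κ = 0, 2`) -/
def vend (e : ℤ × ℤ) (κ : Fin 4) : ℤ × ℤ := if κ = 0 ∨ κ = 1 then vx (zu e) else vx (zv e)

/-- index of the face of the edge to which the strand `κ` is attached (for `κ = 1, 3`) -/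
def fend (e : ℤ × ℤ) (κ : Fin 4) : ℤ × ℤ := if κ = 0 ∨ κ = 1 then fi (zu e) else fi (zv e)

/-! ### Frames -/

/-- rotation by `σ` right angles, as a lattice symmetry -/
def syO (σ : ℤ) : Sy where
  g := ro σ
  g' := ro (-σ)
  G := ⟨ro σ, by
    intro a b h
    unfold ro at h
    split_ifs at h <;> simp only [Prod.ext_iff] at h ⊢ <;> omega⟩
  G' := ro (-σ)
  gg' u := by
    unfold ro; split_ifs <;> first | (exfalso; omega) | (refine Prod.ext ?_ ?_ <;> simp only <;> ring)
  g'g u := by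
    unfold ro; split_ifs <;> first | (exfalso; omega) | (refine Prod.ext ?_ ?_ <;> simp only <;> ring)
  GG' e := by
    simp only [Function.Embedding.coeFn_mk]
    unfold ro; split_ifs <;> first | (exfalso; omega) | (refine Prod.ext ?_ ?_ <;> simp only <;> ring)
  add u v := by
    simp only [Function.Embedding.coeFn_mk]
    unfold ro; split_ifs <;>
    (refine Prod.ext ?_ ?_ <;> simp only [Prod.fst_add, Prod.snd_add] <;> ring)
  unit u v := by
    unfold IsUnit4 ro
    split_ifs <;> simp only [Prod.ext_iff, Prod.fst_sub, Prod.snd_sub] <;> omega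

/-- rotation of corners -/
def crn (σ : ℤ) (c : ℤ × ℤ) : ℤ × ℤ :=
  if σ % 4 = 0 then c else if σ % 4 = 1 then (1 - c.2, c.1)
  else if σ % 4 = 2 then (1 - c.1, 1 - c.2) else (c.2, 1 - c.1)

/-- a configuration (or a set of labels) seen in the frame `φ` -/
def FR (φ : ℤ) (ω : Finset (ℤ × ℤ)) : Finset (ℤ × ℤ) := ω.map (syO (-φ)).G

/-! ### Hooks and arms of the fresh configuration -/

/-- the fine cells of a hook -/
noncomputable def CC : Finset (ℤ × ℤ) :=
  pc (fun a => (a, 1)) (-2) 9 ∪ pc (fun b => (-2, b)) (-2) 1 ∪ pc (fun a => (a, -2)) (-2) 1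

/-- open hook around a forward exit at the corner `(X+1, h)` of the frame `φ` (`h` even) -/
def HO (φ X h s : ℤ) (ω : Finset (ℤ × ℤ)) : Prop := Net ((X + 1) / 2, h / 2) s CC (FR φ ω)

/-- dual hook around a backward exit at the corner `(X+1, h)` of the frame `φ` (`h` odd) -/
def HD (φ X h s : ℤ) (E ω : Finset (ℤ × ℤ)) : Prop :=
  Net ((X + 2) / 2, (h + 1) / 2) s CC (du (FR φ E) (FR φ ω))

/-- the network of an open arm -/
def NO (s : ℤ) (S : Finset (ℤ × ℤ)) (ω : Finset (ℤ × ℤ)) : Prop := Net (-(4 * s), -(4 * s)) (8 * s) S ω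

/-- the network of a dual arm -/
def ND (s : ℤ) (S : Finset (ℤ × ℤ)) (E ω : Finset (ℤ × ℤ)) : Prop :=
  Net (-(4 * s), -(4 * s)) (8 * s) S (du E ω)

/-- the height `h` (of the corner of an exit, in its frame) belongs to the row `y - 1` of cells -/
def Row (s y h : ℤ) : Prop := 2 * (8 * s * (y - 1) - 4 * s) ≤ h ∧ h < 2 * (8 * s * (y - 1) + 4 * s)

/-- the exits of the four strands of `e` from `BB r`: the exit number `i` (counterclockwise from the
West) is the exit of the strand `i + a`, on the side `σ i`, in the row `y i - 1` -/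
def GI (r s : ℤ) (e : ℤ × ℤ) (a : Fin 4) (σ y h : Fin 4 → ℤ) (ω : Finset (ℤ × ℤ)) : Prop :=
  ∀ i, Row s (y i) (h i) ∧ Ext (BB r) e ω (i + a) (crn (σ i) (2 * r + 1, h i))

/-- the hits of the hole `BB k` by the four strands of `e'`; `B` is the complement of the hole in a
big box -/
def GO (k s : ℤ) (B : Finset (ℤ × ℤ)) (e' : ℤ × ℤ) (b : Fin 4) (τ z h : Fin 4 → ℤ)
    (ω : Finset (ℤ × ℤ)) : Prop :=
  ∀ j, Row s (-z j) (h j) ∧ Ext B e' ω (b - j) (crn (τ j + 2) (-(2 * k), h j))

/-- separated exits (inner box) -/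
def InSep (r s R0 : ℤ) (e : ℤ × ℤ) (ω : Finset (ℤ × ℤ)) : Prop :=
  ∃ (a : Fin 4) (σ y h : Fin 4 → ℤ), Keys (R0 - 10) 8 σ y ∧ GI r s e a σ y h ω

/-- separated hits (hole) -/
def OutSep (k s K0 : ℤ) (B : Finset (ℤ × ℤ)) (e' : ℤ × ℤ) (ω : Finset (ℤ × ℤ)) : Prop :=
  ∃ (b : Fin 4) (τ z h : Fin 4 → ℤ), Keys (K0 - 70) 8 τ z ∧ GO k s B e' b τ z h ω

/-- `e` is pivotal for the connection of the ends of `e'` outside `e'` -/
def Pv (e' e : ℤ × ℤ) (ω : Finset (ℤ × ℤ)) : Prop :=
  Co ((insert e ω).erase e') (vx (zu e')) (vx (zv e')) ∧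
  ¬ Co ((ω.erase e).erase e') (vx (zu e')) (vx (zv e'))

/-- both colours: all `w × 2w` rectangles, `w ≤ M`, are crossed with probability at least `c` -/
def RSM (q : ℤ × ℤ → ℝ) (c : ℝ) (M : ℤ) : Prop :=
  ∀ w, 1 ≤ w → w ≤ M → RS q c w ∧ RS (fun e => 1 - q (e - (1, 1))) c w

end Pool.Agent.H81.NC
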