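import Mathlib
import Pool.Agent.H81.NC.Defs
import Pool.Agent.H99.NC.Prob

set_option autoImplicit false
open Finset

/-! Probabilities of rotated hooks and of dual arms (job NC-P123). -/

namespace Pool.Agent.H81.NC

open Pool.Agent.H75.Perc Pool.Agent.H75.TwoArm Pool.Agent.H75.Four Pool.Agent.H99.NC

/-- Rotation by a right angle about the point `(t/2, t/2)` of the plane, `t = s`. -/
def syR (s : ℤ) : Sy where
  g u := (s - u.2, u.1)
  g' u := (u.2, s - u.1)
  G := ⟨fun e => (2 * s - e.2, e.1), by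
    intro a b h
    have h1 := congrArg Prod.fst h
    have h2 := congrArg Prod.snd h
    simp only at h1 h2
    exact Prod.ext (by omega) (by omega)⟩
  G' e := (e.2, 2 * s - e.1)
  gg' u := by simp
  g'g u := by simp
  GG' e := by
    refine Prod.ext ?_ ?_ <;> simp only [Function.Embedding.coeFn_mk]; ring
  add u v := by
    refine Prod.ext ?_ ?_ <;>
    simp only [Function.Embedding.coeFn_mk, Prod.fst_add, Prod.snd_add]; ring
  unit u v := by
    constructor
    · intro h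
      have h1 := unit_cases h
      unfold IsUnit4
      simp only [Prod.ext_iff, Prod.fst_sub, Prod.snd_sub]
      omega
    · intro h
      have h1 := unit_cases h
      simp only at h1
      unfold IsUnit4
      simp only [Prod.ext_iff, Prod.fst_sub, Prod.snd_sub]
      omega

lemma syR_mem (s : ℤ) {a b c d : ℤ} (e : ℤ × ℤ) :
    e ∈ Bx (s - d) (s - c) a b ↔ (syR s).G' e ∈ Bx a b c d := by
  rw [mem_Bx, mem_Bx]
  simp only [syR]
  omega

lemma HC_of_rot (s : ℤ) {a b c d : ℤ} {ω : Finset (ℤ × ℤ)}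
    (h : VC (s - d) (s - c) a b (ω.map (syR s).G)) : HC a b c d ω := by
  obtain ⟨p, q, h1, h2, h3, h4⟩ := h
  rw [(syR s).map_inter ω (fun e => syR_mem s (a := a) (b := b) (c := c) (d := d) e),
    ← (syR s).gg' p, ← (syR s).gg' q, (syR s).co_iff] at h4
  refine ⟨_, _, ?_, ?_, ?_, h4⟩
  · unfold inB at h1 ⊢
    simp only [syR]
    omega
  · exact h2
  · exact h3

lemma VC_of_rot (s : ℤ) {a b c d : ℤ} {ω : Finset (ℤ × ℤ)}
    (h : HC (s - d) (s - c) a b (ω.map (syR s).G)) : VC a b c d ω := by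
  obtain ⟨p, q, h1, h2, h3, h4⟩ := h
  rw [(syR s).map_inter ω (fun e => syR_mem s (a := a) (b := b) (c := c) (d := d) e),
    ← (syR s).gg' p, ← (syR s).gg' q, (syR s).co_iff] at h4
  have hp : inB a b c d ((syR s).g' p) := by
    unfold inB at h1 ⊢
    simp only [syR]
    omega
  refine ⟨_, _, h4.inB inter_subset_right hp, ?_, ?_, h4.symm⟩
  · simp only [syR]; omega
  · simp only [syR]; omega

/-- The crossing hypothesis is invariant under rotations. -/
lemma RS.rot (s : ℤ) {q : ℤ × ℤ → ℝ} (hq : Pb q) {c : ℝ} {w : ℤ} (h : RS q c w) :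
    RS (fun e => q (2 * s - e.2, e.1)) c w := by
  have hq' : Pb fun e : ℤ × ℤ => q (2 * s - e.2, e.1) := fun e => hq _
  intro a b
  constructor
  · have h1 := (h (s - (b + w)) a).2
    have e1 : s - (b + w) + w = s - b := by ring
    rw [e1] at h1
    refine h1.trans ?_
    rw [← (syR s).map_eq (fun e => syR_mem s (a := a) (b := a + 2 * w) (c := b) (d := b + w) e),
      PrP_map]
    exact PrP_mono hq' fun ω _ hω => HC_of_rot s hω
  · have h1 := (h (s - (b + 2 * w)) a).1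
    have e1 : s - (b + 2 * w) + 2 * w = s - b := by ring
    rw [e1] at h1
    refine h1.trans ?_
    rw [← (syR s).map_eq (fun e => syR_mem s (a := a) (b := a + w) (c := b) (d := b + 2 * w) e),
      PrP_map]
    exact PrP_mono hq' fun ω _ hω => VC_of_rot s hω

lemma RS.congr {q q' : ℤ × ℤ → ℝ} (h : ∀ e, q e = q' e) {c : ℝ} {w : ℤ} (hr : RS q c w) :
    RS q' c w := by
  have : q = q' := funext h
  rwa [← this]

/-- all rotations about `(s/2, s/2)` -/
lemma RS.ro (s φ : ℤ) {q : ℤ × ℤ → ℝ} (hq : Pb q) {c : ℝ} {w : ℤ} (h : RS q c w) :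
    RS (fun e => q (NC.ro φ (e - (s, s)) + (s, s))) c w := by
  have h1 := h.rot s hq
  have q1 : Pb fun e : ℤ × ℤ => q (2 * s - e.2, e.1) := fun e => hq _
  have h2 := h1.rot s q1
  have q2 : Pb fun e : ℤ × ℤ => q (2 * s - e.1, 2 * s - e.2) := fun e => hq _
  simp only at h2
  have h3 := h2.rot s q2
  simp only at h3
  have hφ : φ % 4 = 0 ∨ φ % 4 = 1 ∨ φ % 4 = 2 ∨ φ % 4 = 3 := by omega
  rcases hφ with e | e | e | e
  · refine h.congr fun x => ?_
    congr 1
    unfold NC.ro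
    rw [if_pos e]
    simp
  · refine h1.congr fun x => ?_
    congr 1
    unfold NC.ro
    rw [if_neg (by omega), if_pos e]
    refine Prod.ext ?_ ?_ <;> simp only [Prod.fst_add, Prod.snd_add, Prod.fst_sub, Prod.snd_sub]
      <;> ring
  · refine h2.congr fun x => ?_
    congr 1
    unfold NC.ro
    rw [if_neg (by omega), if_neg (by omega), if_pos e]
    refine Prod.ext ?_ ?_ <;> simp only [Prod.fst_add, Prod.snd_add, Prod.fst_sub, Prod.snd_sub]
      <;> ring
  · refine h3.congr fun x => ?_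
    congr 1
    unfold NC.ro
    rw [if_neg (by omega), if_neg (by omega), if_neg (by omega)]
    refine Prod.ext ?_ ?_ <;> simp only [Prod.fst_add, Prod.snd_add, Prod.fst_sub, Prod.snd_sub]
      <;> ring

/-- transport of probabilities to the frame `φ` -/
lemma PrP_FR (φ : ℤ) (q : ℤ × ℤ → ℝ) (E : Finset (ℤ × ℤ)) (A : Finset (ℤ × ℤ) → Prop) :
    PrP q E (fun ω => A (FR φ ω)) = PrP (fun e => q (NC.ro φ e)) (FR φ E) A := by
  unfold FR
  rw [PrP_map]
  have e : (fun e => q (NC.ro φ ((syO (-φ)).G e))) = q := by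
    funext x
    congr 1
    have h := (syO φ).GG' x
    exact h
  rw [e]

/-- P1. rotated open hook -/
theorem prob_HO {q : ℤ × ℤ → ℝ} (hq : Pb q) {c : ℝ} (hc : 0 ≤ c) (hc1 : c ≤ 1) {s : ℤ}
    (hs : 1 ≤ s) (h : RS q c s) {φ X hh : ℤ} {E : Finset (ℤ × ℤ)}
    (hE : cs ((X + 1) / 2, hh / 2) s CC ⊆ FR φ E) : c ^ (4 * CC.card) ≤ PrP q E (HO φ X hh s) := by
  have h1 : PrP q E (HO φ X hh s) = PrP (fun e => q (NC.ro φ e)) (FR φ E)
      (Net ((X + 1) / 2, hh / 2) s CC) := PrP_FR φ q E _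
  rw [h1]
  refine RS.Net (fun e => hq _) hc hc1 (by omega) ?_ hE
  refine (h.ro 0 φ hq).congr fun e => ?_
  have e0 : ((0 : ℤ), (0 : ℤ)) = 0 := rfl
  rw [e0, sub_zero, add_zero]

/-- the dual configuration in the frame `φ` -/
lemma du_FRA (φ : ℤ) (E ω : Finset (ℤ × ℤ)) : du (FR φ E) (FR φ ω) = (FR φ (E \ ω)).map sh1 := by
  unfold du FR
  rw [← Finset.map_sdiff]

/-- P2. rotated dual hook -/
theorem prob_HD {q : ℤ × ℤ → ℝ} (hq : Pb q) {c : ℝ} (hc : 0 ≤ c) (hc1 : c ≤ 1) {s : ℤ}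
    (hs : 1 ≤ s) (h : RS (fun e => 1 - q (e - (1, 1))) c s) {φ X hh : ℤ} {E : Finset (ℤ × ℤ)}
    (hE : cs ((X + 2) / 2, (hh + 1) / 2) s CC ⊆ (FR φ E).map sh1) :
    c ^ (4 * CC.card) ≤ PrP q E (HD φ X hh s E) := by
  have hQ : Pb fun e : ℤ × ℤ => 1 - q (e - (1, 1)) := fun e => by
    have := hq (e - (1, 1))
    exact ⟨by linarith [this.2], by linarith [this.1]⟩
  have h1 : PrP q E (HD φ X hh s E) =
      PrP (fun e => 1 - q e) E (fun ω => Net ((X + 2) / 2, (hh + 1) / 2) s CC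
        ((FR φ ω).map sh1)) := by
    rw [PrP_compl]
    refine PrP_congr fun ω _ => ?_
    unfold HD
    rw [du_FRA]
  have h2 : PrP (fun e => 1 - q e) E (fun ω => Net ((X + 2) / 2, (hh + 1) / 2) s CC
        ((FR φ ω).map sh1)) = PrP (fun e => 1 - q (NC.ro φ e)) (FR φ E)
        (fun ω => Net ((X + 2) / 2, (hh + 1) / 2) s CC (ω.map sh1)) :=
    PrP_FR φ (fun e => 1 - q e) E (fun ω => Net ((X + 2) / 2, (hh + 1) / 2) s CC (ω.map sh1))
  have h3 : PrP (fun e => 1 - q (NC.ro φ e)) (FR φ E)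
        (fun ω => Net ((X + 2) / 2, (hh + 1) / 2) s CC (ω.map sh1)) =
      PrP (fun e => 1 - q (NC.ro φ (e - (1, 1)))) ((FR φ E).map sh1)
        (Net ((X + 2) / 2, (hh + 1) / 2) s CC) := by
    rw [PrP_map]
    have e1 : (fun e => 1 - q (NC.ro φ (sh1 e - (1, 1)))) = fun e => 1 - q (NC.ro φ e) := by
      funext e
      have : sh1 e - (1, 1) = e := by
        refine Prod.ext ?_ ?_ <;> simp [sh1]
      rw [this]
    rw [e1]
  rw [h1, h2, h3]
  refine RS.Net (fun e => ?_) hc hc1 (by omega) ?_ hE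
  · have := hq (NC.ro φ (e - (1, 1)))
    exact ⟨by linarith [this.2], by linarith [this.1]⟩
  · refine (h.ro 1 φ hQ).congr fun e => ?_
    simp only [add_sub_cancel_right]

/-- P3. dual arm -/
theorem prob_ND {q : ℤ × ℤ → ℝ} (hq : Pb q) {c : ℝ} (hc : 0 ≤ c) (hc1 : c ≤ 1) {s : ℤ}
    (hs : 1 ≤ s) (h : RS (fun e => 1 - q (e - (1, 1))) c (8 * s)) {S E : Finset (ℤ × ℤ)}
    (hE : cs (-(4 * s), -(4 * s)) (8 * s) S ⊆ E.map sh1) :
    c ^ (4 * S.card) ≤ PrP q E (ND s S E) := by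
  have h1 : PrP q E (ND s S E) = PrP (fun e => 1 - q (e - (1, 1))) (E.map sh1)
      (Net (-(4 * s), -(4 * s)) (8 * s) S) := by
    rw [PrP_map]
    have e1 : (fun e => 1 - q (sh1 e - (1, 1))) = fun e => 1 - q e := by
      funext e
      have : sh1 e - (1, 1) = e := by
        refine Prod.ext ?_ ?_ <;> simp [sh1]
      rw [this]
    rw [e1, PrP_compl]
    rfl
  rw [h1]
  refine RS.Net (fun e => ?_) hc hc1 (by omega) h hE
  have := hq (e - (1, 1))
  exact ⟨by linarith [this.2], by linarith [this.1]⟩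

end Pool.Agent.H81.NC
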