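import Mathlib
import Pool.Agent.H81.NC.Defs
import Pool.Agent.H99.NC.Prob
import Pool.Agent.H81.NC.ProbA

set_option autoImplicit false
open Finset

/-! Probability of the whole fresh event (spec NC-P4). -/

namespace Pool.Agent.H81.NC

open Pool.Agent.H75.Perc Pool.Agent.H75.TwoArm Pool.Agent.H75.Four Pool.Agent.H99.NC

/-- the labels at distance at most `d` from the cells of `S` (mesh `8s`, centred) -/
noncomputable def nb (s d : ℤ) (S E : Finset (ℤ × ℤ)) : Finset (ℤ × ℤ) :=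
  by classical exact E.filter (fun l => ∃ c ∈ S,
    (16 * s * c.1 - 8 * s - 2 * d ≤ l.1 ∧ l.1 ≤ 16 * s * c.1 + 8 * s + 2 * d) ∧
    (16 * s * c.2 - 8 * s - 2 * d ≤ l.2 ∧ l.2 ≤ 16 * s * c.2 + 8 * s + 2 * d))

/-- the event of one arm of the fresh configuration: `κ` even open, odd dual; hooks at the inner end
(frame `φ1`, parameter `X1`, height `h1`) and at the outer end (frame `φ2`, ...). If `two = false` the
second hook is omitted. -/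
def ArmE (s : ℤ) (κ : Fin 4) (S : Finset (ℤ × ℤ)) (φ1 X1 h1 : ℤ) (two : Prop) (φ2 X2 h2 : ℤ)
    (E ω : Finset (ℤ × ℤ)) : Prop :=
  ((κ = 0 ∨ κ = 2) → NO s S ω ∧ HO φ1 X1 h1 s ω ∧ (two → HO φ2 X2 h2 s ω)) ∧
  ((κ = 1 ∨ κ = 3) → ND s S E ω ∧ HD φ1 X1 h1 s E ω ∧ (two → HD φ2 X2 h2 s E ω))

namespace ProbB

lemma mem_nb {s d : ℤ} {S E : Finset (ℤ × ℤ)} {l : ℤ × ℤ} : l ∈ nb s d S E ↔ l ∈ E ∧ ∃ c ∈ S,
    (16 * s * c.1 - 8 * s - 2 * d ≤ l.1 ∧ l.1 ≤ 16 * s * c.1 + 8 * s + 2 * d) ∧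
    (16 * s * c.2 - 8 * s - 2 * d ≤ l.2 ∧ l.2 ≤ 16 * s * c.2 + 8 * s + 2 * d) := by
  unfold nb
  rw [mem_filter]

lemma ro_ro_neg (φ : ℤ) (x : ℤ × ℤ) : ro φ (ro (-φ) x) = x := (syO φ).gg' x

lemma ro_neg_ro (φ : ℤ) (x : ℤ × ℤ) : ro (-φ) (ro φ x) = x := (syO φ).g'g x

lemma mem_FR' {φ : ℤ} {ω : Finset (ℤ × ℤ)} {l : ℤ × ℤ} : l ∈ FR φ ω ↔ ro φ l ∈ ω := by
  unfold FR
  rw [mem_map]
  constructor
  · rintro ⟨x, hx, rfl⟩
    change ro φ (ro (-φ) x) ∈ ω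
    rwa [ro_ro_neg]
  · intro h
    refine ⟨ro φ l, h, ?_⟩
    change ro (-φ) (ro φ l) = l
    exact ro_neg_ro φ l

lemma mem_map_sh1 {E : Finset (ℤ × ℤ)} {l : ℤ × ℤ} : l ∈ E.map sh1 ↔ (l.1 - 1, l.2 - 1) ∈ E := by
  rw [mem_map]
  constructor
  · rintro ⟨x, hx, rfl⟩
    change (x.1 + 1 - 1, x.2 + 1 - 1) ∈ E
    simpa using hx
  · intro h
    refine ⟨_, h, ?_⟩
    change (l.1 - 1 + 1, l.2 - 1 + 1) = l
    simp

lemma CC_bd {c : ℤ × ℤ} (h : c ∈ CC) : (-2 ≤ c.1 ∧ c.1 ≤ 9) ∧ (-2 ≤ c.2 ∧ c.2 ≤ 1) := by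
  unfold CC at h
  rw [mem_union, mem_union, mem_pc, mem_pc, mem_pc] at h
  rcases h with (⟨t, h1, h2, rfl⟩ | ⟨t, h1, h2, rfl⟩) | ⟨t, h1, h2, rfl⟩ <;> simp only <;> omega

/-- the labels of a hook -/
lemma hook_bd {o : ℤ × ℤ} {s : ℤ} (hs : 1 ≤ s) {l : ℤ × ℤ} (h : l ∈ cs o s CC) :
    (2 * o.1 - 4 * s ≤ l.1 ∧ l.1 ≤ 2 * o.1 + 20 * s) ∧
    (2 * o.2 - 4 * s ≤ l.2 ∧ l.2 ≤ 2 * o.2 + 4 * s) ∧ (l.1 + l.2) % 2 = 1 := by
  obtain ⟨c, hc, hl⟩ := mem_cs.1 h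
  obtain ⟨⟨a1, a2⟩, a3, a4⟩ := CC_bd hc
  unfold cell at hl
  rw [mem_Bx] at hl
  obtain ⟨⟨b1, b2⟩, ⟨b3, b4⟩, b5⟩ := hl
  refine ⟨⟨?_, ?_⟩, ⟨?_, ?_⟩, b5⟩ <;> nlinarith

section cover

variable {s : ℤ} (hs : 3 ≤ s) {S E : Finset (ℤ × ℤ)}
  (hE : ∀ l : ℤ × ℤ, (l.1 + l.2) % 2 = 1 → (∃ c ∈ S,
      (16 * s * c.1 - 16 * s ≤ l.1 ∧ l.1 ≤ 16 * s * c.1 + 16 * s) ∧
      (16 * s * c.2 - 16 * s ≤ l.2 ∧ l.2 ≤ 16 * s * c.2 + 16 * s)) → l ∈ E)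

include hE in
lemma mem_nb_of {l : ℤ × ℤ} (hp : (l.1 + l.2) % 2 = 1) {c : ℤ × ℤ} (hc : c ∈ S)
    (h1 : 16 * s * c.1 - 16 * s ≤ l.1) (h2 : l.1 ≤ 16 * s * c.1 + 16 * s)
    (h3 : 16 * s * c.2 - 16 * s ≤ l.2) (h4 : l.2 ≤ 16 * s * c.2 + 16 * s) :
    l ∈ nb s (4 * s) S E := by
  rw [mem_nb]
  refine ⟨hE l hp ⟨c, hc, ⟨h1, h2⟩, h3, h4⟩, c, hc, ⟨?_, ?_⟩, ?_, ?_⟩ <;> linarith

include hs hE in
/-- cells of the arm -/
lemma cov_a : cs (-(4 * s), -(4 * s)) (8 * s) S ⊆ nb s (4 * s) S E := by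
  intro l hl
  obtain ⟨c, hc, hl⟩ := mem_cs.1 hl
  unfold cell at hl
  rw [mem_Bx] at hl
  obtain ⟨⟨b1, b2⟩, ⟨b3, b4⟩, b5⟩ := hl
  simp only at b1 b2 b3 b4
  exact mem_nb_of hE b5 hc (by linarith) (by linarith) (by linarith) (by linarith)

include hs hE in
/-- cells of a dual arm -/
lemma cov_c : cs (-(4 * s), -(4 * s)) (8 * s) S ⊆ (nb s (4 * s) S E).map sh1 := by
  intro l hl
  obtain ⟨c, hc, hl⟩ := mem_cs.1 hl
  unfold cell at hl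
  rw [mem_Bx] at hl
  obtain ⟨⟨b1, b2⟩, ⟨b3, b4⟩, b5⟩ := hl
  simp only at b1 b2 b3 b4
  rw [mem_map_sh1]
  exact mem_nb_of hE (by simp only; omega) hc (by simp only; linarith) (by simp only; linarith)
    (by simp only; linarith) (by simp only; linarith)

include hE in
/-- a rotated window -/
lemma cov_win {φ y ρ : ℤ} (hφ : -2 ≤ φ ∧ φ ≤ 4) (hm : rad φ (y - 1) ρ ∈ S) {l : ℤ × ℤ}
    (hp : (l.1 + l.2) % 2 = 1) (h1 : 16 * s * ρ - 16 * s ≤ l.1) (h2 : l.1 ≤ 16 * s * ρ + 16 * s)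
    (h3 : 16 * s * (y - 1) - 16 * s ≤ l.2) (h4 : l.2 ≤ 16 * s * (y - 1) + 16 * s) :
    ro φ l ∈ nb s (4 * s) S E := by
  have hc : φ % 4 = 0 ∨ φ % 4 = 1 ∨ φ % 4 = 2 ∨ φ % 4 = 3 := by omega
  unfold rad at hm
  rcases hc with hc | hc | hc | hc
  · have e : ∀ c, ro φ c = c := fun c => by unfold ro; rw [if_pos hc]
    rw [e] at hm ⊢
    exact mem_nb_of hE hp hm h1 h2 h3 h4
  · have e : ∀ c, ro φ c = (-c.2, c.1) := fun c => by
      unfold ro; rw [if_neg (by omega), if_pos hc]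
    rw [e] at hm ⊢
    exact mem_nb_of hE (by simp only; omega) hm (by simp only; linarith) (by simp only; linarith)
      (by simp only; linarith) (by simp only; linarith)
  · have e : ∀ c, ro φ c = (-c.1, -c.2) := fun c => by
      unfold ro; rw [if_neg (by omega), if_neg (by omega), if_pos hc]
    rw [e] at hm ⊢
    exact mem_nb_of hE (by simp only; omega) hm (by simp only; linarith) (by simp only; linarith)
      (by simp only; linarith) (by simp only; linarith)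
  · have e : ∀ c, ro φ c = (c.2, -c.1) := fun c => by
      unfold ro; rw [if_neg (by omega), if_neg (by omega), if_neg (by omega)]
    rw [e] at hm ⊢
    exact mem_nb_of hE (by simp only; omega) hm (by simp only; linarith) (by simp only; linarith)
      (by simp only; linarith) (by simp only; linarith)

include hs hE in
/-- an open hook -/
lemma cov_b {φ y ρ X h : ℤ} (hφ : -2 ≤ φ ∧ φ ≤ 4) (hm : rad φ (y - 1) ρ ∈ S) (r : Row s y h)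
    (x1 : 2 * (8 * s * ρ - 4 * s) - 2 * s - 1 ≤ X) (x2 : X ≤ 2 * (8 * s * ρ - 4 * s) - 3) :
    cs ((X + 1) / 2, h / 2) s CC ⊆ FR φ (nb s (4 * s) S E) := by
  intro l hl
  obtain ⟨⟨a1, a2⟩, ⟨a3, a4⟩, a5⟩ := hook_bd (by omega) hl
  simp only at a1 a2 a3 a4
  rw [mem_FR']
  obtain ⟨r1, r2⟩ := r
  have g1 : X ≤ 2 * ((X + 1) / 2) := by omega
  have g2 : 2 * ((X + 1) / 2) ≤ X + 1 := by omega
  have g3 : h - 1 ≤ 2 * (h / 2) := by omega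
  have g4 : 2 * (h / 2) ≤ h := by omega
  exact cov_win hE hφ hm a5 (by linarith) (by linarith) (by linarith) (by linarith)

include hs hE in
/-- a dual hook -/
lemma cov_d {φ y ρ X h : ℤ} (hφ : -2 ≤ φ ∧ φ ≤ 4) (hm : rad φ (y - 1) ρ ∈ S) (r : Row s y h)
    (x1 : 2 * (8 * s * ρ - 4 * s) - 2 * s - 1 ≤ X) (x2 : X ≤ 2 * (8 * s * ρ - 4 * s) - 3) :
    cs ((X + 2) / 2, (h + 1) / 2) s CC ⊆ (FR φ (nb s (4 * s) S E)).map sh1 := by
  intro l hl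
  obtain ⟨⟨a1, a2⟩, ⟨a3, a4⟩, a5⟩ := hook_bd (by omega) hl
  simp only at a1 a2 a3 a4
  rw [mem_map_sh1, mem_FR']
  obtain ⟨r1, r2⟩ := r
  have g1 : X + 1 ≤ 2 * ((X + 2) / 2) := by omega
  have g2 : 2 * ((X + 2) / 2) ≤ X + 2 := by omega
  have g3 : h ≤ 2 * ((h + 1) / 2) := by omega
  have g4 : 2 * ((h + 1) / 2) ≤ h + 1 := by omega
  exact cov_win hE hφ hm (by simp only; omega) (by simp only; linarith) (by simp only; linarith)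
    (by simp only; linarith) (by simp only; linarith)

end cover

/-! ### Locality -/

lemma FR_inter (φ : ℤ) (ω E : Finset (ℤ × ℤ)) : FR φ (ω ∩ E) = FR φ ω ∩ FR φ E := by
  ext l
  rw [mem_FR', mem_inter, mem_inter, mem_FR', mem_FR']

lemma FR_sub {φ : ℤ} {ω E : Finset (ℤ × ℤ)} (h : ω ⊆ E) : FR φ ω ⊆ FR φ E := map_subset_map.2 h

lemma HO_loc {φ X h s : ℤ} {ω E' : Finset (ℤ × ℤ)} (hE : cs ((X + 1) / 2, h / 2) s CC ⊆ FR φ E') :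
    HO φ X h s (ω ∩ E') ↔ HO φ X h s ω := by
  unfold HO
  rw [FR_inter]
  exact Net_inter hE

lemma HD_loc {φ X h s : ℤ} {E ω E' : Finset (ℤ × ℤ)} (hE' : E' ⊆ E)
    (hE : cs ((X + 2) / 2, (h + 1) / 2) s CC ⊆ (FR φ E').map sh1) :
    HD φ X h s E' (ω ∩ E') ↔ HD φ X h s E ω := by
  unfold HD
  rw [FR_inter, ← RswAux.du_inter (FR_sub hE')]
  exact Net_inter hE

lemma NO_loc {s : ℤ} {S ω E' : Finset (ℤ × ℤ)} (hE : cs (-(4 * s), -(4 * s)) (8 * s) S ⊆ E') :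
    NO s S (ω ∩ E') ↔ NO s S ω := Net_inter hE

lemma ND_loc {s : ℤ} {S E ω E' : Finset (ℤ × ℤ)} (hE' : E' ⊆ E)
    (hE : cs (-(4 * s), -(4 * s)) (8 * s) S ⊆ E'.map sh1) :
    ND s S E' (ω ∩ E') ↔ ND s S E ω := by
  unfold ND
  rw [← RswAux.du_inter hE']
  exact Net_inter hE

/-! ### Independence and Harris -/

lemma PrP_indep_fin {α ι : Type*} [DecidableEq α] [DecidableEq ι] (q : α → ℝ) (s : Finset ι)
    (F : ι → Finset α) (A : ι → Finset α → Prop) {E : Finset α} (h : ∀ i ∈ s, F i ⊆ E)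
    (hd : ∀ i ∈ s, ∀ j ∈ s, i ≠ j → Disjoint (F i) (F j)) :
    PrP q E (fun ω => ∀ i ∈ s, A i (ω ∩ F i)) = ∏ i ∈ s, PrP q (F i) (A i) := by
  induction s using Finset.induction_on generalizing E with
  | empty => simp
  | insert i s hi ih =>
    have h1 : s.biUnion F ⊆ E := biUnion_subset.2 fun j hj => h j (mem_insert_of_mem hj)
    have h2 : Disjoint (F i) (s.biUnion F) := by
      rw [disjoint_biUnion_right]
      intro j hj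
      exact hd i (mem_insert_self _ _) j (mem_insert_of_mem hj) fun e => hi (e ▸ hj)
    have h3 := ih (E := s.biUnion F) (fun j hj => subset_biUnion_of_mem F hj)
      (fun j hj k hk => hd j (mem_insert_of_mem hj) k (mem_insert_of_mem hk))
    have h4 := PrP_indep q (h i (mem_insert_self _ _)) h1 h2 (A i)
      (fun η => ∀ j ∈ s, A j (η ∩ F j))
    rw [prod_insert hi, ← h3, ← h4]
    refine PrP_congr fun ω _ => ?_
    have h5 : ∀ j ∈ s, ω ∩ s.biUnion F ∩ F j = ω ∩ F j := fun j hj => by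
      rw [inter_assoc, inter_eq_right.2 (subset_biUnion_of_mem F hj)]
    constructor
    · intro h6
      exact ⟨h6 i (mem_insert_self _ _), fun j hj => by
        rw [h5 j hj]; exact h6 j (mem_insert_of_mem hj)⟩
    · rintro ⟨h6, h7⟩ j hj
      rcases mem_insert.1 hj with rfl | hj'
      · exact h6
      · have := h7 j hj'
        rwa [h5 j hj'] at this

/-- three increasing events, the third one optional -/
lemma harris3 {α : Type*} [DecidableEq α] {q : α → ℝ} (hq : Pb q) {E : Finset α}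
    {A B C : Finset α → Prop} {two : Prop} (hA : Inc A) (hB : Inc B) (hC : Inc C) {a b : ℝ}
    (hb : 0 ≤ b) (hb1 : b ≤ 1) (h1 : a ≤ PrP q E A) (h2 : b ≤ PrP q E B)
    (h3 : two → b ≤ PrP q E C) : a * (b * b) ≤ PrP q E (fun ω => A ω ∧ B ω ∧ (two → C ω)) := by
  have hC' : Inc (fun ω => two → C ω) := fun ω ω' h hh t => hC ω ω' h (hh t)
  have h4 : b ≤ PrP q E (fun ω => two → C ω) := by
    by_cases t : two
    · exact (h3 t).trans (PrP_mono hq fun ω _ hω _ => hω)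
    · rw [← PrP_true q E] at hb1
      exact hb1.trans (PrP_mono hq fun ω _ _ t' => absurd t' t)
  have h5 := PrP_harris hq E hB hC'
  have hBC : Inc (fun ω => B ω ∧ (two → C ω)) := fun ω ω' h hh => ⟨hB ω ω' h hh.1, hC' ω ω' h hh.2⟩
  have h6 := PrP_harris hq E hA hBC
  refine le_trans ?_ h6
  have h7 : b * b ≤ PrP q E (fun ω => B ω ∧ (two → C ω)) :=
    (mul_le_mul h2 h4 hb (PrP_nonneg hq _ _)).trans h5
  exact mul_le_mul h1 h7 (mul_nonneg hb hb) (PrP_nonneg hq _ _)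

/-- the probability of one arm -/
lemma arm_prob {q : ℤ × ℤ → ℝ} (hq : Pb q) {c : ℝ} (hc : 0 ≤ c) (hc1 : c ≤ 1) {s : ℤ}
    (hs : 3 ≤ s) (h : RSM q c (8 * s)) {κ : Fin 4} {S E : Finset (ℤ × ℤ)}
    {φ1 X1 h1 φ2 X2 h2 : ℤ} {two : Prop} {N : ℕ} (hN : S.card ≤ N)
    (a : cs (-(4 * s), -(4 * s)) (8 * s) S ⊆ E)
    (a' : cs (-(4 * s), -(4 * s)) (8 * s) S ⊆ E.map sh1)
    (b : cs ((X1 + 1) / 2, h1 / 2) s CC ⊆ FR φ1 E)
    (b' : cs ((X1 + 2) / 2, (h1 + 1) / 2) s CC ⊆ (FR φ1 E).map sh1)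
    (d : two → cs ((X2 + 1) / 2, h2 / 2) s CC ⊆ FR φ2 E)
    (d' : two → cs ((X2 + 2) / 2, (h2 + 1) / 2) s CC ⊆ (FR φ2 E).map sh1) :
    c ^ (4 * (N + 2 * CC.card)) ≤
      PrP q E (fun ω => ArmE s κ S φ1 X1 h1 two φ2 X2 h2 E ω) := by
  have hpow : c ^ (4 * (N + 2 * CC.card)) ≤ c ^ (4 * S.card) * (c ^ (4 * CC.card) *
      c ^ (4 * CC.card)) := by
    rw [← pow_add, ← pow_add]
    exact pow_le_pow_of_le_one hc hc1 (by omega)
  refine hpow.trans ?_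
  have hCC0 : 0 ≤ c ^ (4 * CC.card) := pow_nonneg hc _
  have hCC1 : c ^ (4 * CC.card) ≤ 1 := pow_le_one₀ hc hc1
  have hS0 : 0 ≤ c ^ (4 * S.card) := pow_nonneg hc _
  obtain ⟨r1, r1'⟩ := h (8 * s) (by omega) le_rfl
  obtain ⟨r2, r2'⟩ := h s (by omega) (by omega)
  by_cases hk : κ = 0 ∨ κ = 2
  · have hk' : ¬ (κ = 1 ∨ κ = 3) := by
      rcases hk with rfl | rfl <;> decide
    have e : PrP q E (fun ω => ArmE s κ S φ1 X1 h1 two φ2 X2 h2 E ω) =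
        PrP q E (fun ω => NO s S ω ∧ HO φ1 X1 h1 s ω ∧ (two → HO φ2 X2 h2 s ω)) := by
      refine PrP_congr fun ω _ => ?_
      unfold ArmE
      exact ⟨fun hh => hh.1 hk, fun hh => ⟨fun _ => hh, fun h' => absurd h' hk'⟩⟩
    rw [e]
    have iHO : ∀ φ X h, Inc (HO φ X h s) := fun φ X h ω ω' hh hN =>
      Net_inc _ _ _ _ _ (FR_sub hh) hN
    exact harris3 hq (Net_inc _ _ _) (iHO _ _ _) (iHO _ _ _) hCC0 hCC1
      (r1.Net hq hc hc1 (by omega) a) (prob_HO hq hc hc1 (by omega) r2 b)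
      (fun t => prob_HO hq hc hc1 (by omega) r2 (d t))
  · have hk' : κ = 1 ∨ κ = 3 := by
      revert hk; revert κ; decide
    have e : PrP q E (fun ω => ArmE s κ S φ1 X1 h1 two φ2 X2 h2 E ω) =
        PrP q E (fun ω => ND s S E ω ∧ HD φ1 X1 h1 s E ω ∧ (two → HD φ2 X2 h2 s E ω)) := by
      refine PrP_congr fun ω _ => ?_
      unfold ArmE
      exact ⟨fun hh => hh.2 hk', fun hh => ⟨fun h' => absurd h' hk, fun _ => hh⟩⟩
    rw [e]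
    -- pass to the complement
    have hq' : Pb (fun e => 1 - q e) := fun e => ⟨by linarith [(hq e).2], by linarith [(hq e).1]⟩
    have cND : ∀ ω, ω ⊆ E → (ND s S E ω ↔
        (fun η : Finset (ℤ × ℤ) => Net (-(4 * s), -(4 * s)) (8 * s) S (η.map sh1)) (E \ ω)) :=
      fun ω _ => Iff.rfl
    have cHD : ∀ φ X h, ∀ ω, ω ⊆ E → (HD φ X h s E ω ↔ (fun η : Finset (ℤ × ℤ) =>
        Net ((X + 2) / 2, (h + 1) / 2) s CC ((FR φ η).map sh1)) (E \ ω)) := by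
      intro φ X h ω _
      unfold HD du
      beta_reduce
      have : FR φ (E \ ω) = FR φ E \ FR φ ω := by
        ext l
        rw [mem_FR', mem_sdiff, mem_sdiff, mem_FR', mem_FR']
      rw [this]
    have e2 : PrP q E (fun ω => ND s S E ω ∧ HD φ1 X1 h1 s E ω ∧ (two → HD φ2 X2 h2 s E ω)) =
        PrP (fun e => 1 - q e) E (fun η => Net (-(4 * s), -(4 * s)) (8 * s) S (η.map sh1) ∧
          Net ((X1 + 2) / 2, (h1 + 1) / 2) s CC ((FR φ1 η).map sh1) ∧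
          (two → Net ((X2 + 2) / 2, (h2 + 1) / 2) s CC ((FR φ2 η).map sh1))) := by
      rw [PrP_compl]
      refine PrP_congr fun ω hω => ?_
      rw [cND ω hω, cHD _ _ _ ω hω, cHD _ _ _ ω hω]
    have p1 : PrP (fun e => 1 - q e) E (fun η => Net (-(4 * s), -(4 * s)) (8 * s) S (η.map sh1)) =
        PrP q E (ND s S E) := by
      rw [PrP_compl]; exact PrP_congr fun ω hω => (cND ω hω).symm
    have p2 : ∀ φ X h, PrP (fun e => 1 - q e) E (fun η =>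
        Net ((X + 2) / 2, (h + 1) / 2) s CC ((FR φ η).map sh1)) = PrP q E (HD φ X h s E) := by
      intro φ X h
      rw [PrP_compl]; exact PrP_congr fun ω hω => (cHD _ _ _ ω hω).symm
    rw [e2]
    have i1 : Inc (fun η : Finset (ℤ × ℤ) => Net (-(4 * s), -(4 * s)) (8 * s) S (η.map sh1)) :=
      fun ω ω' hh hN => Net_inc _ _ _ _ _ (map_subset_map.2 hh) hN
    have i2 : ∀ φ X h : ℤ, Inc (fun η : Finset (ℤ × ℤ) =>
        Net ((X + 2) / 2, (h + 1) / 2) s CC ((FR φ η).map sh1)) :=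
      fun φ X h ω ω' hh hN => Net_inc _ _ _ _ _ (map_subset_map.2 (FR_sub hh)) hN
    refine harris3 hq' i1 (i2 _ _ _) (i2 _ _ _) hCC0 hCC1 ?_ ?_ ?_
    · rw [p1]; exact prob_ND hq hc hc1 (by omega) r1' a'
    · rw [p2]; exact prob_HD hq hc hc1 (by omega) r2' b'
    · intro t
      rw [p2]; exact prob_HD hq hc hc1 (by omega) r2' (d' t)

lemma nb_disj {s : ℤ} (hs : 3 ≤ s) {S S' E : Finset (ℤ × ℤ)}
    (hfar : ∀ c ∈ S, ∀ c' ∈ S', Far 4 c c') : Disjoint (nb s (4 * s) S E) (nb s (4 * s) S' E) := by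
  rw [Finset.disjoint_left]
  intro l h1 h2
  obtain ⟨-, c, hc, ⟨a1, a2⟩, a3, a4⟩ := mem_nb.1 h1
  obtain ⟨-, c', hc', ⟨b1, b2⟩, b3, b4⟩ := mem_nb.1 h2
  rcases hfar c hc c' hc' with f | f | f | f <;> nlinarith

end ProbB

open ProbB

/-- P4. The whole fresh event. The hooks stay within distance `4 s` of the pair of cells
`rad φ y ρ, rad φ (y-1) ρ`. -/
theorem prob_Y {q : ℤ × ℤ → ℝ} (hq : Pb q) {c : ℝ} (hc : 0 ≤ c) (hc1 : c ≤ 1) {s : ℤ} (hs : 3 ≤ s)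
    (h : RSM q c (8 * s)) {E : Finset (ℤ × ℤ)} {S : Fin 4 → Finset (ℤ × ℤ)} {κ : Fin 4 → Fin 4}
    {φ1 X1 h1 y1 ρ1 φ2 X2 h2 y2 ρ2 : Fin 4 → ℤ} {two : Prop} {N : ℕ}
    (hN : ∀ i, (S i).card ≤ N)
    (hfar : ∀ i j, i ≠ j → ∀ c ∈ S i, ∀ c' ∈ S j, Far 4 c c')
    (hE : ∀ i, ∀ l : ℤ × ℤ, (l.1 + l.2) % 2 = 1 → (∃ c ∈ S i,
      (16 * s * c.1 - 16 * s ≤ l.1 ∧ l.1 ≤ 16 * s * c.1 + 16 * s) ∧
      (16 * s * c.2 - 16 * s ≤ l.2 ∧ l.2 ≤ 16 * s * c.2 + 16 * s)) → l ∈ E)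
    (hφ1 : ∀ i, -2 ≤ φ1 i ∧ φ1 i ≤ 4) (hφ2 : ∀ i, -2 ≤ φ2 i ∧ φ2 i ≤ 4)
    (m1 : ∀ i, rad (φ1 i) (y1 i) (ρ1 i) ∈ S i ∧ rad (φ1 i) (y1 i - 1) (ρ1 i) ∈ S i)
    (m2 : two → ∀ i, rad (φ2 i) (y2 i) (ρ2 i) ∈ S i ∧ rad (φ2 i) (y2 i - 1) (ρ2 i) ∈ S i)
    (r1 : ∀ i, Row s (y1 i) (h1 i)) (r2 : ∀ i, Row s (y2 i) (h2 i))
    (x1 : ∀ i, 2 * (8 * s * ρ1 i - 4 * s) - 2 * s ≤ X1 i ∧ X1 i ≤ 2 * (8 * s * ρ1 i - 4 * s) - 3)
    (x2 : ∀ i, 2 * (8 * s * ρ2 i - 4 * s) - 2 * s - 1 ≤ X2 i ∧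
      X2 i ≤ 2 * (8 * s * ρ2 i - 4 * s) - 3) :
    c ^ (4 * (4 * N + 8 * CC.card)) ≤ PrP q E (fun ω =>
      ∀ i, ArmE s (κ i) (S i) (φ1 i) (X1 i) (h1 i) two (φ2 i) (X2 i) (h2 i) E ω) := by
  set F : Fin 4 → Finset (ℤ × ℤ) := fun i => nb s (4 * s) (S i) E with hF
  have hFE : ∀ i, F i ⊆ E := fun i l hl => (mem_nb.1 hl).1
  have ca : ∀ i, cs (-(4 * s), -(4 * s)) (8 * s) (S i) ⊆ F i := fun i => cov_a hs (hE i)
  have cc : ∀ i, cs (-(4 * s), -(4 * s)) (8 * s) (S i) ⊆ (F i).map sh1 :=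
    fun i => cov_c hs (hE i)
  have cb : ∀ i, cs ((X1 i + 1) / 2, h1 i / 2) s CC ⊆ FR (φ1 i) (F i) := fun i =>
    cov_b hs (hE i) (hφ1 i) (m1 i).2 (r1 i) (by have := (x1 i).1; linarith) (x1 i).2
  have cd : ∀ i, cs ((X1 i + 2) / 2, (h1 i + 1) / 2) s CC ⊆ (FR (φ1 i) (F i)).map sh1 := fun i =>
    cov_d hs (hE i) (hφ1 i) (m1 i).2 (r1 i) (by have := (x1 i).1; linarith) (x1 i).2
  have cb2 : two → ∀ i, cs ((X2 i + 1) / 2, h2 i / 2) s CC ⊆ FR (φ2 i) (F i) := fun t i =>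
    cov_b hs (hE i) (hφ2 i) (m2 t i).2 (r2 i) (x2 i).1 (x2 i).2
  have cd2 : two → ∀ i, cs ((X2 i + 2) / 2, (h2 i + 1) / 2) s CC ⊆ (FR (φ2 i) (F i)).map sh1 :=
    fun t i => cov_d hs (hE i) (hφ2 i) (m2 t i).2 (r2 i) (x2 i).1 (x2 i).2
  have e1 : PrP q E (fun ω =>
      ∀ i, ArmE s (κ i) (S i) (φ1 i) (X1 i) (h1 i) two (φ2 i) (X2 i) (h2 i) E ω) =
      PrP q E (fun ω => ∀ i ∈ (univ : Finset (Fin 4)), (fun i η =>
        ArmE s (κ i) (S i) (φ1 i) (X1 i) (h1 i) two (φ2 i) (X2 i) (h2 i) (F i) η) i (ω ∩ F i)) := by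
    refine PrP_congr fun ω _ => ?_
    simp only [mem_univ, true_implies]
    refine forall_congr' fun i => ?_
    unfold ArmE
    have k1 : (two → HO (φ2 i) (X2 i) (h2 i) s (ω ∩ F i)) ↔ (two → HO (φ2 i) (X2 i) (h2 i) s ω) :=
      ⟨fun hh t => (HO_loc (cb2 t i)).1 (hh t), fun hh t => (HO_loc (cb2 t i)).2 (hh t)⟩
    have k2 : (two → HD (φ2 i) (X2 i) (h2 i) s (F i) (ω ∩ F i)) ↔
        (two → HD (φ2 i) (X2 i) (h2 i) s E ω) :=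
      ⟨fun hh t => (HD_loc (hFE i) (cd2 t i)).1 (hh t),
        fun hh t => (HD_loc (hFE i) (cd2 t i)).2 (hh t)⟩
    rw [NO_loc (ca i), HO_loc (cb i), ND_loc (hFE i) (cc i), HD_loc (hFE i) (cd i), k1, k2]
  rw [e1, PrP_indep_fin q univ F _ (fun i _ => hFE i)
    (fun i _ j _ hij => nb_disj hs (hfar i j hij))]
  have e0 : ∀ K : ℕ, c ^ (4 * (4 * N + 8 * K)) =
      ∏ _i ∈ (univ : Finset (Fin 4)), c ^ (4 * (N + 2 * K)) := by
    intro K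
    rw [prod_const, card_univ, Fintype.card_fin, ← pow_mul]
    congr 1; ring
  have e2 := e0 CC.card
  rw [e2]
  refine prod_le_prod (fun i _ => pow_nonneg hc _) fun i _ => ?_
  exact arm_prob hq hc hc1 hs h (hN i) (ca i) (cc i) (cb i) (cd i) (fun t => cb2 t i)
    (fun t => cd2 t i)

end Pool.Agent.H81.NC
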