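import Mathlib
import Pool.Agent.H81.NC.Defs

set_option autoImplicit false
open Finset

/-! Gluing of four arms: more definitions (windows, closings, the cross event of an edge). -/

namespace Pool.Agent.H81.NC

open Pool.Agent.H75.Perc Pool.Agent.H75.TwoArm Pool.Agent.H75.Four Pool.Agent.H99.NC

/-- the labels of the box of radius `8s` around the centre of the cell `c` -/
noncomputable def hkn (s : ℤ) (c : ℤ × ℤ) : Finset (ℤ × ℤ) :=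
  Bx (8 * s * c.1 - 8 * s) (8 * s * c.1 + 8 * s) (8 * s * c.2 - 8 * s) (8 * s * c.2 + 8 * s)

/-- the labels of the cells of `S` (mesh `8s`, centred) -/
noncomputable def csS (s : ℤ) (S : Finset (ℤ × ℤ)) : Finset (ℤ × ℤ) :=
  cs (-(4 * s), -(4 * s)) (8 * s) S

/-- full vertex of a cell (mesh `8s`, centred) -/
def CFS (s : ℤ) (c : ℤ × ℤ) (ω : Finset (ℤ × ℤ)) (v : ℤ × ℤ) : Prop :=
  CF (-(4 * s), -(4 * s)) (8 * s) c ω v

/-- a closing of the two strands with exits `x1`, `x2` which is a straight ray in the window around the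
exit `(X+1,h)` -/
def ClWin (B : Finset (ℤ × ℤ)) (X h s : ℤ) (x1 x2 : ℤ × ℤ) : Prop :=
  ∃ R, Clo B x1 x2 R ∧ ∀ z : ℤ × ℤ, X + 2 ≤ z.1 → z.1 ≤ X + 22 * s → h - 5 * s + 1 ≤ z.2 →
    z.2 ≤ h + 5 * s → (R z ↔ z.2 = h)

/-- the window around the exit `(X+1,h)`: `B` is on the left of the column `X` -/
def Win (B : Finset (ℤ × ℤ)) (X h s : ℤ) : Prop :=
  (∀ a : ℤ × ℤ, X + 1 ≤ a.1 → a.1 ≤ X + 22 * s → h - 5 * s ≤ a.2 → a.2 ≤ h + 5 * s → a ∉ B) ∧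
  (∀ a : ℤ × ℤ, (a.1 + a.2) % 2 = 1 → X - 5 * s ≤ a.1 → a.1 ≤ X → h - 5 * s ≤ a.2 →
      a.2 ≤ h + 5 * s → a ∈ B)

/-- the cross event of the edge `e` (for `e = (1,0)` it is `H65.Four.CS`) -/
def CSe (R w : ℤ) (e : ℤ × ℤ) (ω : Finset (ℤ × ℤ)) : Prop :=
  ∃ a b f g q0 q1 q2 q3 : ℤ × ℤ,
    ((a = eu e ∧ b = ev e) ∨ (a = ev e ∧ b = eu e)) ∧
    ((f = fi (zu e) ∧ g = fi (zv e)) ∨ (f = fi (zv e) ∧ g = fi (zu e))) ∧
    (q0.1 = R + 4 * w ∧ Co (ω.erase e ∩ Pool.Agent.H65.Four.CR R w 0) a q0) ∧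
    (q1.2 = R + 4 * w ∧ Co (du (BB (R + 8 * w)) (insert e ω) ∩ Pool.Agent.H65.Four.CR R w 1) f q1) ∧
    (q2.1 = -R - 4 * w ∧ Co (ω.erase e ∩ Pool.Agent.H65.Four.CR R w 2) b q2) ∧
    (q3.2 = -R - 4 * w ∧ Co (du (BB (R + 8 * w)) (insert e ω) ∩ Pool.Agent.H65.Four.CR R w 3) g q3)

end Pool.Agent.H81.NC
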