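import Mathlib
import Pool.Agent.H81.NC.Win

set_option autoImplicit false
open Finset

/-! Gluing of four arms: definitions of the third wave (variance, environments, recursions). -/

namespace Pool.Agent.H81.NC

open Pool.Agent.H75.Perc Pool.Agent.H75.TwoArm Pool.Agent.H75.Four Pool.Agent.H99.NC

/-- the four keys in the middle of the sides: South, East, North, West -/
def kσ (i : Fin 4) : ℤ := (i : ℕ) - 1

/-- the line of cells through the inner box: column for `i = 0`, row for `i = 1` -/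
noncomputable def Line (R0 : ℤ) (i : Fin 4) : Finset (ℤ × ℤ) := pc (rad (kσ i) 0) (-(R0 + 1)) (R0 + 1)

/-- the network of the color of the arms `i` and `i + 2` (`i = 0, 1`) -/
noncomputable def TN (R0 K0 : ℤ) (τ z : Fin 4 → ℤ) (i : Fin 4) : Finset (ℤ × ℤ) :=
  Arm R0 K0 0 kσ (fun _ => 0) τ z i ∪ Arm R0 K0 0 kσ (fun _ => 0) τ z (i + 2) ∪ Line R0 i

/-- the wires which turn the left-right crossing of `[a,b] × [c,d]` into the connection of the ends of
the edge `(2a-1, 2c-2)` (between `(a-1,c-1)` and `(a,c-1)`) -/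
noncomputable def WW (a b c d : ℤ) : Finset (ℤ × ℤ) :=
  (Bx (a - 1) (a - 1) (c - 1) d ∪ Bx (b + 1) (b + 1) (c - 1) d ∪
    (Icc c d).image (fun j => (2 * a - 1, 2 * j)) ∪ (Icc c d).image (fun j => (2 * b + 1, 2 * j)) ∪
    Bx (a - 1) (b + 1) (c - 1) (c - 1)).erase (2 * a - 1, 2 * c - 2)

/-- through the same side at distance at most `W` -/
def Close (A B W : ℤ) (x x' : ℤ × ℤ) : Prop :=
  ((x.1 = A ∧ x'.1 = A) ∨ (x.2 = A ∧ x'.2 = A) ∨ (x.1 = B ∧ x'.1 = B) ∨ (x.2 = B ∧ x'.2 = B)) ∧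
  |x.1 - x'.1| ≤ W ∧ |x.2 - x'.2| ≤ W

/-- near a corner of the box of radius `r` -/
def NCor (r W : ℤ) (x : ℤ × ℤ) : Prop := 2 * r - W ≤ |x.1| ∧ 2 * r - W ≤ |x.2|

end Pool.Agent.H81.NC
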