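import Mathlib
import Pool.Agent.H65.Four.Topo
import Pool.Agent.H81.NC.Win
import Pool.Agent.H75.Four.FOther

set_option autoImplicit false
open Finset

/-! Two open and two dual connections between the edges `e` and `e'` make `e` pivotal for the connection
of the ends of `e'`. -/

namespace Pool.Agent.H81.NC

open Pool.Agent.H75.Perc Pool.Agent.H75.TwoArm Pool.Agent.H75.Four Pool.Agent.H99.NC
open Pool.Agent.H65.Four (rr step_kap path_kap)
open Pool.Agent.H63.Perc (AdS CoS)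

lemma Co_CoS {ω : Finset (ℤ × ℤ)} {f g : ℤ × ℤ} (h : Co ω f g) : CoS (↑ω : Set (ℤ × ℤ)) f g := by
  induction h with
  | refl => exact Relation.ReflTransGen.refl
  | tail _ hbc ih => exact Relation.ReflTransGen.tail ih ⟨hbc.1, hbc.2⟩

/-- The colouring by a closed dual circuit through `e*` and `e'*`. -/
theorem colour_pair {E ω : Finset (ℤ × ℤ)} {u v u' v' f g f' g' : ℤ × ℤ}
    (huv : IsUnit4 (v - u)) (hfg : IsUnit4 (g - f)) (he : u + v + (1, 1) = f + g)
    (huv' : IsUnit4 (v' - u')) (hfg' : IsUnit4 (g' - f')) (he' : u' + v' + (1, 1) = f' + g')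
    (hne : u + v ≠ u' + v')
    (h1 : Co (du E (insert (u + v) (insert (u' + v') ω))) f f')
    (h2 : Co (du E (insert (u + v) (insert (u' + v') ω))) g g') :
    ∃ χ : ℤ × ℤ → ℤ, (∀ x y, IsUnit4 (y - x) → x + y ∈ ω → x + y ≠ u + v → x + y ≠ u' + v' →
      (χ x + χ y) % 2 = 0) ∧ (χ u + χ v) % 2 = 1 ∧ (χ u' + χ v') % 2 = 1 := by
  obtain ⟨K1, hK1⟩ := path_kap (Co_CoS h1)
  obtain ⟨K2, hK2⟩ := path_kap (Co_CoS h2)
  obtain ⟨K3, hK3⟩ := step_kap f g hfg
  obtain ⟨K4, hK4⟩ := step_kap f' g' hfg'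
  have nd : ∀ a : ℤ × ℤ, a ∈ insert (u + v) (insert (u' + v') ω) →
      a + (1, 1) ∉ (↑(du E (insert (u + v) (insert (u' + v') ω))) : Set (ℤ × ℤ)) := by
    intro a ha h
    rw [mem_coe] at h
    unfold du at h
    rw [mem_map] at h
    obtain ⟨b, hb, hba⟩ := h
    rw [mem_sdiff] at hb
    have : b = a := by
      have e1 := congrArg Prod.fst hba
      have e2 := congrArg Prod.snd hba
      simp only [sh1, Function.Embedding.coeFn_mk, Prod.fst_add, Prod.snd_add] at e1 e2
      exact Prod.ext (by omega) (by omega)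
    rw [this] at hb
    exact hb.2 ha
  refine ⟨fun z => K1 z + K2 z + K3 z + K4 z, ?_, ?_, ?_⟩
  · intro x y hxy hω n1 n2
    have a1 := hK1 x y hxy (nd _ (mem_insert_of_mem (mem_insert_of_mem hω)))
    have a2 := hK2 x y hxy (nd _ (mem_insert_of_mem (mem_insert_of_mem hω)))
    have a3 := (hK3 x y hxy).2 (fun h => n1 (add_right_cancel (h.trans he.symm)))
    have a4 := (hK4 x y hxy).2 (fun h => n2 (add_right_cancel (h.trans he'.symm)))
    simp only
    omega
  · have a1 := hK1 u v huv (nd _ (mem_insert_self _ _))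
    have a2 := hK2 u v huv (nd _ (mem_insert_self _ _))
    have a3 := (hK3 u v huv).1 he
    have a4 := (hK4 u v huv).2 (fun h => hne (add_right_cancel (h.trans he'.symm)))
    simp only
    omega
  · have a1 := hK1 u' v' huv' (nd _ (mem_insert_of_mem (mem_insert_self _ _)))
    have a2 := hK2 u' v' huv' (nd _ (mem_insert_of_mem (mem_insert_self _ _)))
    have a3 := (hK3 u' v' huv').2 (fun h => hne (add_right_cancel (h.trans he.symm)).symm)
    have a4 := (hK4 u' v' huv').1 he'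
    simp only
    omega

lemma eu_ev {e : ℤ × ℤ} (he : (e.1 + e.2) % 2 = 1) : IsUnit4 (ev e - eu e) ∧ eu e + ev e = e := by
  obtain ⟨a, b⟩ := e
  unfold eu ev IsUnit4
  simp only at he ⊢
  refine ⟨?_, ?_⟩
  · simp only [Prod.ext_iff, Prod.mk_sub_mk]; omega
  · refine Prod.ext ?_ ?_ <;> simp only [Prod.mk_add_mk] <;> omega

lemma fi_zu_zv {e : ℤ × ℤ} (he : (e.1 + e.2) % 2 = 1) :
    IsUnit4 (fi (zv e) - fi (zu e)) ∧ fi (zu e) + fi (zv e) = e + (1, 1) := by
  obtain ⟨a, b⟩ := e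
  unfold fi zu zv IsUnit4
  simp only at he ⊢
  refine ⟨?_, ?_⟩
  · split_ifs <;> simp only [Prod.ext_iff, Prod.mk_sub_mk] <;> omega
  · split_ifs <;> refine Prod.ext ?_ ?_ <;> simp only [Prod.mk_add_mk] <;> omega

lemma unit_rev {u v : ℤ × ℤ} (h : IsUnit4 (v - u)) : IsUnit4 (u - v) := by
  have := isUnit4_neg h
  rwa [neg_sub] at this

/-- **The final lemma**: the ends of `e` are joined (in some order) to the ends of `e'` off `e` and
`e'`, and the faces of `e` are joined (in some order) to the faces of `e'` off `e*` and `e'*`: then `e`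
is pivotal for the connection of the ends of `e'`. -/
theorem pv_of_arms {E ω : Finset (ℤ × ℤ)} {e e' : ℤ × ℤ} (he : (e.1 + e.2) % 2 = 1)
    (he' : (e'.1 + e'.2) % 2 = 1) (hne : e ≠ e')
    (hO : (Co ((ω.erase e).erase e') (eu e) (eu e') ∧ Co ((ω.erase e).erase e') (ev e) (ev e')) ∨
      (Co ((ω.erase e).erase e') (eu e) (ev e') ∧ Co ((ω.erase e).erase e') (ev e) (eu e')))
    (hD : (Co (du E (insert e (insert e' ω))) (fi (zu e)) (fi (zu e')) ∧
        Co (du E (insert e (insert e' ω))) (fi (zv e)) (fi (zv e'))) ∨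
      (Co (du E (insert e (insert e' ω))) (fi (zu e)) (fi (zv e')) ∧
        Co (du E (insert e (insert e' ω))) (fi (zv e)) (fi (zu e')))) :
    Pv e' e ω := by
  obtain ⟨a1, a2⟩ := eu_ev he
  obtain ⟨b1, b2⟩ := eu_ev he'
  obtain ⟨c1, c2⟩ := fi_zu_zv he
  obtain ⟨d1, d2⟩ := fi_zu_zv he'
  obtain ⟨-, -, -, -, v1, v2⟩ := opc_zu he'
  unfold Pv
  rw [v1, v2]
  have hχ : ∃ χ : ℤ × ℤ → ℤ, (∀ x y, IsUnit4 (y - x) → x + y ∈ ω → x + y ≠ e → x + y ≠ e' →
      (χ x + χ y) % 2 = 0) ∧ (χ (eu e) + χ (ev e)) % 2 = 1 := by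
    rcases hD with ⟨h1, h2⟩ | ⟨h1, h2⟩
    · obtain ⟨χ, x1, x2, -⟩ := colour_pair (E := E) (ω := ω) a1 c1 (by rw [a2, c2]) b1 d1
        (by rw [b2, d2]) (by rw [a2, b2]; exact hne) (by rw [a2, b2]; exact h1)
        (by rw [a2, b2]; exact h2)
      rw [a2, b2] at x1
      exact ⟨χ, x1, x2⟩
    · obtain ⟨χ, x1, x2, -⟩ := colour_pair (E := E) (ω := ω) a1 c1 (by rw [a2, c2]) b1 (unit_rev d1)
        (by rw [b2, ← d2]; exact add_comm _ _) (by rw [a2, b2]; exact hne) (by rw [a2, b2]; exact h1)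
        (by rw [a2, b2]; exact h2)
      rw [a2, b2] at x1
      exact ⟨χ, x1, x2⟩
  obtain ⟨χ, x1, x2⟩ := hχ
  have cst : ∀ x y, Co ((ω.erase e).erase e') x y → (χ x + χ y) % 2 = 0 := by
    intro x y h
    induction h with
    | refl => omega
    | @tail y z _ hyz ih =>
      have hm := hyz.2
      rw [mem_erase, mem_erase] at hm
      have := x1 y z hyz.1 hm.2.2 hm.2.1 hm.1
      omega
  have em : eu e + ev e ∈ (insert e ω).erase e' := by
    rw [a2, mem_erase]
    exact ⟨hne, mem_insert_self _ _⟩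
  have sub : (ω.erase e).erase e' ⊆ (insert e ω).erase e' := by
    intro x hx
    rw [mem_erase, mem_erase] at hx
    rw [mem_erase]
    exact ⟨hx.1, mem_insert_of_mem hx.2.2⟩
  rcases hO with ⟨h1, h2⟩ | ⟨h1, h2⟩
  · refine ⟨(h1.symm.mono sub).trans ((Relation.ReflTransGen.single ⟨a1, em⟩).trans
      (h2.mono sub)), fun h => ?_⟩
    have := cst _ _ h
    have := cst _ _ h1
    have := cst _ _ h2
    omega
  · refine ⟨(h2.symm.mono sub).trans ((Relation.ReflTransGen.single ⟨unit_rev a1, by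
      rw [add_comm]; exact em⟩).trans (h1.mono sub)), fun h => ?_⟩
    have := cst _ _ h
    have := cst _ _ h1
    have := cst _ _ h2
    omega

end Pool.Agent.H81.NC
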