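import Mathlib
import Pool.Agent.H81.NC.Piv
import Pool.Agent.H81.NC.Defs3
import Pool.Agent.H75.Four.HArm
import Pool.Agent.H47.NC.Ifc

set_option autoImplicit false
open Finset

/-! JOB F (helper7): a left-right crossing of a rectangle as the connection of the ends of an edge
outside the rectangle, with the help of wires. -/

namespace Pool.Agent.H81.NC

open Pool.Agent.H75.Perc Pool.Agent.H75.TwoArm Pool.Agent.H75.Four Pool.Agent.H99.NC

namespace EnvAux

lemma mem_WW {a b c d : ℤ} {l : ℤ × ℤ} : l ∈ WW a b c d ↔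
    ¬ (l.1 = 2 * a - 1 ∧ l.2 = 2 * c - 2) ∧
    ((l.1 = 2 * a - 2 ∧ (2 * c - 2 ≤ l.2 ∧ l.2 ≤ 2 * d) ∧ (l.1 + l.2) % 2 = 1) ∨
     (l.1 = 2 * b + 2 ∧ (2 * c - 2 ≤ l.2 ∧ l.2 ≤ 2 * d) ∧ (l.1 + l.2) % 2 = 1) ∨
     (l.1 = 2 * a - 1 ∧ (2 * c ≤ l.2 ∧ l.2 ≤ 2 * d) ∧ l.2 % 2 = 0) ∨
     (l.1 = 2 * b + 1 ∧ (2 * c ≤ l.2 ∧ l.2 ≤ 2 * d) ∧ l.2 % 2 = 0) ∨
     (l.2 = 2 * c - 2 ∧ (2 * a - 2 ≤ l.1 ∧ l.1 ≤ 2 * b + 2) ∧ (l.1 + l.2) % 2 = 1)) := by
  have h1 : (∃ j ∈ Icc c d, (2 * a - 1, 2 * j) = l) ↔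
      (l.1 = 2 * a - 1 ∧ (2 * c ≤ l.2 ∧ l.2 ≤ 2 * d) ∧ l.2 % 2 = 0) := by
    obtain ⟨x, y⟩ := l
    simp only [Prod.mk.injEq]
    constructor
    · rintro ⟨j, hj, hx, hy⟩
      rw [mem_Icc] at hj
      omega
    · rintro ⟨h1, h2, h3⟩
      exact ⟨y / 2, mem_Icc.2 (by omega), by omega, by omega⟩
  have h2 : (∃ j ∈ Icc c d, (2 * b + 1, 2 * j) = l) ↔
      (l.1 = 2 * b + 1 ∧ (2 * c ≤ l.2 ∧ l.2 ≤ 2 * d) ∧ l.2 % 2 = 0) := by
    obtain ⟨x, y⟩ := l
    simp only [Prod.mk.injEq]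
    constructor
    · rintro ⟨j, hj, hx, hy⟩
      rw [mem_Icc] at hj
      omega
    · rintro ⟨h1, h2, h3⟩
      exact ⟨y / 2, mem_Icc.2 (by omega), by omega, by omega⟩
  have b1 : l ∈ Bx (a - 1) (a - 1) (c - 1) d ↔
      (l.1 = 2 * a - 2 ∧ (2 * c - 2 ≤ l.2 ∧ l.2 ≤ 2 * d) ∧ (l.1 + l.2) % 2 = 1) := by
    rw [mem_Bx]; omega
  have b2 : l ∈ Bx (b + 1) (b + 1) (c - 1) d ↔
      (l.1 = 2 * b + 2 ∧ (2 * c - 2 ≤ l.2 ∧ l.2 ≤ 2 * d) ∧ (l.1 + l.2) % 2 = 1) := by
    rw [mem_Bx]; omega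
  have b3 : l ∈ Bx (a - 1) (b + 1) (c - 1) (c - 1) ↔
      (l.2 = 2 * c - 2 ∧ (2 * a - 2 ≤ l.1 ∧ l.1 ≤ 2 * b + 2) ∧ (l.1 + l.2) % 2 = 1) := by
    rw [mem_Bx]; omega
  unfold WW
  rw [mem_erase, mem_union, mem_union, mem_union, mem_union, mem_image, mem_image, h1, h2, b1, b2,
    b3, Ne, Prod.ext_iff, or_assoc, or_assoc, or_assoc]

lemma WW_disj {a b c d : ℤ} : Disjoint (WW a b c d) (Bx a b c d) := by
  rw [disjoint_left]
  intro l h1 h2
  rw [mem_WW] at h1
  rw [mem_Bx] at h2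
  omega

/-- a vertical line is connected -/
lemma co_vert {S : Finset (ℤ × ℤ)} {x y1 : ℤ} (n : ℕ)
    (h : ∀ j : ℤ, y1 ≤ j → j < y1 + n → (2 * x, 2 * j + 1) ∈ S) : Co S (x, y1) (x, y1 + n) := by
  induction n with
  | zero => simpa using Co.refl S (x, y1)
  | succ n ih =>
    refine Relation.ReflTransGen.tail (ih fun j h1 h2 => h j h1 (by push_cast; omega)) ⟨?_, ?_⟩
    · unfold IsUnit4
      simp only [Prod.ext_iff, Prod.fst_sub, Prod.snd_sub]
      push_cast
      omega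
    · have := h (y1 + n) (by omega) (by push_cast; omega)
      convert this using 1
      refine Prod.ext ?_ ?_
      · simp only [Prod.fst_add]; ring
      · simp only [Prod.snd_add]; push_cast; ring

/-- a horizontal line is connected -/
lemma co_horiz {S : Finset (ℤ × ℤ)} {x1 y : ℤ} (n : ℕ)
    (h : ∀ j : ℤ, x1 ≤ j → j < x1 + n → (2 * j + 1, 2 * y) ∈ S) : Co S (x1, y) (x1 + n, y) := by
  induction n with
  | zero => simpa using Co.refl S (x1, y)
  | succ n ih =>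
    refine Relation.ReflTransGen.tail (ih fun j h1 h2 => h j h1 (by push_cast; omega)) ⟨?_, ?_⟩
    · unfold IsUnit4
      simp only [Prod.ext_iff, Prod.fst_sub, Prod.snd_sub]
      push_cast
      omega
    · have := h (x1 + n) (by omega) (by push_cast; omega)
      convert this using 1
      refine Prod.ext ?_ ?_
      · simp only [Prod.fst_add]; push_cast; ring
      · simp only [Prod.snd_add]; ring

lemma co_vert' {S : Finset (ℤ × ℤ)} {x y1 y2 : ℤ} (h12 : y1 ≤ y2)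
    (h : ∀ j : ℤ, y1 ≤ j → j < y2 → (2 * x, 2 * j + 1) ∈ S) : Co S (x, y1) (x, y2) := by
  obtain ⟨n, hn⟩ := Int.eq_ofNat_of_zero_le (show 0 ≤ y2 - y1 by omega)
  have e : y2 = y1 + n := by omega
  rw [e]
  exact co_vert n fun j h1 h2 => h j h1 (by omega)

lemma co_horiz' {S : Finset (ℤ × ℤ)} {x1 x2 y : ℤ} (h12 : x1 ≤ x2)
    (h : ∀ j : ℤ, x1 ≤ j → j < x2 → (2 * j + 1, 2 * y) ∈ S) : Co S (x1, y) (x2, y) := by
  obtain ⟨n, hn⟩ := Int.eq_ofNat_of_zero_le (show 0 ≤ x2 - x1 by omega)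
  have e : x2 = x1 + n := by omega
  rw [e]
  exact co_horiz n fun j h1 h2 => h j h1 (by omega)

lemma ends (a c : ℤ) : vx (zu (2 * a - 1, 2 * c - 2)) = (a - 1, c - 1) ∧
    vx (zv (2 * a - 1, 2 * c - 2)) = (a, c - 1) := by
  obtain ⟨-, -, -, -, h1, h2⟩ := opc_zu (e := (2 * a - 1, 2 * c - 2)) (by simp only; omega)
  rw [h1, h2]
  constructor
  · unfold eu
    refine Prod.ext ?_ ?_ <;> simp only <;> omega
  · unfold ev
    refine Prod.ext ?_ ?_ <;> simp only <;> omega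

end EnvAux

open EnvAux

/-- F1. -/
theorem HC_env {a b c d : ℤ} (hab : a ≤ b) (hcd : c ≤ d) {ω : Finset (ℤ × ℤ)}
    (hω : ω ⊆ Bx a b c d) :
    HC a b c d ω ↔ Co ((ω ∪ WW a b c d).erase (2 * a - 1, 2 * c - 2))
      (vx (zu (2 * a - 1, 2 * c - 2))) (vx (zv (2 * a - 1, 2 * c - 2))) := by
  rw [(ends a c).1, (ends a c).2]
  set S := (ω ∪ WW a b c d).erase (2 * a - 1, 2 * c - 2) with hS
  have mS : ∀ l : ℤ × ℤ, l ∈ WW a b c d → l ∈ S := by
    intro l hl
    rw [hS, mem_erase, mem_union]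
    refine ⟨?_, Or.inr hl⟩
    rw [mem_WW] at hl
    intro h
    rw [h] at hl
    simp at hl
  constructor
  · rintro ⟨p, q, hp, hp1, hq1, hpq⟩
    have hq := hpq.inB inter_subset_right hp
    have hp' := hp
    unfold inB at hp hq
    have c1 : Co S (a - 1, c - 1) (a - 1, p.2) := by
      refine co_vert' (by omega) fun j h1 h2 => mS _ ?_
      rw [mem_WW]
      simp only
      omega
    have c2 : Co S (a - 1, p.2) p := by
      have h1 : Co S (a - 1, p.2) (a, p.2) := by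
        refine co_horiz' (by omega) fun j h1 h2 => mS _ ?_
        have : j = a - 1 := by omega
        subst this
        rw [mem_WW]
        simp only
        omega
      have h2 : p = (a, p.2) := Prod.ext hp1 rfl
      rw [← h2] at h1
      exact h1
    have c3 : Co S p q := by
      refine hpq.mono fun l hl => ?_
      rw [mem_inter] at hl
      rw [hS, mem_erase, mem_union]
      refine ⟨fun h => ?_, Or.inl hl.1⟩
      have h7 := mem_Bx.1 hl.2
      have h8 : l.1 = 2 * a - 1 := congrArg Prod.fst h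
      have h9 : l.2 = 2 * c - 2 := congrArg Prod.snd h
      omega
    have c4 : Co S q (b + 1, q.2) := by
      have h1 : Co S (b, q.2) (b + 1, q.2) := by
        refine co_horiz' (by omega) fun j h1 h2 => mS _ ?_
        have hjb : j = b := by omega
        rw [mem_WW, hjb]
        simp only [true_and]
        omega
      have h2 : q = (b, q.2) := Prod.ext hq1 rfl
      rw [← h2] at h1
      exact h1
    have c5 : Co S (b + 1, q.2) (b + 1, c - 1) := by
      refine (co_vert' (by omega) fun j h1 h2 => mS _ ?_).symm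
      rw [mem_WW]
      simp only
      omega
    have c6 : Co S (b + 1, c - 1) (a, c - 1) := by
      refine (co_horiz' (by omega) fun j h1 h2 => mS _ ?_).symm
      rw [mem_WW]
      simp only
      omega
    exact c1.trans (c2.trans (c3.trans (c4.trans (c5.trans c6))))
  · intro h
    by_contra hcon
    have key : ∀ v, Co S (a - 1, c - 1) v → v.1 = a - 1 ∨
        (inB a b c d v ∧ ∃ p : ℤ × ℤ, inB a b c d p ∧ p.1 = a ∧ Co (ω ∩ Bx a b c d) p v) := by
      intro v hv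
      induction hv with
      | refl => exact Or.inl rfl
      | @tail v w _ hvw ih =>
        obtain ⟨hu, hl⟩ := hvw
        have hcs := unit_cases hu
        rw [hS, mem_erase, mem_union, mem_WW, Ne, Prod.ext_iff] at hl
        simp only [Prod.fst_add, Prod.snd_add] at hl
        obtain ⟨hne, hl⟩ := hl
        rcases ih with ih | ⟨ih1, p, ih2, ih3, ih4⟩
        · rcases hl with hl | hl
          · have := mem_Bx.1 (hω hl)
            simp only [Prod.fst_add, Prod.snd_add] at this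
            exfalso
            omega
          · by_cases hw : w.1 = a - 1
            · exact Or.inl hw
            · right
              have h1 : w.1 = a ∧ c ≤ w.2 ∧ w.2 ≤ d := by omega
              have h2 : inB a b c d w := by unfold inB; omega
              exact ⟨h2, w, h2, h1.1, Co.refl _ _⟩
        · rcases hl with hl | hl
          · right
            have h1 := (Ad.inB (ω := ω) hω ⟨hu, hl⟩).2
            exact ⟨h1, p, ih2, ih3, ih4.tail ⟨hu, mem_inter.2 ⟨hl, hω hl⟩⟩⟩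
          · by_cases hw : w.1 = a - 1
            · exact Or.inl hw
            · exfalso
              unfold inB at ih1
              have h1 : v.1 = b := by omega
              exact hcon ⟨p, v, ih2, ih3, h1, ih4⟩
    rcases key _ h with h1 | ⟨h1, -⟩
    · simp only at h1
      omega
    · unfold inB at h1
      simp only at h1
      omega

/-- F2. the geometry of the environment -/
theorem WW_geo {a b c d k L : ℤ} (h1 : a ≤ -k) (h2 : k ≤ b) (h3 : c ≤ -k) (h4 : k ≤ d) (hk : 1 ≤ k)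
    (hL : 2 * (|a| + |b| + |c| + |d|) + 2 * k + 10 ≤ L) :
    Bx a b c d ⊆ H75.TwoArm.BB (L - 1) ∧ H75.TwoArm.BB k ⊆ Bx a b c d ∧
    WW a b c d ⊆ H75.TwoArm.BB (L - 1) ∧
    Disjoint (WW a b c d) (Bx a b c d) ∧
    (2 * a - 1, 2 * c - 2) ∈ H75.TwoArm.BB (L - 1) ∧ (2 * a - 1, 2 * c - 2) ∉ Bx a b c d ∧
    (2 * a - 1, 2 * c - 2) ∉ WW a b c d ∧ (2 * a - 1, 2 * c - 2) ∉ H75.TwoArm.BB k ∧
    (2 * a - 1 + (2 * c - 2)) % 2 = 1 := by
  have ha := neg_abs_le a
  have hb := le_abs_self b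
  have hc := neg_abs_le c
  have hd := le_abs_self d
  have ha' := abs_nonneg a
  have hb' := abs_nonneg b
  have hc' := abs_nonneg c
  have hd' := abs_nonneg d
  unfold H75.TwoArm.BB
  refine ⟨fun l hl => ?_, fun l hl => ?_, fun l hl => ?_, WW_disj, ?_, ?_, ?_, ?_, ?_⟩
  · rw [mem_Bx] at hl ⊢
    omega
  · rw [mem_Bx] at hl ⊢
    omega
  · rw [mem_WW] at hl
    rw [mem_Bx]
    omega
  · rw [mem_Bx]
    simp only
    omega
  · rw [mem_Bx]
    simp only
    omega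
  · rw [mem_WW]
    simp
  · rw [mem_Bx]
    simp only
    omega
  · omega

/-- F3. block pivotal = four arms outside the hole (uses A4_hole_iff = FB6) -/
theorem BP_env {a b c d k L : ℤ} (h1 : a ≤ -k) (h2 : k ≤ b) (h3 : c ≤ -k) (h4 : k ≤ d) (hk : 1 ≤ k)
    (hL : 2 * (|a| + |b| + |c| + |d|) + 2 * k + 10 ≤ L) {ω : Finset (ℤ × ℤ)}
    (hω : ω ⊆ Bx a b c d) :
    Pool.Agent.H47.NC.BP (HC a b c d) (H75.TwoArm.BB k) ω ↔
      A4 (H75.TwoArm.BB L \ H75.TwoArm.BB k) (2 * a - 1, 2 * c - 2) (ω ∪ WW a b c d) := by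
  obtain ⟨g1, g2, g3, g4, g5, g6, g7, g8, g9⟩ := WW_geo h1 h2 h3 h4 hk hL
  have ha' := abs_nonneg a
  have hb' := abs_nonneg b
  have hc' := abs_nonneg c
  have hd' := abs_nonneg d
  have hH : Hole k L (2 * a - 1, 2 * c - 2) (ω ∪ WW a b c d) :=
    ⟨hk, g9, g5, g8, union_subset (hω.trans g1) g3⟩
  obtain ⟨-, -, -, -, w1, w2⟩ := opc_zu (e := (2 * a - 1, 2 * c - 2)) g9
  rw [A4_hole_iff hH (by omega), ← w1, ← w2]
  have e1 : ω ∪ WW a b c d ∪ H75.TwoArm.BB k = (ω ∪ H75.TwoArm.BB k) ∪ WW a b c d := by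
    rw [union_assoc, union_comm (WW a b c d), ← union_assoc]
  have e2 : (ω ∪ WW a b c d) \ H75.TwoArm.BB k = (ω \ H75.TwoArm.BB k) ∪ WW a b c d := by
    rw [union_sdiff_distrib]
    congr 1
    exact sdiff_eq_self_of_disjoint (disjoint_of_subset_right g2 g4)
  rw [e1, e2, ← HC_env (by omega) (by omega) (union_subset hω g2),
    ← HC_env (by omega) (by omega) (sdiff_subset.trans hω)]
  rfl

/-- F4. edge pivotal -/
theorem Piv_env {a b c d : ℤ} (hab : a ≤ b) (hcd : c ≤ d) {ω : Finset (ℤ × ℤ)} {e : ℤ × ℤ}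
    (hω : ω ⊆ Bx a b c d) (he : e ∈ Bx a b c d) :
    Piv (HC a b c d) e ω ↔ Pv (2 * a - 1, 2 * c - 2) e (ω ∪ WW a b c d) := by
  have hW : e ∉ WW a b c d := fun h => (disjoint_left.1 WW_disj h) he
  unfold Piv Pv
  have e1 : insert e (ω ∪ WW a b c d) = insert e ω ∪ WW a b c d := by
    rw [insert_union]
  have e2 : (ω ∪ WW a b c d).erase e = ω.erase e ∪ WW a b c d := by
    rw [erase_union_distrib, erase_eq_of_notMem hW]
  rw [e1, e2, ← HC_env hab hcd (insert_subset he hω), ← HC_env hab hcd ((erase_subset _ _).trans hω)]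

end Pool.Agent.H81.NC
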