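import Mathlib
import Pool.Agent.H81.NC.Defs
import Pool.Agent.H69.NC.Decay

set_option autoImplicit false
open Finset

/-! Decay of the arms of both colours from the crossings of all `w × 2w` rectangles (`RSM`). -/

namespace Pool.Agent.H81.NC

open Pool.Agent.H75.Perc Pool.Agent.H75.TwoArm Pool.Agent.H75.Four Pool.Agent.H99.NC

namespace ArmEAux

lemma rat2 {q : ℤ × ℤ → ℝ} (hq : Pb q) {c : ℝ} {w : ℤ} (h : RS q c w) {a b x y : ℤ}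
    (hab : a ≤ b) (hw : y = x + w) (hb : b ≤ a + 2 * w) :
    c ≤ PrP q (Bx a b x y) (HC a b x y) ∧ c ≤ PrP q (Bx x y a b) (VC x y a b) := by
  subst hw
  constructor
  · rw [← PrP_HC (q := q) (E := Bx a (a + 2 * w) x (x + w)) (a := a) (b := b) (c := x) (d := x + w)
      (Bx_sub le_rfl (by omega) le_rfl le_rfl)]
    exact (h a x).1.trans (PrP_mono hq fun ω _ hω => HC_sub le_rfl hab (by omega) hω)
  · rw [← PrP_VC (q := q) (E := Bx x (x + w) a (a + 2 * w)) (a := x) (b := x + w) (c := a) (d := b)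
      (Bx_sub le_rfl le_rfl le_rfl (by omega))]
    exact (h x a).2.trans (PrP_mono hq fun ω _ hω => VC_sub le_rfl hab (by omega) hω)

lemma h3 {q : ℤ × ℤ → ℝ} (hq : Pb q) {E : Finset (ℤ × ℤ)} {A B C : Finset (ℤ × ℤ) → Prop}
    (hA : Inc A) (hB : Inc B) (hC : Inc C) {x y z : ℝ} (hx : 0 ≤ x) (hy : 0 ≤ y) (hz : 0 ≤ z)
    (h1 : x ≤ PrP q E A) (h2 : y ≤ PrP q E B) (h3 : z ≤ PrP q E C) :
    x * (y * z) ≤ PrP q E (fun ω => A ω ∧ B ω ∧ C ω) :=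
  PrP_mul_le hq hA (fun ω ω' h h' => ⟨hB ω ω' h h'.1, hC ω ω' h h'.2⟩) hx (mul_nonneg hy hz) h1
    (PrP_mul_le hq hB hC hy hz h2 h3)

/-- one more square -/
lemma step {q : ℤ × ℤ → ℝ} (hq : Pb q) {c : ℝ} (hc : 0 ≤ c) {w : ℤ} (hw0 : 0 ≤ w) (h : RS q c w)
    {c1 : ℝ} (hc1 : 0 ≤ c1) {a b x y : ℤ} (hw : y = x + w) (hb : a + w ≤ b)
    (hA : c1 ≤ PrP q (Bx a b x y) (HC a b x y)) (hA' : c1 ≤ PrP q (Bx x y a b) (VC x y a b)) :
    c1 * (c * c) ≤ PrP q (Bx a (b + w) x y) (HC a (b + w) x y) ∧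
      c1 * (c * c) ≤ PrP q (Bx x y a (b + w)) (VC x y a (b + w)) := by
  have r1 := rat2 hq h (a := b - w) (b := b + w) (x := x) (y := y) (by omega) hw (by omega)
  have r2 := rat2 hq h (a := x) (b := y) (x := b - w) (y := b) (by omega) (by omega) (by omega)
  constructor
  · rw [← PrP_HC (q := q) (E := Bx a (b + w) x y) (Bx_sub le_rfl (by omega) le_rfl le_rfl)] at hA
    have s1 := r1.1
    rw [← PrP_HC (q := q) (E := Bx a (b + w) x y) (Bx_sub (by omega) (by omega) le_rfl le_rfl)] at s1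
    have s2 := r2.2
    rw [← PrP_VC (q := q) (E := Bx a (b + w) x y) (Bx_sub (by omega) (by omega) le_rfl le_rfl)] at s2
    refine (h3 hq (HC_inc _ _ _ _) (HC_inc _ _ _ _) (VC_inc _ _ _ _) hc1 hc hc hA s1 s2).trans ?_
    apply PrP_mono hq
    rintro ω _ ⟨h1, h2, h3⟩
    exact glue_HC (by omega) (by omega) (by omega) h1 h2 h3
  · rw [← PrP_VC (q := q) (E := Bx x y a (b + w)) (Bx_sub le_rfl le_rfl le_rfl (by omega))] at hA'
    have s1 := r1.2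
    rw [← PrP_VC (q := q) (E := Bx x y a (b + w)) (Bx_sub le_rfl le_rfl (by omega) (by omega))] at s1
    have s2 := r2.1
    rw [← PrP_HC (q := q) (E := Bx x y a (b + w)) (Bx_sub le_rfl le_rfl (by omega) (by omega))] at s2
    refine (h3 hq (VC_inc _ _ _ _) (VC_inc _ _ _ _) (HC_inc _ _ _ _) hc1 hc hc hA' s1 s2).trans ?_
    apply PrP_mono hq
    rintro ω _ ⟨h1, h2, h3⟩
    exact Pool.Agent.H69.NC.CAux.glue_VC (by omega) (by omega) (by omega) h1 h2 h3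

lemma rsw1 {q : ℤ × ℤ → ℝ} (hq : Pb q) {c : ℝ} (hc : 0 ≤ c) (hc1 : c ≤ 1) {M : ℤ}
    (h : ∀ w, 1 ≤ w → w ≤ M → RS q c w) : Pool.Agent.H69.NC.Rsw1 q (c ^ 5) M := by
  intro a b x y hab h1 h2 h3
  rw [Pool.Agent.H69.NC.PQ_eq, Pool.Agent.H69.NC.PQ_eq]
  have hr := h (y - x) h1 h2
  obtain ⟨p1, p2⟩ := rat2 hq hr (a := a) (b := a + 2 * (y - x)) (x := x) (y := y) (by omega)
    (by omega) (by omega)
  obtain ⟨p3, p4⟩ := step hq hc (by omega) hr hc (by omega) (by omega) p1 p2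
  obtain ⟨p5, p6⟩ := step hq hc (by omega) hr (by positivity) (by omega) (by omega) p3 p4
  have e : a + 2 * (y - x) + (y - x) + (y - x) = a + 4 * (y - x) := by ring
  have e' : c * (c * c) * (c * c) = c ^ 5 := by ring
  rw [e, e'] at p5 p6
  constructor
  · rw [← PrP_HC (q := q) (E := Bx a (a + 4 * (y - x)) x y) (a := a) (b := b) (c := x) (d := y)
      (Bx_sub le_rfl (by omega) le_rfl le_rfl)]
    exact p5.trans (PrP_mono hq fun ω _ hω => HC_sub le_rfl hab (by omega) hω)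
  · rw [← PrP_VC (q := q) (E := Bx x y a (a + 4 * (y - x))) (a := x) (b := y) (c := a) (d := b)
      (Bx_sub le_rfl le_rfl le_rfl (by omega))]
    exact p6.trans (PrP_mono hq fun ω _ hω => VC_sub le_rfl hab (by omega) hω)

lemma RS_mono {q : ℤ × ℤ → ℝ} {c c' : ℝ} {w : ℤ} (h : c' ≤ c) (h' : RS q c w) : RS q c' w :=
  fun a b => ⟨h.trans (h' a b).1, h.trans (h' a b).2⟩

theorem rsw {q : ℤ × ℤ → ℝ} (hq : Pb q) {c : ℝ} (hc : 0 < c) (hc1 : c ≤ 1) {M : ℤ}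
    (h : RSM q c M) : Pool.Agent.H69.NC.Rsw q (c ^ 5) M := by
  refine ⟨hq, by positivity, pow_le_one₀ hc.le hc1, rsw1 hq hc.le hc1 fun w h1 h2 => (h w h1 h2).1,
    rsw1 (Pool.Agent.H69.NC.CAux.wt_dq hq) hc.le hc1 fun w h1 h2 => (h w h1 h2).2⟩

end ArmEAux

open ArmEAux

theorem armE {c ε : ℝ} (hc : 0 < c) (hε : 0 < ε) : ∃ Λ : ℤ, 1 ≤ Λ ∧ ∀ (q : ℤ × ℤ → ℝ) (M : ℤ),
    Pb q → RSM q c M → ∀ E : Finset (ℤ × ℤ), (∀ e ∈ E, (e.1 + e.2) % 2 = 1) →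
    ∀ (x : ℤ × ℤ) (ρ D : ℤ), 1 ≤ ρ → Λ * ρ ≤ D → Λ * ρ ≤ M →
    PrP q E (fun ω => ∃ u v : ℤ × ℤ, |u.1 - x.1| ≤ ρ ∧ |u.2 - x.2| ≤ ρ ∧
      (D ≤ |v.1 - x.1| ∨ D ≤ |v.2 - x.2|) ∧ Co ω u v) ≤ ε ∧
    PrP q E (fun ω => ∃ u v : ℤ × ℤ, |u.1 - x.1| ≤ ρ ∧ |u.2 - x.2| ≤ ρ ∧
      (D ≤ |v.1 - x.1| ∨ D ≤ |v.2 - x.2|) ∧ Co (du E ω) u v) ≤ ε := by
  have hm : 0 < min c 1 := lt_min hc one_pos
  obtain ⟨δ, hδ0, hδ1, hδ⟩ := Pool.Agent.H69.NC.arm_decay ((min c 1) ^ 5) (by positivity)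
  obtain ⟨k, hk⟩ := exists_pow_lt_of_lt_one hε (show 1 - δ < 1 by linarith)
  refine ⟨4 ^ k, one_le_pow₀ (by norm_num), ?_⟩
  intro q M hq h E hE x ρ D hρ hD hM
  have h' : RSM q (min c 1) M := fun w h1 h2 =>
    ⟨RS_mono (min_le_left _ _) (h w h1 h2).1, RS_mono (min_le_left _ _) (h w h1 h2).2⟩
  obtain ⟨a1, a2⟩ := hδ q M (rsw hq hm (min_le_right _ _) h') E hE x ρ hρ k hM
  rw [Pool.Agent.H69.NC.PQ_eq] at a1 a2
  constructor
  · refine (PrP_mono hq ?_).trans (a1.trans hk.le)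
    rintro ω _ ⟨u, v, h1, h2, h3, h4⟩
    exact ⟨u, v, h1, h2, h3.imp (fun h => hD.trans h) (fun h => hD.trans h), h4⟩
  · refine (PrP_mono hq ?_).trans (a2.trans hk.le)
    rintro ω _ ⟨u, v, h1, h2, h3, h4⟩
    exact ⟨u, v, h1, h2, h3.imp (fun h => hD.trans h) (fun h => hD.trans h), h4⟩

end Pool.Agent.H81.NC
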