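import Mathlib
import Pool.Agent.H81.NC.Defs3

/-! The definitions `Close` and `NCor` are in `Defs3.lean`. -/
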