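import Mathlib
import Pool.Agent.H81.NC.SortDefs
import Pool.Agent.H75.Four.FOrder
import Pool.Agent.H75.Four.HOrder
import Pool.Agent.H75.TwoArm.Exit

set_option autoImplicit false
open Finset

/-! Job NC-S (helper20): four exits are separated, or two of them are close, or one is at a corner. -/

namespace Pool.Agent.H81.NC

open Pool.Agent.H75.Perc Pool.Agent.H75.TwoArm Pool.Agent.H75.Four Pool.Agent.H99.NC

namespace SortAux

lemma mod_val {M A x y : ℤ} (hx : A ≤ x ∧ x < A + M) (hy : A ≤ y ∧ y < A + M) :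
    (y - x) % M = if x ≤ y then y - x else y - x + M := by
  split_ifs with h
  · exact Int.emod_eq_of_lt (by omega) (by omega)
  · rw [← Int.add_emod_right, Int.emod_eq_of_lt (by omega) (by omega)]

end SortAux

open SortAux

/-- S0. the combinatorial core -/
theorem sort4 {M A : ℤ} {T : Fin 4 → ℤ} (hM : 0 < M) (hT : ∀ i, A ≤ T i ∧ T i < A + M)
    (h1 : 0 < (T 1 - T 0) % M) (h2 : (T 1 - T 0) % M < (T 2 - T 0) % M)
    (h3 : (T 2 - T 0) % M < (T 3 - T 0) % M) :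
    ∃ a : Fin 4, T a < T (a + 1) ∧ T (a + 1) < T (a + 2) ∧ T (a + 2) < T (a + 3) := by
  have t0 := hT 0
  have t1 := hT 1
  have t2 := hT 2
  have t3 := hT 3
  rw [mod_val t0 t1] at h1 h2
  rw [mod_val t0 t2] at h2 h3
  rw [mod_val t0 t3] at h3
  have e0 : (T 0 < T (0 + 1) ∧ T (0 + 1) < T (0 + 2) ∧ T (0 + 2) < T (0 + 3)) ↔
    (T 0 < T 1 ∧ T 1 < T 2 ∧ T 2 < T 3) := Iff.rfl
  have e1 : (T 1 < T (1 + 1) ∧ T (1 + 1) < T (1 + 2) ∧ T (1 + 2) < T (1 + 3)) ↔
    (T 1 < T 2 ∧ T 2 < T 3 ∧ T 3 < T 0) := Iff.rfl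
  have e2 : (T 2 < T (2 + 1) ∧ T (2 + 1) < T (2 + 2) ∧ T (2 + 2) < T (2 + 3)) ↔
    (T 2 < T 3 ∧ T 3 < T 0 ∧ T 0 < T 1) := Iff.rfl
  have e3 : (T 3 < T (3 + 1) ∧ T (3 + 1) < T (3 + 2) ∧ T (3 + 2) < T (3 + 3)) ↔
    (T 3 < T 0 ∧ T 0 < T 1 ∧ T 1 < T 2) := Iff.rfl
  split_ifs at h1 h2 h3 <;> first
    | (exfalso; omega)
    | (exact ⟨0, e0.2 (by omega)⟩)
    | (exact ⟨1, e1.2 (by omega)⟩)
    | (exact ⟨2, e2.2 (by omega)⟩)
    | (exact ⟨3, e3.2 (by omega)⟩)

namespace SortAux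

lemma leave_both {B ω : Finset (ℤ × ℤ)} {c : ℤ × ℤ} (h : Leave B ω c) :
    (∃ x, FX B ω c x) ∧ ∃ x, BX B ω c x := by
  refine ⟨ExitAux.exists_FX h, ExitAux.exists_BX ?_⟩
  obtain ⟨j, hj⟩ := h
  obtain ⟨k, hk⟩ := ExitAux.nx_eq_pv ω c (j + 1)
  refine ⟨k, ?_⟩
  rw [← hk, Function.iterate_succ_apply', plab_nx]
  exact hj

/-- the four exits -/
lemma four_exits {B ω : Finset (ℤ × ℤ)} {e : ℤ × ℤ} (hA : A4 B e ω) :
    ∃ x : Fin 4 → ℤ × ℤ, ∀ κ, Ext B e ω κ (x κ) := by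
  obtain ⟨⟨x0, h0⟩, x1, h1⟩ := leave_both hA.1
  obtain ⟨⟨x2, h2⟩, x3, h3⟩ := leave_both hA.2.1
  refine ⟨![x0, x1, x2, x3], fun κ => ?_⟩
  fin_cases κ <;> refine ⟨?_, ?_, ?_, ?_⟩ <;> intro h <;> first | (exact absurd h (by decide)) | skip
  · exact h0
  · exact h1
  · exact h2
  · exact h3

lemma ext_or {B ω : Finset (ℤ × ℤ)} {e x : ℤ × ℤ} {κ : Fin 4} (h : Ext B e ω κ x) :
    FX B (ω.erase e) (zu e) x ∨ BX B (ω.erase e) (zu e) x ∨
    FX B (ω.erase e) (zv e) x ∨ BX B (ω.erase e) (zv e) x := by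
  obtain ⟨h0, h1, h2, h3⟩ := h
  rcases (by omega : κ = 0 ∨ κ = 1 ∨ κ = 2 ∨ κ = 3) with h | h | h | h
  · exact Or.inl (h0 h)
  · exact Or.inr (Or.inl (h1 h))
  · exact Or.inr (Or.inr (Or.inl (h2 h)))
  · exact Or.inr (Or.inr (Or.inr (h3 h)))

lemma row_iff {s y b : ℤ} : Row s y b ↔ 16 * (s * y) - 24 * s ≤ b ∧ b < 16 * (s * y) - 8 * s := by
  unfold Row
  have h1 : 2 * (8 * s * (y - 1) - 4 * s) = 16 * (s * y) - 24 * s := by ring
  have h2 : 2 * (8 * s * (y - 1) + 4 * s) = 16 * (s * y) - 8 * s := by ring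
  rw [h1, h2]

lemma row_ex {s : ℤ} (hs : 1 ≤ s) (b : ℤ) : ∃ y, Row s y b := by
  refine ⟨(b + 24 * s) / (16 * s), row_iff.2 ?_⟩
  have h1 := Int.emod_add_mul_ediv (b + 24 * s) (16 * s)
  have h2 := Int.emod_nonneg (b + 24 * s) (by omega : 16 * s ≠ 0)
  have h3 := Int.emod_lt_of_pos (b + 24 * s) (by omega : 0 < 16 * s)
  have h4 : 16 * s * ((b + 24 * s) / (16 * s)) = 16 * (s * ((b + 24 * s) / (16 * s))) := by ring
  omega

lemma row_le {s y b : ℤ} (hs : 1 ≤ s) (h : Row s y b) (Y : ℤ) :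
    y ≤ Y ↔ b < 16 * (s * Y) - 8 * s := by
  rw [row_iff] at h
  constructor
  · intro hy
    have := mul_le_mul_of_nonneg_left hy (by omega : 0 ≤ s)
    omega
  · intro hb
    by_contra hn
    have := mul_le_mul_of_nonneg_left (by omega : Y + 1 ≤ y) (by omega : 0 ≤ s)
    rw [mul_add, mul_one] at this
    omega

/-- rows which are not separated -/
lemma row_near {s y b y' b' : ℤ} (hs : 1 ≤ s) (h : Row s y b) (h' : Row s y' b')
    (hn : ¬ y + 8 ≤ y') : b' < b + 128 * s := by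
  have h1 := (row_le hs h' (y + 7)).1 (by omega)
  rw [row_iff] at h
  have h2 : s * (y + 7) = s * y + 7 * s := by ring
  omega

/-- key of an exit of the box: side, height -/
lemma key_in {r s R0 b : ℤ} {x : ℤ × ℤ} (hs : 3 ≤ s) (hR0 : 45 ≤ R0)
    (hr : 4 * s * (2 * R0 + 1) - s ≤ r ∧ r ≤ 4 * s * (2 * R0 + 1) - 2)
    (h1 : -(2 * r) + 1 ≤ b) (h2 : b ≤ 2 * r)
    (h : x = (2 * r + 1, b) ∨ x = (1 - b, 2 * r + 1) ∨ x = (-(2 * r), 1 - b) ∨ x = (b, -(2 * r)))
    (hn : ¬ NCor r (200 * s) x) :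
    ∃ σ y : ℤ, Key (R0 - 10) σ y ∧ Row s y b ∧ x = crn σ (2 * r + 1, b) ∧
      -(8 * r) - 8 * s ≤ 4 * r * σ + b ∧ 4 * r * σ + b < -(8 * r) - 8 * s + 16 * r ∧
      (∃ m : ℤ, 4 * r * σ + b = clk r x - 2 * r + 1 + 16 * r * m) ∧
      (σ = -2 → -(8 * s) ≤ b) ∧ (σ = 2 → b < -(8 * s)) := by
  have e1 : 4 * s * (2 * R0 + 1) = 8 * (s * R0) + 4 * s := by ring
  rw [e1] at hr
  have p1 := mul_le_mul_of_nonneg_left hR0 (by omega : 0 ≤ s)
  obtain ⟨y, hy⟩ := row_ex (by omega : 1 ≤ s) b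
  have hb : |b| ≤ 2 * r - 200 * s := by
    unfold NCor at hn
    rcases h with rfl | rfl | rfl | rfl <;> simp only [not_and_or, not_le] at hn <;>
      rw [abs_le] <;> rcases hn with hn | hn <;> rw [abs_lt] at hn <;> omega
  rw [abs_le] at hb
  have y1 : y ≤ R0 - 10 := by
    rw [row_le (by omega) hy, mul_sub]; omega
  have y2 : -(R0 - 10) ≤ y := by
    by_contra hn
    have := (row_le (by omega) hy (-(R0 - 10) - 1)).1 (by omega)
    have e2 : s * (-(R0 - 10) - 1) = -(s * R0) + 9 * s := by ring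
    rw [e2] at this
    omega
  have y3 : y ≤ 0 ↔ b < -(8 * s) := by
    rw [row_le (by omega) hy]; omega
  have hr1 : 1 ≤ r := by omega
  rcases h with h | h | h | h
  · refine ⟨0, y, ⟨by omega, by omega, by omega, by omega⟩, hy, ?_, by omega, by omega, ⟨0, ?_⟩,
      by omega, by omega⟩
    · rw [h]; simp [crn]
    · rw [h]; unfold clk; rw [if_pos rfl]; ring
  · refine ⟨1, y, ⟨by omega, by omega, by omega, by omega⟩, hy, ?_, by omega, by omega, ⟨0, ?_⟩,
      by omega, by omega⟩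
    · rw [h]; simp [crn]
    · rw [h]; unfold clk; rw [if_neg (by simp only; omega), if_pos rfl]; ring
  · by_cases hc : b < -(8 * s)
    · refine ⟨2, y, ⟨by omega, by omega, by omega, by omega⟩, hy, ?_, by omega, by omega, ⟨0, ?_⟩,
        by omega, by omega⟩
      · rw [h]; simp [crn]
      · rw [h]; unfold clk
        rw [if_neg (by simp only; omega), if_neg (by simp only; omega), if_pos rfl]; ring
    · refine ⟨-2, y, ⟨by omega, by omega, by omega, by omega⟩, hy, ?_, by omega, by omega, ⟨-1, ?_⟩,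
        by omega, by omega⟩
      · rw [h]; simp [crn]
      · rw [h]; unfold clk
        rw [if_neg (by simp only; omega), if_neg (by simp only; omega), if_pos rfl]; ring
  · refine ⟨-1, y, ⟨by omega, by omega, by omega, by omega⟩, hy, ?_, by omega, by omega, ⟨-1, ?_⟩,
      by omega, by omega⟩
    · rw [h]; simp [crn]
    · rw [h]; unfold clk
      rw [if_neg (by simp only; omega), if_neg (by simp only; omega), if_neg (by simp only; omega)]
      ring

/-- key of a hit of the hole: side, height -/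
lemma key_out {k s K0 b : ℤ} {x : ℤ × ℤ} (hs : 3 ≤ s) (hK0 : 185 ≤ K0)
    (hk : 4 * s * (2 * K0 + 1) + 2 ≤ k ∧ k ≤ 4 * s * (2 * K0 + 1) + s - 1)
    (h : Hpos k b x) (hn : ¬ NCor k (1200 * s) x) :
    ∃ τ z : ℤ, Key (K0 - 70) τ z ∧ Row s (-z) b ∧ x = crn (τ + 2) (-(2 * k), b) ∧
      -(8 * k) + 24 * s + 1 ≤ 4 * k * τ - b ∧ 4 * k * τ - b < -(8 * k) + 24 * s + 1 + 16 * k ∧
      (∃ m : ℤ, 4 * k * τ - b = clk k x - 2 * k + 16 * k * m) ∧
      (τ = -2 → b < -(24 * s)) ∧ (τ = 2 → -(24 * s) ≤ b) := by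
  obtain ⟨h1, h2, h⟩ := h
  have e1 : 4 * s * (2 * K0 + 1) = 8 * (s * K0) + 4 * s := by ring
  rw [e1] at hk
  have p1 := mul_le_mul_of_nonneg_left hK0 (by omega : 0 ≤ s)
  obtain ⟨y, hy⟩ := row_ex (by omega : 1 ≤ s) b
  have hb : |b| ≤ 2 * k - 1200 * s := by
    unfold NCor at hn
    rcases h with rfl | rfl | rfl | rfl <;> simp only [not_and_or, not_le] at hn <;>
      rw [abs_le] <;> rcases hn with hn | hn <;> rw [abs_lt] at hn <;> omega
  rw [abs_le] at hb
  have y1 : y ≤ K0 - 70 := by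
    rw [row_le (by omega) hy, mul_sub]; omega
  have y2 : -(K0 - 70) ≤ y := by
    by_contra hn
    have := (row_le (by omega) hy (-(K0 - 70) - 1)).1 (by omega)
    have e2 : s * (-(K0 - 70) - 1) = -(s * K0) + 69 * s := by ring
    rw [e2] at this
    omega
  have y3 : y ≤ -1 ↔ b < -(24 * s) := by
    rw [row_le (by omega) hy]; omega
  have hk1 : 1 ≤ k := by omega
  have hyz : Row s (-(-y)) b := by rw [neg_neg]; exact hy
  rcases h with h | h | h | h
  · refine ⟨0, -y, ⟨by omega, by omega, by omega, by omega⟩, hyz, ?_, by omega, by omega, ⟨0, ?_⟩,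
      by omega, by omega⟩
    · rw [h]; simp [crn]; ring
    · rw [h]; unfold clk; rw [if_pos rfl]; ring
  · refine ⟨1, -y, ⟨by omega, by omega, by omega, by omega⟩, hyz, ?_, by omega, by omega, ⟨0, ?_⟩,
      by omega, by omega⟩
    · rw [h]; simp [crn]; ring
    · rw [h]; unfold clk; rw [if_neg (by simp only; omega), if_pos rfl]; ring
  · by_cases hc : b < -(24 * s)
    · refine ⟨-2, -y, ⟨by omega, by omega, by omega, by omega⟩, hyz, ?_, by omega, by omega,
        ⟨-1, ?_⟩, by omega, by omega⟩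
      · rw [h]; simp [crn]
      · rw [h]; unfold clk
        rw [if_neg (by simp only; omega), if_neg (by simp only; omega), if_pos rfl]; ring
    · refine ⟨2, -y, ⟨by omega, by omega, by omega, by omega⟩, hyz, ?_, by omega, by omega,
        ⟨0, ?_⟩, by omega, by omega⟩
      · rw [h]; simp [crn]
      · rw [h]; unfold clk
        rw [if_neg (by simp only; omega), if_neg (by simp only; omega), if_pos rfl]; ring
  · refine ⟨-1, -y, ⟨by omega, by omega, by omega, by omega⟩, hyz, ?_, by omega, by omega, ⟨-1, ?_⟩,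
      by omega, by omega⟩
    · rw [h]; simp [crn]
    · rw [h]; unfold clk
      rw [if_neg (by simp only; omega), if_neg (by simp only; omega), if_neg (by simp only; omega)]
      ring

lemma close_crn {X W σ σ' b b' : ℤ} (hσ : -2 ≤ σ ∧ σ ≤ 2) (h : σ = σ' ∨ (σ = -2 ∧ σ' = 2))
    (hb : |b - b'| ≤ W) : Close X (1 - X) W (crn σ (X, b)) (crn σ' (X, b')) := by
  rw [abs_le] at hb
  unfold Close crn
  simp only [abs_le]
  rcases h with rfl | ⟨rfl, rfl⟩
  · rcases (by omega : σ = -2 ∨ σ = -1 ∨ σ = 0 ∨ σ = 1 ∨ σ = 2) with rfl | rfl | rfl | rfl | rfl <;>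
      norm_num <;> omega
  · norm_num; omega

lemma Close.symm' {A B W : ℤ} {x x' : ℤ × ℤ} (h : Close A B W x x') : Close B A W x x' := by
  unfold Close at *
  tauto

lemma emod_shift {M a b c d m n : ℤ} (h : a = b + M * m) (h' : c = d + M * n) :
    (a - c) % M = (b - d) % M := by
  rw [h, h', show b + M * m - (d + M * n) = b - d + M * (m - n) by ring, Int.add_mul_emod_self_left]

end SortAux

theorem InSep_or {r s R0 : ℤ} {e : ℤ × ℤ} {ω : Finset (ℤ × ℤ)} (hs : 3 ≤ s) (hR0 : 45 ≤ R0)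
    (hr : 4 * s * (2 * R0 + 1) - s ≤ r ∧ r ≤ 4 * s * (2 * R0 + 1) - 2)
    (he : (e.1 + e.2) % 2 = 1) (heB : e ∈ BB r) (hA : A4 (BB r) e ω) :
    InSep r s R0 e ω ∨
    (∃ x x', Ex4 r e ω x ∧ Ex4 r e ω x' ∧ x ≠ x' ∧ Close (2 * r + 1) (-(2 * r)) (144 * s) x x') ∨
    (∃ x, Ex4 r e ω x ∧ NCor r (200 * s) x) := by
  have hr1 : 1 ≤ r := by
    have e1 : 4 * s * (2 * R0 + 1) = 8 * (s * R0) + 4 * s := by ring
    have p1 := mul_le_mul_of_nonneg_left hR0 (by omega : 0 ≤ s)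
    omega
  obtain ⟨x, hx⟩ := four_exits hA
  obtain ⟨l1, l2⟩ := HPosAux.lab_zz he
  have l1' : lab (zu e) ∈ BB r := by rw [l1]; exact heB
  have l2' : lab (zv e) ∈ BB r := by rw [l2]; exact heB
  by_cases hN : ∃ κ, NCor r (200 * s) (x κ)
  · obtain ⟨κ, hκ⟩ := hN
    exact Or.inr (Or.inr ⟨x κ, ext_or (hx κ), hκ⟩)
  have hN' : ∀ κ, ¬ NCor r (200 * s) (x κ) := fun κ h => hN ⟨κ, h⟩
  have hpos : ∀ κ, ∃ b : ℤ, -(2 * r) + 1 ≤ b ∧ b ≤ 2 * r ∧
      (x κ = (2 * r + 1, b) ∨ x κ = (1 - b, 2 * r + 1) ∨ x κ = (-(2 * r), 1 - b) ∨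
        x κ = (b, -(2 * r))) := by
    intro κ
    rcases ext_or (hx κ) with h | h | h | h
    · obtain ⟨b, h1, h2, -, h3⟩ := FX_pos hr1 l1' h; exact ⟨b, h1, h2, h3⟩
    · obtain ⟨b, h1, h2, -, h3⟩ := BX_pos hr1 l1' h; exact ⟨b, h1, h2, h3⟩
    · obtain ⟨b, h1, h2, -, h3⟩ := FX_pos hr1 l2' h; exact ⟨b, h1, h2, h3⟩
    · obtain ⟨b, h1, h2, -, h3⟩ := BX_pos hr1 l2' h; exact ⟨b, h1, h2, h3⟩
  choose b hb1 hb2 hb3 using hpos
  choose σ y g1 g2 g3 g4 g5 g6 g7 g8 using fun κ =>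
    key_in hs hR0 hr (hb1 κ) (hb2 κ) (hb3 κ) (hN' κ)
  choose m hm using g6
  have hc := cyc hr1 he heB hA ((hx 0).1 rfl) ((hx 1).2.1 rfl) ((hx 2).2.2.1 rfl)
    ((hx 3).2.2.2 rfl)
  have hT : ∀ i j : Fin 4, ((4 * r * σ i + b i) - (4 * r * σ j + b j)) % (16 * r) =
      (clk r (x i) - clk r (x j)) % (16 * r) := by
    intro i j
    rw [emod_shift (hm i) (hm j)]
    congr 1; ring
  obtain ⟨a, ha1, ha2, ha3⟩ := sort4 (M := 16 * r) (A := -(8 * r) - 8 * s)
    (T := fun κ => 4 * r * σ κ + b κ) (by omega) (fun κ => ⟨g4 κ, g5 κ⟩)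
    (by rw [hT]; exact hc.1) (by rw [hT, hT]; exact hc.2.1) (by rw [hT, hT]; exact hc.2.2)
  have hlt : ∀ i j : Fin 4, i < j → 4 * r * σ (i + a) + b (i + a) < 4 * r * σ (j + a) + b (j + a) := by
    have c1 : (1 : Fin 4) + a = a + 1 := add_comm _ _
    have c2 : (2 : Fin 4) + a = a + 2 := add_comm _ _
    have c3 : (3 : Fin 4) + a = a + 3 := add_comm _ _
    intro i j hij
    fin_cases i <;> fin_cases j <;> first
      | (exact absurd hij (by decide))
      | skip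
    all_goals simp only [Fin.zero_eta, Fin.mk_one, Fin.reduceFinMk, zero_add, c1, c2, c3]
    all_goals linarith
  by_cases hK : ∀ i j : Fin 4, i < j → ((σ (i + a) < σ (j + a) ∨
      (σ (i + a) = σ (j + a) ∧ y (i + a) + 8 ≤ y (j + a))) ∧
      (σ (i + a) = -2 → σ (j + a) = 2 → y (j + a) + 8 ≤ y (i + a)))
  · left
    refine ⟨a, fun i => σ (i + a), fun i => y (i + a), fun i => b (i + a),
      ⟨fun i => g1 _, hK⟩, fun i => ⟨g2 _, ?_⟩⟩
    simp only
    rw [← g3]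
    exact hx _
  · right; left
    push Not at hK
    obtain ⟨i, j, hij, hK⟩ := hK
    have hl := hlt i j hij
    set i' := i + a
    set j' := j + a
    have ki := (g1 i').1
    have kj := (g1 j').1
    have hmain : (σ i' = σ j' ∧ b i' < b j' ∧ b j' - b i' ≤ 144 * s) ∨
        (σ i' = -2 ∧ σ j' = 2 ∧ b j' < b i' ∧ b i' - b j' ≤ 144 * s) := by
      by_cases h1 : σ i' < σ j' ∨ (σ i' = σ j' ∧ y i' + 8 ≤ y j')
      · right
        obtain ⟨k1, k2, k3⟩ := hK h1
        have := row_near (by omega) (g2 j') (g2 i') (by omega)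
        have := g7 i' k1
        have := g8 j' k2
        refine ⟨k1, k2, by omega, by omega⟩
      · left
        push Not at h1
        have h2 : σ i' = σ j' := by
          rcases lt_or_eq_of_le h1.1 with h | h
          · exfalso
            have h3 : r * (σ j' + 1) ≤ r * σ i' :=
              mul_le_mul_of_nonneg_left (by omega) (by omega)
            rw [mul_add, mul_one] at h3
            have e1 : 4 * r * σ i' = 4 * (r * σ i') := by ring
            have e2 : 4 * r * σ j' = 4 * (r * σ j') := by ring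
            have := hb1 i'
            have := hb2 j'
            omega
          · exact h.symm
        have h3 := row_near (by omega) (g2 i') (g2 j') (by have := h1.2 h2; omega)
        rw [h2] at hl
        exact ⟨h2, by omega, by omega⟩
    refine ⟨x i', x j', ext_or (hx _), ext_or (hx _), ?_, ?_⟩
    · rw [g3 i', g3 j']
      intro hcon
      rcases hmain with ⟨h1, h2, h3⟩ | ⟨h1, h2, h3, h4⟩
      · rw [h1] at hcon
        unfold crn at hcon
        split_ifs at hcon <;> simp only [Prod.mk.injEq] at hcon <;> omega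
      · rw [h1, h2] at hcon
        unfold crn at hcon
        norm_num at hcon
        omega
    · rw [g3 i', g3 j', show -(2 * r) = 1 - (2 * r + 1) by ring]
      apply close_crn (by omega)
      · rcases hmain with ⟨h1, h2, h3⟩ | ⟨h1, h2, h3, h4⟩
        · exact Or.inl h1
        · exact Or.inr ⟨h1, h2⟩
      · rw [abs_le]
        rcases hmain with ⟨h1, h2, h3⟩ | ⟨h1, h2, h3, h4⟩ <;> omega

theorem OutSep_or {k s K0 L : ℤ} {e' : ℤ × ℤ} {ω : Finset (ℤ × ℤ)} (hs : 3 ≤ s) (hK0 : 185 ≤ K0)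
    (hk : 4 * s * (2 * K0 + 1) + 2 ≤ k ∧ k ≤ 4 * s * (2 * K0 + 1) + s - 1) (hL : k < L)
    (hH : Hole k L e' ω) (hA : A4 (BB L \ BB k) e' ω) :
    OutSep k s K0 (BB L \ BB k) e' ω ∨
    (∃ x x', ExB (BB L \ BB k) e' ω x ∧ ExB (BB L \ BB k) e' ω x' ∧ x ≠ x' ∧
      Close (2 * k + 1) (-(2 * k)) (144 * s) x x') ∨
    (∃ x, ExB (BB L \ BB k) e' ω x ∧ NCor k (1200 * s) x) := by
  have hk1 : 1 ≤ k := hH.hk
  obtain ⟨x, hx⟩ := four_exits hA
  by_cases hN : ∃ κ, NCor k (1200 * s) (x κ)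
  · obtain ⟨κ, hκ⟩ := hN
    exact Or.inr (Or.inr ⟨x κ, ext_or (hx κ), hκ⟩)
  have hN' : ∀ κ, ¬ NCor k (1200 * s) (x κ) := fun κ h => hN ⟨κ, h⟩
  have hpos : ∀ κ, ∃ b : ℤ, Hpos k b (x κ) := fun κ => ExB_pos hH (ext_or (hx κ))
  choose b hb using hpos
  choose τ z g1 g2 g3 g4 g5 g6 g7 g8 using fun κ => key_out hs hK0 hk (hb κ) (hN' κ)
  choose m hm using g6
  have hc := cyc_hole hH hA ((hx 0).1 rfl) ((hx 1).2.1 rfl) ((hx 2).2.2.1 rfl)
    ((hx 3).2.2.2 rfl)
  have hT : ∀ i j : Fin 4, ((4 * k * τ i - b i) - (4 * k * τ j - b j)) % (16 * k) =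
      (clk k (x i) - clk k (x j)) % (16 * k) := by
    intro i j
    rw [emod_shift (hm i) (hm j)]
    congr 1; ring
  have hTb : ∀ i, -(8 * k) + 24 * s + 1 ≤ 4 * k * τ i - b i ∧
      4 * k * τ i - b i < -(8 * k) + 24 * s + 1 + 16 * k := fun κ => ⟨g4 κ, g5 κ⟩
  set T : Fin 4 → ℤ := fun κ => 4 * k * τ κ - b κ with hTdef
  have hT' : ∀ i j : Fin 4, (T i - T j) % (16 * k) = (clk k (x i) - clk k (x j)) % (16 * k) := hT
  rw [← hT', ← hT', ← hT', mod_val (hTb 1) (hTb 0), mod_val (hTb 2) (hTb 0),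
    mod_val (hTb 3) (hTb 0)] at hc
  obtain ⟨a, ha1, ha2, ha3⟩ := sort4 (M := 16 * k) (A := -(8 * k) + 24 * s + 1)
    (T := fun i => T (-i)) (by omega) (fun i => hTb _)
    (by
      show 0 < (T 3 - T 0) % (16 * k)
      rw [mod_val (hTb 0) (hTb 3)]
      have := hTb 0; have := hTb 1; have := hTb 2; have := hTb 3
      obtain ⟨c1, c2, c3⟩ := hc
      split_ifs at c1 c2 c3 ⊢ <;> omega)
    (by
      show (T 3 - T 0) % (16 * k) < (T 2 - T 0) % (16 * k)
      rw [mod_val (hTb 0) (hTb 3), mod_val (hTb 0) (hTb 2)]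
      have := hTb 0; have := hTb 1; have := hTb 2; have := hTb 3
      obtain ⟨c1, c2, c3⟩ := hc
      split_ifs at c1 c2 c3 ⊢ <;> omega)
    (by
      show (T 2 - T 0) % (16 * k) < (T 1 - T 0) % (16 * k)
      rw [mod_val (hTb 0) (hTb 2), mod_val (hTb 0) (hTb 1)]
      have := hTb 0; have := hTb 1; have := hTb 2; have := hTb 3
      obtain ⟨c1, c2, c3⟩ := hc
      split_ifs at c1 c2 c3 ⊢ <;> omega)
  have hlt : ∀ i j : Fin 4, i < j → T (-a - i) < T (-a - j) := by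
    have c0 : -a - (0 : Fin 4) = -a := sub_zero _
    have c1 : -a - (1 : Fin 4) = -(a + 1) := by rw [neg_add]; exact sub_eq_add_neg _ _
    have c2 : -a - (2 : Fin 4) = -(a + 2) := by rw [neg_add]; exact sub_eq_add_neg _ _
    have c3 : -a - (3 : Fin 4) = -(a + 3) := by rw [neg_add]; exact sub_eq_add_neg _ _
    intro i j hij
    fin_cases i <;> fin_cases j <;> first
      | (exact absurd hij (by decide))
      | skip
    all_goals simp only [Fin.zero_eta, Fin.mk_one, Fin.reduceFinMk, c0, c1, c2, c3]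
    all_goals linarith
  by_cases hK : ∀ i j : Fin 4, i < j → ((τ (-a - i) < τ (-a - j) ∨
      (τ (-a - i) = τ (-a - j) ∧ z (-a - i) + 8 ≤ z (-a - j))) ∧
      (τ (-a - i) = -2 → τ (-a - j) = 2 → z (-a - j) + 8 ≤ z (-a - i)))
  · left
    refine ⟨-a, fun i => τ (-a - i), fun i => z (-a - i), fun i => b (-a - i),
      ⟨fun i => g1 _, hK⟩, fun i => ⟨g2 _, ?_⟩⟩
    simp only
    rw [← g3]
    exact hx _
  · right; left
    push Not at hK
    obtain ⟨i, j, hij, hK⟩ := hK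
    have hl := hlt i j hij
    simp only [hTdef] at hl
    set i' := -a - i
    set j' := -a - j
    have ki := (g1 i').1
    have kj := (g1 j').1
    have hmain : (τ i' = τ j' ∧ b j' < b i' ∧ b i' - b j' ≤ 144 * s) ∨
        (τ i' = -2 ∧ τ j' = 2 ∧ b i' < b j' ∧ b j' - b i' ≤ 144 * s) := by
      by_cases h1 : τ i' < τ j' ∨ (τ i' = τ j' ∧ z i' + 8 ≤ z j')
      · right
        obtain ⟨k1, k2, k3⟩ := hK h1
        have := row_near (by omega) (g2 i') (g2 j') (by omega)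
        have := g7 i' k1
        have := g8 j' k2
        refine ⟨k1, k2, by omega, by omega⟩
      · left
        push Not at h1
        have h2 : τ i' = τ j' := by
          rcases lt_or_eq_of_le h1.1 with h | h
          · exfalso
            have h3 : k * (τ j' + 1) ≤ k * τ i' :=
              mul_le_mul_of_nonneg_left (by omega) (by omega)
            rw [mul_add, mul_one] at h3
            have e1 : 4 * k * τ i' = 4 * (k * τ i') := by ring
            have e2 : 4 * k * τ j' = 4 * (k * τ j') := by ring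
            have := (hb i').2.1
            have := (hb j').1
            omega
          · exact h.symm
        have h3 := row_near (by omega) (g2 j') (g2 i') (by have := h1.2 h2; omega)
        rw [h2] at hl
        exact ⟨h2, by omega, by omega⟩
    refine ⟨x i', x j', ext_or (hx _), ext_or (hx _), ?_, ?_⟩
    · rw [g3 i', g3 j']
      intro hcon
      rcases hmain with ⟨h1, h2, h3⟩ | ⟨h1, h2, h3, h4⟩
      · rw [h1] at hcon
        unfold crn at hcon
        split_ifs at hcon <;> simp only [Prod.mk.injEq] at hcon <;> omega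
      · rw [h1, h2] at hcon
        unfold crn at hcon
        norm_num at hcon
        omega
    · apply Close.symm'
      rw [g3 i', g3 j', show 2 * k + 1 = 1 - (-(2 * k)) by ring]
      have hcl : ∀ X W σ σ' b b' : ℤ, (σ = σ' ∨ (σ = -2 ∧ σ' = 2)) → (-2 ≤ σ ∧ σ ≤ 2) →
          |b - b'| ≤ W → Close X (1 - X) W (crn (σ + 2) (X, b)) (crn (σ' + 2) (X, b')) := by
        intro X W σ σ' b b' h hσ hb
        rw [abs_le] at hb
        unfold Close crn
        simp only [abs_le]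
        rcases h with rfl | ⟨rfl, rfl⟩
        · rcases (by omega : σ = -2 ∨ σ = -1 ∨ σ = 0 ∨ σ = 1 ∨ σ = 2) with
            rfl | rfl | rfl | rfl | rfl <;> norm_num <;> omega
        · norm_num; omega
      apply hcl
      · rcases hmain with ⟨h1, h2, h3⟩ | ⟨h1, h2, h3, h4⟩
        · exact Or.inl h1
        · exact Or.inr ⟨h1, h2⟩
      · omega
      · rw [abs_le]
        rcases hmain with ⟨h1, h2, h3⟩ | ⟨h1, h2, h3, h4⟩ <;> omega

end Pool.Agent.H81.NC
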