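import Mathlib
import Pool.Agent.H81.NC.Sort
import Pool.Agent.H81.NC.ArmE
import Pool.Agent.H81.NC.Defs3
import Pool.Agent.H75.Four.FArm
import Pool.Agent.H75.Four.HSurv
import Pool.Agent.H75.Four.HInner
import Pool.Agent.H99.NC.PrP

set_option autoImplicit false
open Finset

/-! NC-R2 (helper19): recursion inwards. With four arms up to a smaller hole, either the hits of the
hole are separated, or two hits are close (then a fresh arm crosses the window, `survive_hole`), or a hit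
is near a corner (then there is an arm from the corner outwards, `arm_inner`). -/

namespace Pool.Agent.H81.NC

open Pool.Agent.H75.Perc Pool.Agent.H75.TwoArm Pool.Agent.H75.Four Pool.Agent.H99.NC

namespace InRecAux

/-- an arm from the box of radius `ρ` around `x` to distance `D` -/
def Ar (ω : Finset (ℤ × ℤ)) (x : ℤ × ℤ) (ρ D : ℤ) : Prop :=
  ∃ u v : ℤ × ℤ, |u.1 - x.1| ≤ ρ ∧ |u.2 - x.2| ≤ ρ ∧
    (D ≤ |v.1 - x.1| ∨ D ≤ |v.2 - x.2|) ∧ Co ω u v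

/-- a connection from near `x` to far away, stopped at the distance `D` -/
lemma cut {ρ D : ℤ} {x : ℤ × ℤ} {w w' : Finset (ℤ × ℤ)} {p q : ℤ × ℤ}
    (h : Co w p q) (hp : |p.1 - x.1| ≤ ρ ∧ |p.2 - x.2| ≤ ρ) (hρ : ρ ≤ D)
    (hq : D ≤ |q.1 - x.1| ∨ D ≤ |q.2 - x.2|)
    (hw : ∀ a ∈ w, 2 * (x.1 - D) ≤ a.1 → a.1 ≤ 2 * (x.1 + D) → 2 * (x.2 - D) ≤ a.2 →
      a.2 ≤ 2 * (x.2 + D) → a ∈ w') : Ar w' x ρ D := by
  have key : ∀ v, Co w p v → (∃ z : ℤ × ℤ, (D ≤ |z.1 - x.1| ∨ D ≤ |z.2 - x.2|) ∧ Co w' p z) ∨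
      (|v.1 - x.1| ≤ D ∧ |v.2 - x.2| ≤ D ∧ Co w' p v) := by
    intro v hv
    induction hv with
    | refl => exact Or.inr ⟨hp.1.trans hρ, hp.2.trans hρ, Co.refl _ _⟩
    | @tail a b hab hbc ih =>
      rcases ih with ih | ⟨h1, h2, h3⟩
      · exact Or.inl ih
      · by_cases hb : D ≤ |a.1 - x.1| ∨ D ≤ |a.2 - x.2|
        · exact Or.inl ⟨a, hb, h3⟩
        · push Not at hb
          have h4 := unit_cases hbc.1
          have a1 := abs_lt.1 hb.1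
          have a2 := abs_lt.1 hb.2
          refine Or.inr ⟨abs_le.2 (by omega), abs_le.2 (by omega),
            Relation.ReflTransGen.tail h3 ⟨hbc.1, ?_⟩⟩
          refine hw _ hbc.2 ?_ ?_ ?_ ?_ <;> simp only [Prod.fst_add, Prod.snd_add] <;> omega
  rcases key q h with ⟨z, h1, h2⟩ | ⟨h1, h2, h3⟩
  · exact ⟨p, z, hp.1, hp.2, h1, h2⟩
  · exact ⟨p, q, hp.1, hp.2, hq, h3⟩

lemma mix_union (U ω ω' W : Finset (ℤ × ℤ)) :
    mix U ω ω' ∪ W = mix U (ω ∪ W) (ω' ∪ W) := by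
  ext a
  simp only [mix, mem_union, mem_inter, mem_sdiff]
  tauto

lemma U4_sub {B ω : Finset (ℤ × ℤ)} {e : ℤ × ℤ} : U4 B e ω ⊆ B := by
  intro a ha
  unfold U4 at ha
  rcases mem_union.1 ha with h | h
  · exact ExitAux.UU_sub _ _ _ h
  · exact ExitAux.UU_sub _ _ _ h

lemma mem_BB' {r : ℤ} {a : ℤ × ℤ} : a ∈ BB r ↔
    (-(2 * r) ≤ a.1 ∧ a.1 ≤ 2 * r) ∧ (-(2 * r) ≤ a.2 ∧ a.2 ≤ 2 * r) ∧ (a.1 + a.2) % 2 = 1 := by
  unfold H75.TwoArm.BB
  rw [mem_Bx]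
  constructor <;> intro h <;> omega

lemma BB_mono {r r' : ℤ} (h : r ≤ r') : BB r ⊆ BB r' := by
  intro a ha
  rw [mem_BB'] at ha ⊢
  omega

/-- the positions of the hits, in coordinates -/
lemma hit_pos {k L : ℤ} {e x : ℤ × ℤ} {ω : Finset (ℤ × ℤ)} (hH : Hole k L e ω)
    (hx : ExB (BB L \ BB k) e ω x) :
    -(2 * k) ≤ x.1 ∧ x.1 ≤ 2 * k + 1 ∧ -(2 * k) ≤ x.2 ∧ x.2 ≤ 2 * k + 1 := by
  have hk := hH.hk
  obtain ⟨b, hb1, hb2, hb3⟩ := ExB_pos hH hx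
  rcases hb3 with rfl | rfl | rfl | rfl <;> simp only <;> omega

section

variable {q : ℤ × ℤ → ℝ} {s K0 k' k m L : ℤ} {e' : ℤ × ℤ} {E W : Finset (ℤ × ℤ)}

/-- the hits are close -/
def Cl (s k L : ℤ) (e' : ℤ × ℤ) (ω : Finset (ℤ × ℤ)) (x x' : ℤ × ℤ) : Prop :=
  ExB (BB L \ BB k) e' ω x ∧ ExB (BB L \ BB k) e' ω x' ∧ x ≠ x' ∧
    Close (2 * k + 1) (-(2 * k)) (144 * s) x x'

/-- two close hits: a fresh arm -/
lemma close_arm {D : ℤ} {ω ω' : Finset (ℤ × ℤ)} {x x' : ℤ × ℤ} (hs : 3 ≤ s) (hD : 74 * s ≤ D)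
    (hk' : 1 ≤ k') (hkk : k' + D + 3 ≤ k) (hkm : k + D + 1 ≤ m) (hmE : BB m ⊆ E)
    (hEL : E ⊆ BB (L - 1)) (hWL : W ⊆ BB (L - 1)) (hWE : Disjoint W E) (hω' : ω' ⊆ E)
    (hH : Hole k L e' (ω ∪ W)) (hA : A4 (BB L \ BB k) e' (ω ∪ W))
    (hx : Cl s k L e' (ω ∪ W) x x')
    (hA' : A4 (BB L \ BB k') e' (mix (U4 (BB L \ BB k) e' (ω ∪ W)) ω ω' ∪ W)) :
    Ar ω' (x.1 / 2, x.2 / 2) (74 * s) D ∨ Ar (du E ω') (x.1 / 2, x.2 / 2) (74 * s) D := by
  obtain ⟨hx1, hx2, hne, hc1, hc2, hc3⟩ := hx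
  obtain ⟨p1, p2, p3, p4⟩ := hit_pos hH hx1
  rw [mix_union] at hA'
  rcases survive_hole hH (union_subset (hω'.trans hEL) hWL) hk' (by omega) hA hx1 hx2 hne hc1
    ⟨hc2, hc3⟩ hA' with ⟨p, r, h1, h2, h3, h4, h5⟩ | ⟨f, g, h1, h2, h3, h4, h5, h6, h7⟩
  · left
    rw [abs_le] at h1 h2 h3 h4
    refine cut h5 ⟨abs_le.2 ?_, abs_le.2 ?_⟩ hD ?_ ?_
    · simp only; omega
    · simp only; omega
    · simp only [le_abs]
      rcases hc1 with hc | hc | hc | hc <;> omega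
    · intro a ha b1 b2 b3 b4
      simp only at b1 b2 b3 b4
      rw [mem_inter, mem_union, mem_sdiff, mem_BB'] at ha
      have haE : a ∈ E := hmE (by rw [mem_BB']; omega)
      rcases ha.1 with h | h
      · exact h
      · exact absurd haE (disjoint_left.1 hWE h)
  · right
    rw [abs_le] at h1 h2
    refine cut h7 ⟨abs_le.2 ?_, abs_le.2 ?_⟩ hD ?_ ?_
    · simp only; omega
    · simp only; omega
    · simp only [le_abs]
      rcases hc1 with hc | hc | hc | hc <;> omega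
    · intro a ha b1 b2 b3 b4
      simp only at b1 b2 b3 b4
      unfold du at ha ⊢
      rw [mem_map] at ha ⊢
      obtain ⟨l, hl, rfl⟩ := ha
      refine ⟨l, ?_, rfl⟩
      have e1 : (sh1 l).1 = l.1 + 1 := rfl
      have e2 : (sh1 l).2 = l.2 + 1 := rfl
      rw [e1] at b1 b2
      rw [e2] at b3 b4
      rw [mem_sdiff, mem_union, mem_sdiff, mem_BB'] at hl
      rw [mem_sdiff]
      exact ⟨hmE (by rw [mem_BB']; omega), fun h => hl.2 (Or.inl h)⟩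

/-- a hit near a corner: an arm outwards -/
lemma corner_arm {D : ℤ} {ω : Finset (ℤ × ℤ)} {x : ℤ × ℤ} (_hs : 3 ≤ s)
    (hkm : k + D + 1 ≤ m) (hD : 0 ≤ D) (hmE : BB m ⊆ E) (hEL : m ≤ L - 1) (hWE : Disjoint W E)
    (he'E : e' ∉ E)
    (hH : Hole k L e' (ω ∪ W)) (hA : A4 (BB L \ BB k) e' (ω ∪ W))
    (hx : ExB (BB L \ BB k) e' (ω ∪ W) x) (hc : NCor k (1200 * s) x) :
    ∃ y ∈ ({(k, k), (k, -k), (-k, k), (-k, -k)} : Finset (ℤ × ℤ)),
      Ar (ω ∩ BB m) y (602 * s) D := by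
  obtain ⟨p1, p2, p3, p4⟩ := hit_pos hH hx
  obtain ⟨r, h1, h2, h3, h4⟩ := arm_inner hH (m := m) (by omega) hEL (fun h => he'E (hmE h)) hA hx
  have h5 : Co (ω ∩ BB m) (vx x) r := by
    refine h4.mono ?_
    intro a ha
    rw [mem_sdiff, mem_inter, mem_union] at ha
    rw [mem_inter]
    refine ⟨?_, ha.1.2⟩
    rcases ha.1.1 with h | h
    · exact h
    · exact absurd (hmE ha.1.2) (disjoint_left.1 hWE h)
  obtain ⟨c1, c2⟩ := hc
  rw [le_abs] at c1 c2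
  have e1 : (vx x).1 = x.1 / 2 := rfl
  have e2 : (vx x).2 = x.2 / 2 := rfl
  have hr : ∀ y : ℤ × ℤ, (y.1 = k ∨ y.1 = -k) → (y.2 = k ∨ y.2 = -k) →
      (D ≤ |r.1 - y.1| ∨ D ≤ |r.2 - y.2|) := by
    intro y hy1 hy2
    simp only [le_abs]
    rcases h1 with h | h
    · rcases abs_eq (by omega : (0:ℤ) ≤ m) |>.1 h with h | h <;> omega
    · rcases abs_eq (by omega : (0:ℤ) ≤ m) |>.1 h with h | h <;> omega
  rcases c1 with c1 | c1 <;> rcases c2 with c2 | c2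
  · refine ⟨(k, k), by simp, vx x, r, ?_, ?_, hr _ (Or.inl rfl) (Or.inl rfl), h5⟩ <;>
    rw [abs_le] <;> simp only [e1, e2] <;> omega
  · refine ⟨(k, -k), by simp, vx x, r, ?_, ?_, hr _ (Or.inl rfl) (Or.inr rfl), h5⟩ <;>
    rw [abs_le] <;> simp only [e1, e2] <;> omega
  · refine ⟨(-k, k), by simp, vx x, r, ?_, ?_, hr _ (Or.inr rfl) (Or.inl rfl), h5⟩ <;>
    rw [abs_le] <;> simp only [e1, e2] <;> omega
  · refine ⟨(-k, -k), by simp, vx x, r, ?_, ?_, hr _ (Or.inr rfl) (Or.inr rfl), h5⟩ <;>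
    rw [abs_le] <;> simp only [e1, e2] <;> omega

end

end InRecAux

open InRecAux

theorem in_rec {c ε : ℝ} (hc : 0 < c) (hε : 0 < ε) : ∃ Λ : ℤ, 1 ≤ Λ ∧ ∀ (q : ℤ × ℤ → ℝ)
    (s K0 k' k m L : ℤ) (e' : ℤ × ℤ) (E W : Finset (ℤ × ℤ)), Pb q → RSM q c m → 3 ≤ s → 185 ≤ K0 →
    4 * s * (2 * K0 + 1) + 2 ≤ k → k ≤ 4 * s * (2 * K0 + 1) + s - 1 → (e'.1 + e'.2) % 2 = 1 →
    1 ≤ k' → k' + Λ * s ≤ k → k + Λ * s ≤ m → BB m ⊆ E → E ⊆ BB (L - 1) → W ⊆ BB (L - 1) →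
    (∀ a ∈ E, (a.1 + a.2) % 2 = 1) →
    e' ∈ BB (L - 1) → Disjoint W E → e' ∉ E → e' ∉ W →
    PrP q E (fun ω => A4 (BB L \ BB k') e' (ω ∪ W)) ≤
      PrP q E (fun ω => OutSep k s K0 (BB L \ BB k) e' (ω ∪ W)) +
      ε * PrP q E (fun ω => A4 (BB L \ BB m) e' (ω ∪ W)) := by
  obtain ⟨Λ, hΛ, H⟩ := armE hc (show 0 < ε / 6 by positivity)
  refine ⟨602 * Λ + 2, by omega, ?_⟩
  intro q s K0 k' k m L e' E W hq hR hs hK0 hk1 hk2 he' hk' hkk hkm hmE hEL hWL hodd he'L hWE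
    he'E he'W
  have hΛs : 0 ≤ Λ * s := by positivity
  have hΛs1 : s ≤ Λ * s := by nlinarith
  have e0 : (602 * Λ + 2) * s = 602 * (Λ * s) + 2 * s := by ring
  rw [e0] at hkk hkm
  have hkk1 : k' ≤ k := by omega
  have hkm1 : k ≤ m := by omega
  have hmL : m ≤ L - 1 := by
    have h1 : ((2 * m, 2 * m - 1) : ℤ × ℤ) ∈ BB (L - 1) := hEL (hmE (by
      rw [mem_BB']; simp only; omega))
    rw [mem_BB'] at h1
    simp only at h1
    omega
  have hHole : ∀ ω, ω ⊆ E → Hole k L e' (ω ∪ W) := fun ω hω =>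
    ⟨by omega, he', he'L, fun h => he'E (hmE (BB_mono hkm1 h)), union_subset (hω.trans hEL) hWL⟩
  set A0 : Finset (ℤ × ℤ) → Prop := fun ω => A4 (BB L \ BB k') e' (ω ∪ W) with hA0
  set A1 : Finset (ℤ × ℤ) → Prop := fun ω => A4 (BB L \ BB k) e' (ω ∪ W) with hA1
  set A2 : Finset (ℤ × ℤ) → Prop := fun ω => A4 (BB L \ BB m) e' (ω ∪ W) with hA2
  have h01 : ∀ ω, A0 ω → A1 ω := fun ω h =>
    A4_mono (sdiff_subset_sdiff (Subset.refl _) (BB_mono hkk1)) h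
  have h12 : ∀ ω, A1 ω → A2 ω := fun ω h =>
    A4_mono (sdiff_subset_sdiff (Subset.refl _) (BB_mono hkm1)) h
  set B1 : Finset (ℤ × ℤ) → Prop := fun ω => A1 ω ∧ ∃ x x', Cl s k L e' (ω ∪ W) x x' with hB1
  set C1 : Finset (ℤ × ℤ) → Prop := fun ω =>
    ∃ y ∈ ({(k, k), (k, -k), (-k, k), (-k, -k)} : Finset (ℤ × ℤ)),
      Ar ω y (602 * s) (Λ * (602 * s)) with hC1
  -- the three cases
  have hor : PrP q E A0 ≤ PrP q E (fun ω => OutSep k s K0 (BB L \ BB k) e' (ω ∪ W)) +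
      (PrP q E (fun ω => A0 ω ∧ B1 ω) + PrP q E (fun ω => A2 ω ∧ C1 (ω ∩ BB m))) := by
    refine le_trans (PrP_mono hq (B := fun ω => OutSep k s K0 (BB L \ BB k) e' (ω ∪ W) ∨
      ((A0 ω ∧ B1 ω) ∨ (A2 ω ∧ C1 (ω ∩ BB m)))) ?_)
      ((PrP_or_le hq E _ _).trans (by gcongr; exact PrP_or_le hq E _ _))
    intro ω hω h0
    have h1 := h01 ω h0
    rcases OutSep_or hs hK0 ⟨hk1, hk2⟩ (by omega) (hHole ω hω) h1 with h | ⟨x, x', h⟩ | ⟨x, h, h'⟩
    · exact Or.inl h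
    · exact Or.inr (Or.inl ⟨h0, h1, x, x', h⟩)
    · refine Or.inr (Or.inr ⟨h12 ω h1, ?_⟩)
      exact corner_arm hs (by nlinarith) (by nlinarith) hmE hmL hWE he'E (hHole ω hω) h1 h h'
  -- close hits
  have hclose : PrP q E (fun ω => A0 ω ∧ B1 ω) ≤ PrP q E B1 * (ε / 6 + ε / 6) := by
    refine resampleP_le hq E (fun ω => U4 (BB L \ BB k) e' (ω ∪ W)) ?_ A0 B1
      (fun ω ω' => ∀ x x', Cl s k L e' (ω ∪ W) x x' →
        Ar ω' (x.1 / 2, x.2 / 2) (74 * s) (Λ * (74 * s)) ∨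
        Ar (du E ω') (x.1 / 2, x.2 / 2) (74 * s) (Λ * (74 * s))) _ ?_ ?_ ?_
    · intro ω ω' _ _
      rw [mix_union]
      exact U4_mix _
    · intro ω ω' _ _ h
      have hl := A4_local (B := BB L \ BB k) (e := e') (ω := ω ∪ W)
        (ω1 := mix (U4 (BB L \ BB k) e' (ω ∪ W)) (ω ∪ W) (ω' ∪ W)) (by
          intro a ha _
          rw [mem_mix]
          tauto)
      rw [hB1] at h ⊢
      simp only [hA1] at h ⊢
      rw [mix_union] at h
      obtain ⟨h1, x, x', h2, h3, h4⟩ := h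
      have hE : ∀ x, ExB (BB L \ BB k) e' (mix (U4 (BB L \ BB k) e' (ω ∪ W)) (ω ∪ W) (ω' ∪ W)) x →
          ExB (BB L \ BB k) e' (ω ∪ W) x := by
        intro x hx
        have hu := hl.2.2 (zu e') (Or.inl rfl) x
        have hv := hl.2.2 (zv e') (Or.inr rfl) x
        rcases hx with h | h | h | h
        · exact Or.inl (hu.1.1 h)
        · exact Or.inr (Or.inl (hu.2.1 h))
        · exact Or.inr (Or.inr (Or.inl (hv.1.1 h)))
        · exact Or.inr (Or.inr (Or.inr (hv.2.1 h)))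
      exact ⟨hl.1.1 h1, x, x', hE x h2, hE x' h3, h4⟩
    · intro ω hω h
      obtain ⟨h1, x, x', h2⟩ := h
      refine (PrP_mono hq (B := fun ω' => Ar ω' (x.1 / 2, x.2 / 2) (74 * s) (Λ * (74 * s)) ∨
        Ar (du E ω') (x.1 / 2, x.2 / 2) (74 * s) (Λ * (74 * s))) (fun ω' _ h => h x x' h2)).trans
        ((PrP_or_le hq E _ _).trans ?_)
      have := H q m hq hR E hodd (x.1 / 2, x.2 / 2) (74 * s) (Λ * (74 * s)) (by omega) le_rfl
        (by nlinarith)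
      exact add_le_add this.1 this.2
    · intro ω ω' hω hω' h hA' x x' hx
      exact close_arm hs (by nlinarith) hk' (by nlinarith) (by nlinarith) hmE hEL hWL hWE hω'
        (hHole ω hω) h.1 hx hA'
  -- a hit near a corner
  have hcorner : PrP q E (fun ω => A2 ω ∧ C1 (ω ∩ BB m)) ≤ PrP q E A2 * (4 * (ε / 6)) := by
    have hloc : ∀ ω, ω ⊆ E → (A2 ω ↔ A2 (ω \ BB m)) := by
      intro ω _
      have hl := A4_local (B := BB L \ BB m) (e := e') (ω := ω ∪ W) (ω1 := (ω \ BB m) ∪ W) (by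
        intro a ha _
        have := (mem_sdiff.1 (U4_sub ha)).2
        rw [mem_union, mem_union, mem_sdiff]
        tauto)
      exact hl.1.symm
    have e1 : PrP q E (fun ω => A2 ω ∧ C1 (ω ∩ BB m)) =
        PrP q (BB m) C1 * PrP q (E \ BB m) A2 := by
      rw [← PrP_split q hmE C1 A2]
      refine PrP_congr fun ω hω => ?_
      rw [hloc ω hω]
      tauto
    have e2 : PrP q E A2 = PrP q (E \ BB m) A2 := by
      refine PrP_local sdiff_subset fun ω hω => ?_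
      have : ω ∩ (E \ BB m) = ω \ BB m := by
        ext a
        rw [mem_inter, mem_sdiff, mem_sdiff]
        constructor
        · tauto
        · intro h; exact ⟨h.1, hω h.1, h.2⟩
      rw [this]
      exact hloc ω hω
    have e3 : PrP q (BB m) C1 ≤ 4 * (ε / 6) := by
      refine (PrP_exists_le hq (BB m) _ (fun y ω => Ar ω y (602 * s) (Λ * (602 * s)))).trans ?_
      refine (sum_le_card_nsmul _ _ (ε / 6) fun y _ => ?_).trans ?_
      · exact (H q m hq hR (BB m) (fun e he => (mem_BB'.1 he).2.2) y (602 * s) (Λ * (602 * s))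
          (by omega) le_rfl (by nlinarith)).1
      · rw [nsmul_eq_mul]
        have : ((({(k, k), (k, -k), (-k, k), (-k, -k)} : Finset (ℤ × ℤ)).card : ℕ) : ℝ) ≤ 4 := by
          exact_mod_cast card_le_four
        gcongr
    rw [e1, e2, mul_comm]
    exact mul_le_mul_of_nonneg_left e3 (PrP_nonneg hq _ _)
  have hB1le : PrP q E B1 ≤ PrP q E A2 := PrP_mono hq fun ω _ h => h12 ω h.1
  have hA2nn := PrP_nonneg hq E A2
  have : PrP q E B1 * (ε / 6 + ε / 6) ≤ PrP q E A2 * (ε / 6 + ε / 6) := by gcongr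
  linarith

end Pool.Agent.H81.NC
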