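import Mathlib
import Pool.Agent.H81.NC.Defs

set_option autoImplicit false
open Finset

/-! A hook meets a corridor: the top arm of the hook crosses the rectangle. -/

namespace Pool.Agent.H81.NC

open Pool.Agent.H75.Perc

/-- the top arm of the hook -/
lemma mem_CC_top {a : ℤ} (h1 : -2 ≤ a) (h2 : a ≤ 9) : ((a, 1) : ℤ × ℤ) ∈ CC := by
  unfold CC
  exact mem_union_left _ (mem_union_left _ (mem_pc.2 ⟨a, h1, h2, rfl⟩))

/-- full vertices of the cells `(n, 1)` are joined to those of the cell `(1, 1)` inside the row -/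
lemma row_right {o : ℤ × ℤ} {s : ℤ} (hs : 1 ≤ s) {ω : Finset (ℤ × ℤ)} (h : Net o s CC ω)
    {v : ℤ × ℤ} (hv : CF o s (1, 1) ω v) (n : ℕ) (hn : 1 ≤ n) (hn9 : n ≤ 9) :
    ∃ u, CF o s ((n : ℤ), 1) ω u ∧
      Co (ω ∩ Bx (o.1 + s) (o.1 + s * n + s) (o.2 + s) (o.2 + 2 * s)) v u := by
  induction n, hn using Nat.le_induction with
  | base =>
    refine ⟨v, ?_, Co.refl _ _⟩
    simpa using hv
  | succ n hn ih =>
    obtain ⟨u, hu, hvu⟩ := ih (by omega)
    have hm : (((n + 1 : ℕ) : ℤ), (1 : ℤ)) ∈ CC := mem_CC_top (by push_cast; omega) (by omega)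
    have hm' : ((n : ℤ), (1 : ℤ)) ∈ CC := mem_CC_top (by omega) (by omega)
    obtain ⟨u', hu'⟩ := h.full hm
    have e1 : (((n + 1 : ℕ) : ℤ), (1 : ℤ)) = ((n : ℤ), (1 : ℤ)) + (1, 0) := by
      refine Prod.ext ?_ ?_ <;> simp
    refine ⟨u', hu', ?_⟩
    have hHH : HH o s ((n : ℤ), 1) ω := (h _ hm').2.1 (by rw [← e1]; exact hm)
    have h3 := HH_join (by omega) hu (e1 ▸ hu') hHH
    have hpos : (0 : ℤ) ≤ s * (n - 1) := mul_nonneg (by omega) (by omega)
    have hexp : s * ((n : ℤ) - 1) = s * n - s := by ring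
    refine (hvu.mono (inter_subset_inter_left ?_)).trans (h3.mono (inter_subset_inter_left ?_))
    · refine Bx_sub le_rfl ?_ le_rfl le_rfl
      push_cast
      rw [mul_add]; omega
    · rw [cell_right]
      unfold cell
      refine union_subset (Bx_sub ?_ ?_ ?_ ?_) (Bx_sub ?_ ?_ ?_ ?_) <;> push_cast <;>
        (try simp only [mul_add, mul_one]) <;> omega

theorem hook_meet {o : ℤ × ℤ} {s : ℤ} (hs : 1 ≤ s) {ω : Finset (ℤ × ℤ)} (h : Net o s CC ω)
    {X1 X2 Y1 Y2 : ℤ} (h1 : o.1 ≤ X1) (h1' : X1 ≤ o.1 + s) (h2 : o.1 + 2 * s ≤ X2)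
    (h3 : X2 ≤ o.1 + 10 * s)
    (h4 : Y1 ≤ o.2 + s) (h5 : o.2 + 2 * s ≤ Y2) {p q v : ℤ × ℤ} (hp : inB X1 X2 Y1 Y2 p)
    (hp1 : p.2 = Y1) (hq1 : q.2 = Y2) (hpq : Co (ω ∩ Bx X1 X2 Y1 Y2) p q)
    (hv : CF o s (1, 1) ω v) : Co (ω ∩ Bx X1 X2 Y1 Y2) p v := by
  have hv' : Full (o.1 + s) (o.1 + 2 * s) (o.2 + s) (o.2 + 2 * s) ω v := by
    have := hv
    unfold CF at this
    simp only [mul_one] at this
    rw [show o.1 + s + s = o.1 + 2 * s by ring, show o.2 + s + s = o.2 + 2 * s by ring] at this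
    exact this
  -- left end
  have hL : ∃ a : ℤ × ℤ, a.1 = X1 ∧ Co (ω ∩ Bx X1 X2 Y1 Y2) v a := by
    have hm : ((0 : ℤ), (1 : ℤ)) ∈ CC := mem_CC_top (by norm_num) (by norm_num)
    have hHH : HH o s (0, 1) ω := (h _ hm).2.1 (by
      simpa using mem_CC_top (a := 1) (by norm_num) (by norm_num))
    unfold HH at hHH
    simp only [mul_zero, add_zero, mul_one] at hHH
    rw [show o.2 + s + s = o.2 + 2 * s by ring] at hHH
    obtain ⟨P, Q, P1, P2, P3, P4⟩ := hHH
    have hQ := P4.inB inter_subset_right P1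
    obtain ⟨z, z1, z2, z3, -⟩ := trunc_left (m := X1) hQ (by omega) (by omega) P4.symm
    obtain ⟨y, y1, y2, y3, -⟩ := trunc_left (m := o.1 + s) hQ (by omega) (by omega) P4.symm
    have hvy := hv'.horiz y2 y1 P3 y3.symm
    refine ⟨z, z1, ?_⟩
    exact (hvy.mono (inter_subset_inter_left (Bx_sub (by omega) h2 h4 h5))).trans
      ((y3.symm.mono (inter_subset_inter_left (Bx_sub (by omega) h2 h4 h5))).trans
        (z3.mono (inter_subset_inter_left (Bx_sub (by omega) h2 h4 h5))))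
  -- right end
  have hR : ∃ b : ℤ × ℤ, b.1 = X2 ∧ Co (ω ∩ Bx X1 X2 Y1 Y2) v b := by
    have hn : ∃ n : ℕ, 1 ≤ n ∧ n ≤ 8 ∧ o.1 + s * n + s ≤ X2 ∧ X2 ≤ o.1 + s * n + 2 * s := by
      have : (X2 ≤ o.1 + 3 * s) ∨ (o.1 + 3 * s ≤ X2 ∧ X2 ≤ o.1 + 4 * s) ∨
        (o.1 + 4 * s ≤ X2 ∧ X2 ≤ o.1 + 5 * s) ∨ (o.1 + 5 * s ≤ X2 ∧ X2 ≤ o.1 + 6 * s) ∨
        (o.1 + 6 * s ≤ X2 ∧ X2 ≤ o.1 + 7 * s) ∨ (o.1 + 7 * s ≤ X2 ∧ X2 ≤ o.1 + 8 * s) ∨
        (o.1 + 8 * s ≤ X2 ∧ X2 ≤ o.1 + 9 * s) ∨ (o.1 + 9 * s ≤ X2 ∧ X2 ≤ o.1 + 10 * s) := by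
        omega
      rcases this with h | h | h | h | h | h | h | h
      · exact ⟨1, by norm_num, by norm_num, by push_cast; omega, by push_cast; omega⟩
      · exact ⟨2, by norm_num, by norm_num, by push_cast; omega, by push_cast; omega⟩
      · exact ⟨3, by norm_num, by norm_num, by push_cast; omega, by push_cast; omega⟩
      · exact ⟨4, by norm_num, by norm_num, by push_cast; omega, by push_cast; omega⟩
      · exact ⟨5, by norm_num, by norm_num, by push_cast; omega, by push_cast; omega⟩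
      · exact ⟨6, by norm_num, by norm_num, by push_cast; omega, by push_cast; omega⟩
      · exact ⟨7, by norm_num, by norm_num, by push_cast; omega, by push_cast; omega⟩
      · exact ⟨8, by norm_num, by norm_num, by push_cast; omega, by push_cast; omega⟩
    obtain ⟨n, n1, n8, n2, n3⟩ := hn
    obtain ⟨u, hu, hvu⟩ := row_right hs h hv n n1 (by omega)
    have hm' : ((n : ℤ), (1 : ℤ)) ∈ CC := mem_CC_top (by omega) (by omega)
    have hm : ((n : ℤ), (1 : ℤ)) + (1, 0) ∈ CC := by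
      simpa using mem_CC_top (a := n + 1) (by omega) (by omega)
    have hHH : HH o s ((n : ℤ), 1) ω := (h _ hm').2.1 hm
    have hpos : (0 : ℤ) ≤ s * (n - 1) := mul_nonneg (by omega) (by omega)
    have hexp : s * ((n : ℤ) - 1) = s * n - s := by ring
    unfold HH at hHH
    unfold CF at hu
    simp only [mul_one] at hHH hu
    obtain ⟨P, Q, P1, P2, P3, P4⟩ := hHH
    obtain ⟨z, z1, z2, z3, -⟩ := trunc_right (m := X2) P1 (by omega) (by omega) P4
    obtain ⟨y, y1, y2, y3, -⟩ := trunc_right (m := o.1 + s * n + s) P1 (by omega) (by omega) P4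
    have huP := hu.horiz (by unfold inB at P1 ⊢; omega) P2 y1 y3
    refine ⟨z, z1, ?_⟩
    refine (hvu.mono (inter_subset_inter_left (Bx_sub (by omega) (by omega) h4 h5))).trans
      ((huP.mono (inter_subset_inter_left (Bx_sub (by omega) (by omega) h4 (by omega)))).trans
        (z3.mono (inter_subset_inter_left (Bx_sub (by omega) le_rfl h4 (by omega)))))
  obtain ⟨a, a1, ha⟩ := hL
  obtain ⟨b, b1, hb⟩ := hR
  have hvB : inB X1 X2 Y1 Y2 v := by
    have := hv'.1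
    unfold inB at this ⊢; omega
  have haB := ha.inB inter_subset_right hvB
  obtain ⟨z, z1, z2⟩ := cross_co inter_subset_right inter_subset_right haB hp
    (ha.symm.trans hb) hpq a1 b1 hp1 hq1
  exact z2.trans (z1.symm.trans ha.symm)

theorem CC_lk {a b : ℤ × ℤ} (ha : a ∈ CC) (hb : b ∈ CC) : Lk CC a b := by
  have key : ∀ c ∈ CC, Lk CC c (-2, 1) := by
    have s1 : pc (fun a => (a, 1)) (-2) 9 ⊆ CC := by
      unfold CC; exact subset_union_left.trans subset_union_left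
    have s2 : pc (fun b => (-2, b)) (-2) 1 ⊆ CC := by
      unfold CC; exact subset_union_right.trans subset_union_left
    have s3 : pc (fun a => (a, -2)) (-2) 1 ⊆ CC := by
      unfold CC; exact subset_union_right
    intro c hc
    unfold CC at hc
    rcases mem_union.1 hc with hc | hc
    · rcases mem_union.1 hc with hc | hc
      · obtain ⟨t, t1, t2, rfl⟩ := mem_pc.1 hc
        exact (pc_lk (f := fun a : ℤ => ((a, 1) : ℤ × ℤ)) (fun t _ _ => by
          simp [IsUnit4]) t1 t2 (le_refl (-2)) (by norm_num)).mono s1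
      · obtain ⟨t, t1, t2, rfl⟩ := mem_pc.1 hc
        exact (pc_lk (f := fun b : ℤ => ((-2, b) : ℤ × ℤ)) (fun t _ _ => by
          simp [IsUnit4]) t1 t2 (show (-2 : ℤ) ≤ 1 by norm_num) (le_refl 1)).mono s2
    · obtain ⟨t, t1, t2, rfl⟩ := mem_pc.1 hc
      have e1 : Lk CC (t, -2) (-2, -2) :=
        (pc_lk (f := fun a : ℤ => ((a, -2) : ℤ × ℤ)) (fun t _ _ => by
          simp [IsUnit4]) t1 t2 (le_refl (-2)) (by norm_num)).mono s3
      have e2 : Lk CC (-2, -2) (-2, 1) :=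
        (pc_lk (f := fun b : ℤ => ((-2, b) : ℤ × ℤ)) (fun t _ _ => by
          simp [IsUnit4]) (le_refl (-2)) (show (-2 : ℤ) ≤ 1 by norm_num)
          (show (-2 : ℤ) ≤ 1 by norm_num) (le_refl 1)).mono s2
      exact e1.trans e2
  exact (key a ha).trans (key b hb).symm

end Pool.Agent.H81.NC
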