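import Mathlib
import Pool.Agent.H75.Four.FPath
import Pool.Agent.H75.Four.FRay
import Pool.Agent.H81.NC.Defs

set_option autoImplicit false
open Finset

/-! Hooking an arm near an exit: local form. -/

namespace Pool.Agent.H81.NC

open Pool.Agent.H75.Perc Pool.Agent.H75.TwoArm Pool.Agent.H75.Four

variable {r : ℤ} {ω : Finset (ℤ × ℤ)} {c x x1 x2 e : ℤ × ℤ} {S : ℤ × ℤ → Bool}
variable {U F E ω'' : Finset (ℤ × ℤ)} {p q : ℤ × ℤ} {b lo hi R' : ℤ}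

theorem hookl_F {B : Finset (ℤ × ℤ)} {R : ℤ × ℤ → Prop} {X Xm : ℤ}
    (he : (e.1 + e.2) % 2 = 1) (heB : e ∈ B)
    (hA : A4 B e ω) (hc : c = zu e ∨ c = zv e) (hb : b % 2 = 0)
    (h1 : FX B (ω.erase e) c (X + 1, b)) (h2 : BX B (ω.erase e) c x2)
    (hne : lab (X + 1, b) ≠ plab x2) (hR : Clo B (X + 1, b) x2 R)
    (hX : X + 2 ≤ Xm) (hlo' : lo < b) (hhi' : b ≤ hi)
    (hB : ∀ a : ℤ × ℤ, X + 1 ≤ a.1 → a.1 ≤ Xm → lo ≤ a.2 → a.2 ≤ hi → a ∉ B)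
    (hRw : ∀ z : ℤ × ℤ, X + 2 ≤ z.1 → z.1 ≤ Xm → lo + 1 ≤ z.2 → z.2 ≤ hi → (R z ↔ z.2 = b))
    (hF : ∀ a ∈ F, ∀ z, Tch a z → ¬ R z)
    (hU : U4 B e ω ⊆ U) (hUF : ∀ a ∈ U, a ∈ F → a ∈ U4 B e ω)
    (hpq : Co (ω'' ∩ F) p q) (hp1 : X + 1 ≤ 2 * p.1) (hp1' : 2 * p.1 ≤ Xm) (hp2 : b ≤ 2 * p.2)
    (hp3 : 2 * p.2 ≤ hi) (hq1 : X + 1 ≤ 2 * q.1) (hq1' : 2 * q.1 ≤ Xm) (hq2 : 2 * q.2 < b)
    (hq3 : lo ≤ 2 * q.2) :
    (∃ z, Str B (ω.erase e) c z ∧ Co ((ω'' ∩ F) \ U) p (vx z) ∧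
      Co ((ω.erase e) ∩ U4 B e ω) (vx c) (vx z)) ∧
    Co ((mix U ω ω'').erase e) (vx c) p := by
  have hlab : lab c ∈ B := by
    obtain ⟨-, -, l1, l2, -⟩ := opc_zu he
    rcases hc with rfl | rfl
    · rw [l1]; exact heB
    · rw [l2]; exact heB
  obtain ⟨S, hS⟩ := exists_TCR hlab h1 h2 hR
  have key : ∀ v : ℤ × ℤ, X + 1 ≤ 2 * v.1 → 2 * v.1 ≤ Xm → lo ≤ 2 * v.2 → 2 * v.2 ≤ hi →
      (S (dbl v) = true ↔ b ≤ 2 * v.2) := by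
    intro v v1 v2 v3 v4
    have := S_locF hlab hb h1 h2 hS hR.out hX hlo' hhi' hB hRw (p := dbl v)
      (by unfold dbl; simp only; omega) (by unfold dbl; exact v1) (by unfold dbl; exact v2)
      (by unfold dbl; exact v3) (by unfold dbl; exact v4)
    exact this
  refine hook4 he heB hA hc h1 h2 hR hne hS hF hU hUF hpq ?_ ?_
  · exact (key p hp1 hp1' (by omega) hp3).2 hp2
  · have := key q hq1 hq1' hq3 (by omega)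
    cases hSq : S (dbl q)
    · rfl
    · rw [hSq] at this
      have := this.1 rfl
      omega

theorem hookl_B {B : Finset (ℤ × ℤ)} {R : ℤ × ℤ → Prop} {X Xm : ℤ}
    (he : (e.1 + e.2) % 2 = 1) (heB : e ∈ B)
    (hA : A4 B e ω) (hc : c = zu e ∨ c = zv e) (hb : b % 2 = 1)
    (h1 : FX B (insert e ω) c x1) (h2 : BX B (insert e ω) c (X + 1, b))
    (hne : lab x1 ≠ plab (X + 1, b)) (hR : Clo B x1 (X + 1, b) R)
    (hX : X + 2 ≤ Xm) (hlo' : lo < b) (hhi' : b ≤ hi)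
    (hB : ∀ a : ℤ × ℤ, X + 1 ≤ a.1 → a.1 ≤ Xm → lo ≤ a.2 → a.2 ≤ hi → a ∉ B)
    (hRw : ∀ z : ℤ × ℤ, X + 2 ≤ z.1 → z.1 ≤ Xm → lo + 1 ≤ z.2 → z.2 ≤ hi → (R z ↔ z.2 = b))
    (hF : ∀ a ∈ F, ∀ z, Tch a z → ¬ R z)
    (hU : U4 B e ω ⊆ U) (hUF : ∀ a ∈ U, a ∈ F → a ∈ U4 B e ω) (hE : B ⊆ E)
    (hpq : Co (du E ω'' ∩ F.map sh1) p q) (hp1 : X + 1 ≤ 2 * p.1 - 1) (hp1' : 2 * p.1 - 1 ≤ Xm)
    (hp2 : b ≤ 2 * p.2 - 1) (hp3 : 2 * p.2 - 1 ≤ hi) (hq1 : X + 1 ≤ 2 * q.1 - 1)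
    (hq1' : 2 * q.1 - 1 ≤ Xm) (hq2 : 2 * q.2 - 1 < b) (hq3 : lo ≤ 2 * q.2 - 1) :
    (∃ z, Str B (insert e ω) c z ∧ Co ((du E ω'' ∩ F.map sh1) \ U.map sh1) p (fi z) ∧
      Co (du (U4 B e ω) (insert e ω)) (fi c) (fi z)) ∧
    Co (du E (insert e (mix U ω ω''))) (fi c) p := by
  have hlab : lab c ∈ B := by
    obtain ⟨-, -, l1, l2, -⟩ := opc_zu he
    rcases hc with rfl | rfl
    · rw [l1]; exact heB
    · rw [l2]; exact heB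
  obtain ⟨S, hS⟩ := exists_TCR hlab h1 h2 hR
  have key : ∀ f : ℤ × ℤ, X + 1 ≤ 2 * f.1 - 1 → 2 * f.1 - 1 ≤ Xm → lo ≤ 2 * f.2 - 1 →
      2 * f.2 - 1 ≤ hi → (S (fp f) = true ↔ 2 * f.2 - 1 < b) := by
    intro v v1 v2 v3 v4
    have := S_locB hlab hb h1 h2 hS hR.out hX hlo' hhi' hB hRw (p := fp v)
      (by unfold fp; simp only; omega) (by unfold fp; exact v1) (by unfold fp; exact v2)
      (by unfold fp; exact v3) (by unfold fp; exact v4)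
    exact this
  refine hookd4 he heB hA hc h1 h2 hR hne hS hF hU hUF hE hpq ?_ ?_
  · have := key p hp1 hp1' (by omega) hp3
    cases hSq : S (fp p)
    · rfl
    · rw [hSq] at this
      have := this.1 rfl
      omega
  · exact (key q hq1 hq1' hq3 (by omega)).2 hq2

end Pool.Agent.H81.NC
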