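import Mathlib
import Pool.Agent.H81.NC.Defs
import Pool.Agent.H75.Four.FRot

set_option autoImplicit false
open Finset

/-! Job NC-T1 (helper41): transport of the strand vocabulary by the rotations `FR φ`. -/

namespace Pool.Agent.H81.NC

open Pool.Agent.H75.Perc Pool.Agent.H75.TwoArm Pool.Agent.H75.Four Pool.Agent.H99.NC
open Pool.Agent.H75.TwoArm.SymmAux Pool.Agent.H75.Four.RotAux

/-! ### Rotations of labels and sets of labels -/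

@[simp] lemma syO_g (σ : ℤ) : (syO σ).g = ro σ := rfl
@[simp] lemma syO_g' (σ : ℤ) : (syO σ).g' = ro (-σ) := rfl
@[simp] lemma syO_G (σ : ℤ) (e : ℤ × ℤ) : (syO σ).G e = ro σ e := rfl
@[simp] lemma syO_G' (σ : ℤ) (e : ℤ × ℤ) : (syO σ).G' e = ro (-σ) e := rfl

lemma ro_ro_neg (σ : ℤ) (u : ℤ × ℤ) : ro σ (ro (-σ) u) = u := (syO σ).gg' u

lemma ro_neg_ro (σ : ℤ) (u : ℤ × ℤ) : ro (-σ) (ro σ u) = u := (syO σ).g'g u

lemma ro_inj {σ : ℤ} {u v : ℤ × ℤ} : ro σ u = ro σ v ↔ u = v :=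
  ⟨fun h => (syO σ).G.injective h, fun h => by rw [h]⟩

lemma ro_add (σ : ℤ) (u v : ℤ × ℤ) : ro σ (u + v) = ro σ u + ro σ v := ((syO σ).add u v).symm

lemma mem_FR {φ : ℤ} {ω : Finset (ℤ × ℤ)} {l : ℤ × ℤ} : l ∈ FR φ ω ↔ ro φ l ∈ ω := by
  unfold FR
  rw [Sy.mem_map, syO_G', neg_neg]

lemma ro_mem_FR {φ : ℤ} {ω : Finset (ℤ × ℤ)} {l : ℤ × ℤ} : ro (-φ) l ∈ FR φ ω ↔ l ∈ ω := by
  rw [mem_FR, ro_ro_neg]

lemma FR_subset {φ : ℤ} {A B : Finset (ℤ × ℤ)} : FR φ A ⊆ FR φ B ↔ A ⊆ B := map_subset_map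

lemma FR_mono {φ : ℤ} {A B : Finset (ℤ × ℤ)} (h : A ⊆ B) : FR φ A ⊆ FR φ B := map_subset_map.2 h

lemma FR_inj {φ : ℤ} {A B : Finset (ℤ × ℤ)} : FR φ A = FR φ B ↔ A = B :=
  ⟨fun h => Finset.map_injective _ h, fun h => by rw [h]⟩

lemma FR_empty (φ : ℤ) : FR φ ∅ = ∅ := map_empty _

lemma FR_card (φ : ℤ) (A : Finset (ℤ × ℤ)) : (FR φ A).card = A.card := card_map _

lemma FR_union (φ : ℤ) (A B : Finset (ℤ × ℤ)) : FR φ (A ∪ B) = FR φ A ∪ FR φ B := map_union _ _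

lemma FR_inter (φ : ℤ) (A B : Finset (ℤ × ℤ)) : FR φ (A ∩ B) = FR φ A ∩ FR φ B := map_inter _ _

lemma FR_sdiff (φ : ℤ) (A B : Finset (ℤ × ℤ)) : FR φ (A \ B) = FR φ A \ FR φ B :=
  Finset.map_sdiff _ _

lemma FR_erase (φ : ℤ) (ω : Finset (ℤ × ℤ)) (e : ℤ × ℤ) :
    FR φ (ω.erase e) = (FR φ ω).erase (ro (-φ) e) := map_erase _ _ _

lemma FR_insert (φ : ℤ) (ω : Finset (ℤ × ℤ)) (e : ℤ × ℤ) :
    FR φ (insert e ω) = insert (ro (-φ) e) (FR φ ω) := map_insert _ _ _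

lemma FR_mix (φ : ℤ) (U ω ω'' : Finset (ℤ × ℤ)) :
    FR φ (mix U ω ω'') = mix (FR φ U) (FR φ ω) (FR φ ω'') := by
  unfold mix
  rw [FR_union, FR_inter, FR_sdiff]

/-- the rotations as powers of the rotation by a right angle -/
lemma FR_cases (φ : ℤ) :
    ((∀ ω, FR φ ω = ω) ∧ (∀ c, crn (-φ) c = c) ∧ (∀ u, ro (-φ) u = u)) ∨
    ((∀ ω, FR φ ω = ω.map rotL) ∧ (∀ c, crn (-φ) c = rotc c) ∧ (∀ u, ro (-φ) u = rv u)) ∨
    ((∀ ω, FR φ ω = (ω.map rotL).map rotL) ∧ (∀ c, crn (-φ) c = rotc (rotc c)) ∧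
      (∀ u, ro (-φ) u = rv (rv u))) ∨
    ((∀ ω, FR φ ω = ((ω.map rotL).map rotL).map rotL) ∧ (∀ c, crn (-φ) c = rotc (rotc (rotc c))) ∧
      (∀ u, ro (-φ) u = rv (rv (rv u)))) := by
  have h4 : (-φ) % 4 = 0 ∨ (-φ) % 4 = 1 ∨ (-φ) % 4 = 2 ∨ (-φ) % 4 = 3 := by omega
  rcases h4 with h | h | h | h
  · refine Or.inl ⟨fun ω => ?_, fun c => ?_, fun u => ?_⟩
    · ext l
      rw [mem_FR]
      have : ro φ l = l := by unfold ro; rw [if_pos (by omega)]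
      rw [this]
    · unfold crn; rw [if_pos h]
    · unfold ro; rw [if_pos h]
  · refine Or.inr (Or.inl ⟨fun ω => ?_, fun c => ?_, fun u => ?_⟩)
    · unfold FR
      congr 1
      ext l <;> simp only [syO_G, rotL, Function.Embedding.coeFn_mk, ro, h] <;> rfl
    · unfold crn rotc; rw [if_neg (by omega), if_pos h]
    · unfold ro rv; rw [if_neg (by omega), if_pos h]
  · refine Or.inr (Or.inr (Or.inl ⟨fun ω => ?_, fun c => ?_, fun u => ?_⟩))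
    · unfold FR
      rw [map_map]
      congr 1
      ext l <;> simp only [syO_G, rotL, Function.Embedding.coeFn_mk, ro, h,
        Function.Embedding.trans_apply] <;> rfl
    · unfold crn rotc; rw [if_neg (by omega), if_neg (by omega), if_pos h]
    · unfold ro rv; rw [if_neg (by omega), if_neg (by omega), if_pos h]
  · refine Or.inr (Or.inr (Or.inr ⟨fun ω => ?_, fun c => ?_, fun u => ?_⟩))
    · unfold FR
      rw [map_map, map_map]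
      congr 1
      ext l <;> simp only [syO_G, rotL, Function.Embedding.coeFn_mk, ro, h,
        Function.Embedding.trans_apply, neg_neg] <;> rfl
    · unfold crn rotc
      rw [if_neg (by omega), if_neg (by omega), if_neg (by omega)]
      refine Prod.ext ?_ ?_ <;> simp only <;> ring
    · unfold ro rv
      rw [if_neg (by omega), if_neg (by omega), if_neg (by omega)]
      refine Prod.ext ?_ ?_ <;> simp only <;> ring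

lemma FR_zero (ω : Finset (ℤ × ℤ)) : FR 0 ω = ω := by
  ext l; rw [mem_FR]; rfl

lemma crn_inj {σ : ℤ} {c d : ℤ × ℤ} : crn σ c = crn σ d ↔ c = d := by
  obtain ⟨a, b⟩ := c
  obtain ⟨a', b'⟩ := d
  unfold crn
  split_ifs <;> simp only [Prod.mk.injEq] <;> omega

lemma crn_crn_neg (σ : ℤ) (c : ℤ × ℤ) : crn σ (crn (-σ) c) = c := by
  obtain ⟨a, b⟩ := c
  have h4 : (σ % 4 = 0 ∧ (-σ) % 4 = 0) ∨ (σ % 4 = 1 ∧ (-σ) % 4 = 3) ∨ (σ % 4 = 2 ∧ (-σ) % 4 = 2) ∨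
      (σ % 4 = 3 ∧ (-σ) % 4 = 1) := by omega
  rcases h4 with ⟨h, h'⟩ | ⟨h, h'⟩ | ⟨h, h'⟩ | ⟨h, h'⟩ <;> simp [crn, h, h']

lemma crn_neg_crn (σ : ℤ) (c : ℤ × ℤ) : crn (-σ) (crn σ c) = c := by
  have := crn_crn_neg (-σ) c
  rwa [neg_neg] at this

lemma crn_add (σ τ : ℤ) (c : ℤ × ℤ) : crn (σ + τ) c = crn σ (crn τ c) := by
  obtain ⟨a, b⟩ := c
  have hs : σ % 4 = 0 ∨ σ % 4 = 1 ∨ σ % 4 = 2 ∨ σ % 4 = 3 := by omega
  have ht : τ % 4 = 0 ∨ τ % 4 = 1 ∨ τ % 4 = 2 ∨ τ % 4 = 3 := by omega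
  have e := Int.add_emod σ τ 4
  rcases hs with hs | hs | hs | hs <;> rcases ht with ht | ht | ht | ht <;>
    rw [hs, ht] at e <;> norm_num at e <;> simp [crn, hs, ht, e]

lemma ro_ro (σ τ : ℤ) (c : ℤ × ℤ) : ro (σ + τ) c = ro σ (ro τ c) := by
  obtain ⟨a, b⟩ := c
  have hs : σ % 4 = 0 ∨ σ % 4 = 1 ∨ σ % 4 = 2 ∨ σ % 4 = 3 := by omega
  have ht : τ % 4 = 0 ∨ τ % 4 = 1 ∨ τ % 4 = 2 ∨ τ % 4 = 3 := by omega
  have e := Int.add_emod σ τ 4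
  rcases hs with hs | hs | hs | hs <;> rcases ht with ht | ht | ht | ht <;>
    rw [hs, ht] at e <;> norm_num at e <;> simp [ro, hs, ht, e]

lemma FR_FR (φ ψ : ℤ) (ω : Finset (ℤ × ℤ)) : FR (φ + ψ) ω = FR ψ (FR φ ω) := by
  ext l
  rw [mem_FR, mem_FR, mem_FR, ro_ro]

lemma FR_FR_neg (φ : ℤ) (ω : Finset (ℤ × ℤ)) : FR φ (FR (-φ) ω) = ω := by
  rw [← FR_FR, neg_add_cancel, FR_zero]

lemma FR_neg_FR (φ : ℤ) (ω : Finset (ℤ × ℤ)) : FR (-φ) (FR φ ω) = ω := by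
  rw [← FR_FR, add_neg_cancel, FR_zero]

/-- the box is invariant -/
lemma FR_BB (φ r : ℤ) : FR φ (H75.TwoArm.BB r) = H75.TwoArm.BB r := by
  ext l
  obtain ⟨a, b⟩ := l
  rw [mem_FR]
  unfold H75.TwoArm.BB
  rw [mem_Bx, mem_Bx]
  unfold ro
  split_ifs <;> simp only <;> omega

/-! ### Connections -/

/-- T1. The index of a face rotates like a corner. -/
theorem co_FR (φ : ℤ) (ω : Finset (ℤ × ℤ)) (u v : ℤ × ℤ) :
    Co (FR φ ω) (ro (-φ) u) (ro (-φ) v) ↔ Co ω u v := (syO (-φ)).co_iff ω u v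

lemma rf_rotc (f : ℤ × ℤ) : rf f = rotc f := rfl

theorem co_du_rot (E ω : Finset (ℤ × ℤ)) (f g : ℤ × ℤ) :
    Co (du (E.map rotL) (ω.map rotL)) (rotc f) (rotc g) ↔ Co (du E ω) f g := by
  rw [du_rot, ← rf_rotc, ← rf_rotc, Co_rotD]

theorem co_du_FR (φ : ℤ) (E ω : Finset (ℤ × ℤ)) (f g : ℤ × ℤ) :
    Co (du (FR φ E) (FR φ ω)) (crn (-φ) f) (crn (-φ) g) ↔ Co (du E ω) f g := by
  rcases FR_cases φ with ⟨h1, h2, h3⟩ | ⟨h1, h2, h3⟩ | ⟨h1, h2, h3⟩ | ⟨h1, h2, h3⟩ <;>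
  simp only [h1, h2, co_du_rot]

theorem FX_FR (φ : ℤ) (B ω : Finset (ℤ × ℤ)) (c x : ℤ × ℤ) :
    FX (FR φ B) (FR φ ω) (crn (-φ) c) (crn (-φ) x) ↔ FX B ω c x := by
  rcases FR_cases φ with ⟨h1, h2, h3⟩ | ⟨h1, h2, h3⟩ | ⟨h1, h2, h3⟩ | ⟨h1, h2, h3⟩ <;>
  simp only [h1, h2, FX_rot']

theorem BX_FR (φ : ℤ) (B ω : Finset (ℤ × ℤ)) (c x : ℤ × ℤ) :
    BX (FR φ B) (FR φ ω) (crn (-φ) c) (crn (-φ) x) ↔ BX B ω c x := by
  rcases FR_cases φ with ⟨h1, h2, h3⟩ | ⟨h1, h2, h3⟩ | ⟨h1, h2, h3⟩ | ⟨h1, h2, h3⟩ <;>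
  simp only [h1, h2, BX_rot']

theorem Str_FR (φ : ℤ) (B ω : Finset (ℤ × ℤ)) (c x : ℤ × ℤ) :
    Str (FR φ B) (FR φ ω) (crn (-φ) c) (crn (-φ) x) ↔ Str B ω c x := by
  rcases FR_cases φ with ⟨h1, h2, h3⟩ | ⟨h1, h2, h3⟩ | ⟨h1, h2, h3⟩ | ⟨h1, h2, h3⟩ <;>
  simp only [h1, h2, Str_rot]

theorem UU_FR (φ : ℤ) (B ω : Finset (ℤ × ℤ)) (c : ℤ × ℤ) :
    UU (FR φ B) (FR φ ω) (crn (-φ) c) = FR φ (UU B ω c) := by
  rcases FR_cases φ with ⟨h1, h2, h3⟩ | ⟨h1, h2, h3⟩ | ⟨h1, h2, h3⟩ | ⟨h1, h2, h3⟩ <;>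
  simp only [h1, h2, UU_rot]

/-! ### Labels, vertices and faces of corners -/

theorem lab_FR (φ : ℤ) (c : ℤ × ℤ) : lab (crn (-φ) c) = ro (-φ) (lab c) := by
  obtain ⟨a, b⟩ := c
  have h4 : (-φ) % 4 = 0 ∨ (-φ) % 4 = 1 ∨ (-φ) % 4 = 2 ∨ (-φ) % 4 = 3 := by omega
  have ha' : (1 - a) % 2 = 1 - a % 2 := by omega
  have hb' : (1 - b) % 2 = 1 - b % 2 := by omega
  rcases h4 with h | h | h | h <;> rcases Int.emod_two_eq_zero_or_one a with ha | ha <;>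
    rcases Int.emod_two_eq_zero_or_one b with hb | hb <;>
    simp [crn, ro, lab, h, ha, hb, ha', hb'] <;> omega

theorem plab_FR (φ : ℤ) (c : ℤ × ℤ) : plab (crn (-φ) c) = ro (-φ) (plab c) := by
  obtain ⟨a, b⟩ := c
  have h4 : (-φ) % 4 = 0 ∨ (-φ) % 4 = 1 ∨ (-φ) % 4 = 2 ∨ (-φ) % 4 = 3 := by omega
  have ha' : (1 - a) % 2 = 1 - a % 2 := by omega
  have hb' : (1 - b) % 2 = 1 - b % 2 := by omega
  rcases h4 with h | h | h | h <;> rcases Int.emod_two_eq_zero_or_one a with ha | ha <;>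
    rcases Int.emod_two_eq_zero_or_one b with hb | hb <;>
    simp [crn, ro, plab, h, ha, hb, ha', hb'] <;> omega

theorem vx_FR (φ : ℤ) (c : ℤ × ℤ) : vx (crn (-φ) c) = ro (-φ) (vx c) := by
  obtain ⟨a, b⟩ := c
  unfold crn ro vx
  simp only
  split_ifs <;> (refine Prod.ext ?_ ?_ <;> simp only <;> omega)

theorem fi_FR (φ : ℤ) (c : ℤ × ℤ) : fi (crn (-φ) c) = crn (-φ) (fi c) := by
  obtain ⟨a, b⟩ := c
  unfold crn fi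
  simp only
  split_ifs <;> (refine Prod.ext ?_ ?_ <;> simp only <;> omega)

theorem nx_FR (φ : ℤ) (ω : Finset (ℤ × ℤ)) (c : ℤ × ℤ) :
    nx (FR φ ω) (crn (-φ) c) = crn (-φ) (nx ω c) := by
  rcases FR_cases φ with ⟨h1, h2, h3⟩ | ⟨h1, h2, h3⟩ | ⟨h1, h2, h3⟩ | ⟨h1, h2, h3⟩ <;>
  simp only [h1, h2, nx_rot]

theorem pv_FR (φ : ℤ) (ω : Finset (ℤ × ℤ)) (c : ℤ × ℤ) :
    pv (FR φ ω) (crn (-φ) c) = crn (-φ) (pv ω c) := by
  rcases FR_cases φ with ⟨h1, h2, h3⟩ | ⟨h1, h2, h3⟩ | ⟨h1, h2, h3⟩ | ⟨h1, h2, h3⟩ <;>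
  simp only [h1, h2, pv_rot]

end Pool.Agent.H81.NC
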