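import Mathlib
import Pool.Agent.H81.NC.HookLoc
import Pool.Agent.H81.NC.Hook
import Pool.Agent.H81.NC.TransA

set_option autoImplicit false
open Finset

/-! The end of an arm, in its frame: the strand is attached to the coarse corridor. -/

namespace Pool.Agent.H81.NC

open Pool.Agent.H75.Perc Pool.Agent.H75.TwoArm Pool.Agent.H75.Four Pool.Agent.H99.NC

lemma mem_CC {c : ℤ × ℤ} : c ∈ CC ↔ (c.2 = 1 ∧ -2 ≤ c.1 ∧ c.1 ≤ 9) ∨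
    (c.1 = -2 ∧ -2 ≤ c.2 ∧ c.2 ≤ 1) ∨ (c.2 = -2 ∧ -2 ≤ c.1 ∧ c.1 ≤ 1) := by
  obtain ⟨c1, c2⟩ := c
  unfold CC
  rw [mem_union, mem_union, mem_pc, mem_pc, mem_pc]
  simp only [Prod.mk.injEq]
  constructor
  · rintro ((⟨t, h1, h2, h3, h4⟩ | ⟨t, h1, h2, h3, h4⟩) | ⟨t, h1, h2, h3, h4⟩) <;> omega
  · rintro (⟨h1, h2, h3⟩ | ⟨h1, h2, h3⟩ | ⟨h1, h2, h3⟩)
    · exact Or.inl (Or.inl ⟨c1, h2, h3, rfl, h1.symm⟩)
    · exact Or.inl (Or.inr ⟨c2, h2, h3, h1.symm, rfl⟩)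
    · exact Or.inr ⟨c1, h2, h3, rfl, h1.symm⟩

/-- where the labels of the hook are -/
lemma CC_lab {o : ℤ × ℤ} {s : ℤ} (hs : 1 ≤ s) {a : ℤ × ℤ} (ha : a ∈ cs o s CC) :
    (a.1 + a.2) % 2 = 1 ∧ (2 * (o.1 - 2 * s) ≤ a.1 ∧ a.1 ≤ 2 * (o.1 + 10 * s)) ∧
    (2 * (o.2 - 2 * s) ≤ a.2 ∧ a.2 ≤ 2 * (o.2 + 2 * s)) ∧
    (2 * (o.1 - s) < a.1 → 2 * (o.2 + s) ≤ a.2 ∨ a.2 ≤ 2 * (o.2 - s)) := by
  obtain ⟨c, hc, h⟩ := mem_cs.1 ha
  unfold cell at h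
  rw [mem_Bx] at h
  rw [mem_CC] at hc
  obtain ⟨c1, c2⟩ := c
  simp only at hc h
  rcases hc with ⟨rfl, h1, h2⟩ | ⟨rfl, h1, h2⟩ | ⟨rfl, h1, h2⟩
  · have e1 : -2 * s ≤ c1 * s := by nlinarith
    have e2 : c1 * s ≤ 9 * s := by nlinarith
    refine ⟨h.2.2, ⟨?_, ?_⟩, ⟨?_, ?_⟩, fun _ => Or.inl ?_⟩ <;> nlinarith
  · have e1 : -2 * s ≤ c2 * s := by nlinarith
    have e2 : c2 * s ≤ 1 * s := by nlinarith
    refine ⟨h.2.2, ⟨?_, ?_⟩, ⟨?_, ?_⟩, fun _ => ?_⟩ <;> nlinarith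
  · have e1 : -2 * s ≤ c1 * s := by nlinarith
    have e2 : c1 * s ≤ 1 * s := by nlinarith
    refine ⟨h.2.2, ⟨?_, ?_⟩, ⟨?_, ?_⟩, fun _ => Or.inr ?_⟩ <;> nlinarith

lemma CF_in {o : ℤ × ℤ} {s : ℤ} {c v : ℤ × ℤ} {ω : Finset (ℤ × ℤ)} (h : CF o s c ω v) :
    inB (o.1 + s * c.1) (o.1 + s * c.1 + s) (o.2 + s * c.2) (o.2 + s * c.2 + s) v := h.1

lemma lab_zu {e : ℤ × ℤ} (he : (e.1 + e.2) % 2 = 1) : lab (zu e) = e := by
  obtain ⟨a, b⟩ := e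
  unfold zu lab
  simp only at he ⊢
  split_ifs <;> first | rfl | (exfalso; simp only at *; omega) |
    (refine Prod.ext ?_ ?_ <;> simp only <;> omega)

/-- the two labels of a corner -/
lemma lab_plab_bd (z : ℤ × ℤ) : ((lab z).1 = z.1 ∨ (lab z).1 = z.1 - 1) ∧
    ((plab z).1 = z.1 ∨ (plab z).1 = z.1 - 1) ∧ ((lab z).2 = z.2 ∨ (lab z).2 = z.2 - 1) ∧
    ((plab z).2 = z.2 ∨ (plab z).2 = z.2 - 1) ∧
    ((lab z).1 + 1 = (plab z).1 ∨ (plab z).1 + 1 = (lab z).1) ∧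
    ((lab z).1 + (lab z).2) % 2 = 1 ∧ ((plab z).1 + (plab z).2) % 2 = 1 := by
  obtain ⟨z1, z2⟩ := z
  unfold lab plab
  simp only
  split_ifs <;> refine ⟨?_, ?_, ?_, ?_, ?_, ?_, ?_⟩ <;> omega

/-- labels which are not touched by the closing -/
lemma no_ray {B : Finset (ℤ × ℤ)} {R : ℤ × ℤ → Prop} {X h s : ℤ} {a : ℤ × ℤ}
    (hl : (a.1 + a.2) % 2 = 1) (hR : ∀ z, R z → lab z ∉ B ∧ plab z ∉ B)
    (hBl : ∀ a : ℤ × ℤ, (a.1 + a.2) % 2 = 1 → X - 5 * s ≤ a.1 → a.1 ≤ X → h - 5 * s ≤ a.2 →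
      a.2 ≤ h + 5 * s → a ∈ B)
    (hRw : ∀ z : ℤ × ℤ, X + 2 ≤ z.1 → z.1 ≤ X + 22 * s → h - 5 * s + 1 ≤ z.2 → z.2 ≤ h + 5 * s →
      (R z ↔ z.2 = h))
    (h1 : X - 5 * s ≤ a.1 ∧ a.1 + 1 ≤ X + 22 * s) (h2 : h - 5 * s + 1 ≤ a.2 ∧ a.2 + 1 ≤ h + 5 * s)
    (h3 : X + 1 ≤ a.1 → h + 1 ≤ a.2 ∨ a.2 + 2 ≤ h) : ∀ z, Tch a z → ¬ R z := by
  intro z hz hRz
  have hz' : z.1 = a.1 ∨ z.1 = a.1 + 1 := by
    rcases (corners_iff (z := z) hl).1 hz with h | h | h | h <;> rw [h] <;> simp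
  have hz2 : z.2 = a.2 ∨ z.2 = a.2 + 1 := by
    rcases (corners_iff (z := z) hl).1 hz with h | h | h | h <;> rw [h] <;> simp
  by_cases hX : a.1 ≤ X
  · have haB : a ∈ B := hBl a hl (by omega) hX (by omega) (by omega)
    have := hR z hRz
    rcases hz with h | h
    · exact this.1 (by rw [h]; exact haB)
    · exact this.2 (by rw [h]; exact haB)
  · by_cases h9 : z.1 = X + 1
    · have h8 := hR z hRz
      obtain ⟨g1, g2, g3, g4, g5, g6, g7⟩ := lab_plab_bd z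
      have h7 : (lab z).1 = X ∨ (plab z).1 = X := by
        have t2 : (lab z).1 = a.1 ∨ (plab z).1 = a.1 := by
          rcases hz with h | h <;> rw [h] <;> simp
        omega
      rcases h7 with h7 | h7
      · exact h8.1 (hBl _ g6 (by omega) (by omega) (by omega) (by omega))
      · exact h8.2 (hBl _ g7 (by omega) (by omega) (by omega) (by omega))
    · have := (hRw z (by omega) (by omega) (by omega) (by omega)).1 hRz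
      have := h3 (by omega)
      omega

/-- The open end of an arm, in its frame. -/
theorem end_open {B ω ω'' U : Finset (ℤ × ℤ)} {e c x2 : ℤ × ℤ} {R : ℤ × ℤ → Prop} {X h s : ℤ}
    (hs : 1 ≤ s) (he : (e.1 + e.2) % 2 = 1) (heB : e ∈ B) (hA : A4 B e ω)
    (hc : c = zu e ∨ c = zv e) (hb : h % 2 = 0)
    (h1 : FX B (ω.erase e) c (X + 1, h)) (h2 : BX B (ω.erase e) c x2)
    (hne : lab (X + 1, h) ≠ plab x2) (hR : Clo B (X + 1, h) x2 R)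
    (hB : ∀ a : ℤ × ℤ, X + 1 ≤ a.1 → a.1 ≤ X + 22 * s → h - 5 * s ≤ a.2 → a.2 ≤ h + 5 * s → a ∉ B)
    (hBl : ∀ a : ℤ × ℤ, (a.1 + a.2) % 2 = 1 → X - 5 * s ≤ a.1 → a.1 ≤ X → h - 5 * s ≤ a.2 →
      a.2 ≤ h + 5 * s → a ∈ B)
    (hRw : ∀ z : ℤ × ℤ, X + 2 ≤ z.1 → z.1 ≤ X + 22 * s → h - 5 * s + 1 ≤ z.2 → z.2 ≤ h + 5 * s →
      (R z ↔ z.2 = h))
    (hU : U4 B e ω ⊆ U)
    (hUF : ∀ a ∈ U, a ∈ cs ((X + 1) / 2, h / 2) s CC → a ∈ U4 B e ω)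
    (hN : Net ((X + 1) / 2, h / 2) s CC ω'')
    {X1 X2 Y1 Y2 : ℤ} (hX1 : (X + 1) / 2 ≤ X1) (hX1' : X1 ≤ (X + 1) / 2 + s)
    (hX2' : (X + 1) / 2 + 2 * s ≤ X2) (hX2 : X2 ≤ (X + 1) / 2 + 10 * s)
    (hY1 : Y1 ≤ h / 2 + s) (hY2 : h / 2 + 2 * s ≤ Y2)
    (hUr : ∀ a ∈ U, a ∉ Bx X1 X2 Y1 Y2)
    {p q : ℤ × ℤ} (hp : inB X1 X2 Y1 Y2 p) (hp1 : p.2 = Y1) (hq1 : q.2 = Y2)
    (hpq : Co (ω'' ∩ Bx X1 X2 Y1 Y2) p q) :
    Co (((mix U ω ω'').erase e) ∩ (U4 B e ω ∪ cs ((X + 1) / 2, h / 2) s CC ∪ Bx X1 X2 Y1 Y2))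
      (vx c) p := by
  set o : ℤ × ℤ := ((X + 1) / 2, h / 2) with ho
  have o1 : o.1 = (X + 1) / 2 := rfl
  have o2 : o.2 = h / 2 := rfl
  obtain ⟨v, hv⟩ := hN.full (c := (1, 1)) (mem_CC.2 (by simp))
  obtain ⟨v', hv'⟩ := hN.full (c := (1, -2)) (mem_CC.2 (by simp))
  have c1 : ((1, 1) : ℤ × ℤ) ∈ CC := mem_CC.2 (by simp)
  have c2 : ((1, -2) : ℤ × ℤ) ∈ CC := mem_CC.2 (by simp)
  have k1 := hN.co (by omega) c1 (CC_lk c1 c2) hv hv'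
  have k2 := hook_meet hs hN (X1 := X1) (X2 := X2) (Y1 := Y1) (Y2 := Y2) (by omega) (by omega)
    (by omega) (by omega) (by omega) (by omega) hp hp1 hq1 hpq hv
  have b1 := CF_in hv
  have b2 := CF_in hv'
  unfold inB at b1 b2
  simp only at b1 b2
  have hF : ∀ a ∈ cs o s CC, ∀ z, Tch a z → ¬ R z := by
    intro a ha
    have hl := CC_lab hs ha
    exact no_ray hl.1 hR.out hBl hRw (by omega) (by omega) (by omega)
  obtain ⟨⟨z, hz1, hz2, hz3⟩, -⟩ := hookl_F (F := cs o s CC) (U := U) (ω'' := ω'')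
    (Xm := X + 22 * s) (lo := h - 5 * s) (hi := h + 5 * s) he heB hA hc hb h1 h2 hne hR
    (by omega) (by omega) (by omega) hB hRw hF hU hUF k1 (by omega) (by omega) (by omega)
    (by omega) (by omega) (by omega) (by omega) (by omega)
  have heU : e ∈ U := by
    apply hU
    unfold U4
    rw [mem_union]
    left
    exact StrandAux.mem_UU.2 ⟨heB, zu e, StrandAux.Str_self _ _ _, Or.inl (lab_zu he)⟩
  -- the three pieces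
  have m1 : (ω.erase e) ∩ U4 B e ω ⊆ ((mix U ω ω'').erase e) ∩
      (U4 B e ω ∪ cs o s CC ∪ Bx X1 X2 Y1 Y2) := by
    intro a ha
    rw [mem_inter, mem_erase] at ha
    rw [mem_inter, mem_erase, mem_union, mem_union, mem_mix]
    exact ⟨⟨ha.1.1, Or.inl ⟨ha.1.2, hU ha.2⟩⟩, Or.inl (Or.inl ha.2)⟩
  have m2 : (ω'' ∩ cs o s CC) \ U ⊆ ((mix U ω ω'').erase e) ∩
      (U4 B e ω ∪ cs o s CC ∪ Bx X1 X2 Y1 Y2) := by
    intro a ha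
    rw [mem_sdiff, mem_inter] at ha
    rw [mem_inter, mem_erase, mem_union, mem_union, mem_mix]
    exact ⟨⟨fun h => ha.2 (h ▸ heU), Or.inr ⟨ha.1.1, ha.2⟩⟩, Or.inl (Or.inr ha.1.2)⟩
  have m3 : ω'' ∩ Bx X1 X2 Y1 Y2 ⊆ ((mix U ω ω'').erase e) ∩
      (U4 B e ω ∪ cs o s CC ∪ Bx X1 X2 Y1 Y2) := by
    intro a ha
    rw [mem_inter] at ha
    have : a ∉ U := fun h => hUr a h ha.2
    rw [mem_inter, mem_erase, mem_union, mem_union, mem_mix]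
    exact ⟨⟨fun h => this (h ▸ heU), Or.inr ⟨ha.1, this⟩⟩, Or.inr ha.2⟩
  exact (hz3.mono m1).trans ((hz2.symm.mono m2).trans (k2.symm.mono m3))

/-- the inverse shift of labels -/
def shm : (ℤ × ℤ) ↪ (ℤ × ℤ) where
  toFun e := (e.1 - 1, e.2 - 1)
  inj' := by
    intro a b h
    have h1 := congrArg Prod.fst h
    have h2 := congrArg Prod.snd h
    simp only at h1 h2
    exact Prod.ext (by omega) (by omega)

lemma map_shm_sh1 (T : Finset (ℤ × ℤ)) : (T.map shm).map sh1 = T := by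
  rw [map_map]
  have : shm.trans sh1 = Function.Embedding.refl _ := by
    ext a <;> simp [shm, sh1]
  rw [this, map_refl]

lemma mem_map_shm {T : Finset (ℤ × ℤ)} {a : ℤ × ℤ} : a ∈ T.map shm ↔ a + (1, 1) ∈ T := by
  rw [mem_map]
  constructor
  · rintro ⟨b, hb, rfl⟩
    have : shm b + (1, 1) = b := by
      unfold shm; refine Prod.ext ?_ ?_ <;> simp
    rwa [this]
  · intro h
    refine ⟨_, h, ?_⟩
    unfold shm; refine Prod.ext ?_ ?_ <;> simp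

lemma mem_map_sh1 {T : Finset (ℤ × ℤ)} {a : ℤ × ℤ} : a ∈ T.map sh1 ↔ a - (1, 1) ∈ T := by
  rw [mem_map]
  constructor
  · rintro ⟨b, hb, rfl⟩
    have : sh1 b - (1, 1) = b := by
      unfold sh1; refine Prod.ext ?_ ?_ <;> simp
    rwa [this]
  · intro h
    refine ⟨_, h, ?_⟩
    unfold sh1; refine Prod.ext ?_ ?_ <;> simp

lemma mem_du {E ω : Finset (ℤ × ℤ)} {a : ℤ × ℤ} : a ∈ du E ω ↔ a - (1, 1) ∈ E ∧ a - (1, 1) ∉ ω := by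
  unfold du
  rw [mem_map_sh1, mem_sdiff]

/-- The dual end of an arm, in its frame. -/
theorem end_dual {B ω ω'' U E : Finset (ℤ × ℤ)} {e c x1 : ℤ × ℤ} {R : ℤ × ℤ → Prop} {X h s : ℤ}
    (hs : 1 ≤ s) (he : (e.1 + e.2) % 2 = 1) (heB : e ∈ B) (hA : A4 B e ω)
    (hc : c = zu e ∨ c = zv e) (hb : h % 2 = 1)
    (h1 : FX B (insert e ω) c x1) (h2 : BX B (insert e ω) c (X + 1, h))
    (hne : lab x1 ≠ plab (X + 1, h)) (hR : Clo B x1 (X + 1, h) R)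
    (hB : ∀ a : ℤ × ℤ, X + 1 ≤ a.1 → a.1 ≤ X + 22 * s → h - 5 * s ≤ a.2 → a.2 ≤ h + 5 * s → a ∉ B)
    (hBl : ∀ a : ℤ × ℤ, (a.1 + a.2) % 2 = 1 → X - 5 * s ≤ a.1 → a.1 ≤ X → h - 5 * s ≤ a.2 →
      a.2 ≤ h + 5 * s → a ∈ B)
    (hRw : ∀ z : ℤ × ℤ, X + 2 ≤ z.1 → z.1 ≤ X + 22 * s → h - 5 * s + 1 ≤ z.2 → z.2 ≤ h + 5 * s →
      (R z ↔ z.2 = h))
    (hU : U4 B e ω ⊆ U) (hBE : B ⊆ E)
    (hUF : ∀ a ∈ U, a + (1, 1) ∈ cs ((X + 2) / 2, (h + 1) / 2) s CC → a ∈ U4 B e ω)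
    (hN : Net ((X + 2) / 2, (h + 1) / 2) s CC (du E ω''))
    {X1 X2 Y1 Y2 : ℤ} (hX1 : (X + 2) / 2 ≤ X1) (hX1' : X1 ≤ (X + 2) / 2 + s)
    (hX2' : (X + 2) / 2 + 2 * s ≤ X2) (hX2 : X2 ≤ (X + 2) / 2 + 10 * s)
    (hY1 : Y1 ≤ (h + 1) / 2 + s) (hY2 : (h + 1) / 2 + 2 * s ≤ Y2)
    (hUr : ∀ a ∈ U, a + (1, 1) ∉ Bx X1 X2 Y1 Y2)
    {p q : ℤ × ℤ} (hp : inB X1 X2 Y1 Y2 p) (hp1 : p.2 = Y1) (hq1 : q.2 = Y2)
    (hpq : Co (du E ω'' ∩ Bx X1 X2 Y1 Y2) p q) :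
    Co (du E (insert e (mix U ω ω'')) ∩
      ((U4 B e ω).map sh1 ∪ cs ((X + 2) / 2, (h + 1) / 2) s CC ∪ Bx X1 X2 Y1 Y2)) (fi c) p := by
  set o : ℤ × ℤ := ((X + 2) / 2, (h + 1) / 2) with ho
  have o1 : o.1 = (X + 2) / 2 := rfl
  have o2 : o.2 = (h + 1) / 2 := rfl
  obtain ⟨v, hv⟩ := hN.full (c := (1, 1)) (mem_CC.2 (by simp))
  obtain ⟨v', hv'⟩ := hN.full (c := (1, -2)) (mem_CC.2 (by simp))
  have c1 : ((1, 1) : ℤ × ℤ) ∈ CC := mem_CC.2 (by simp)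
  have c2 : ((1, -2) : ℤ × ℤ) ∈ CC := mem_CC.2 (by simp)
  have k1 := hN.co (by omega) c1 (CC_lk c1 c2) hv hv'
  have k2 := hook_meet hs hN (X1 := X1) (X2 := X2) (Y1 := Y1) (Y2 := Y2) (by omega) (by omega)
    (by omega) (by omega) (by omega) (by omega) hp hp1 hq1 hpq hv
  have b1 := CF_in hv
  have b2 := CF_in hv'
  unfold inB at b1 b2
  simp only at b1 b2
  have hF : ∀ a ∈ (cs o s CC).map shm, ∀ z, Tch a z → ¬ R z := by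
    intro a ha
    rw [mem_map_shm] at ha
    have hl := CC_lab hs ha
    simp only [Prod.fst_add, Prod.snd_add] at hl
    exact no_ray (by omega) hR.out hBl hRw (by omega) (by omega) (by omega)
  have hUF' : ∀ a ∈ U, a ∈ (cs o s CC).map shm → a ∈ U4 B e ω := by
    intro a ha hb
    rw [mem_map_shm] at hb
    exact hUF a ha hb
  rw [← map_shm_sh1 (cs o s CC)] at k1
  obtain ⟨⟨z, hz1, hz2, hz3⟩, -⟩ := hookl_B (F := (cs o s CC).map shm) (U := U) (ω'' := ω'')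
    (Xm := X + 22 * s) (lo := h - 5 * s) (hi := h + 5 * s) he heB hA hc hb h1 h2 hne hR
    (by omega) (by omega) (by omega) hB hRw hF hU hUF' hBE k1 (by omega) (by omega) (by omega)
    (by omega) (by omega) (by omega) (by omega) (by omega)
  rw [map_shm_sh1] at hz2
  have heU : e ∈ U := by
    apply hU
    unfold U4
    rw [mem_union]
    left
    exact StrandAux.mem_UU.2 ⟨heB, zu e, StrandAux.Str_self _ _ _, Or.inl (lab_zu he)⟩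
  have hUB : U4 B e ω ⊆ B := by
    intro a ha
    unfold U4 at ha
    rw [mem_union] at ha
    rcases ha with ha | ha
    · exact (StrandAux.mem_UU.1 ha).1
    · exact (StrandAux.mem_UU.1 ha).1
  -- the three pieces
  have m1 : du (U4 B e ω) (insert e ω) ⊆ du E (insert e (mix U ω ω'')) ∩
      ((U4 B e ω).map sh1 ∪ cs o s CC ∪ Bx X1 X2 Y1 Y2) := by
    intro a ha
    rw [mem_du, mem_insert] at ha
    rw [mem_inter, mem_du, mem_insert, mem_union, mem_union, mem_map_sh1, mem_mix]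
    have := hU ha.1
    refine ⟨⟨hBE (hUB ha.1), ?_⟩, Or.inl (Or.inl ha.1)⟩
    tauto
  have m2 : (du E ω'' ∩ cs o s CC) \ U.map sh1 ⊆ du E (insert e (mix U ω ω'')) ∩
      ((U4 B e ω).map sh1 ∪ cs o s CC ∪ Bx X1 X2 Y1 Y2) := by
    intro a ha
    rw [mem_sdiff, mem_inter, mem_du, mem_map_sh1] at ha
    rw [mem_inter, mem_du, mem_insert, mem_union, mem_union, mem_mix]
    refine ⟨⟨ha.1.1.1, ?_⟩, Or.inl (Or.inr ha.1.2)⟩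
    rintro (h5 | h5)
    · exact ha.2 (h5 ▸ heU)
    · rcases h5 with h5 | h5
      · exact ha.2 h5.2
      · exact ha.1.1.2 h5.1
  have m3 : du E ω'' ∩ Bx X1 X2 Y1 Y2 ⊆ du E (insert e (mix U ω ω'')) ∩
      ((U4 B e ω).map sh1 ∪ cs o s CC ∪ Bx X1 X2 Y1 Y2) := by
    intro a ha
    rw [mem_inter, mem_du] at ha
    have h6 : a - (1, 1) ∉ U := fun h => hUr _ h (by rw [sub_add_cancel]; exact ha.2)
    rw [mem_inter, mem_du, mem_insert, mem_union, mem_union, mem_mix]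
    refine ⟨⟨ha.1.1, ?_⟩, Or.inr ha.2⟩
    rintro (h5 | h5)
    · exact h6 (h5 ▸ heU)
    · rcases h5 with h5 | h5
      · exact h6 h5.2
      · exact ha.1.2 h5.1
  exact (hz3.mono m1).trans ((hz2.symm.mono m2).trans (k2.symm.mono m3))

end Pool.Agent.H81.NC
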