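import Mathlib
import Pool.Agent.H81.NC.TransA
import Pool.Agent.H81.NC.Win
import Pool.Agent.H75.Four.FOther

set_option autoImplicit false
open Finset

/-! Frames (helper61): the two corners of an edge, four arms, exits, boxes and cells seen in a frame. -/

namespace Pool.Agent.H81.NC

open Pool.Agent.H75.Perc Pool.Agent.H75.TwoArm Pool.Agent.H75.Four Pool.Agent.H99.NC
open Pool.Agent.H75.TwoArm.SymmAux Pool.Agent.H75.Four.RotAux

/-! ### Frames only depend on `φ` modulo four -/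

lemma ro_mod (σ : ℤ) : ro (σ % 4) = ro σ := by
  funext c; unfold ro; rw [Int.emod_emod_of_dvd _ (dvd_refl 4)]

lemma crn_mod (σ : ℤ) : crn (σ % 4) = crn σ := by
  funext c; unfold crn; rw [Int.emod_emod_of_dvd _ (dvd_refl 4)]

lemma rad_mod (σ y ρ : ℤ) : rad (σ % 4) y ρ = rad σ y ρ := by
  unfold rad; rw [ro_mod]

lemma ro_congr {σ τ : ℤ} (h : σ % 4 = τ % 4) : ro σ = ro τ := by
  rw [← ro_mod σ, ← ro_mod τ, h]

lemma crn_congr {σ τ : ℤ} (h : σ % 4 = τ % 4) : crn σ = crn τ := by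
  rw [← crn_mod σ, ← crn_mod τ, h]

lemma rad_congr {σ τ : ℤ} (h : σ % 4 = τ % 4) (y ρ : ℤ) : rad σ y ρ = rad τ y ρ := by
  unfold rad; rw [ro_congr h]

lemma FR_congr {φ ψ : ℤ} (h : φ % 4 = ψ % 4) (ω : Finset (ℤ × ℤ)) : FR φ ω = FR ψ ω := by
  ext l; rw [mem_FR, mem_FR, ro_congr h]

lemma FR_mod (φ : ℤ) (ω : Finset (ℤ × ℤ)) : FR (φ % 4) ω = FR φ ω := FR_congr (by omega) ω

/-! ### The corners of an edge -/

lemma ro_par {φ : ℤ} {e : ℤ × ℤ} (he : (e.1 + e.2) % 2 = 1) :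
    ((ro φ e).1 + (ro φ e).2) % 2 = 1 := by
  unfold ro; split_ifs <;> (try simp only) <;> omega

lemma rotL_par {e : ℤ × ℤ} (he : (e.1 + e.2) % 2 = 1) :
    ((rotL e).1 + (rotL e).2) % 2 = 1 := by
  unfold rotL; simp only [Function.Embedding.coeFn_mk]; omega

/-- the corners `zu e`, `zv e` in a frame -/
lemma zz_FR (φ : ℤ) {e : ℤ × ℤ} (he : (e.1 + e.2) % 2 = 1) :
    (crn (-φ) (zu e) = zu (ro (-φ) e) ∧ crn (-φ) (zv e) = zv (ro (-φ) e)) ∨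
    (crn (-φ) (zu e) = zv (ro (-φ) e) ∧ crn (-φ) (zv e) = zu (ro (-φ) e)) := by
  obtain ⟨a, b⟩ := e
  simp only at he
  have h4 : (-φ) % 4 = 0 ∨ (-φ) % 4 = 1 ∨ (-φ) % 4 = 2 ∨ (-φ) % 4 = 3 := by omega
  rcases Int.emod_two_eq_zero_or_one a with h | h
  · rcases h4 with h' | h' | h' | h'
    · left; simp only [crn, ro, h', zu, zv, if_true]; exact ⟨trivial, trivial⟩
    · right
      have e1 : (-b) % 2 ≠ 0 := by omega
      simp only [crn, ro, h', zu, zv, h, e1, if_true, if_false, one_ne_zero]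
      refine ⟨Prod.ext ?_ ?_, Prod.ext ?_ ?_⟩ <;> simp only <;> omega
    · right
      have e1 : (-a) % 2 = 0 := by omega
      simp only [crn, ro, h', zu, zv, h, e1, if_true, if_false, OfNat.ofNat_ne_zero,
        OfNat.ofNat_ne_one]
      refine ⟨Prod.ext ?_ ?_, Prod.ext ?_ ?_⟩ <;> simp only <;> omega
    · left
      have e1 : b % 2 ≠ 0 := by omega
      simp only [crn, ro, h', zu, zv, h, e1, if_true, if_false, OfNat.ofNat_ne_zero,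
        OfNat.ofNat_ne_one, show ¬ ((3 : ℤ) = 2) by norm_num]
      refine ⟨Prod.ext ?_ ?_, Prod.ext ?_ ?_⟩ <;> simp only <;> omega
  · have h0 : a % 2 ≠ 0 := by omega
    rcases h4 with h' | h' | h' | h'
    · left; simp only [crn, ro, h', zu, zv, if_true]; exact ⟨trivial, trivial⟩
    · left
      have e1 : (-b) % 2 = 0 := by omega
      simp only [crn, ro, h', zu, zv, h0, e1, if_true, if_false, one_ne_zero]
      refine ⟨Prod.ext ?_ ?_, Prod.ext ?_ ?_⟩ <;> simp only <;> omega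
    · right
      have e1 : (-a) % 2 ≠ 0 := by omega
      simp only [crn, ro, h', zu, zv, h0, e1, if_true, if_false, OfNat.ofNat_ne_zero,
        OfNat.ofNat_ne_one]
      refine ⟨Prod.ext ?_ ?_, Prod.ext ?_ ?_⟩ <;> simp only <;> omega
    · right
      have e1 : b % 2 = 0 := by omega
      simp only [crn, ro, h', zu, zv, h0, e1, if_true, if_false, OfNat.ofNat_ne_zero,
        OfNat.ofNat_ne_one, show ¬ ((3 : ℤ) = 2) by norm_num]
      refine ⟨Prod.ext ?_ ?_, Prod.ext ?_ ?_⟩ <;> simp only <;> omega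

/-- a corner of `e` is a corner of the rotated edge -/
lemma corner_FR (φ : ℤ) {e c : ℤ × ℤ} (he : (e.1 + e.2) % 2 = 1) (hc : c = zu e ∨ c = zv e) :
    crn (-φ) c = zu (ro (-φ) e) ∨ crn (-φ) c = zv (ro (-φ) e) := by
  rcases zz_FR φ he with ⟨h1, h2⟩ | ⟨h1, h2⟩ <;> rcases hc with rfl | rfl
  · exact Or.inl h1
  · exact Or.inr h2
  · exact Or.inr h1
  · exact Or.inl h2

/-! ### Four arms -/

theorem A4_FR (φ : ℤ) {B ω : Finset (ℤ × ℤ)} {e : ℤ × ℤ} (he : (e.1 + e.2) % 2 = 1) :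
    A4 (FR φ B) (ro (-φ) e) (FR φ ω) ↔ A4 B e ω := by
  have hr : ∀ u : ℤ × ℤ, rv u = rotL u := fun _ => rfl
  have h1' := rotL_par he
  have h2' := rotL_par h1'
  rcases FR_cases φ with ⟨h1, h2, h3⟩ | ⟨h1, h2, h3⟩ | ⟨h1, h2, h3⟩ | ⟨h1, h2, h3⟩ <;>
  simp only [h1, h3, hr]
  · rw [A4_rot he]
  · rw [A4_rot h1', A4_rot he]
  · rw [A4_rot h2', A4_rot h1', A4_rot he]

theorem U4_FR (φ : ℤ) {B ω : Finset (ℤ × ℤ)} {e : ℤ × ℤ} (he : (e.1 + e.2) % 2 = 1) :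
    U4 (FR φ B) (ro (-φ) e) (FR φ ω) = FR φ (U4 B e ω) := by
  have hr : ∀ u : ℤ × ℤ, rv u = rotL u := fun _ => rfl
  have h1' := rotL_par he
  have h2' := rotL_par h1'
  rcases FR_cases φ with ⟨h1, h2, h3⟩ | ⟨h1, h2, h3⟩ | ⟨h1, h2, h3⟩ | ⟨h1, h2, h3⟩ <;>
  simp only [h1, h3, hr]
  · rw [U4_rot he]
  · rw [U4_rot h1', U4_rot he]
  · rw [U4_rot h2', U4_rot h1', U4_rot he]

/-- the edge itself is explored -/
lemma e_mem_U4 {B ω : Finset (ℤ × ℤ)} {e : ℤ × ℤ} (he : (e.1 + e.2) % 2 = 1) (heB : e ∈ B) :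
    e ∈ U4 B e ω := by
  refine mem_union_left _ (StrandAux.mem_UU.2 ⟨heB, zu e, Or.inl ⟨0, rfl, fun i hi =>
    absurd hi (Nat.not_lt_zero i)⟩, Or.inl (opc_zu he).2.2.1⟩)

/-- exits in a frame -/
theorem FX_fr {φ : ℤ} {B ω : Finset (ℤ × ℤ)} {e c x : ℤ × ℤ}
    (h : FX B (ω.erase e) c (crn φ x)) :
    FX (FR φ B) ((FR φ ω).erase (ro (-φ) e)) (crn (-φ) c) x := by
  rw [← FR_erase, ← crn_neg_crn φ x, FX_FR]
  exact h

theorem BX_fr {φ : ℤ} {B ω : Finset (ℤ × ℤ)} {e c x : ℤ × ℤ}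
    (h : BX B (ω.erase e) c (crn φ x)) :
    BX (FR φ B) ((FR φ ω).erase (ro (-φ) e)) (crn (-φ) c) x := by
  rw [← FR_erase, ← crn_neg_crn φ x, BX_FR]
  exact h

theorem FX_fr' {φ : ℤ} {B ω : Finset (ℤ × ℤ)} {e c x : ℤ × ℤ}
    (h : FX B (ω.erase e) c x) :
    FX (FR φ B) ((FR φ ω).erase (ro (-φ) e)) (crn (-φ) c) (crn (-φ) x) := by
  rw [← FR_erase, FX_FR]
  exact h

theorem BX_fr' {φ : ℤ} {B ω : Finset (ℤ × ℤ)} {e c x : ℤ × ℤ}
    (h : BX B (ω.erase e) c x) :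
    BX (FR φ B) ((FR φ ω).erase (ro (-φ) e)) (crn (-φ) c) (crn (-φ) x) := by
  rw [← FR_erase, BX_FR]
  exact h

theorem lab_plab_FR {φ : ℤ} {x z : ℤ × ℤ} :
    lab x = plab (crn (-φ) z) ↔ lab (crn φ x) = plab z := by
  have h1 : lab x = ro (-φ) (lab (crn φ x)) := by rw [← lab_FR, crn_neg_crn]
  rw [plab_FR, h1, ro_inj]

theorem plab_lab_FR {φ : ℤ} {x z : ℤ × ℤ} :
    lab (crn (-φ) z) = plab x ↔ lab z = plab (crn φ x) := by
  have h1 : plab x = ro (-φ) (plab (crn φ x)) := by rw [← plab_FR, crn_neg_crn]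
  rw [lab_FR, h1, ro_inj]

/-! ### Boxes and cells -/

/-- a centred box around `m c` in a frame -/
lemma FR_Bx (φ : ℤ) (c : ℤ × ℤ) (m d : ℤ) :
    FR φ (Bx (m * (ro φ c).1 - d) (m * (ro φ c).1 + d) (m * (ro φ c).2 - d) (m * (ro φ c).2 + d)) =
      Bx (m * c.1 - d) (m * c.1 + d) (m * c.2 - d) (m * c.2 + d) := by
  obtain ⟨x, y⟩ := c
  have n1 : m * -x = -(m * x) := by ring
  have n2 : m * -y = -(m * y) := by ring
  have h4 : φ % 4 = 0 ∨ φ % 4 = 1 ∨ φ % 4 = 2 ∨ φ % 4 = 3 := by omega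
  ext ⟨a, b⟩
  rw [mem_FR, mem_Bx, mem_Bx]
  rcases h4 with h | h | h | h
  · simp only [ro, h, if_true]
  · simp only [ro, h, if_true, if_false, one_ne_zero, n2]; omega
  · simp only [ro, h, if_true, if_false, OfNat.ofNat_ne_zero, OfNat.ofNat_ne_one, n1, n2]; omega
  · simp only [ro, h, if_false, OfNat.ofNat_ne_zero, OfNat.ofNat_ne_one,
      show ¬ ((3 : ℤ) = 2) by norm_num, n1]; omega

lemma FR_hkn (φ s y ρ : ℤ) : FR φ (hkn s (rad φ y ρ)) = hkn s (ρ, y) := by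
  unfold hkn rad
  exact FR_Bx φ (ρ, y) (8 * s) (8 * s)

lemma cell_eq (s : ℤ) (c : ℤ × ℤ) : cell (-(4 * s), -(4 * s)) (8 * s) c =
    Bx (8 * s * c.1 - 4 * s) (8 * s * c.1 + 4 * s) (8 * s * c.2 - 4 * s) (8 * s * c.2 + 4 * s) := by
  unfold cell
  congr 1 <;> ring

lemma FR_cell (φ s y ρ : ℤ) : FR φ (cell (-(4 * s), -(4 * s)) (8 * s) (rad φ y ρ)) =
    cell (-(4 * s), -(4 * s)) (8 * s) (ρ, y) := by
  rw [cell_eq, cell_eq]
  unfold rad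
  exact FR_Bx φ (ρ, y) (8 * s) (4 * s)

/-- the rectangle of a pair of cells in a frame -/
lemma Bx_pair_sub (s y ρ : ℤ) :
    Bx (8 * s * ρ - 4 * s) (8 * s * ρ + 4 * s) (8 * s * (y - 1) - 4 * s) (8 * s * y + 4 * s) ⊆
      cell (-(4 * s), -(4 * s)) (8 * s) (ρ, y) ∪ cell (-(4 * s), -(4 * s)) (8 * s) (ρ, y - 1) := by
  intro a ha
  rw [cell_eq, cell_eq, mem_union, mem_Bx, mem_Bx]
  rw [mem_Bx] at ha
  have h1 : 8 * s * (y - 1) = 8 * s * y - 8 * s := by ring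
  simp only
  omega

lemma Bx_pair_FR {s y ρ φ : ℤ} {S : Finset (ℤ × ℤ)} (m1 : rad φ y ρ ∈ S)
    (m2 : rad φ (y - 1) ρ ∈ S) :
    Bx (8 * s * ρ - 4 * s) (8 * s * ρ + 4 * s) (8 * s * (y - 1) - 4 * s) (8 * s * y + 4 * s) ⊆
      FR φ (csS s S) := by
  refine (Bx_pair_sub s y ρ).trans (union_subset ?_ ?_)
  · rw [← FR_cell φ]
    exact FR_mono (cell_sub_cs m1)
  · rw [← FR_cell φ]
    exact FR_mono (cell_sub_cs m2)

/-- the fine cells of the hook stay in the box of radius `8 s` around the centre of the coarse cell -/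
lemma mem_CC_bd {c : ℤ × ℤ} (h : c ∈ CC) : (-2 ≤ c.1 ∧ c.1 ≤ 9) ∧ (-2 ≤ c.2 ∧ c.2 ≤ 1) := by
  unfold CC at h
  rw [mem_union, mem_union, mem_pc, mem_pc, mem_pc] at h
  rcases h with (⟨t, h1, h2, rfl⟩ | ⟨t, h1, h2, rfl⟩) | ⟨t, h1, h2, rfl⟩ <;> simp only <;> omega

lemma mem_cs_CC {o : ℤ × ℤ} {s : ℤ} (hs : 0 ≤ s) {a : ℤ × ℤ} (h : a ∈ cs o s CC) :
    a ∈ Bx (o.1 - 2 * s) (o.1 + 10 * s) (o.2 - 2 * s) (o.2 + 2 * s) := by
  rw [mem_cs] at h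
  obtain ⟨c, hc, ha⟩ := h
  obtain ⟨⟨h1, h2⟩, h3, h4⟩ := mem_CC_bd hc
  unfold cell at ha
  rw [mem_Bx] at ha ⊢
  have e1 : -(2 * s) ≤ s * c.1 := by nlinarith
  have e2 : s * c.1 ≤ 9 * s := by nlinarith
  have e3 : -(2 * s) ≤ s * c.2 := by nlinarith
  have e4 : s * c.2 ≤ s := by nlinarith
  omega

end Pool.Agent.H81.NC
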