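import Mathlib
import Pool.Agent.H81.NC.Defs
import Pool.Agent.H99.NC.Prob

set_option autoImplicit false
open Finset

/-! A pair of cells of an arm, seen in the frame `φ` (job T2, helper68). -/

namespace Pool.Agent.H81.NC

open Pool.Agent.H75.Perc Pool.Agent.H75.TwoArm Pool.Agent.H75.Four Pool.Agent.H99.NC

namespace TransB

/-- A full vertex of one of two cells one above the other is joined to the crossing of the union. -/
lemma VV_full {o : ℤ × ℤ} {w : ℤ} (hw : 0 ≤ w) {c : ℤ × ℤ} {W : Finset (ℤ × ℤ)} {v : ℤ × ℤ}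
    (h : VV o w c W) (hv : CF o w c W v ∨ CF o w (c + (0, 1)) W v) :
    ∃ p q : ℤ × ℤ, p.2 = o.2 + w * c.2 ∧ q.2 = o.2 + w * c.2 + 2 * w ∧
      inB (o.1 + w * c.1) (o.1 + w * c.1 + w) (o.2 + w * c.2) (o.2 + w * c.2 + 2 * w) p ∧
      inB (o.1 + w * c.1) (o.1 + w * c.1 + w) (o.2 + w * c.2) (o.2 + w * c.2 + 2 * w) q ∧
      Co (W ∩ Bx (o.1 + w * c.1) (o.1 + w * c.1 + w) (o.2 + w * c.2) (o.2 + w * c.2 + 2 * w)) p q ∧
      Co (W ∩ Bx (o.1 + w * c.1) (o.1 + w * c.1 + w) (o.2 + w * c.2) (o.2 + w * c.2 + 2 * w)) p v := by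
  obtain ⟨p, q, p1, p2, p3, p4⟩ := h
  have hq := p4.inB inter_subset_right p1
  refine ⟨p, q, p2, p3, p1, hq, p4, ?_⟩
  rcases hv with hv | hv
  · obtain ⟨z, z1, z2, z3, z4⟩ := trunc_up (m := o.2 + w * c.2 + w) p1 (by omega) (by omega) p4
    have hvv := Full.vert hv (by unfold inB at p1 ⊢; omega) p2 z1 z3
    exact (hvv.mono (inter_subset_inter_left
      (Bx_sub le_rfl le_rfl le_rfl (by omega)))).symm
  · obtain ⟨y, y1, y2, y3, y4⟩ := trunc_down (m := o.2 + w * c.2 + w) hq (by omega) (by omega)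
      p4.symm
    have hvv := Full.vert (CF_top.1 hv) y2 y1 p3 y3.symm
    exact (p4.trans y4).trans (hvv.mono (inter_subset_inter_left
      (Bx_sub le_rfl le_rfl (by omega) le_rfl))).symm

/-- The same for two cells side by side. -/
lemma HH_full {o : ℤ × ℤ} {w : ℤ} (hw : 0 ≤ w) {c : ℤ × ℤ} {W : Finset (ℤ × ℤ)} {v : ℤ × ℤ}
    (h : HH o w c W) (hv : CF o w c W v ∨ CF o w (c + (1, 0)) W v) :
    ∃ p q : ℤ × ℤ, p.1 = o.1 + w * c.1 ∧ q.1 = o.1 + w * c.1 + 2 * w ∧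
      inB (o.1 + w * c.1) (o.1 + w * c.1 + 2 * w) (o.2 + w * c.2) (o.2 + w * c.2 + w) p ∧
      inB (o.1 + w * c.1) (o.1 + w * c.1 + 2 * w) (o.2 + w * c.2) (o.2 + w * c.2 + w) q ∧
      Co (W ∩ Bx (o.1 + w * c.1) (o.1 + w * c.1 + 2 * w) (o.2 + w * c.2) (o.2 + w * c.2 + w)) p q ∧
      Co (W ∩ Bx (o.1 + w * c.1) (o.1 + w * c.1 + 2 * w) (o.2 + w * c.2) (o.2 + w * c.2 + w)) p v := by
  obtain ⟨p, q, p1, p2, p3, p4⟩ := h
  have hq := p4.inB inter_subset_right p1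
  refine ⟨p, q, p2, p3, p1, hq, p4, ?_⟩
  rcases hv with hv | hv
  · obtain ⟨z, z1, z2, z3, z4⟩ := trunc_right (m := o.1 + w * c.1 + w) p1 (by omega) (by omega) p4
    have hvv := Full.horiz hv (by unfold inB at p1 ⊢; omega) p2 z1 z3
    exact (hvv.mono (inter_subset_inter_left
      (Bx_sub le_rfl (by omega) le_rfl le_rfl))).symm
  · obtain ⟨y, y1, y2, y3, y4⟩ := trunc_left (m := o.1 + w * c.1 + w) hq (by omega) (by omega)
      p4.symm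
    have hvv := Full.horiz (CF_right.1 hv) y2 y1 p3 y3.symm
    exact (p4.trans y4).trans (hvv.mono (inter_subset_inter_left
      (Bx_sub (by omega) le_rfl le_rfl le_rfl))).symm

/-- Transport of a connection inside a rectangle. -/
lemma tr {g : ℤ × ℤ → ℤ × ℤ} {W W' : Finset (ℤ × ℤ)} (hg : ∀ u v, Ad W u v → Ad W' (g u) (g v))
    {a b c d a' b' c' d' : ℤ} (hB : ∀ u, inB a b c d u → inB a' b' c' d' (g u)) {u v : ℤ × ℤ}
    (h : Co (W ∩ Bx a b c d) u v) : Co (W' ∩ Bx a' b' c' d') (g u) (g v) := by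
  refine Relation.ReflTransGen.lift (p := Ad (W' ∩ Bx a' b' c' d')) (r := Ad (W ∩ Bx a b c d)) g
    (fun x y hxy => ?_) _ _ h
  obtain ⟨h1, h2⟩ := hxy.inB inter_subset_right
  have h3 : Ad W x y := ⟨hxy.1, (mem_inter.1 hxy.2).1⟩
  have h4 := hg x y h3
  exact ⟨h4.1, mem_inter.2 ⟨h4.2, add_mem_Bx h4.1 (hB _ h1) (hB _ h2)⟩⟩

/-- rotation by `σ` right angles about the point `(ε/2, ε/2)` -/
def grot (ε σ : ℤ) (c : ℤ × ℤ) : ℤ × ℤ :=
  if σ % 4 = 0 then c else if σ % 4 = 1 then (ε - c.2, c.1)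
  else if σ % 4 = 2 then (ε - c.1, ε - c.2) else (c.2, ε - c.1)

lemma grot_zero (σ : ℤ) (c : ℤ × ℤ) : grot 0 σ c = ro σ c := by
  unfold grot ro; simp only [zero_sub]

lemma grot_one (σ : ℤ) (c : ℤ × ℤ) : grot 1 σ c = crn σ c := rfl

lemma rad_mod {φ : ℤ} (y ρ : ℤ) :
    (φ % 4 = 0 → rad φ y ρ = (ρ, y)) ∧ (φ % 4 = 1 → rad φ y ρ = (-y, ρ)) ∧
    (φ % 4 = 2 → rad φ y ρ = (-ρ, -y)) ∧ (φ % 4 = 3 → rad φ y ρ = (y, -ρ)) := by
  unfold rad ro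
  refine ⟨fun h => ?_, fun h => ?_, fun h => ?_, fun h => ?_⟩ <;> simp [h]

/-- The common core of the two theorems. -/
theorem pair_core {ε s ρ y φ : ℤ} (hs : 1 ≤ s) {S W W' : Finset (ℤ × ℤ)}
    (h : Net (-(4 * s), -(4 * s)) (8 * s) S W)
    (hg : ∀ u v, Ad W u v → Ad W' (grot ε (-φ) u) (grot ε (-φ) v))
    (h1 : rad φ y ρ ∈ S) (h2 : rad φ (y - 1) ρ ∈ S) {v : ℤ × ℤ}
    (hv : CF (-(4 * s), -(4 * s)) (8 * s) (rad φ y ρ) W v ∨
      CF (-(4 * s), -(4 * s)) (8 * s) (rad φ (y - 1) ρ) W v) :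
    ∃ (α β : ℤ) (p q : ℤ × ℤ), (α, β) = grot ε (-φ) (0, 0) ∧
      p.2 = 8 * s * (y - 1) - 4 * s + β ∧ q.2 = 8 * s * y + 4 * s + β ∧
      inB (8 * s * ρ - 4 * s + α) (8 * s * ρ + 4 * s + α) (8 * s * (y - 1) - 4 * s + β)
        (8 * s * y + 4 * s + β) p ∧
      Co (W' ∩ Bx (8 * s * ρ - 4 * s + α) (8 * s * ρ + 4 * s + α)
        (8 * s * (y - 1) - 4 * s + β) (8 * s * y + 4 * s + β)) p q ∧
      Co (W' ∩ Bx (8 * s * ρ - 4 * s + α) (8 * s * ρ + 4 * s + α)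
        (8 * s * (y - 1) - 4 * s + β) (8 * s * y + 4 * s + β)) p (grot ε (-φ) v) := by
  have hw : (0 : ℤ) ≤ 8 * s := by omega
  obtain ⟨R0, R1, R2, R3⟩ := rad_mod (φ := φ) y ρ
  obtain ⟨Q0, Q1, Q2, Q3⟩ := rad_mod (φ := φ) (y - 1) ρ
  have e1 : 8 * s * (y - 1) = 8 * s * y - 8 * s := by ring
  have e2 : 8 * s * (-y) = -(8 * s * y) := by ring
  have e3 : 8 * s * (-ρ) = -(8 * s * ρ) := by ring
  obtain h0 | h0 | h0 | h0 : φ % 4 = 0 ∨ φ % 4 = 1 ∨ φ % 4 = 2 ∨ φ % 4 = 3 := by omega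
  · -- φ ≡ 0
    rw [R0 h0] at h1 hv
    rw [Q0 h0] at h2 hv
    have hn : (-φ) % 4 = 0 := by omega
    have hG : ∀ u, grot ε (-φ) u = u := fun u => by unfold grot; rw [if_pos hn]
    have hc : ((ρ, y - 1) : ℤ × ℤ) + (0, 1) = (ρ, y) := by simp
    obtain ⟨p, q, p1, p2, p3, p4, p5, p6⟩ := VV_full hw (c := (ρ, y - 1)) (W := W) (v := v)
      ((h _ h2).2.2 (by rw [hc]; exact h1)) (by rw [hc]; exact hv.symm)
    simp only [e1] at p1 p2 p3 p4 p5 p6 ⊢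
    refine ⟨0, 0, p, q, (hG _).symm, by omega, by omega,
      by unfold inB at p3 ⊢; omega, ?_, ?_⟩
    · have := tr (a' := 8 * s * ρ - 4 * s + 0) (b' := 8 * s * ρ + 4 * s + 0)
        (c' := 8 * s * y - 8 * s - 4 * s + 0) (d' := 8 * s * y + 4 * s + 0) hg
        (fun u hu => by rw [hG]; unfold inB at hu ⊢; omega) p5
      rw [hG, hG] at this
      exact this
    · have := tr (a' := 8 * s * ρ - 4 * s + 0) (b' := 8 * s * ρ + 4 * s + 0)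
        (c' := 8 * s * y - 8 * s - 4 * s + 0) (d' := 8 * s * y + 4 * s + 0) hg
        (fun u hu => by rw [hG]; unfold inB at hu ⊢; omega) p6
      rw [hG p] at this
      exact this
  · -- φ ≡ 1
    rw [R1 h0] at h1 hv
    rw [Q1 h0] at h2 hv
    have hn : (-φ) % 4 = 3 := by omega
    have hG : ∀ u, grot ε (-φ) u = (u.2, ε - u.1) := fun u => by
      unfold grot; rw [if_neg (by omega), if_neg (by omega), if_neg (by omega)]
    have hc : ((-y, ρ) : ℤ × ℤ) + (1, 0) = (-(y - 1), ρ) := by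
      refine Prod.ext ?_ ?_ <;> simp only [Prod.fst_add, Prod.snd_add] <;> ring
    obtain ⟨p, q, p1, p2, p3, p4, p5, p6⟩ := HH_full hw (c := (-y, ρ)) (W := W) (v := v)
      ((h _ h1).2.1 (by rw [hc]; exact h2)) (by rw [hc]; exact hv)
    simp only [e1, e2] at p1 p2 p3 p4 p5 p6 ⊢
    have hB : ∀ u, inB (-(4 * s) + -(8 * s * y)) (-(4 * s) + -(8 * s * y) + 2 * (8 * s))
        (-(4 * s) + 8 * s * ρ) (-(4 * s) + 8 * s * ρ + 8 * s) u →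
        inB (8 * s * ρ - 4 * s + 0) (8 * s * ρ + 4 * s + 0) (8 * s * y - 8 * s - 4 * s + ε)
          (8 * s * y + 4 * s + ε) (grot ε (-φ) u) := fun u hu => by
      rw [hG]; unfold inB at hu ⊢; simp only; omega
    refine ⟨0, ε, grot ε (-φ) q, grot ε (-φ) p, by rw [hG]; simp, ?_, ?_,
      hB _ p4, ?_, ?_⟩
    · rw [hG]; simp only; omega
    · rw [hG]; simp only; omega
    · exact (tr hg hB p5).symm
    · exact (tr hg hB p5).symm.trans (tr hg hB p6)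
  · -- φ ≡ 2
    rw [R2 h0] at h1 hv
    rw [Q2 h0] at h2 hv
    have hn : (-φ) % 4 = 2 := by omega
    have hG : ∀ u, grot ε (-φ) u = (ε - u.1, ε - u.2) := fun u => by
      unfold grot; rw [if_neg (by omega), if_neg (by omega), if_pos hn]
    have hc : ((-ρ, -y) : ℤ × ℤ) + (0, 1) = (-ρ, -(y - 1)) := by
      refine Prod.ext ?_ ?_ <;> simp only [Prod.fst_add, Prod.snd_add] <;> ring
    obtain ⟨p, q, p1, p2, p3, p4, p5, p6⟩ := VV_full hw (c := (-ρ, -y)) (W := W) (v := v)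
      ((h _ h1).2.2 (by rw [hc]; exact h2)) (by rw [hc]; exact hv)
    simp only [e1, e2, e3] at p1 p2 p3 p4 p5 p6 ⊢
    have hB : ∀ u, inB (-(4 * s) + -(8 * s * ρ)) (-(4 * s) + -(8 * s * ρ) + 8 * s)
        (-(4 * s) + -(8 * s * y)) (-(4 * s) + -(8 * s * y) + 2 * (8 * s)) u →
        inB (8 * s * ρ - 4 * s + ε) (8 * s * ρ + 4 * s + ε) (8 * s * y - 8 * s - 4 * s + ε)
          (8 * s * y + 4 * s + ε) (grot ε (-φ) u) := fun u hu => by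
      rw [hG]; unfold inB at hu ⊢; simp only; omega
    refine ⟨ε, ε, grot ε (-φ) q, grot ε (-φ) p, by rw [hG]; simp, ?_, ?_,
      hB _ p4, ?_, ?_⟩
    · rw [hG]; simp only; omega
    · rw [hG]; simp only; omega
    · exact (tr hg hB p5).symm
    · exact (tr hg hB p5).symm.trans (tr hg hB p6)
  · -- φ ≡ 3
    rw [R3 h0] at h1 hv
    rw [Q3 h0] at h2 hv
    have hn : (-φ) % 4 = 1 := by omega
    have hG : ∀ u, grot ε (-φ) u = (ε - u.2, u.1) := fun u => by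
      unfold grot; rw [if_neg (by omega), if_pos hn]
    have hc : ((y - 1, -ρ) : ℤ × ℤ) + (1, 0) = (y, -ρ) := by simp
    obtain ⟨p, q, p1, p2, p3, p4, p5, p6⟩ := HH_full hw (c := (y - 1, -ρ)) (W := W) (v := v)
      ((h _ h2).2.1 (by rw [hc]; exact h1)) (by rw [hc]; exact hv.symm)
    simp only [e1, e3] at p1 p2 p3 p4 p5 p6 ⊢
    have hB : ∀ u, inB (-(4 * s) + (8 * s * y - 8 * s)) (-(4 * s) + (8 * s * y - 8 * s) + 2 * (8 * s))
        (-(4 * s) + -(8 * s * ρ)) (-(4 * s) + -(8 * s * ρ) + 8 * s) u →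
        inB (8 * s * ρ - 4 * s + ε) (8 * s * ρ + 4 * s + ε) (8 * s * y - 8 * s - 4 * s + 0)
          (8 * s * y + 4 * s + 0) (grot ε (-φ) u) := fun u hu => by
      rw [hG]; unfold inB at hu ⊢; simp only; omega
    refine ⟨ε, 0, grot ε (-φ) p, grot ε (-φ) q, by rw [hG]; simp, ?_, ?_,
      hB _ p3, ?_, ?_⟩
    · rw [hG]; simp only; omega
    · rw [hG]; simp only; omega
    · exact tr hg hB p5
    · exact tr hg hB p6

lemma ad_FR (φ : ℤ) (ω : Finset (ℤ × ℤ)) (u v : ℤ × ℤ) (h : Ad ω u v) :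
    Ad (FR φ ω) (ro (-φ) u) (ro (-φ) v) := ((syO (-φ)).ad_iff ω u v).2 h

lemma ad_du_FR (φ : ℤ) (E ω : Finset (ℤ × ℤ)) (u v : ℤ × ℤ) (h : Ad (du E ω) u v) :
    Ad (du (FR φ E) (FR φ ω)) (crn (-φ) u) (crn (-φ) v) := by
  obtain ⟨h1, h2⟩ := h
  refine ⟨?_, ?_⟩
  · unfold IsUnit4 at h1 ⊢
    unfold crn
    split_ifs <;> simp only [Prod.ext_iff, Prod.fst_sub, Prod.snd_sub] at h1 ⊢ <;> omega
  · unfold du at h2 ⊢
    unfold FR
    rw [← Finset.map_sdiff]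
    obtain ⟨a, ha, hau⟩ := mem_map.1 h2
    refine mem_map.2 ⟨(syO (-φ)).G a, mem_map.2 ⟨a, ha, rfl⟩, ?_⟩
    have e1 : ∀ x : ℤ × ℤ, sh1 x = (x.1 + 1, x.2 + 1) := fun _ => rfl
    have e2 : ∀ x : ℤ × ℤ, (syO (-φ)).G x = ro (-φ) x := fun _ => rfl
    rw [e1] at hau ⊢
    rw [e2]
    have hau1 := congrArg Prod.fst hau
    have hau2 := congrArg Prod.snd hau
    simp only [Prod.fst_add, Prod.snd_add] at hau1 hau2
    unfold crn ro
    split_ifs <;>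
      (refine Prod.ext ?_ ?_ <;> simp only [Prod.fst_add, Prod.snd_add] <;> omega)

end TransB

open TransB

/-- T2. A pair of cells of an open arm, seen in the frame `φ`: every full vertex of one of the two cells
is joined to the bottom and to the top of the rectangle formed by the two cells. -/
theorem pair_frame' {s ρ y φ : ℤ} (hs : 1 ≤ s) {S ω : Finset (ℤ × ℤ)}
    (h : NO s S ω)
    (h1 : rad φ y ρ ∈ S) (h2 : rad φ (y - 1) ρ ∈ S) {v : ℤ × ℤ}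
    (hv : CF (-(4 * s), -(4 * s)) (8 * s) (rad φ y ρ) ω v ∨
      CF (-(4 * s), -(4 * s)) (8 * s) (rad φ (y - 1) ρ) ω v) :
    ∃ p q : ℤ × ℤ, p.2 = 8 * s * (y - 1) - 4 * s ∧ q.2 = 8 * s * y + 4 * s ∧
      inB (8 * s * ρ - 4 * s) (8 * s * ρ + 4 * s) (8 * s * (y - 1) - 4 * s) (8 * s * y + 4 * s) p ∧
      Co (FR φ ω ∩ Bx (8 * s * ρ - 4 * s) (8 * s * ρ + 4 * s) (8 * s * (y - 1) - 4 * s)
        (8 * s * y + 4 * s)) p q ∧
      Co (FR φ ω ∩ Bx (8 * s * ρ - 4 * s) (8 * s * ρ + 4 * s) (8 * s * (y - 1) - 4 * s)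
        (8 * s * y + 4 * s)) p (ro (-φ) v) := by
  obtain ⟨α, β, p, q, hαβ, p1, p2, p3, p4, p5⟩ := pair_core (ε := 0) hs h
    (fun u v h => by rw [grot_zero, grot_zero]; exact ad_FR φ ω u v h) h1 h2 hv
  have h0 : grot 0 (-φ) (0, 0) = (0, 0) := by
    unfold grot; split_ifs <;> simp
  rw [h0] at hαβ
  obtain ⟨rfl, rfl⟩ := Prod.ext_iff.1 hαβ
  simp only at p1 p2 p3 p4 p5
  rw [grot_zero] at p5
  simp only [add_zero] at p1 p2 p3 p4 p5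
  exact ⟨p, q, p1, p2, p3, p4, p5⟩

/-- The same with the hypothesis on `φ` of the specification. -/
theorem pair_frame {s ρ y φ : ℤ} (hs : 1 ≤ s) (_hφ : -2 ≤ φ ∧ φ ≤ 4) {S ω : Finset (ℤ × ℤ)}
    (h : NO s S ω)
    (h1 : rad φ y ρ ∈ S) (h2 : rad φ (y - 1) ρ ∈ S) {v : ℤ × ℤ}
    (hv : CF (-(4 * s), -(4 * s)) (8 * s) (rad φ y ρ) ω v ∨
      CF (-(4 * s), -(4 * s)) (8 * s) (rad φ (y - 1) ρ) ω v) :
    ∃ p q : ℤ × ℤ, p.2 = 8 * s * (y - 1) - 4 * s ∧ q.2 = 8 * s * y + 4 * s ∧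
      inB (8 * s * ρ - 4 * s) (8 * s * ρ + 4 * s) (8 * s * (y - 1) - 4 * s) (8 * s * y + 4 * s) p ∧
      Co (FR φ ω ∩ Bx (8 * s * ρ - 4 * s) (8 * s * ρ + 4 * s) (8 * s * (y - 1) - 4 * s)
        (8 * s * y + 4 * s)) p q ∧
      Co (FR φ ω ∩ Bx (8 * s * ρ - 4 * s) (8 * s * ρ + 4 * s) (8 * s * (y - 1) - 4 * s)
        (8 * s * y + 4 * s)) p (ro (-φ) v) := pair_frame' hs h h1 h2 hv

/-- T2'. The same for a dual arm (indices of faces); the rectangle is shifted by `(α, β)`, the image of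
the origin under the rotation of faces. -/
theorem pair_frame_du' {s ρ y φ : ℤ} (hs : 1 ≤ s) {S E ω : Finset (ℤ × ℤ)}
    (h : ND s S E ω)
    (h1 : rad φ y ρ ∈ S) (h2 : rad φ (y - 1) ρ ∈ S) {f : ℤ × ℤ}
    (hv : CF (-(4 * s), -(4 * s)) (8 * s) (rad φ y ρ) (du E ω) f ∨
      CF (-(4 * s), -(4 * s)) (8 * s) (rad φ (y - 1) ρ) (du E ω) f) :
    ∃ (α β : ℤ) (p q : ℤ × ℤ), (α, β) = crn (-φ) (0, 0) ∧
      p.2 = 8 * s * (y - 1) - 4 * s + β ∧ q.2 = 8 * s * y + 4 * s + β ∧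
      inB (8 * s * ρ - 4 * s + α) (8 * s * ρ + 4 * s + α) (8 * s * (y - 1) - 4 * s + β)
        (8 * s * y + 4 * s + β) p ∧
      Co (du (FR φ E) (FR φ ω) ∩ Bx (8 * s * ρ - 4 * s + α) (8 * s * ρ + 4 * s + α)
        (8 * s * (y - 1) - 4 * s + β) (8 * s * y + 4 * s + β)) p q ∧
      Co (du (FR φ E) (FR φ ω) ∩ Bx (8 * s * ρ - 4 * s + α) (8 * s * ρ + 4 * s + α)
        (8 * s * (y - 1) - 4 * s + β) (8 * s * y + 4 * s + β)) p (crn (-φ) f) :=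
  pair_core (ε := 1) hs h (fun u v h => ad_du_FR φ E ω u v h) h1 h2 hv

/-- The weaker form: the rectangle is shifted by `0` or `1`. -/
theorem pair_frame_du {s ρ y φ : ℤ} (hs : 1 ≤ s) (_hφ : -2 ≤ φ ∧ φ ≤ 4) {S E ω : Finset (ℤ × ℤ)}
    (h : ND s S E ω)
    (h1 : rad φ y ρ ∈ S) (h2 : rad φ (y - 1) ρ ∈ S) {f : ℤ × ℤ}
    (hv : CF (-(4 * s), -(4 * s)) (8 * s) (rad φ y ρ) (du E ω) f ∨
      CF (-(4 * s), -(4 * s)) (8 * s) (rad φ (y - 1) ρ) (du E ω) f) :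
    ∃ (α β : ℤ) (p q : ℤ × ℤ), (α = 0 ∨ α = 1) ∧ (β = 0 ∨ β = 1) ∧
      p.2 = 8 * s * (y - 1) - 4 * s + β ∧ q.2 = 8 * s * y + 4 * s + β ∧
      inB (8 * s * ρ - 4 * s + α) (8 * s * ρ + 4 * s + α) (8 * s * (y - 1) - 4 * s + β)
        (8 * s * y + 4 * s + β) p ∧
      Co (du (FR φ E) (FR φ ω) ∩ Bx (8 * s * ρ - 4 * s + α) (8 * s * ρ + 4 * s + α)
        (8 * s * (y - 1) - 4 * s + β) (8 * s * y + 4 * s + β)) p q ∧
      Co (du (FR φ E) (FR φ ω) ∩ Bx (8 * s * ρ - 4 * s + α) (8 * s * ρ + 4 * s + α)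
        (8 * s * (y - 1) - 4 * s + β) (8 * s * y + 4 * s + β)) p (crn (-φ) f) := by
  obtain ⟨α, β, p, q, hαβ, p1, p2, p3, p4, p5⟩ := pair_frame_du' hs h h1 h2 hv
  have h0 := Prod.ext_iff.1 hαβ
  simp only at h0
  refine ⟨α, β, p, q, ?_, ?_, p1, p2, p3, p4, p5⟩
  · rw [h0.1]; unfold crn; split_ifs <;> simp
  · rw [h0.2]; unfold crn; split_ifs <;> simp

end Pool.Agent.H81.NC
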