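import Mathlib
import Pool.Agent.H81.NC.TransA

set_option autoImplicit false
open Finset

/-! Rotation of face indices and of dual labels (helper41). -/

namespace Pool.Agent.H81.NC

open Pool.Agent.H75.Perc Pool.Agent.H75.TwoArm Pool.Agent.H75.Four Pool.Agent.H99.NC

/-- rotation of dual labels (sums of two face indices) by `σ` right angles -/
def cr2 (σ : ℤ) (a : ℤ × ℤ) : ℤ × ℤ :=
  if σ % 4 = 0 then a else if σ % 4 = 1 then (2 - a.2, a.1)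
  else if σ % 4 = 2 then (2 - a.1, 2 - a.2) else (a.2, 2 - a.1)

lemma cr2_cr2_neg (σ : ℤ) (c : ℤ × ℤ) : cr2 σ (cr2 (-σ) c) = c := by
  obtain ⟨a, b⟩ := c
  unfold cr2
  split_ifs <;> first | (exfalso; omega) | (refine Prod.ext ?_ ?_ <;> simp only <;> omega)

/-- rotation by `σ` right angles, as a symmetry of the lattice of face indices -/
def syD (σ : ℤ) : Sy where
  g := crn σ
  g' := crn (-σ)
  G := ⟨cr2 σ, by
    intro a b h
    obtain ⟨a1, a2⟩ := a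
    obtain ⟨b1, b2⟩ := b
    unfold cr2 at h
    split_ifs at h <;> simp only [Prod.mk.injEq] at h ⊢ <;> omega⟩
  G' := cr2 (-σ)
  gg' u := crn_crn_neg σ u
  g'g u := crn_neg_crn σ u
  GG' e := cr2_cr2_neg σ e
  add u v := by
    simp only [Function.Embedding.coeFn_mk]
    unfold cr2 crn; split_ifs <;>
    (refine Prod.ext ?_ ?_ <;> simp only [Prod.fst_add, Prod.snd_add] <;> ring)
  unit u v := by
    unfold IsUnit4 crn
    split_ifs <;> simp only [Prod.ext_iff, Prod.fst_sub, Prod.snd_sub] <;> omega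

lemma syD_g (σ : ℤ) : (syD σ).g = crn σ := rfl
lemma syD_G (σ : ℤ) (e : ℤ × ℤ) : (syD σ).G e = cr2 σ e := rfl
lemma syD_G' (σ : ℤ) (e : ℤ × ℤ) : (syD σ).G' e = cr2 (-σ) e := rfl

/-- a set of dual labels seen in the frame `φ` -/
def FD (φ : ℤ) (A : Finset (ℤ × ℤ)) : Finset (ℤ × ℤ) := A.map (syD (-φ)).G

lemma mem_FD {φ : ℤ} {A : Finset (ℤ × ℤ)} {a : ℤ × ℤ} : a ∈ FD φ A ↔ cr2 φ a ∈ A := by
  unfold FD
  rw [Sy.mem_map, syD_G', neg_neg]

lemma FD_union (φ : ℤ) (A B : Finset (ℤ × ℤ)) : FD φ (A ∪ B) = FD φ A ∪ FD φ B := map_union _ _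

lemma FD_inter (φ : ℤ) (A B : Finset (ℤ × ℤ)) : FD φ (A ∩ B) = FD φ A ∩ FD φ B := map_inter _ _

lemma FD_mono {φ : ℤ} {A B : Finset (ℤ × ℤ)} (h : A ⊆ B) : FD φ A ⊆ FD φ B := map_subset_map.2 h

lemma cr2_sh1 (σ : ℤ) (a : ℤ × ℤ) : cr2 σ (a + (1, 1)) = ro σ a + (1, 1) := by
  obtain ⟨x, y⟩ := a
  unfold cr2 ro
  split_ifs <;> (refine Prod.ext ?_ ?_ <;> simp only [Prod.mk_add_mk] <;> ring)

lemma mem_sh1 {A : Finset (ℤ × ℤ)} {a : ℤ × ℤ} : a ∈ A.map sh1 ↔ a - (1, 1) ∈ A := by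
  rw [Finset.mem_map]
  constructor
  · rintro ⟨x, hx, rfl⟩
    have : sh1 x - (1, 1) = x := by
      unfold sh1
      refine Prod.ext ?_ ?_ <;> simp only [Function.Embedding.coeFn_mk, Prod.fst_sub, Prod.snd_sub] <;> ring
    rwa [this]
  · intro h
    refine ⟨_, h, ?_⟩
    unfold sh1
    refine Prod.ext ?_ ?_ <;> simp only [Function.Embedding.coeFn_mk, Prod.fst_sub, Prod.snd_sub] <;> ring

lemma mem_du' {E ω : Finset (ℤ × ℤ)} {a : ℤ × ℤ} :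
    a ∈ du E ω ↔ a - (1, 1) ∈ E ∧ a - (1, 1) ∉ ω := by
  unfold du
  rw [mem_sh1, mem_sdiff]

lemma FR_sh1 (φ : ℤ) (A : Finset (ℤ × ℤ)) : (FR φ A).map sh1 = FD φ (A.map sh1) := by
  ext a
  rw [mem_sh1, mem_FR, mem_FD, mem_sh1]
  have h := cr2_sh1 φ (a - (1, 1))
  rw [sub_add_cancel] at h
  rw [h, add_sub_cancel_right]

lemma du_FR (φ : ℤ) (E ω : Finset (ℤ × ℤ)) : du (FR φ E) (FR φ ω) = FD φ (du E ω) := by
  unfold du
  rw [← FR_sdiff, FR_sh1]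

/-- connections of face indices in a frame -/
theorem co_FD (φ : ℤ) (W : Finset (ℤ × ℤ)) (f g : ℤ × ℤ) :
    Co (FD φ W) (crn (-φ) f) (crn (-φ) g) ↔ Co W f g := (syD (-φ)).co_iff W f g

end Pool.Agent.H81.NC
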