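import Mathlib
import Pool.Agent.H81.NC.Win
import Pool.Agent.H81.NC.TransB
import Pool.Agent.H81.NC.TransD
import Pool.Agent.H81.NC.FRmisc
import Pool.Agent.H75.Four.FOther
import Pool.Agent.H81.NC.End

set_option autoImplicit false
open Finset

/-! Job NC-D2 (helper41): the dual end of an arm in an arbitrary frame. -/

namespace Pool.Agent.H81.NC

open Pool.Agent.H75.Perc Pool.Agent.H75.TwoArm Pool.Agent.H75.Four Pool.Agent.H99.NC
open Pool.Agent.H75.TwoArm.SymmAux Pool.Agent.H75.Four.RotAux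

namespace ArmDAux

/-- a centred box around `m c` (dual labels) in a frame -/
lemma FD_Bx (φ : ℤ) (c : ℤ × ℤ) (m d α β : ℤ) (h : (α, β) = crn (-φ) (0, 0)) :
    FD φ (Bx (m * (ro φ c).1 - d) (m * (ro φ c).1 + d) (m * (ro φ c).2 - d) (m * (ro φ c).2 + d)) =
      Bx (m * c.1 - d + α) (m * c.1 + d + α) (m * c.2 - d + β) (m * c.2 + d + β) := by
  obtain ⟨x, y⟩ := c
  have n1 : m * -x = -(m * x) := by ring
  have n2 : m * -y = -(m * y) := by ring
  have hα := congrArg Prod.fst h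
  have hβ := congrArg Prod.snd h
  have h4 : φ % 4 = 0 ∨ φ % 4 = 1 ∨ φ % 4 = 2 ∨ φ % 4 = 3 := by omega
  ext ⟨a, b⟩
  rw [mem_FD, mem_Bx, mem_Bx]
  rcases h4 with hm | hm | hm | hm
  · have h' : (-φ) % 4 = 0 := by omega
    simp only [crn, h', if_true] at hα hβ
    subst hα hβ
    simp only [ro, cr2, hm, if_true]; omega
  · have h' : (-φ) % 4 = 3 := by omega
    simp only [crn, h', if_false, OfNat.ofNat_ne_zero, OfNat.ofNat_ne_one,
      show ¬ ((3 : ℤ) = 2) by norm_num] at hα hβ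
    subst hα hβ
    simp only [ro, cr2, hm, if_true, if_false, one_ne_zero, n2]; omega
  · have h' : (-φ) % 4 = 2 := by omega
    simp only [crn, h', if_true, if_false, OfNat.ofNat_ne_zero, OfNat.ofNat_ne_one] at hα hβ
    subst hα hβ
    simp only [ro, cr2, hm, if_true, if_false, OfNat.ofNat_ne_zero, OfNat.ofNat_ne_one, n1, n2]; omega
  · have h' : (-φ) % 4 = 1 := by omega
    simp only [crn, h', if_true, if_false, one_ne_zero] at hα hβ
    subst hα hβ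
    simp only [ro, cr2, hm, if_false, OfNat.ofNat_ne_zero, OfNat.ofNat_ne_one,
      show ¬ ((3 : ℤ) = 2) by norm_num, n1]; omega

lemma shift_cases {φ α β : ℤ} (h : (α, β) = crn (-φ) (0, 0)) :
    (α = 0 ∨ α = 1) ∧ (β = 0 ∨ β = 1) := by
  have h1 := congrArg Prod.fst h
  have h2 := congrArg Prod.snd h
  unfold crn at h1 h2
  simp only at h1 h2
  split_ifs at h1 h2 <;> simp only at h1 h2 <;> omega

lemma FD_pair {s y ρ φ α β : ℤ} {S : Finset (ℤ × ℤ)} (m1 : rad φ y ρ ∈ S)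
    (m2 : rad φ (y - 1) ρ ∈ S) (h : (α, β) = crn (-φ) (0, 0)) :
    Bx (8 * s * ρ - 4 * s + α) (8 * s * ρ + 4 * s + α) (8 * s * (y - 1) - 4 * s + β)
      (8 * s * y + 4 * s + β) ⊆ FD φ (csS s S) := by
  intro a ha
  rw [mem_Bx] at ha
  have e1 : 8 * s * (y - 1) = 8 * s * y - 8 * s := by ring
  by_cases hc : 2 * (8 * s * y - 4 * s + β) ≤ a.2
  · have h1 : a ∈ FD φ (cell (-(4 * s), -(4 * s)) (8 * s) (rad φ y ρ)) := by
      rw [cell_eq]
      unfold rad
      rw [FD_Bx φ (ρ, y) (8 * s) (4 * s) α β h, mem_Bx]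
      dsimp only
      omega
    exact FD_mono (cell_sub_cs m1) h1
  · have h1 : a ∈ FD φ (cell (-(4 * s), -(4 * s)) (8 * s) (rad φ (y - 1) ρ)) := by
      rw [cell_eq]
      unfold rad
      rw [FD_Bx φ (ρ, y - 1) (8 * s) (4 * s) α β h, mem_Bx]
      dsimp only
      omega
    exact FD_mono (cell_sub_cs m2) h1

end ArmDAux

open ArmDAux

theorem arm_end_D {B ω ω'' U E : Finset (ℤ × ℤ)} {e x1 : ℤ × ℤ} {κ : Fin 4} {φ X h s y ρ : ℤ}
    {S : Finset (ℤ × ℤ)} (hs : 3 ≤ s) (he : (e.1 + e.2) % 2 = 1) (heB : e ∈ B) (hBE : B ⊆ E)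
    (hA : A4 B e ω)
    (hκ : κ = 1 ∨ κ = 3) (hh : h % 2 = 1)
    (hx : Ext B e ω κ (crn φ (X + 1, h))) (hx1 : Ext B e ω (κ + 1) x1)
    (hne : lab x1 ≠ plab (crn φ (X + 1, h)))
    (hcl : ClWin (FR φ B) X h s (crn (-φ) x1) (X + 1, h)) (hwin : Win (FR φ B) X h s)
    (hU : U4 B e ω ⊆ U) (hUF : ∀ a ∈ U, a ∈ hkn s (rad φ (y - 1) ρ) → a ∈ U4 B e ω)
    (hUr : ∀ a ∈ U, a + (1, 1) ∉ csS s S)
    (hrow : Row s y h) (hX : 2 * (8 * s * ρ - 4 * s) - 2 * s ≤ X ∧ X ≤ 2 * (8 * s * ρ - 4 * s) - 4)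
    (hS : ND s S E ω'') (m1 : rad φ y ρ ∈ S) (m2 : rad φ (y - 1) ρ ∈ S) (hH : HD φ X h s E ω'')
    {c f : ℤ × ℤ} (hc : Lk S (rad φ y ρ) c) (hv : CFS s c (du E ω'') f) :
    Co (du E (insert e (mix U ω ω'')) ∩ ((U4 B e ω).map sh1 ∪ csS s S ∪
      hkn s (rad φ (y - 1) ρ))) (fend e κ) f := by
  -- the corner at which the strand starts
  obtain ⟨c0, hc0, hfe, hb1, hf1⟩ : ∃ c0, (c0 = zu e ∨ c0 = zv e) ∧ fend e κ = fi c0 ∧
      BX B (insert e ω) c0 (crn φ (X + 1, h)) ∧ FX B (insert e ω) c0 x1 := by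
    rcases hκ with rfl | rfl
    · exact ⟨zu e, Or.inl rfl, rfl, (exits_insert he heB hA _).2.2.1.2 (hx.2.1 rfl),
        (exits_insert he heB hA _).1.2 (hx1.2.2.1 rfl)⟩
    · exact ⟨zv e, Or.inr rfl, rfl, (exits_insert he heB hA _).2.2.2.2 (hx.2.2.2 rfl),
        (exits_insert he heB hA _).2.1.2 (hx1.1 rfl)⟩
  rw [hfe]
  -- the full face of the first cell
  obtain ⟨f0, hf0⟩ := Net.full hS m1
  have heU : e ∈ U := hU (e_mem_U4 he heB)
  -- agreement outside `U`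
  have hag : ∀ a, a - (1, 1) ∉ U → (a ∈ du E ω'' ↔ a ∈ du E (insert e (mix U ω ω''))) := by
    intro a ha
    rw [mem_du', mem_du', mem_insert, mem_mix]
    have : a - (1, 1) ≠ e := fun h => ha (h ▸ heU)
    tauto
  have hsub : du E ω'' ∩ csS s S ⊆ du E (insert e (mix U ω ω'')) ∩ csS s S := by
    intro a ha
    rw [mem_inter] at ha ⊢
    refine ⟨(hag a (fun h => ?_)).1 ha.1, ha.2⟩
    have := hUr _ h
    rw [sub_add_cancel] at this
    exact this ha.2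
  have hco1 : Co (du E (insert e (mix U ω ω'')) ∩ csS s S) f0 f :=
    (Net.co (by omega) hS m1 hc hf0 hv).mono hsub
  -- the frame
  obtain ⟨α, β, p, q, hαβ, hp2, hq2, hpB, hpq, hpf⟩ :=
    pair_frame_du' (s := s) (ρ := ρ) (y := y) (φ := φ) (by omega) hS m1 m2 (Or.inl hf0)
  set X1 := 8 * s * ρ - 4 * s + α with hX1d
  set X2 := 8 * s * ρ + 4 * s + α with hX2d
  set Y1 := 8 * s * (y - 1) - 4 * s + β with hY1d
  set Y2 := 8 * s * y + 4 * s + β with hY2d
  obtain ⟨hα, hβ⟩ := shift_cases hαβ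
  -- the rectangle in the frame is the union of the two cells
  have hrect : Bx X1 X2 Y1 Y2 ⊆ FD φ (csS s S) := FD_pair m1 m2 hαβ
  have e1 : 8 * s * (y - 1) = 8 * s * y - 8 * s := by ring
  obtain ⟨hr1, hr2⟩ := hrow
  have hhook : cs ((X + 2) / 2, (h + 1) / 2) s CC ⊆ FD φ (hkn s (rad φ (y - 1) ρ)) := by
    intro a ha
    have h1 := mem_cs_CC (by omega) ha
    unfold hkn rad
    rw [FD_Bx φ (ρ, y - 1) (8 * s) (8 * s) α β hαβ, mem_Bx]
    rw [mem_Bx] at h1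
    simp only at h1 ⊢
    omega
  have hFD : ∀ a, a ∈ FR φ U → ∀ A : Finset (ℤ × ℤ), a + (1, 1) ∈ FD φ A →
      ro φ a ∈ U ∧ ro φ a + (1, 1) ∈ A := by
    intro a ha A hA
    rw [mem_FR] at ha
    rw [mem_FD, cr2_sh1] at hA
    exact ⟨ha, hA⟩
  have hcru : crn (-φ) (crn φ (X + 1, h)) = (X + 1, h) := crn_neg_crn _ _
  obtain ⟨R, hR1, hR2⟩ := hcl
  have hUF' : ∀ a ∈ FR φ U, a + (1, 1) ∈ cs ((X + 2) / 2, (h + 1) / 2) s CC →
      a ∈ U4 (FR φ B) (ro (-φ) e) (FR φ ω) := by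
    intro a ha hac
    rw [U4_FR φ he, mem_FR]
    rw [mem_FR] at ha
    refine hUF _ ha ?_
    have h1 := mem_cs_CC (by omega) hac
    have h2 : a ∈ FR φ (hkn s (rad φ (y - 1) ρ)) := by
      rw [FR_hkn]
      unfold hkn
      rw [mem_Bx] at h1 ⊢
      simp only [Prod.fst_add, Prod.snd_add] at h1 ⊢
      omega
    exact mem_FR.1 h2
  have hUr' : ∀ a ∈ FR φ U, a + (1, 1) ∉ Bx X1 X2 Y1 Y2 := by
    intro a ha hac
    obtain ⟨h1, h2⟩ := hFD a ha _ (hrect hac)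
    exact hUr _ h1 h2
  have hE := end_dual (B := FR φ B) (ω := FR φ ω) (ω'' := FR φ ω'') (U := FR φ U) (E := FR φ E)
    (e := ro (-φ) e) (c := crn (-φ) c0) (x1 := crn (-φ) x1) (X := X) (h := h) (s := s)
    (R := R) (by omega) (ro_par he) (ro_mem_FR.2 heB) ((A4_FR φ he).2 hA) (corner_FR φ he hc0) hh
    (by rw [← FR_insert, FX_FR]; exact hf1)
    (by rw [← FR_insert, ← hcru, BX_FR]; exact hb1)
    (fun hcon => hne (plab_lab_FR.1 hcon)) hR1 hwin.1 hwin.2 hR2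
    (by rw [U4_FR φ he]; exact FR_mono hU) (FR_mono hBE) hUF' hH
    (X1 := X1) (X2 := X2) (Y1 := Y1) (Y2 := Y2) (by omega) (by omega) (by omega) (by omega)
    (by omega) (by omega) hUr' hpB hp2 hq2 hpq
  -- from `p` to the rotated full face
  have hpf' : Co (du (FR φ E) (insert (ro (-φ) e) (mix (FR φ U) (FR φ ω) (FR φ ω''))) ∩
      Bx X1 X2 Y1 Y2) p (crn (-φ) f0) := by
    refine hpf.mono ?_
    intro a ha
    rw [mem_inter] at ha ⊢
    refine ⟨?_, ha.2⟩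
    have h1 : a - (1, 1) ∉ FR φ U := fun hcon => by
      have := hUr' _ hcon
      rw [sub_add_cancel] at this
      exact this ha.2
    have h2 := ha.1
    rw [mem_du'] at h2 ⊢
    refine ⟨h2.1, ?_⟩
    rw [mem_insert, mem_mix]
    rintro (h3 | h3 | h3)
    · exact h1 (by rw [h3]; exact ro_mem_FR.2 heU)
    · exact h1 h3.2
    · exact h2.2 h3.1
  have hall : Co (du (FR φ E) (insert (ro (-φ) e) (mix (FR φ U) (FR φ ω) (FR φ ω''))) ∩
      ((U4 (FR φ B) (ro (-φ) e) (FR φ ω)).map sh1 ∪ cs ((X + 2) / 2, (h + 1) / 2) s CC ∪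
        Bx X1 X2 Y1 Y2)) (fi (crn (-φ) c0)) (crn (-φ) f0) :=
    hE.trans (hpf'.mono (inter_subset_inter_left subset_union_right))
  rw [← FR_mix, ← FR_insert, U4_FR φ he, fi_FR, du_FR, FR_sh1] at hall
  have hback : Co (FD φ (du E (insert e (mix U ω ω'')) ∩ ((U4 B e ω).map sh1 ∪ csS s S ∪
      hkn s (rad φ (y - 1) ρ)))) (crn (-φ) (fi c0)) (crn (-φ) f0) := by
    refine hall.mono ?_
    rw [FD_inter, FD_union, FD_union]
    refine inter_subset_inter_left (union_subset (union_subset ?_ ?_) ?_)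
    · exact (subset_union_left).trans subset_union_left
    · exact hhook.trans subset_union_right
    · exact hrect.trans (subset_union_right.trans subset_union_left)
  rw [co_FD] at hback
  exact hback.trans (hco1.mono (inter_subset_inter_left
    (subset_union_right.trans subset_union_left)))

end Pool.Agent.H81.NC
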