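import Mathlib
import Pool.Agent.H81.NC.FRmisc
import Pool.Agent.H81.NC.End
import Pool.Agent.H81.NC.TransB

set_option autoImplicit false
open Finset

/-! The open end of an arm in an arbitrary frame (job D1, helper61). -/

namespace Pool.Agent.H81.NC

open Pool.Agent.H75.Perc Pool.Agent.H75.TwoArm Pool.Agent.H75.Four Pool.Agent.H99.NC

/-- the fine cells of the hook are in the box around the coarse cell -/
lemma cs_CC_hkn {s y ρ X h : ℤ} (hs : 3 ≤ s) (hrow : Row s y h)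
    (hX : 2 * (8 * s * ρ - 4 * s) - 2 * s ≤ X ∧ X ≤ 2 * (8 * s * ρ - 4 * s) - 4) :
    cs ((X + 1) / 2, h / 2) s CC ⊆ hkn s (ρ, y - 1) := by
  intro a ha
  have h1 := mem_cs_CC (by omega) ha
  unfold Row at hrow
  unfold hkn
  rw [mem_Bx] at h1 ⊢
  simp only at h1 ⊢
  omega

theorem arm_end_O {B ω ω'' U : Finset (ℤ × ℤ)} {e x2 : ℤ × ℤ} {κ : Fin 4} {φ X h s y ρ : ℤ}
    {S : Finset (ℤ × ℤ)} (hs : 3 ≤ s) (he : (e.1 + e.2) % 2 = 1) (heB : e ∈ B) (hA : A4 B e ω)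
    (hκ : κ = 0 ∨ κ = 2) (hh : h % 2 = 0)
    (hx : Ext B e ω κ (crn φ (X + 1, h))) (hx2 : Ext B e ω (κ + 1) x2)
    (hne : lab (crn φ (X + 1, h)) ≠ plab x2)
    (hcl : ClWin (FR φ B) X h s (X + 1, h) (crn (-φ) x2)) (hwin : Win (FR φ B) X h s)
    (hU : U4 B e ω ⊆ U) (hUF : ∀ a ∈ U, a ∈ hkn s (rad φ (y - 1) ρ) → a ∈ U4 B e ω)
    (hUr : ∀ a ∈ U, a ∉ csS s S)
    (hrow : Row s y h) (hX : 2 * (8 * s * ρ - 4 * s) - 2 * s ≤ X ∧ X ≤ 2 * (8 * s * ρ - 4 * s) - 4)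
    (hS : NO s S ω'') (m1 : rad φ y ρ ∈ S) (m2 : rad φ (y - 1) ρ ∈ S) (hH : HO φ X h s ω'')
    {c v : ℤ × ℤ} (hc : Lk S (rad φ y ρ) c) (hv : CFS s c ω'' v) :
    Co ((mix U ω ω'').erase e ∩ (U4 B e ω ∪ csS s S ∪ hkn s (rad φ (y - 1) ρ))) (vend e κ) v := by
  -- the corner of the strand
  obtain ⟨z, hz, hz1, hz2, hzv⟩ : ∃ z : ℤ × ℤ, (z = zu e ∨ z = zv e) ∧
      FX B (ω.erase e) z (crn φ (X + 1, h)) ∧ BX B (ω.erase e) z x2 ∧ vend e κ = vx z := by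
    rcases hκ with rfl | rfl
    · exact ⟨zu e, Or.inl rfl, hx.1 rfl, hx2.2.1 rfl, rfl⟩
    · exact ⟨zv e, Or.inr rfl, hx.2.2.1 rfl, hx2.2.2.2 rfl, rfl⟩
  obtain ⟨R, hR, hRw⟩ := hcl
  have heU : e ∈ U := hU (e_mem_U4 he heB)
  -- a full vertex of the first cell
  obtain ⟨v0, hv0⟩ := Net.full hS m1
  have hv0c : Co (ω'' ∩ csS s S) v0 v := Net.co (by omega) hS m1 hc hv0 hv
  -- the pair of cells in the frame
  obtain ⟨p, q, hp1, hq1, hp, hpq, hpv⟩ := pair_frame (φ := φ % 4) (s := s) (ρ := ρ) (y := y)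
    (by omega) (by omega) hS (by rw [rad_mod]; exact m1) (by rw [rad_mod]; exact m2)
    (v := v0) (by rw [rad_mod, rad_mod]; exact Or.inl hv0)
  rw [FR_mod] at hpq hpv
  rw [show ro (-(φ % 4)) v0 = ro (-φ) v0 by rw [ro_congr (show (-(φ % 4)) % 4 = (-φ) % 4 by omega)]]
    at hpv
  -- the rectangle is in the cells of `S`
  have hrec := Bx_pair_FR (s := s) (φ := φ) m1 m2
  have hUr' : ∀ a ∈ FR φ U, a ∉ FR φ (csS s S) := by
    intro a ha ha'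
    rw [mem_FR] at ha ha'
    exact hUr _ ha ha'
  have hhk : cs ((X + 1) / 2, h / 2) s CC ⊆ FR φ (hkn s (rad φ (y - 1) ρ)) := by
    rw [FR_hkn]; exact cs_CC_hkn hs hrow hX
  have hrow' := hrow
  unfold Row at hrow'
  have e1 : 8 * s * (y - 1) = 8 * s * y - 8 * s := by ring
  have main := end_open (B := FR φ B) (ω := FR φ ω) (ω'' := FR φ ω'') (U := FR φ U)
    (e := ro (-φ) e) (c := crn (-φ) z) (x2 := crn (-φ) x2) (R := R) (X := X) (h := h) (s := s)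
    (by omega) (ro_par he) (ro_mem_FR.2 heB) ((A4_FR φ he).2 hA) (corner_FR φ he hz) hh
    (FX_fr hz1) (BX_fr' hz2) (fun h' => hne (lab_plab_FR.1 h')) hR hwin.1 hwin.2 hRw
    (by rw [U4_FR φ he]; exact FR_mono hU)
    (by
      intro a ha ha'
      rw [U4_FR φ he, mem_FR]
      exact hUF _ (mem_FR.1 ha) (mem_FR.1 (hhk ha')))
    hH (X1 := 8 * s * ρ - 4 * s) (X2 := 8 * s * ρ + 4 * s) (Y1 := 8 * s * (y - 1) - 4 * s)
    (Y2 := 8 * s * y + 4 * s) (by omega) (by omega) (by omega) (by omega) (by omega) (by omega)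
    (fun a ha ha' => hUr' a ha (hrec ha')) hp hp1 hq1 hpq
  -- transport back
  set T := (mix U ω ω'').erase e ∩ (U4 B e ω ∪ csS s S ∪ hkn s (rad φ (y - 1) ρ)) with hT
  have t1 : Co (FR φ T) (ro (-φ) (vx z)) p := by
    rw [← vx_FR]
    refine main.mono ?_
    intro a ha
    rw [mem_inter, mem_union, mem_union] at ha
    obtain ⟨ha1, ha2⟩ := ha
    rw [hT, FR_inter, mem_inter, FR_erase, FR_mix, FR_union, FR_union, mem_union, mem_union]
    refine ⟨ha1, ?_⟩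
    rcases ha2 with (ha2 | ha2) | ha2
    · rw [U4_FR φ he] at ha2; exact Or.inl (Or.inl ha2)
    · exact Or.inr (hhk ha2)
    · exact Or.inl (Or.inr (hrec ha2))
  have hsub : ω'' ∩ csS s S ⊆ T := by
    intro a ha
    obtain ⟨ha1, ha2⟩ := mem_inter.1 ha
    have hnU : a ∉ U := fun h' => hUr a h' ha2
    rw [hT, mem_inter, mem_erase, mem_mix, mem_union, mem_union]
    exact ⟨⟨fun h' => hnU (h' ▸ heU), Or.inr ⟨ha1, hnU⟩⟩, Or.inl (Or.inr ha2)⟩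
  have t2 : Co (FR φ T) p (ro (-φ) v0) := by
    refine hpv.mono ?_
    intro a ha
    obtain ⟨ha1, ha2⟩ := mem_inter.1 ha
    exact FR_mono hsub (by rw [FR_inter, mem_inter]; exact ⟨ha1, hrec ha2⟩)
  have t3 : Co T (vx z) v0 := (co_FR φ T _ _).1 (t1.trans t2)
  rw [hzv]
  exact t3.trans (hv0c.mono hsub)

end Pool.Agent.H81.NC
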