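import Mathlib
import Pool.Agent.H81.NC.Win
import Pool.Agent.H81.NC.FRmisc

set_option autoImplicit false
open Finset

/-! Job NC-C (helper41): closings of two strands inside a square hole. -/

namespace Pool.Agent.H81.NC

open Pool.Agent.H75.Perc Pool.Agent.H75.TwoArm Pool.Agent.H75.Four Pool.Agent.H99.NC

namespace HoleCloAux

lemma Ev_xor (X Y : ℤ × ℤ → Prop) (a : ℤ × ℤ) :
    Ev (fun z => ¬ (X z ↔ Y z)) a ↔ (Ev X a ↔ Ev Y a) := by
  unfold Ev
  grind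

lemma Ev_empty (a : ℤ × ℤ) : Ev (fun _ => False) a := by
  unfold Ev; tauto

/-- the four corners around a label in a frame -/
lemma Ev_crn (φ : ℤ) (X : ℤ × ℤ → Prop) (a : ℤ × ℤ) :
    Ev (fun z => X (crn φ z)) a ↔ Ev X (ro φ a) := by
  obtain ⟨p, q⟩ := a
  unfold Ev
  have h4 : φ % 4 = 0 ∨ φ % 4 = 1 ∨ φ % 4 = 2 ∨ φ % 4 = 3 := by omega
  rcases h4 with h | h | h | h
  · simp only [crn, ro, h, if_true]
  · simp only [crn, ro, h, if_true, if_false, one_ne_zero]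
    rw [show (1 : ℤ) - q = -q + 1 by ring, show (1 : ℤ) - (q + 1) = -q by ring]
    grind
  · simp only [crn, ro, h, if_true, if_false, OfNat.ofNat_ne_zero, OfNat.ofNat_ne_one]
    rw [show (1 : ℤ) - q = -q + 1 by ring, show (1 : ℤ) - (q + 1) = -q by ring,
      show (1 : ℤ) - p = -p + 1 by ring, show (1 : ℤ) - (p + 1) = -p by ring]
    grind
  · simp only [crn, ro, h, if_false, OfNat.ofNat_ne_zero, OfNat.ofNat_ne_one,
      show ¬ ((3 : ℤ) = 2) by norm_num]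
    rw [show (1 : ℤ) - p = -p + 1 by ring, show (1 : ℤ) - (p + 1) = -p by ring]
    grind

/-- two labels are joined by a walk of corners inside the box of radius `n` -/
def Wk (n : ℤ) (l1 l2 : ℤ × ℤ) : Prop :=
  ∃ R : ℤ × ℤ → Prop, (∀ z, R z → lab z ∈ H75.TwoArm.BB n ∧ plab z ∈ H75.TwoArm.BB n) ∧
      ∀ a : ℤ × ℤ, (a.1 + a.2) % 2 = 1 → (Ev R a ↔ (a = l1 ↔ a = l2))

lemma Wk.refl (n : ℤ) (l : ℤ × ℤ) : Wk n l l :=
  ⟨fun _ => False, fun _ h => h.elim, fun a _ => by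
    simp only [Ev_empty]⟩

lemma Wk.symm {n : ℤ} {l1 l2 : ℤ × ℤ} (h : Wk n l1 l2) : Wk n l2 l1 := by
  obtain ⟨R, h1, h2⟩ := h
  exact ⟨R, h1, fun a ha => by rw [h2 a ha]; tauto⟩

lemma Wk.trans {n : ℤ} {l1 l2 l3 : ℤ × ℤ} (h : Wk n l1 l2) (h' : Wk n l2 l3) : Wk n l1 l3 := by
  obtain ⟨R, h1, h2⟩ := h
  obtain ⟨R', h1', h2'⟩ := h'
  refine ⟨fun z => ¬ (R z ↔ R' z), fun z hz => ?_, fun a ha => ?_⟩
  · by_cases h3 : R z
    · exact h1 z h3
    · exact h1' z (by tauto)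
  · rw [Ev_xor, h2 a ha, h2' a ha]; grind

/-- one corner -/
lemma Wk.corner {n : ℤ} {z : ℤ × ℤ} (h1 : lab z ∈ H75.TwoArm.BB n) (h2 : plab z ∈ H75.TwoArm.BB n) :
    Wk n (lab z) (plab z) := by
  refine ⟨fun w => w = z, fun w hw => by subst hw; exact ⟨h1, h2⟩, fun a ha => ?_⟩
  clear h1 h2
  obtain ⟨x, y⟩ := z
  obtain ⟨p, q⟩ := a
  unfold Ev lab plab
  simp only at ha ⊢
  split_ifs <;> simp only [Prod.mk.injEq]
  · have f1 : ¬ (p = x ∧ q = y) := by omega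
    have f2 : ¬ (p + 1 = x ∧ q + 1 = y) := by omega
    have c1 : (p + 1 = x ∧ q = y) ↔ (p = x - 1 ∧ q = y) := by omega
    have c2 : (p = x ∧ q + 1 = y) ↔ (p = x ∧ q = y - 1) := by omega
    rw [c1, c2]; simp only [f1, f2, iff_self, true_iff]; exact Iff.comm
  · have f1 : ¬ (p + 1 = x ∧ q = y) := by omega
    have f2 : ¬ (p = x ∧ q + 1 = y) := by omega
    have c1 : (p + 1 = x ∧ q + 1 = y) ↔ (p = x - 1 ∧ q = y - 1) := by omega
    rw [c1]; simp only [f1, f2, iff_self, iff_true]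
  · have f1 : ¬ (p + 1 = x ∧ q = y) := by omega
    have f2 : ¬ (p = x ∧ q + 1 = y) := by omega
    have c1 : (p + 1 = x ∧ q + 1 = y) ↔ (p = x - 1 ∧ q = y - 1) := by omega
    rw [c1]; simp only [f1, f2, iff_self, iff_true]; exact Iff.comm
  · have f1 : ¬ (p = x ∧ q = y) := by omega
    have f2 : ¬ (p + 1 = x ∧ q + 1 = y) := by omega
    have c1 : (p + 1 = x ∧ q = y) ↔ (p = x - 1 ∧ q = y) := by omega
    have c2 : (p = x ∧ q + 1 = y) ↔ (p = x ∧ q = y - 1) := by omega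
    rw [c1, c2]; simp only [f1, f2, iff_self, true_iff]

lemma Wk.diag {n : ℤ} {l : ℤ × ℤ} (h1 : l ∈ H75.TwoArm.BB n)
    (h2 : (l.1 + 1, l.2 + 1) ∈ H75.TwoArm.BB n) : Wk n l (l.1 + 1, l.2 + 1) := by
  obtain ⟨x, y⟩ := l
  simp only at h2 ⊢
  have hp : (x + y) % 2 = 1 := by
    unfold H75.TwoArm.BB at h1
    exact (mem_Bx.1 h1).2.2
  have key : (lab (x + 1, y + 1) = (x, y) ∧ plab (x + 1, y + 1) = (x + 1, y + 1)) ∨
      (plab (x + 1, y + 1) = (x, y) ∧ lab (x + 1, y + 1) = (x + 1, y + 1)) := by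
    unfold lab plab
    simp only
    split_ifs <;> simp only [Prod.mk.injEq, and_true] <;> omega
  rcases key with ⟨k1, k2⟩ | ⟨k1, k2⟩
  · have := Wk.corner (n := n) (z := (x + 1, y + 1)) (by rw [k1]; exact h1) (by rw [k2]; exact h2)
    rw [k1, k2] at this
    exact this
  · have := Wk.corner (n := n) (z := (x + 1, y + 1)) (by rw [k2]; exact h2) (by rw [k1]; exact h1)
    rw [k1, k2] at this
    exact this.symm

lemma Wk.anti {n : ℤ} {l : ℤ × ℤ} (h1 : l ∈ H75.TwoArm.BB n)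
    (h2 : (l.1 + 1, l.2 - 1) ∈ H75.TwoArm.BB n) : Wk n l (l.1 + 1, l.2 - 1) := by
  obtain ⟨x, y⟩ := l
  simp only at h2 ⊢
  have hp : (x + y) % 2 = 1 := by
    unfold H75.TwoArm.BB at h1
    exact (mem_Bx.1 h1).2.2
  have key : (lab (x + 1, y) = (x, y) ∧ plab (x + 1, y) = (x + 1, y - 1)) ∨
      (plab (x + 1, y) = (x, y) ∧ lab (x + 1, y) = (x + 1, y - 1)) := by
    unfold lab plab
    simp only
    split_ifs <;> simp only [Prod.mk.injEq, and_true] <;> omega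
  rcases key with ⟨k1, k2⟩ | ⟨k1, k2⟩
  · have := Wk.corner (n := n) (z := (x + 1, y)) (by rw [k1]; exact h1) (by rw [k2]; exact h2)
    rw [k1, k2] at this
    exact this
  · have := Wk.corner (n := n) (z := (x + 1, y)) (by rw [k2]; exact h2) (by rw [k1]; exact h1)
    rw [k1, k2] at this
    exact this.symm

/-- diagonal neighbours in the box -/
lemma Wk.step {n : ℤ} {l l' : ℤ × ℤ} (h1 : l ∈ H75.TwoArm.BB n) (h2 : l' ∈ H75.TwoArm.BB n)
    (hx : l'.1 = l.1 + 1 ∨ l.1 = l'.1 + 1) (hy : l'.2 = l.2 + 1 ∨ l.2 = l'.2 + 1) : Wk n l l' := by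
  obtain ⟨x, y⟩ := l
  obtain ⟨x', y'⟩ := l'
  simp only at hx hy
  rcases hx with rfl | rfl <;> rcases hy with rfl | rfl
  · exact Wk.diag h1 h2
  · have := Wk.anti (l := (x, y' + 1)) h1 (by simpa using h2)
    simpa using this
  · have := Wk.anti (l := (x', y + 1)) h2 (by simpa using h1)
    exact Wk.symm (by simpa using this)
  · exact (Wk.diag h2 h1).symm

lemma Wk.center {n : ℤ} (hn : 1 ≤ n) (m : ℕ) : ∀ l ∈ H75.TwoArm.BB n, |l.1| ≤ m → |l.2| ≤ m →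
    Wk n l (1, 0) := by
  induction m with
  | zero =>
    intro l hl h1 h2
    exfalso
    unfold H75.TwoArm.BB at hl
    have := (mem_Bx.1 hl).2.2
    rw [abs_le] at h1 h2
    push_cast at h1 h2
    omega
  | succ m ih =>
    intro l hl h1 h2
    have hl' := hl
    unfold H75.TwoArm.BB at hl'
    rw [mem_Bx] at hl'
    rw [abs_le] at h1 h2
    push_cast at h1 h2
    obtain ⟨x, y⟩ := l
    simp only at h1 h2 hl'
    by_cases hm : m = 0
    · subst hm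
      have m10 : ((1, 0) : ℤ × ℤ) ∈ H75.TwoArm.BB n := by
        unfold H75.TwoArm.BB; rw [mem_Bx]; simp only; omega
      have m01 : ((0, 1) : ℤ × ℤ) ∈ H75.TwoArm.BB n := by
        unfold H75.TwoArm.BB; rw [mem_Bx]; simp only; omega
      have m02 : ((0, -1) : ℤ × ℤ) ∈ H75.TwoArm.BB n := by
        unfold H75.TwoArm.BB; rw [mem_Bx]; simp only; omega
      rcases Int.emod_two_eq_zero_or_one x with hx | hx
      · exact Wk.step hl m10 (by simp only; omega) (by simp only; push_cast at *; omega)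
      · have hy : y = 0 := by push_cast at *; omega
        have hx' : x = 1 ∨ x = -1 := by push_cast at *; omega
        subst hy
        rcases hx' with rfl | rfl
        · exact Wk.refl _ _
        · exact (Wk.step hl m01 (by simp only; omega) (by simp only; omega)).trans
            (Wk.step m01 m10 (by simp only; omega) (by simp only; omega))
    · -- one step towards the centre
      have : ∃ l' ∈ H75.TwoArm.BB n, (l'.1 = x + 1 ∨ x = l'.1 + 1) ∧ (l'.2 = y + 1 ∨ y = l'.2 + 1) ∧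
          |l'.1| ≤ m ∧ |l'.2| ≤ m := by
        refine ⟨(if 0 < x then x - 1 else x + 1, if 0 < y then y - 1 else y + 1), ?_, ?_, ?_, ?_, ?_⟩
        · unfold H75.TwoArm.BB; rw [mem_Bx]; simp only
          split_ifs <;> omega
        · simp only; split_ifs <;> omega
        · simp only; split_ifs <;> omega
        · simp only; rw [abs_le]; split_ifs <;> omega
        · simp only; rw [abs_le]; split_ifs <;> omega
      obtain ⟨l', g1, g2, g3, g4, g5⟩ := this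
      exact (Wk.step hl g1 g2 g3).trans (ih l' g1 g4 g5)

end HoleCloAux

open HoleCloAux

/-- C1. Any two labels of a box are joined by a walk of corners inside the box (parity form: xor of
corners; the corners are the edges of the medial lattice, whose vertices are the labels). -/
theorem exists_walk {n : ℤ} (hn : 1 ≤ n) {l1 l2 : ℤ × ℤ} (h1 : l1 ∈ H75.TwoArm.BB n)
    (h2 : l2 ∈ H75.TwoArm.BB n) :
    ∃ R : ℤ × ℤ → Prop, (∀ z, R z → lab z ∈ H75.TwoArm.BB n ∧ plab z ∈ H75.TwoArm.BB n) ∧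
      ∀ a : ℤ × ℤ, (a.1 + a.2) % 2 = 1 → (Ev R a ↔ (a = l1 ↔ a = l2)) := by
  have key : ∀ l ∈ H75.TwoArm.BB n, Wk n l (1, 0) := fun l hl =>
    Wk.center hn (max l.1.natAbs l.2.natAbs) l hl
      (by rw [Int.abs_eq_natAbs]; exact_mod_cast le_max_left _ _)
      (by rw [Int.abs_eq_natAbs]; exact_mod_cast le_max_right _ _)
  exact (key l1 h1).trans (key l2 h2).symm

namespace HoleCloAux

/-- the straight ray of corners of height `h` between the columns `-2k` and `-2n` -/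
def ry (k n h : ℤ) (z : ℤ × ℤ) : Prop := z.2 = h ∧ -(2 * k) + 1 ≤ z.1 ∧ z.1 ≤ -(2 * n)

/-- the label of height `h` in the column `-2k` (next to the ray of height `h`) -/
def ll (k h : ℤ) : ℤ × ℤ := if h % 2 = 0 then (-(2 * k), h - 1) else (-(2 * k), h)

lemma Ev_ry {k n h : ℤ} (hn : n < k) {a : ℤ × ℤ} (ha : (a.1 + a.2) % 2 = 1) :
    Ev (ry k n h) a ↔ (a = ll k h ↔ a = ll n h) := by
  obtain ⟨p, q⟩ := a
  unfold Ev ry ll
  simp only at ha ⊢
  rcases (show q = h ∨ q + 1 = h ∨ (q ≠ h ∧ q + 1 ≠ h) by omega) with g | g | ⟨g, g'⟩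
  · have g1 : ¬ q + 1 = h := by omega
    have g2 : ¬ q = h - 1 := by omega
    split_ifs <;> simp only [Prod.mk.injEq, g, g1, g2, true_and, false_and, and_true, and_false] <;> omega
  · have g1 : ¬ q = h := by omega
    have g2 : q = h - 1 := by omega
    split_ifs <;> simp only [Prod.mk.injEq, g, g1, g2, true_and, false_and, and_true, and_false] <;> omega
  · have g2 : ¬ q = h - 1 := by omega
    split_ifs <;> simp only [Prod.mk.injEq, g, g', g2, true_and, false_and, and_true, and_false]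

lemma lab_x1 {k h : ℤ} (hh : h % 2 = 0) : lab (-(2 * k), h) = ll k h := by
  unfold lab ll
  simp only
  rw [if_pos hh, if_pos (by omega), if_pos hh]

lemma plab_x2 {k h : ℤ} (hh : h % 2 = 1) : plab (-(2 * k), h) = ll k h := by
  unfold plab ll
  simp only
  rw [if_neg (by omega), if_pos (by omega), if_neg (by omega)]

lemma ry_box {k n h : ℤ} (hn : 0 ≤ n) (hb1 : -(2 * k) + 1 ≤ h) (hb2 : h ≤ 2 * k) {z : ℤ × ℤ} (hz : ry k n h z) :
    lab z ∈ H75.TwoArm.BB k ∧ plab z ∈ H75.TwoArm.BB k := by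
  obtain ⟨x, y⟩ := z
  unfold ry at hz
  simp only at hz
  unfold lab plab H75.TwoArm.BB
  rw [mem_Bx, mem_Bx]
  simp only
  split_ifs <;> simp only <;> omega

lemma ll_mem {n h : ℤ} (hn : 0 ≤ n) (h1 : -(2 * n) + 1 ≤ h) (h2 : h ≤ 2 * n) :
    ll n h ∈ H75.TwoArm.BB n := by
  unfold ll H75.TwoArm.BB
  split_ifs <;> rw [mem_Bx] <;> simp only <;> omega

/-- corners both of whose labels are in a box are in a box -/
lemma corner_box {n : ℤ} {z : ℤ × ℤ} (h1 : lab z ∈ H75.TwoArm.BB n)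
    (h2 : plab z ∈ H75.TwoArm.BB n) :
    (-(2 * n) + 1 ≤ z.1 ∧ z.1 ≤ 2 * n) ∧ (-(2 * n) + 1 ≤ z.2 ∧ z.2 ≤ 2 * n) := by
  obtain ⟨x, y⟩ := z
  unfold lab at h1
  unfold plab at h2
  unfold H75.TwoArm.BB at h1 h2
  simp only at h1 h2 ⊢
  split_ifs at h1 h2 <;> rw [mem_Bx] at h1 h2 <;> simp only at h1 h2 <;> omega

lemma BB_ro {φ n : ℤ} {l : ℤ × ℤ} : ro φ l ∈ H75.TwoArm.BB n ↔ l ∈ H75.TwoArm.BB n := by
  rw [← mem_FR, FR_BB]

lemma lab_crn (φ : ℤ) (c : ℤ × ℤ) : lab (crn φ c) = ro φ (lab c) := by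
  have := lab_FR (-φ) c
  rwa [neg_neg] at this

lemma plab_crn (φ : ℤ) (c : ℤ × ℤ) : plab (crn φ c) = ro φ (plab c) := by
  have := plab_FR (-φ) c
  rwa [neg_neg] at this

lemma ro_par_iff {φ : ℤ} {a : ℤ × ℤ} : ((ro φ a).1 + (ro φ a).2) % 2 = 1 ↔ (a.1 + a.2) % 2 = 1 := by
  constructor
  · intro h
    have := ro_par (φ := -φ) h
    rwa [ro_neg_ro] at this
  · exact ro_par

lemma ro_eq_iff {φ : ℤ} {a b : ℤ × ℤ} : ro φ a = b ↔ a = ro (-φ) b := by
  constructor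
  · rintro rfl; rw [ro_neg_ro]
  · rintro rfl; rw [ro_ro_neg]

/-- The closing in absolute coordinates. -/
theorem clo_core {k n φ1 φ2 h1 h2 : ℤ} (hn : 1 ≤ n) (hk : n < k)
    (b1 : -(2 * n) + 1 ≤ h1 ∧ h1 ≤ 2 * n) (b2 : -(2 * n) + 1 ≤ h2 ∧ h2 ≤ 2 * n) :
    ∃ R : ℤ × ℤ → Prop, (∀ z, R z → lab z ∈ H75.TwoArm.BB k ∧ plab z ∈ H75.TwoArm.BB k) ∧
      (∀ a : ℤ × ℤ, (a.1 + a.2) % 2 = 1 →
        (Ev R a ↔ (a = ro φ1 (ll k h1) ↔ a = ro φ2 (ll k h2)))) ∧
      ∀ z, ¬ (lab z ∈ H75.TwoArm.BB n ∧ plab z ∈ H75.TwoArm.BB n) →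
        (R z ↔ ¬ (ry k n h1 (crn (-φ1) z) ↔ ry k n h2 (crn (-φ2) z))) := by
  obtain ⟨W, w1, w2⟩ : Wk n (ro φ1 (ll n h1)) (ro φ2 (ll n h2)) := by
    have key : ∀ l ∈ H75.TwoArm.BB n, Wk n l (1, 0) := fun l hl =>
      Wk.center hn (max l.1.natAbs l.2.natAbs) l hl
        (by rw [Int.abs_eq_natAbs]; exact_mod_cast le_max_left _ _)
        (by rw [Int.abs_eq_natAbs]; exact_mod_cast le_max_right _ _)
    exact (key _ (BB_ro.2 (ll_mem (by omega) b1.1 b1.2))).trans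
      (key _ (BB_ro.2 (ll_mem (by omega) b2.1 b2.2))).symm
  have hbox : H75.TwoArm.BB n ⊆ H75.TwoArm.BB k := by
    intro l hl
    unfold H75.TwoArm.BB at hl ⊢
    rw [mem_Bx] at hl ⊢
    omega
  have hry : ∀ φ h z, (-(2 * n) + 1 ≤ h ∧ h ≤ 2 * n) → ry k n h (crn (-φ) z) →
      lab z ∈ H75.TwoArm.BB k ∧ plab z ∈ H75.TwoArm.BB k := by
    intro φ h z hh hz
    obtain ⟨g1, g2⟩ := ry_box (k := k) (n := n) (by omega) (by omega) (by omega) hz
    rw [lab_crn, BB_ro] at g1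
    rw [plab_crn, BB_ro] at g2
    exact ⟨g1, g2⟩
  refine ⟨fun z => ¬ ((¬ (ry k n h1 (crn (-φ1) z) ↔ ry k n h2 (crn (-φ2) z))) ↔ W z), ?_, ?_, ?_⟩
  · intro z hz
    by_cases g1 : ry k n h1 (crn (-φ1) z)
    · exact hry _ _ _ b1 g1
    by_cases g2 : ry k n h2 (crn (-φ2) z)
    · exact hry _ _ _ b2 g2
    have : W z := by tauto
    exact ⟨hbox (w1 z this).1, hbox (w1 z this).2⟩
  · intro a ha
    have e1 : ∀ φ h, Ev (fun z => ry k n h (crn (-φ) z)) a ↔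
        (a = ro φ (ll k h) ↔ a = ro φ (ll n h)) := by
      intro φ h
      rw [Ev_crn (-φ), Ev_ry hk (ro_par ha), ro_eq_iff, ro_eq_iff, neg_neg]
    rw [Ev_xor, Ev_xor (fun z => ry k n h1 (crn (-φ1) z)) (fun z => ry k n h2 (crn (-φ2) z)),
      e1, e1, w2 a ha]
    grind
  · intro z hz
    have : ¬ W z := fun h => hz (w1 z h)
    clear * - this
    tauto

/-- the window of a ray does not meet the other ray -/
lemma ry_window {k n s φ φ' h h' : ℤ} (hn : n = k - 12 * s)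
    (b1 : |h| ≤ 2 * k - 100 * s) (b2 : |h'| ≤ 2 * k - 100 * s)
    (hsep : (φ' - φ) % 4 = 0 → h + 60 * s ≤ h' ∨ h' + 60 * s ≤ h) {z : ℤ × ℤ}
    (z1 : -(2 * k) + 1 ≤ z.1) (z2 : z.1 ≤ -(2 * k) - 1 + 22 * s) (z3 : h - 5 * s + 1 ≤ z.2)
    (z4 : z.2 ≤ h + 5 * s) : ¬ ry k n h' (crn (-φ') (crn φ z)) := by
  rw [abs_le] at b1 b2
  rw [← crn_add]
  have h4 : (-φ' + φ) % 4 = 0 ∨ (-φ' + φ) % 4 = 1 ∨ (-φ' + φ) % 4 = 2 ∨ (-φ' + φ) % 4 = 3 := by
    omega
  unfold ry crn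
  subst hn
  rcases h4 with h | h | h | h
  · rw [if_pos h]
    have := hsep (by omega)
    omega
  · rw [if_neg (by omega), if_pos h]; simp only; omega
  · rw [if_neg (by omega), if_neg (by omega), if_pos h]; simp only; omega
  · rw [if_neg (by omega), if_neg (by omega), if_neg (by omega)]; simp only; omega

/-- labels of a corner in the window are not in the small box -/
lemma window_out {k n s φ : ℤ} (hs : 3 ≤ s) (hn : n = k - 12 * s) {z : ℤ × ℤ}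
    (z2 : z.1 ≤ -(2 * k) - 1 + 22 * s) :
    ¬ (lab (crn φ z) ∈ H75.TwoArm.BB n ∧ plab (crn φ z) ∈ H75.TwoArm.BB n) := by
  rintro ⟨g1, g2⟩
  rw [lab_crn, BB_ro] at g1
  rw [plab_crn, BB_ro] at g2
  have := (corner_box g1 g2).1.1
  omega

lemma clo_fin {k φ : ℤ} {R : ℤ × ℤ → Prop}
    (hR : ∀ z, R z → lab z ∈ H75.TwoArm.BB k ∧ plab z ∈ H75.TwoArm.BB k) (p : ℤ × ℤ) :
    {j : ℕ | R (crn φ (p.1 + j, p.2 + j))}.Finite := by
  refine (Set.finite_Iic (2 * k - p.1).toNat).subset ?_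
  intro j hj
  obtain ⟨g1, g2⟩ := hR _ hj
  rw [lab_crn, BB_ro] at g1
  rw [plab_crn, BB_ro] at g2
  have := (corner_box g1 g2).1.2
  simp only at this
  rw [Set.mem_Iic]
  omega

lemma clo_out {k L φ : ℤ} {R : ℤ × ℤ → Prop}
    (hR : ∀ z, R z → lab z ∈ H75.TwoArm.BB k ∧ plab z ∈ H75.TwoArm.BB k) (z : ℤ × ℤ)
    (hz : R (crn φ z)) : lab z ∉ H75.TwoArm.BB L \ H75.TwoArm.BB k ∧
      plab z ∉ H75.TwoArm.BB L \ H75.TwoArm.BB k := by
  obtain ⟨g1, g2⟩ := hR _ hz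
  rw [lab_crn, BB_ro] at g1
  rw [plab_crn, BB_ro] at g2
  rw [mem_sdiff, mem_sdiff]
  exact ⟨fun h => h.2 g1, fun h => h.2 g2⟩

end HoleCloAux

/-- C2. Closings inside the hole `BB k`, straight in the window of the forward hit `x1`
(frame `φ1`) -/
theorem clo_hole_F {k L s φ1 φ2 h1 h2 : ℤ} (hs : 3 ≤ s) (hk : 200 * s ≤ k) (hL : k < L)
    (hh1 : h1 % 2 = 0) (hh2 : h2 % 2 = 1) (b1 : |h1| ≤ 2 * k - 100 * s) (b2 : |h2| ≤ 2 * k - 100 * s)
    (hsep : (φ2 - φ1) % 4 = 0 → h1 + 60 * s ≤ h2 ∨ h2 + 60 * s ≤ h1) :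
    ClWin (H75.TwoArm.BB L \ H75.TwoArm.BB k) (-(2 * k) - 1) h1 s (-(2 * k), h1)
      (crn (-φ1) (crn φ2 (-(2 * k), h2))) := by
  have b1' := abs_le.1 b1
  have b2' := abs_le.1 b2
  obtain ⟨R, r1, r2, r3⟩ := clo_core (k := k) (n := k - 12 * s) (φ1 := φ1) (φ2 := φ2) (h1 := h1)
    (h2 := h2) (by omega) (by omega) (by omega) (by omega)
  refine ⟨fun z => R (crn φ1 z), ⟨fun z hz => clo_out r1 z hz, fun a ha => ?_,
    fun p => clo_fin r1 p⟩, fun z z1 z2 z3 z4 => ?_⟩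
  · rw [Ev_crn φ1 R a, r2 _ (ro_par ha), ro_inj, lab_x1 hh1, plab_crn, plab_crn, plab_x2 hh2,
      ro_eq_iff]
  · have w := window_out (k := k) (n := k - 12 * s) (φ := φ1) hs rfl (z := z) (by omega)
    have w2 := ry_window (k := k) (n := k - 12 * s) (φ := φ1) (φ' := φ2) rfl b1 b2 hsep (z := z)
      (by omega) (by omega) z3 z4
    show R _ ↔ _
    rw [r3 _ w, crn_neg_crn]
    have : ry k (k - 12 * s) h1 z ↔ z.2 = h1 := by
      unfold ry
      omega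
    clear * - this w2
    tauto

/-- ... and in the window of the backward hit (frame `φ2`) -/
theorem clo_hole_B {k L s φ1 φ2 h1 h2 : ℤ} (hs : 3 ≤ s) (hk : 200 * s ≤ k) (hL : k < L)
    (hh1 : h1 % 2 = 0) (hh2 : h2 % 2 = 1) (b1 : |h1| ≤ 2 * k - 100 * s) (b2 : |h2| ≤ 2 * k - 100 * s)
    (hsep : (φ2 - φ1) % 4 = 0 → h1 + 60 * s ≤ h2 ∨ h2 + 60 * s ≤ h1) :
    ClWin (H75.TwoArm.BB L \ H75.TwoArm.BB k) (-(2 * k) - 1) h2 s
      (crn (-φ2) (crn φ1 (-(2 * k), h1))) (-(2 * k), h2) := by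
  have b1' := abs_le.1 b1
  have b2' := abs_le.1 b2
  obtain ⟨R, r1, r2, r3⟩ := clo_core (k := k) (n := k - 12 * s) (φ1 := φ1) (φ2 := φ2) (h1 := h1)
    (h2 := h2) (by omega) (by omega) (by omega) (by omega)
  refine ⟨fun z => R (crn φ2 z), ⟨fun z hz => clo_out r1 z hz, fun a ha => ?_,
    fun p => clo_fin r1 p⟩, fun z z1 z2 z3 z4 => ?_⟩
  · rw [Ev_crn φ2 R a, r2 _ (ro_par ha), ro_inj, lab_crn, lab_crn, lab_x1 hh1, plab_x2 hh2,
      ro_eq_iff]
  · have w := window_out (k := k) (n := k - 12 * s) (φ := φ2) hs rfl (z := z) (by omega)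
    have w2 := ry_window (k := k) (n := k - 12 * s) (φ := φ2) (φ' := φ1) rfl b2 b1
      (fun h => (hsep (by omega)).symm) (z := z) (by omega) (by omega) z3 z4
    show R _ ↔ _
    rw [r3 _ w, crn_neg_crn]
    have : ry k (k - 12 * s) h2 z ↔ z.2 = h2 := by
      unfold ry
      omega
    clear * - this w2
    tauto

end Pool.Agent.H81.NC
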