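import Mathlib
import Pool.Agent.H81.NC.Win
import Pool.Agent.H81.NC.TransA
import Pool.Agent.H75.Four.FOther

set_option autoImplicit false
open Finset

/-! Job NC-D3 (helper20): the geometry of the four arms of the inner box. -/

namespace Pool.Agent.H81.NC

open Pool.Agent.H75.Perc Pool.Agent.H75.TwoArm Pool.Agent.H75.Four Pool.Agent.H99.NC

namespace InnerGeoAux

/-! ### Parity of rays -/

lemma par_bool : ∀ p1 p2 p3 p4 q1 q2 q3 q4 : Bool, (p1 && q1) = false → (p2 && q2) = false →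
    (p3 && q3) = false → (p4 && q4) = false →
    ((((p1 || q1) == (p2 || q2)) == ((p3 || q3) == (p4 || q4))) =
      (((p1 == p2) == (p3 == p4)) == ((q1 == q2) == (q3 == q4)))) := by
  decide

/-- parity of two disjoint sets -/
lemma Ev_or {P Q : ℤ × ℤ → Prop} (h : ∀ z, P z → ¬ Q z) (a : ℤ × ℤ) :
    Ev (fun z => P z ∨ Q z) a ↔ (Ev P a ↔ Ev Q a) := by
  classical
  have h1 := h a
  have h2 := h (a.1 + 1, a.2 + 1)
  have h3 := h (a.1 + 1, a.2)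
  have h4 := h (a.1, a.2 + 1)
  have key := par_bool (decide (P a)) (decide (P (a.1 + 1, a.2 + 1))) (decide (P (a.1 + 1, a.2)))
    (decide (P (a.1, a.2 + 1))) (decide (Q a)) (decide (Q (a.1 + 1, a.2 + 1)))
    (decide (Q (a.1 + 1, a.2))) (decide (Q (a.1, a.2 + 1))) (by simpa using h1) (by simpa using h2)
    (by simpa using h3) (by simpa using h4)
  unfold Ev
  have e : ∀ x y : Bool, ((x == y) = true) ↔ ((x = true) ↔ (y = true)) := by decide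
  have := Bool.eq_iff_iff.1 key
  simp only [e, Bool.or_eq_true, decide_eq_true_eq] at this
  exact this

lemma Ev_E {X b : ℤ} (a : ℤ × ℤ) (ha : (a.1 + a.2) % 2 = 1) (hX : X % 2 = 1) :
    Ev (fun z => z.2 = b ∧ X + 1 ≤ z.1) a ↔ ¬ a = (X, if b % 2 = 0 then b else b - 1) := by
  obtain ⟨a1, a2⟩ := a
  unfold Ev
  simp only [Prod.mk.injEq] at ha ⊢
  split_ifs <;> omega

lemma Ev_N {X b : ℤ} (a : ℤ × ℤ) (ha : (a.1 + a.2) % 2 = 1) (hX : X % 2 = 1) :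
    Ev (fun z => z.1 = 1 - b ∧ X + 1 ≤ z.2) a ↔ ¬ a = (-(if b % 2 = 0 then b else b - 1), X) := by
  obtain ⟨a1, a2⟩ := a
  unfold Ev
  simp only [Prod.mk.injEq] at ha ⊢
  split_ifs <;> omega

lemma Ev_W {X b : ℤ} (a : ℤ × ℤ) (ha : (a.1 + a.2) % 2 = 1) (hX : X % 2 = 1) :
    Ev (fun z => z.2 = 1 - b ∧ z.1 ≤ - X) a ↔ ¬ a = (-X, -(if b % 2 = 0 then b else b - 1)) := by
  obtain ⟨a1, a2⟩ := a
  unfold Ev
  simp only [Prod.mk.injEq] at ha ⊢
  split_ifs <;> omega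

lemma Ev_S {X b : ℤ} (a : ℤ × ℤ) (ha : (a.1 + a.2) % 2 = 1) (hX : X % 2 = 1) :
    Ev (fun z => z.1 = b ∧ z.2 ≤ - X) a ↔ ¬ a = ((if b % 2 = 0 then b else b - 1), -X) := by
  obtain ⟨a1, a2⟩ := a
  unfold Ev
  simp only [Prod.mk.injEq] at ha ⊢
  split_ifs <;> omega

/-- the second ray, in the frame of the first exit -/
def R2 (X b' τ : ℤ) (z : ℤ × ℤ) : Prop :=
  (τ % 4 = 0 ∧ z.2 = b' ∧ X + 1 ≤ z.1) ∨
  (τ % 4 = 1 ∧ z.1 = 1 - b' ∧ X + 1 ≤ z.2) ∨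
  (τ % 4 = 2 ∧ z.2 = 1 - b' ∧ z.1 ≤ -X) ∨
  (τ % 4 = 3 ∧ z.1 = b' ∧ z.2 ≤ -X)

lemma Ev_R2 {X b τ : ℤ} (a : ℤ × ℤ) (ha : (a.1 + a.2) % 2 = 1) (hX : X % 2 = 1) :
    Ev (R2 X b τ) a ↔ ¬ a = ro τ (X, if b % 2 = 0 then b else b - 1) := by
  have h4 : τ % 4 = 0 ∨ τ % 4 = 1 ∨ τ % 4 = 2 ∨ τ % 4 = 3 := by omega
  rcases h4 with h | h | h | h
  · have : R2 X b τ = fun z => z.2 = b ∧ X + 1 ≤ z.1 := by
      funext z; simp [R2, h]
    rw [this, Ev_E a ha hX]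
    unfold ro
    rw [if_pos h]
  · have : R2 X b τ = fun z => z.1 = 1 - b ∧ X + 1 ≤ z.2 := by
      funext z; simp [R2, h]
    rw [this, Ev_N a ha hX]
    simp [ro, h]
  · have : R2 X b τ = fun z => z.2 = 1 - b ∧ z.1 ≤ -X := by
      funext z; simp [R2, h]
    rw [this, Ev_W a ha hX]
    simp [ro, h]
  · have : R2 X b τ = fun z => z.1 = b ∧ z.2 ≤ -X := by
      funext z; simp [R2, h]
    rw [this, Ev_S a ha hX]
    simp [ro, h]

/-- the closing by two rays, in the frame of the first exit -/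
def RR (X b b' τ : ℤ) (z : ℤ × ℤ) : Prop := (z.2 = b ∧ X + 1 ≤ z.1) ∨ R2 X b' τ z

lemma mem_BB' {r : ℤ} {l : ℤ × ℤ} : l ∈ H75.TwoArm.BB r ↔
    (-(2 * r) ≤ l.1 ∧ l.1 ≤ 2 * r) ∧ (-(2 * r) ≤ l.2 ∧ l.2 ≤ 2 * r) ∧ (l.1 + l.2) % 2 = 1 := by
  unfold H75.TwoArm.BB
  rw [mem_Bx]
  constructor <;> intro h <;> omega

lemma RR_out {r b b' τ : ℤ} {z : ℤ × ℤ} (h : RR (2 * r + 1) b b' τ z) :
    lab z ∉ H75.TwoArm.BB r ∧ plab z ∉ H75.TwoArm.BB r := by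
  rw [mem_BB', mem_BB']
  unfold RR R2 at h
  unfold lab plab
  split_ifs <;> simp only <;> omega

lemma RR_fin {X b b' τ : ℤ} (p : ℤ × ℤ) : {k : ℕ | RR X b b' τ (p.1 + k, p.2 + k)}.Finite := by
  refine (Set.finite_Iic (b.natAbs + b'.natAbs + p.1.natAbs + p.2.natAbs + 1)).subset ?_
  intro k hk
  have hk : RR X b b' τ (p.1 + k, p.2 + k) := hk
  simp only [RR, R2] at hk
  simp only [Set.mem_Iic]
  omega

lemma lab_crn (τ : ℤ) (c : ℤ × ℤ) : lab (crn τ c) = ro τ (lab c) := by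
  have := lab_FR (-τ) c
  rwa [neg_neg] at this

lemma plab_crn (τ : ℤ) (c : ℤ × ℤ) : plab (crn τ c) = ro τ (plab c) := by
  have := plab_FR (-τ) c
  rwa [neg_neg] at this

lemma ro_mem_BB (τ r : ℤ) (l : ℤ × ℤ) : ro τ l ∈ H75.TwoArm.BB r ↔ l ∈ H75.TwoArm.BB r := by
  rw [← mem_FR, FR_BB]

lemma lab_E {r b : ℤ} (hb : b % 2 = 0) : lab (2 * r + 1, b) = (2 * r + 1, b) := by
  unfold lab; simp only; rw [if_pos hb, if_neg (by omega)]

lemma plab_E {r b : ℤ} (hb : b % 2 = 1) : plab (2 * r + 1, b) = (2 * r + 1, b - 1) := by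
  unfold plab; simp only; rw [if_neg (by omega), if_neg (by omega)]

lemma plab_E0 {r b : ℤ} (hb : b % 2 = 0) : plab (2 * r + 1, b) = (2 * r, b - 1) := by
  unfold plab; simp only; rw [if_pos (by omega), if_neg (by omega)]
  exact Prod.ext (by simp) (by simp)

lemma lab_E1 {r b : ℤ} (hb : b % 2 = 1) : lab (2 * r + 1, b) = (2 * r, b) := by
  unfold lab; simp only; rw [if_neg (by omega), if_neg (by omega)]
  exact Prod.ext (by simp) (by simp)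

lemma RR_par {r b b' τ : ℤ} (hr : 1 ≤ r) (hbb : (b + b') % 2 = 1) (h1 : -(2 * r) + 1 ≤ b)
    (h2 : b ≤ 2 * r) (h1' : -(2 * r) + 1 ≤ b') (h2' : b' ≤ 2 * r) (a : ℤ × ℤ)
    (ha : (a.1 + a.2) % 2 = 1) :
    Ev (RR (2 * r + 1) b b' τ) a ↔ (a = (2 * r + 1, if b % 2 = 0 then b else b - 1) ↔
      a = ro τ (2 * r + 1, if b' % 2 = 0 then b' else b' - 1)) := by
  have hd : ∀ z : ℤ × ℤ, (z.2 = b ∧ 2 * r + 1 + 1 ≤ z.1) → ¬ R2 (2 * r + 1) b' τ z := by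
    intro z hz hz'
    unfold R2 at hz'
    omega
  have h3 := Ev_or hd a
  have h4 := Ev_E (X := 2 * r + 1) (b := b) a ha (by omega)
  have h5 := Ev_R2 (X := 2 * r + 1) (b := b') (τ := τ) a ha (by omega)
  have h6 : RR (2 * r + 1) b b' τ = fun z : ℤ × ℤ => (z.2 = b ∧ 2 * r + 1 + 1 ≤ z.1) ∨
    R2 (2 * r + 1) b' τ z := rfl
  rw [h6, h3, h4, h5]
  exact not_iff_not

theorem clo_even {r b b' τ : ℤ} (hr : 1 ≤ r) (hb : b % 2 = 0) (hb' : b' % 2 = 1)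
    (h1 : -(2 * r) + 1 ≤ b)
    (h2 : b ≤ 2 * r) (h1' : -(2 * r) + 1 ≤ b') (h2' : b' ≤ 2 * r) :
    Clo (H75.TwoArm.BB r) (2 * r + 1, b) (crn τ (2 * r + 1, b')) (RR (2 * r + 1) b b' τ) := by
  refine ⟨fun z hz => RR_out hz, fun a ha => ?_, fun p => RR_fin p⟩
  rw [RR_par hr (by omega) h1 h2 h1' h2' a ha, lab_E hb, plab_crn, plab_E hb', if_pos hb,
    if_neg (by omega)]

theorem clo_odd {r b b' τ : ℤ} (hr : 1 ≤ r) (hb : b % 2 = 1) (hb' : b' % 2 = 0)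
    (h1 : -(2 * r) + 1 ≤ b)
    (h2 : b ≤ 2 * r) (h1' : -(2 * r) + 1 ≤ b') (h2' : b' ≤ 2 * r) :
    Clo (H75.TwoArm.BB r) (crn τ (2 * r + 1, b')) (2 * r + 1, b) (RR (2 * r + 1) b b' τ) := by
  refine ⟨fun z hz => RR_out hz, fun a ha => ?_, fun p => RR_fin p⟩
  rw [RR_par hr (by omega) h1 h2 h1' h2' a ha, plab_E hb, lab_crn, lab_E hb', if_pos hb',
    if_neg (by omega)]
  exact iff_comm

/-- the window of the closing by two rays -/
lemma RR_win {r b b' τ s : ℤ} (hb1 : -(2 * r) + 5 * s ≤ b) (hb2 : b + 5 * s ≤ 2 * r)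
    (hr : 1 ≤ r) (hsep : τ % 4 = 0 → b + 5 * s < b' ∨ b' + 5 * s < b) :
    ∀ z : ℤ × ℤ, 2 * r + 2 ≤ z.1 → z.1 ≤ 2 * r + 22 * s → b - 5 * s + 1 ≤ z.2 →
    z.2 ≤ b + 5 * s → (RR (2 * r + 1) b b' τ z ↔ z.2 = b) := by
  intro z z1 z2 z3 z4
  unfold RR R2
  constructor
  · rintro (h | h | h | h | h)
    · exact h.1
    · have := hsep h.1
      omega
    · omega
    · omega
    · omega
  · intro h
    exact Or.inl ⟨h, by omega⟩

/-! ### Parity of the exits -/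

lemma FX_labs {B ω : Finset (ℤ × ℤ)} {c x : ℤ × ℤ} (hc : lab c ∈ B) (h : FX B ω c x) :
    lab x ∉ B ∧ plab x ∈ B := by
  obtain ⟨j, h1, h2, h3⟩ := h
  refine ⟨h2, ?_⟩
  rcases j with _ | j
  · simp only [Function.iterate_zero, id_eq] at h1
    rw [← h1] at h2
    exact absurd hc h2
  · rw [Function.iterate_succ_apply'] at h1
    rw [← h1, plab_nx]
    exact h3 j (Nat.lt_succ_self j)

lemma BX_labs {B ω : Finset (ℤ × ℤ)} {c x : ℤ × ℤ} (hc : lab c ∈ B) (h : BX B ω c x) :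
    plab x ∉ B ∧ lab x ∈ B := by
  obtain ⟨j, h1, h2, h3⟩ := h
  refine ⟨h2, ?_⟩
  rcases j with _ | j
  · simp only [Function.iterate_zero, id_eq] at h1
    rw [← h1]
    exact hc
  · rw [Function.iterate_succ_apply'] at h1
    rw [← h1, lab_pv]
    exact h3 j (Nat.lt_succ_self j)

lemma even_of_labs {r b τ : ℤ} (h : lab (crn τ (2 * r + 1, b)) ∉ H75.TwoArm.BB r ∧
    plab (crn τ (2 * r + 1, b)) ∈ H75.TwoArm.BB r) : b % 2 = 0 := by
  rw [lab_crn, plab_crn, ro_mem_BB, ro_mem_BB] at h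
  by_contra hb
  have hb : b % 2 = 1 := by omega
  rw [plab_E hb] at h
  have := (mem_BB'.1 h.2).1.2
  simp only at this
  omega

lemma odd_of_labs {r b τ : ℤ} (h : plab (crn τ (2 * r + 1, b)) ∉ H75.TwoArm.BB r ∧
    lab (crn τ (2 * r + 1, b)) ∈ H75.TwoArm.BB r) : b % 2 = 1 := by
  rw [lab_crn, plab_crn, ro_mem_BB, ro_mem_BB] at h
  by_contra hb
  have hb : b % 2 = 0 := by omega
  rw [lab_E hb] at h
  have := (mem_BB'.1 h.2).1.2
  simp only at this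
  omega

/-- parity of the exits -/
lemma Ext_par {r b τ : ℤ} {e : ℤ × ℤ} {ω : Finset (ℤ × ℤ)} {κ : Fin 4} (he : (e.1 + e.2) % 2 = 1)
    (heB : e ∈ H75.TwoArm.BB r) (h : Ext (H75.TwoArm.BB r) e ω κ (crn τ (2 * r + 1, b))) :
    ((κ = 0 ∨ κ = 2) → b % 2 = 0) ∧ ((κ = 1 ∨ κ = 3) → b % 2 = 1) := by
  obtain ⟨-, -, h3, h4, -, -⟩ := opc_zu he
  have hu : lab (zu e) ∈ H75.TwoArm.BB r := by rw [h3]; exact heB
  have hv : lab (zv e) ∈ H75.TwoArm.BB r := by rw [h4]; exact heB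
  obtain ⟨k0, k1, k2, k3⟩ := h
  constructor
  · rintro (hκ | hκ)
    · exact even_of_labs (FX_labs hu (k0 hκ))
    · exact even_of_labs (FX_labs hv (k2 hκ))
  · rintro (hκ | hκ)
    · exact odd_of_labs (BX_labs hu (k1 hκ))
    · exact odd_of_labs (BX_labs hv (k3 hκ))

/-! ### Positions from the keys -/

lemma row_bounds {s R0 r y h : ℤ} (hs : 1 ≤ s) (hr : 4 * s * (2 * R0 + 1) - s ≤ r)
    (hy : -(R0 - 10) ≤ y ∧ y ≤ R0 - 10) (hrow : Row s y h) :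
    -(2 * r) + 100 * s ≤ h ∧ h + 100 * s ≤ 2 * r := by
  obtain ⟨h1, h2⟩ := hrow
  have h3 : s * (-(R0 - 10)) ≤ s * y := mul_le_mul_of_nonneg_left hy.1 (by omega)
  have h4 : s * y ≤ s * (R0 - 10) := mul_le_mul_of_nonneg_left hy.2 (by omega)
  constructor <;> nlinarith

lemma row_sep {s y y' h h' : ℤ} (hs : 1 ≤ s) (hrow : Row s y h) (hrow' : Row s y' h')
    (hy : y + 8 ≤ y' ∨ y' + 8 ≤ y) : h + 100 * s < h' ∨ h' + 100 * s < h := by
  obtain ⟨h1, h2⟩ := hrow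
  obtain ⟨h3, h4⟩ := hrow'
  rcases hy with hy | hy
  · have h5 : s * (y + 8) ≤ s * y' := mul_le_mul_of_nonneg_left hy (by omega)
    left; nlinarith
  · have h5 : s * (y' + 8) ≤ s * y := mul_le_mul_of_nonneg_left hy (by omega)
    right; nlinarith

lemma keys_sep {Y : ℤ} {σ y : Fin 4 → ℤ} (k : Keys Y 8 σ y) {i j : Fin 4} (hij : i ≠ j)
    (h : (-σ i + σ j) % 4 = 0) : y i + 8 ≤ y j ∨ y j + 8 ≤ y i := by
  obtain ⟨k1, k2⟩ := k
  have hi := (k1 i).1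
  have hj := (k1 j).1
  rcases lt_or_gt_of_ne hij with hlt | hlt
  · obtain ⟨h1, h2⟩ := k2 i j hlt
    by_cases h3 : σ i = -2 ∧ σ j = 2
    · exact Or.inr (h2 h3.1 h3.2)
    · rcases h1 with h1 | h1
      · exfalso; omega
      · exact Or.inl h1.2
  · obtain ⟨h1, h2⟩ := k2 j i hlt
    by_cases h3 : σ j = -2 ∧ σ i = 2
    · exact Or.inl (h2 h3.1 h3.2)
    · rcases h1 with h1 | h1
      · exfalso; omega
      · exact Or.inr h1.2

lemma labs_ne {r b b' τ τ' : ℤ} (hr : 1 ≤ r) (hb : b % 2 = 0) (hb' : b' % 2 = 1)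
    (h1 : -(2 * r) + 2 ≤ b) (h2 : b + 2 ≤ 2 * r) (h1' : -(2 * r) + 2 ≤ b') (h2' : b' + 2 ≤ 2 * r)
    (hsep : (-τ + τ') % 4 = 0 → b + 2 < b' ∨ b' + 2 < b) :
    lab (crn τ (2 * r + 1, b)) ≠ plab (crn τ' (2 * r + 1, b')) := by
  rw [lab_crn, plab_crn, lab_E hb, plab_E hb']
  intro h
  have h3 := congrArg (ro (-τ)) h
  rw [ro_neg_ro, ← ro_ro] at h3
  unfold ro at h3
  split_ifs at h3 with g1 g2 g3 <;> simp only [Prod.mk.injEq] at h3
  · have := hsep g1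
    omega
  · omega
  · omega
  · omega

end InnerGeoAux

open InnerGeoAux

/-- the geometry of the inner box: everything that arm_end_O / arm_end_D need, from the keys -/
theorem inner_geo {r s R0 : ℤ} {e : ℤ × ℤ} {a : Fin 4} {σ y h : Fin 4 → ℤ} {ω : Finset (ℤ × ℤ)}
    (hs : 3 ≤ s) (hR0 : 45 ≤ R0)
    (hr : 4 * s * (2 * R0 + 1) - s ≤ r ∧ r ≤ 4 * s * (2 * R0 + 1) - 2)
    (he : (e.1 + e.2) % 2 = 1) (heB : e ∈ H75.TwoArm.BB r) (k : Keys (R0 - 10) 8 σ y)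
    (hG : GI r s e a σ y h ω) (i : Fin 4) :
    FR (σ i) (H75.TwoArm.BB r) = H75.TwoArm.BB r ∧ Win (H75.TwoArm.BB r) (2 * r) (h i) s ∧
    (2 * (8 * s * (R0 + 1) - 4 * s) - 2 * s ≤ 2 * r ∧ 2 * r ≤ 2 * (8 * s * (R0 + 1) - 4 * s) - 4) ∧
    ((i + a = 0 ∨ i + a = 2) → h i % 2 = 0 ∧
      lab (crn (σ i) (2 * r + 1, h i)) ≠ plab (crn (σ (i + 1)) (2 * r + 1, h (i + 1))) ∧
      ClWin (H75.TwoArm.BB r) (2 * r) (h i) s (2 * r + 1, h i)
        (crn (-σ i) (crn (σ (i + 1)) (2 * r + 1, h (i + 1))))) ∧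
    ((i + a = 1 ∨ i + a = 3) → h i % 2 = 1 ∧
      lab (crn (σ (i + 1)) (2 * r + 1, h (i + 1))) ≠ plab (crn (σ i) (2 * r + 1, h i)) ∧
      ClWin (H75.TwoArm.BB r) (2 * r) (h i) s (crn (-σ i) (crn (σ (i + 1)) (2 * r + 1, h (i + 1))))
        (2 * r + 1, h i)) := by
  have hs1 : 1 ≤ s := by omega
  have hr1 : 1 ≤ r := by nlinarith
  have b1 := row_bounds hs1 hr.1 (k.1 i).2.1 (hG i).1
  have b2 := row_bounds hs1 hr.1 (k.1 (i + 1)).2.1 (hG (i + 1)).1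
  have hne : i ≠ i + 1 := by
    intro h
    have : (1 : Fin 4) = 0 := by
      have := congrArg (fun x => x - i) h
      simpa using this.symm
    exact absurd this (by decide)
  have hsep : (-σ i + σ (i + 1)) % 4 = 0 →
      h i + 100 * s < h (i + 1) ∨ h (i + 1) + 100 * s < h i := fun h' =>
    row_sep hs1 (hG i).1 (hG (i + 1)).1 (keys_sep k hne h')
  have hsep' : (-σ (i + 1) + σ i) % 4 = 0 →
      h i + 100 * s < h (i + 1) ∨ h (i + 1) + 100 * s < h i := fun h' => hsep (by omega)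
  have hia : i + 1 + a = i + a + 1 := add_right_comm i 1 a
  refine ⟨FR_BB _ _, ⟨?_, ?_⟩, ⟨by nlinarith, by nlinarith⟩, ?_, ?_⟩
  · intro l h1 h2 h3 h4 h5
    rw [mem_BB'] at h5
    omega
  · intro l h1 h2 h3 h4 h5
    rw [mem_BB']
    omega
  · intro hi
    have p1 := (Ext_par he heB (hG i).2).1 hi
    have p2 := (Ext_par he heB (hG (i + 1)).2).2 (by
      rw [hia]
      rcases hi with hi | hi
      · left; rw [hi]; rfl
      · right; rw [hi]; rfl)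
    refine ⟨p1, labs_ne hr1 p1 p2 (by omega) (by omega) (by omega) (by omega)
      (fun h' => by have := hsep h'; omega), ?_⟩
    rw [← crn_add]
    exact ⟨_, clo_even hr1 p1 p2 (by omega) (by omega) (by omega) (by omega),
      RR_win (by omega) (by omega) hr1 (fun h' => by have := hsep h'; omega)⟩
  · intro hi
    have p1 := (Ext_par he heB (hG i).2).2 hi
    have p2 := (Ext_par he heB (hG (i + 1)).2).1 (by
      rw [hia]
      rcases hi with hi | hi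
      · right; rw [hi]; rfl
      · left; rw [hi]; rfl)
    refine ⟨p1, labs_ne hr1 p2 p1 (by omega) (by omega) (by omega) (by omega)
      (fun h' => by have := hsep' h'; omega), ?_⟩
    rw [← crn_add]
    exact ⟨_, clo_odd hr1 p1 p2 (by omega) (by omega) (by omega) (by omega),
      RR_win (by omega) (by omega) hr1 (fun h' => by have := hsep h'; omega)⟩

end Pool.Agent.H81.NC
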