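import Mathlib
import Pool.Agent.H81.NC.HoleClo
import Pool.Agent.H81.NC.InnerGeo
import Pool.Agent.H75.Four.DefsB

set_option autoImplicit false
open Finset

/-! Job NC-D4 (helper41): the geometry of the four arms at the hole. -/

namespace Pool.Agent.H81.NC

open Pool.Agent.H75.Perc Pool.Agent.H75.TwoArm Pool.Agent.H75.Four Pool.Agent.H99.NC

namespace OuterGeoAux

open HoleCloAux InnerGeoAux

lemma mem_hole {k L : ℤ} {l : ℤ × ℤ} (hl : l ∉ H75.TwoArm.BB k) (h1 : -(2 * L) ≤ l.1 ∧ l.1 ≤ 2 * L)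
    (h2 : -(2 * L) ≤ l.2 ∧ l.2 ≤ 2 * L) (h3 : (l.1 + l.2) % 2 = 1) :
    l ∈ H75.TwoArm.BB L \ H75.TwoArm.BB k := by
  rw [mem_sdiff, mem_BB']
  exact ⟨⟨h1, h2, h3⟩, hl⟩

lemma ro_mem_hole (φ k L : ℤ) (l : ℤ × ℤ) :
    ro φ l ∈ H75.TwoArm.BB L \ H75.TwoArm.BB k ↔ l ∈ H75.TwoArm.BB L \ H75.TwoArm.BB k := by
  rw [mem_sdiff, mem_sdiff, BB_ro, BB_ro]

/-- parity of the hits -/
lemma hit_par {k L h φ : ℤ} {e : ℤ × ℤ} {ω : Finset (ℤ × ℤ)} {κ : Fin 4} (hk : 1 ≤ k)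
    (hL : 2 * k ≤ L) (b1 : -(2 * k) + 2 ≤ h) (b2 : h + 2 ≤ 2 * k)
    (hx : Ext (H75.TwoArm.BB L \ H75.TwoArm.BB k) e ω κ (crn φ (-(2 * k), h))) :
    ((κ = 0 ∨ κ = 2) → h % 2 = 0) ∧ ((κ = 1 ∨ κ = 3) → h % 2 = 1) := by
  have key1 : lab (crn φ (-(2 * k), h)) ∉ H75.TwoArm.BB L \ H75.TwoArm.BB k → h % 2 = 0 := by
    intro h1
    by_contra hodd
    apply h1
    rw [HoleCloAux.lab_crn, ro_mem_hole]
    have h2 : lab (-(2 * k), h) = (-(2 * k) - 1, h - 1) := by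
      unfold lab; simp only; rw [if_neg hodd, if_pos (by omega)]
    rw [h2]
    refine mem_hole ?_ ?_ ?_ ?_
    · rw [mem_BB']; simp only; omega
    all_goals simp only; omega
  have key2 : plab (crn φ (-(2 * k), h)) ∉ H75.TwoArm.BB L \ H75.TwoArm.BB k → h % 2 = 1 := by
    intro h1
    by_contra heven
    apply h1
    rw [HoleCloAux.plab_crn, ro_mem_hole]
    have h2 : plab (-(2 * k), h) = (-(2 * k) - 1, h) := by
      unfold plab; simp only; rw [if_pos (by omega), if_pos (by omega)]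
    rw [h2]
    refine mem_hole ?_ ?_ ?_ ?_
    · rw [mem_BB']; simp only; omega
    all_goals simp only; omega
  obtain ⟨k0, k1, k2, k3⟩ := hx
  constructor
  · rintro (hκ | hκ)
    · obtain ⟨j, -, h2, -⟩ := k0 hκ; exact key1 h2
    · obtain ⟨j, -, h2, -⟩ := k2 hκ; exact key1 h2
  · rintro (hκ | hκ)
    · obtain ⟨j, -, h2, -⟩ := k1 hκ; exact key2 h2
    · obtain ⟨j, -, h2, -⟩ := k3 hκ; exact key2 h2

lemma hit_bounds {s K0 k z h : ℤ} (hs : 1 ≤ s) (hk : 4 * s * (2 * K0 + 1) + 2 ≤ k)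
    (hz : -(K0 - 70) ≤ z ∧ z ≤ K0 - 70) (hrow : Row s (-z) h) :
    -(2 * k - 1000 * s) ≤ h ∧ h ≤ 2 * k - 1000 * s := by
  obtain ⟨h1, h2⟩ := hrow
  have h3 : s * (-(K0 - 70)) ≤ s * z := mul_le_mul_of_nonneg_left hz.1 (by omega)
  have h4 : s * z ≤ s * (K0 - 70) := mul_le_mul_of_nonneg_left hz.2 (by omega)
  constructor <;> nlinarith

lemma hit_ne {k h h' φ φ' : ℤ} (hh : h % 2 = 0) (hh' : h' % 2 = 1)
    (b1 : -(2 * k) + 2 ≤ h) (b2 : h + 2 ≤ 2 * k) (b1' : -(2 * k) + 2 ≤ h') (b2' : h' + 2 ≤ 2 * k)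
    (hsep : (-φ + φ') % 4 = 0 → h + 2 < h' ∨ h' + 2 < h) :
    lab (crn φ (-(2 * k), h)) ≠ plab (crn φ' (-(2 * k), h')) := by
  rw [HoleCloAux.lab_crn, HoleCloAux.plab_crn, lab_x1 hh, plab_x2 hh']
  intro hcon
  have h3 := congrArg (ro (-φ)) hcon
  rw [ro_neg_ro, ← ro_ro] at h3
  unfold ll at h3
  rw [if_pos hh, if_neg (by omega)] at h3
  unfold ro at h3
  split_ifs at h3 with g1 g2 g3 <;> simp only [Prod.mk.injEq] at h3
  · have := hsep g1
    omega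
  · omega
  · omega
  · omega

end OuterGeoAux

open OuterGeoAux

theorem outer_geo {k s K0 L : ℤ} {e' : ℤ × ℤ} {b : Fin 4} {τ z h : Fin 4 → ℤ} {ω : Finset (ℤ × ℤ)}
    (hs : 3 ≤ s) (hK0 : 185 ≤ K0)
    (hk : 4 * s * (2 * K0 + 1) + 2 ≤ k ∧ k ≤ 4 * s * (2 * K0 + 1) + s - 1) (hL : 2 * k ≤ L)
    (hH : Hole k L e' ω) (hA : A4 (H75.TwoArm.BB L \ H75.TwoArm.BB k) e' ω)
    (kk : Keys (K0 - 70) 8 τ z)
    (hG : GO k s (H75.TwoArm.BB L \ H75.TwoArm.BB k) e' b τ z h ω) (j : Fin 4) :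
    FR (τ j + 2) (H75.TwoArm.BB L \ H75.TwoArm.BB k) = H75.TwoArm.BB L \ H75.TwoArm.BB k ∧
    Win (H75.TwoArm.BB L \ H75.TwoArm.BB k) (-(2 * k) - 1) (h j) s ∧
    (2 * (8 * s * (-K0) - 4 * s) - 2 * s ≤ -(2 * k) - 1 ∧
      -(2 * k) - 1 ≤ 2 * (8 * s * (-K0) - 4 * s) - 4) ∧
    rad (τ j + 2) (-z j) (-K0) = rad (τ j) (z j) K0 ∧
    rad (τ j + 2) (-z j - 1) (-K0) = rad (τ j) (z j + 1) K0 ∧
    ((b - j = 0 ∨ b - j = 2) → h j % 2 = 0 ∧
      lab (crn (τ j + 2) (-(2 * k), h j)) ≠ plab (crn (τ (j - 1) + 2) (-(2 * k), h (j - 1))) ∧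
      ClWin (H75.TwoArm.BB L \ H75.TwoArm.BB k) (-(2 * k) - 1) (h j) s (-(2 * k), h j)
        (crn (-(τ j + 2)) (crn (τ (j - 1) + 2) (-(2 * k), h (j - 1))))) ∧
    ((b - j = 1 ∨ b - j = 3) → h j % 2 = 1 ∧
      lab (crn (τ (j - 1) + 2) (-(2 * k), h (j - 1))) ≠ plab (crn (τ j + 2) (-(2 * k), h j)) ∧
      ClWin (H75.TwoArm.BB L \ H75.TwoArm.BB k) (-(2 * k) - 1) (h j) s
        (crn (-(τ j + 2)) (crn (τ (j - 1) + 2) (-(2 * k), h (j - 1)))) (-(2 * k), h j)) := by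
  have hs1 : 1 ≤ s := by omega
  have hsK : 185 * s ≤ s * K0 := by nlinarith
  have hk200 : 200 * s ≤ k := by nlinarith
  have b1 := hit_bounds hs1 hk.1 (kk.1 j).2.1 (hG j).1
  have b2 := hit_bounds hs1 hk.1 (kk.1 (j - 1)).2.1 (hG (j - 1)).1
  have hne : j ≠ j - 1 := by
    intro h
    have h2 : (1 : Fin 4) = 0 := by
      have := congrArg (fun x => j - x) h
      simpa using this.symm
    exact absurd h2 (by decide)
  have hsep : (-(τ j + 2) + (τ (j - 1) + 2)) % 4 = 0 →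
      h j + 100 * s < h (j - 1) ∨ h (j - 1) + 100 * s < h j := fun h' =>
    InnerGeoAux.row_sep hs1 (hG j).1 (hG (j - 1)).1 (by
      have := InnerGeoAux.keys_sep kk hne (by omega)
      omega)
  have hbj : b - (j - 1) = b - j + 1 := by rw [sub_sub_eq_add_sub, add_sub_right_comm]
  have hro : ∀ y : ℤ, rad (τ j + 2) (-y) (-K0) = rad (τ j) y K0 := by
    intro y
    unfold rad
    rw [ro_ro]
    show ro (τ j) (-(-K0), -(-y)) = _
    rw [neg_neg, neg_neg]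
  refine ⟨?_, ⟨?_, ?_⟩, ⟨by nlinarith, by nlinarith⟩, hro _, ?_, ?_, ?_⟩
  · rw [FR_sdiff, FR_BB, FR_BB]
  · intro l h1 h2 h3 h4 h5
    rw [mem_sdiff, InnerGeoAux.mem_BB', InnerGeoAux.mem_BB'] at h5
    omega
  · intro l h1 h2 h3 h4 h5
    refine mem_hole ?_ ?_ ?_ h1
    · rw [InnerGeoAux.mem_BB']; omega
    · omega
    · omega
  · rw [← hro]
    congr 1
    ring
  · intro hi
    have p1 := (hit_par (by omega) hL (by omega) (by omega) (hG j).2).1 hi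
    have p2 := (hit_par (by omega) hL (by omega) (by omega) (hG (j - 1)).2).2 (by
      rw [hbj]
      rcases hi with hi | hi
      · left; rw [hi]; rfl
      · right; rw [hi]; rfl)
    refine ⟨p1, hit_ne p1 p2 (by omega) (by omega) (by omega) (by omega)
      (fun h' => by have := hsep h'; omega), ?_⟩
    exact clo_hole_F hs hk200 (by omega) p1 p2 (abs_le.2 (by omega)) (abs_le.2 (by omega))
      (fun h' => by have := hsep (by omega); omega)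
  · intro hi
    have p1 := (hit_par (by omega) hL (by omega) (by omega) (hG j).2).2 hi
    have p2 := (hit_par (by omega) hL (by omega) (by omega) (hG (j - 1)).2).1 (by
      rw [hbj]
      rcases hi with hi | hi
      · right; rw [hi]; rfl
      · left; rw [hi]; rfl)
    refine ⟨p1, hit_ne p2 p1 (by omega) (by omega) (by omega) (by omega)
      (fun h' => by have := hsep (by omega); omega), ?_⟩
    exact clo_hole_B hs hk200 (by omega) p2 p1 (abs_le.2 (by omega)) (abs_le.2 (by omega))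
      (fun h' => by have := hsep (by omega); omega)

end Pool.Agent.H81.NC
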