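import Mathlib
import Pool.Agent.H81.NC.Win
import Pool.Agent.H75.Four.FOther
import Pool.Agent.H75.Four.DefsB

set_option autoImplicit false
open Finset

/-! Job NC-X (helper39): small facts on exits, separation and environments. -/

namespace Pool.Agent.H81.NC

open Pool.Agent.H75.Perc Pool.Agent.H75.TwoArm Pool.Agent.H75.Four Pool.Agent.H99.NC

/-- X1. four exits, the two forward ones different => four arms -/
theorem A4_of_Ext {B ω : Finset (ℤ × ℤ)} {e : ℤ × ℤ} {x : Fin 4 → ℤ × ℤ}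
    (he : (e.1 + e.2) % 2 = 1) (heB : e ∈ B) (h : ∀ κ, Ext B e ω κ (x κ)) (hne : x 0 ≠ x 2) :
    A4 B e ω := by
  have h0 : FX B (ω.erase e) (zu e) (x 0) := (h 0).1 rfl
  have h2 : FX B (ω.erase e) (zv e) (x 2) := (h 2).2.2.1 rfl
  refine ⟨?_, ?_, fun hS => ?_⟩
  · obtain ⟨j, h1, h2, -⟩ := h0
    exact ⟨j, by rw [h1]; exact h2⟩
  · obtain ⟨j, h1, h2, -⟩ := h2
    exact ⟨j, by rw [h1]; exact h2⟩
  · have s1 : Str B (ω.erase e) (zv e) (x 2) := by
      obtain ⟨j, h1, -, h3⟩ := h2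
      exact Or.inl ⟨j, h1, h3⟩
    have s2 := FOtherAux.Str_back hS (Str_symm s1)
    have s3 : lab (x 2) ∉ B := by
      obtain ⟨j, -, h2, -⟩ := h2
      exact h2
    exact hne (Str_FX h0 s2 s3).symm

/-- X2. locality of the exits: they only depend on the explored edges -/
theorem Ext_local {B ω ω1 : Finset (ℤ × ℤ)} {e : ℤ × ℤ}
    (h : ∀ a ∈ U4 B e ω, a ≠ e → (a ∈ ω1 ↔ a ∈ ω)) (κ : Fin 4) (x : ℤ × ℤ) :
    Ext B e ω1 κ x ↔ Ext B e ω κ x := by
  obtain ⟨-, -, h3⟩ := A4_local h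
  obtain ⟨u1, u2⟩ := h3 (zu e) (Or.inl rfl) x
  obtain ⟨v1, v2⟩ := h3 (zv e) (Or.inr rfl) x
  unfold Ext
  rw [u1, u2, v1, v2]

namespace SmallAux

lemma U4_sub (B : Finset (ℤ × ℤ)) (e : ℤ × ℤ) (ω : Finset (ℤ × ℤ)) : U4 B e ω ⊆ B := by
  intro a ha
  unfold U4 at ha
  rw [mem_union, StrandAux.mem_UU, StrandAux.mem_UU] at ha
  rcases ha with ha | ha
  · exact ha.1
  · exact ha.1

lemma Ext_localB {B ω ω1 : Finset (ℤ × ℤ)} {e : ℤ × ℤ} (h : ∀ a ∈ B, (a ∈ ω1 ↔ a ∈ ω))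
    (κ : Fin 4) (x : ℤ × ℤ) : Ext B e ω1 κ x ↔ Ext B e ω κ x :=
  Ext_local (fun a ha _ => h a (U4_sub B e ω ha)) κ x

end SmallAux

theorem InSep_local {ω ω1 : Finset (ℤ × ℤ)} {e : ℤ × ℤ} {r s R0 : ℤ}
    (h : ∀ a ∈ BB r, (a ∈ ω1 ↔ a ∈ ω)) : InSep r s R0 e ω1 ↔ InSep r s R0 e ω := by
  unfold InSep GI
  simp only [SmallAux.Ext_localB h]

theorem OutSep_local {B ω ω1 : Finset (ℤ × ℤ)} {e' : ℤ × ℤ} {k s K0 : ℤ}
    (h : ∀ a ∈ B, (a ∈ ω1 ↔ a ∈ ω)) : OutSep k s K0 B e' ω1 ↔ OutSep k s K0 B e' ω := by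
  unfold OutSep GO
  simp only [SmallAux.Ext_localB h]

namespace SmallAux

/-- exits in different windows are different (inner box) -/
lemma exit_ne {r s R0 : ℤ} {σ y h : Fin 4 → ℤ} (hs : 3 ≤ s)
    (hr : 4 * s * (2 * R0 + 1) - s ≤ r ∧ r ≤ 4 * s * (2 * R0 + 1) - 2)
    (k : Keys (R0 - 10) 8 σ y) (hG : ∀ i, Row s (y i) (h i)) {i j : Fin 4} (hij : i ≠ j) :
    crn (σ i) (2 * r + 1, h i) ≠ crn (σ j) (2 * r + 1, h j) := by
  have key : ∀ i j : Fin 4, i < j → crn (σ i) (2 * r + 1, h i) ≠ crn (σ j) (2 * r + 1, h j) := by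
    intro i j hij hc
    have hs' := k.sep hij
    have k1 := k.1 i
    have k2 := k.1 j
    have w1 := hG i
    have w2 := hG j
    unfold Row at w1 w2
    have bd : ∀ y : ℤ, -(R0 - 10) ≤ y → y ≤ R0 - 10 → ∀ h : ℤ,
        2 * (8 * s * (y - 1) - 4 * s) ≤ h → h < 2 * (8 * s * (y - 1) + 4 * s) →
        -(2 * r) < h ∧ h < 2 * r ∧ -(2 * r) < 1 - h ∧ 1 - h < 2 * r := by
      intro y y1 y2 h h1 h2
      have e1 : 8 * s * (y - 1) ≤ 8 * s * (R0 - 11) := by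
        apply mul_le_mul_of_nonneg_left _ (by omega); omega
      have e2 : 8 * s * (-(R0 - 9)) ≤ 8 * s * (y - 1) := by
        apply mul_le_mul_of_nonneg_left _ (by omega); omega
      have e3 : 8 * s * (-(R0 - 9)) = -(8 * (s * R0)) + 72 * s := by ring
      have e4 : 8 * s * (R0 - 11) = 8 * (s * R0) - 88 * s := by ring
      have e5 : 4 * s * (2 * R0 + 1) = 8 * (s * R0) + 4 * s := by ring
      rw [e5] at hr
      omega
    have b1 := bd (y i) k1.2.1.1 k1.2.1.2 (h i) w1.1 w1.2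
    have b2 := bd (y j) k2.2.1.1 k2.2.1.2 (h j) w2.1 w2.2
    have hσ : (σ j - σ i) % 4 = 0 ∧ h i = h j := by
      rcases sig_cases k1.1 with e1 | e1 | e1 | e1 | e1 <;>
      rcases sig_cases k2.1 with e2 | e2 | e2 | e2 | e2 <;>
      rw [e1, e2] at hc <;> rw [e1, e2] <;> simp [crn, Prod.ext_iff] at hc ⊢ <;> omega
    have h1 := hs' hσ.1
    have h2 := hσ.2
    have e6 : ∀ u v : ℤ, u + 8 ≤ v → 8 * s * (u - 1) + 64 * s ≤ 8 * s * (v - 1) := by
      intro u v huv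
      have : 8 * s * (u + 8 - 1) ≤ 8 * s * (v - 1) := by
        apply mul_le_mul_of_nonneg_left _ (by omega); omega
      have e7 : 8 * s * (u + 8 - 1) = 8 * s * (u - 1) + 64 * s := by ring
      omega
    rcases h1 with h1 | h1
    · have := e6 _ _ h1; omega
    · have := e6 _ _ h1; omega
  intro hc
  rcases lt_or_gt_of_ne hij with h1 | h1
  · exact key i j h1 hc
  · exact key j i h1 hc.symm

/-- hits in different windows are different (hole) -/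
lemma hit_ne {k s K0 : ℤ} {τ z h : Fin 4 → ℤ} (hs : 3 ≤ s)
    (hk : 4 * s * (2 * K0 + 1) + 2 ≤ k)
    (kk : Keys (K0 - 70) 8 τ z) (hG : ∀ i, Row s (-z i) (h i)) {i j : Fin 4} (hij : i ≠ j) :
    crn (τ i + 2) (-(2 * k), h i) ≠ crn (τ j + 2) (-(2 * k), h j) := by
  have key : ∀ i j : Fin 4, i < j →
      crn (τ i + 2) (-(2 * k), h i) ≠ crn (τ j + 2) (-(2 * k), h j) := by
    intro i j hij hc
    have hs' := kk.sep hij
    have k1 := kk.1 i
    have k2 := kk.1 j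
    have w1 := hG i
    have w2 := hG j
    unfold Row at w1 w2
    have bd : ∀ y : ℤ, -(K0 - 70) ≤ y → y ≤ K0 - 70 → ∀ h : ℤ,
        2 * (8 * s * (-y - 1) - 4 * s) ≤ h → h < 2 * (8 * s * (-y - 1) + 4 * s) →
        -(2 * k) < h ∧ h < 2 * k ∧ -(2 * k) < 1 - h ∧ 1 - h < 2 * k := by
      intro y y1 y2 h h1 h2
      have e1 : 8 * s * (-y - 1) ≤ 8 * s * (K0 - 71) := by
        apply mul_le_mul_of_nonneg_left _ (by omega); omega
      have e2 : 8 * s * (-(K0 - 69)) ≤ 8 * s * (-y - 1) := by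
        apply mul_le_mul_of_nonneg_left _ (by omega); omega
      have e3 : 8 * s * (-(K0 - 69)) = -(8 * (s * K0)) + 552 * s := by ring
      have e4 : 8 * s * (K0 - 71) = 8 * (s * K0) - 568 * s := by ring
      have e5 : 4 * s * (2 * K0 + 1) = 8 * (s * K0) + 4 * s := by ring
      rw [e5] at hk
      omega
    have b1 := bd (z i) k1.2.1.1 k1.2.1.2 (h i) w1.1 w1.2
    have b2 := bd (z j) k2.2.1.1 k2.2.1.2 (h j) w2.1 w2.2
    have hσ : (τ j - τ i) % 4 = 0 ∧ h i = h j := by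
      rcases sig_cases k1.1 with e1 | e1 | e1 | e1 | e1 <;>
      rcases sig_cases k2.1 with e2 | e2 | e2 | e2 | e2 <;>
      rw [e1, e2] at hc <;> rw [e1, e2] <;> simp [crn, Prod.ext_iff] at hc ⊢ <;> omega
    have h1 := hs' hσ.1
    have h2 := hσ.2
    have e6 : ∀ u v : ℤ, u + 8 ≤ v → 8 * s * (-v - 1) + 64 * s ≤ 8 * s * (-u - 1) := by
      intro u v huv
      have : 8 * s * (-v + 8 - 1) ≤ 8 * s * (-u - 1) := by
        apply mul_le_mul_of_nonneg_left _ (by omega); omega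
      have e7 : 8 * s * (-v + 8 - 1) = 8 * s * (-v - 1) + 64 * s := by ring
      omega
    rcases h1 with h1 | h1
    · have := e6 _ _ h1; omega
    · have := e6 _ _ h1; omega
  intro hc
  rcases lt_or_gt_of_ne hij with h1 | h1
  · exact key i j h1 hc
  · exact key j i h1 hc.symm

end SmallAux

theorem GI_A4 {r s R0 : ℤ} {e : ℤ × ℤ} {a : Fin 4} {σ y h : Fin 4 → ℤ} {ω : Finset (ℤ × ℤ)}
    (hs : 3 ≤ s) (hR0 : 45 ≤ R0)
    (hr : 4 * s * (2 * R0 + 1) - s ≤ r ∧ r ≤ 4 * s * (2 * R0 + 1) - 2)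
    (he : (e.1 + e.2) % 2 = 1) (heB : e ∈ BB r) (k : Keys (R0 - 10) 8 σ y)
    (hG : GI r s e a σ y h ω) : A4 (BB r) e ω := by
  refine A4_of_Ext (x := fun κ => crn (σ (κ - a)) (2 * r + 1, h (κ - a))) he heB ?_ ?_
  · intro κ
    have := (hG (κ - a)).2
    rwa [sub_add_cancel] at this
  · refine SmallAux.exit_ne hs hr k (fun i => (hG i).1) ?_
    intro h
    have h3 := congrArg (fun t => t + a) h
    simp only [sub_add_cancel] at h3
    exact absurd h3 (by decide)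

theorem GO_A4 {k s K0 L : ℤ} {e' : ℤ × ℤ} {b : Fin 4} {τ z h : Fin 4 → ℤ} {ω : Finset (ℤ × ℤ)}
    (hs : 3 ≤ s) (hK0 : 185 ≤ K0)
    (hk : 4 * s * (2 * K0 + 1) + 2 ≤ k ∧ k ≤ 4 * s * (2 * K0 + 1) + s - 1)
    (hH : Hole k L e' ω) (kk : Keys (K0 - 70) 8 τ z) (hG : GO k s (BB L \ BB k) e' b τ z h ω) :
    A4 (BB L \ BB k) e' ω := by
  have heB : e' ∈ BB L \ BB k := by
    rw [mem_sdiff]
    refine ⟨?_, hH.hB⟩
    have := hH.hE
    unfold H75.TwoArm.BB at this ⊢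
    rw [mem_Bx] at this ⊢
    omega
  refine A4_of_Ext (x := fun κ => crn (τ (b - κ) + 2) (-(2 * k), h (b - κ))) hH.he heB ?_ ?_
  · intro κ
    have := (hG (b - κ)).2
    rwa [sub_sub_cancel] at this
  · refine SmallAux.hit_ne hs hk.1 kk (fun i => (hG i).1) ?_
    intro h
    have h3 := congrArg (fun t => b - t) h
    simp only [sub_sub_cancel] at h3
    exact absurd h3 (by decide)

namespace SmallAux

lemma HC_mono {a b c d : ℤ} {ω ω' : Finset (ℤ × ℤ)} (h : ω ⊆ ω') (hc : HC a b c d ω) :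
    HC a b c d ω' := by
  obtain ⟨p, q, h1, h2, h3, h4⟩ := hc
  exact ⟨p, q, h1, h2, h3, h4.mono (inter_subset_inter_right h)⟩

lemma VC_mono {a b c d : ℤ} {ω ω' : Finset (ℤ × ℤ)} (h : ω ⊆ ω') (hc : VC a b c d ω) :
    VC a b c d ω' := by
  obtain ⟨p, q, h1, h2, h3, h4⟩ := hc
  exact ⟨p, q, h1, h2, h3, h4.mono (inter_subset_inter_right h)⟩

lemma Net_mono {o : ℤ × ℤ} {w : ℤ} {S ω ω' : Finset (ℤ × ℤ)} (hω : ω ⊆ ω') (h : Net o w S ω) :
    Net o w S ω' := by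
  intro c hc
  obtain ⟨⟨h1, h2⟩, h3, h4⟩ := h c hc
  exact ⟨⟨HC_mono hω h1, VC_mono hω h2⟩, fun hs => HC_mono hω (h3 hs), fun hs => VC_mono hω (h4 hs)⟩

lemma du_mono {E G ω W : Finset (ℤ × ℤ)} (hEG : E ⊆ G) (hWE : Disjoint W E) :
    du E ω ⊆ du G (ω ∪ W) := by
  unfold du
  refine map_subset_map.2 fun a ha => ?_
  rw [mem_sdiff] at ha ⊢
  refine ⟨hEG ha.1, fun h => ?_⟩
  rcases mem_union.1 h with h | h
  · exact ha.2 h
  · exact (Finset.disjoint_left.1 hWE h) ha.1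

end SmallAux

/-- X3. monotonicity of the fresh events when passing to the environment -/
theorem ND_env {s : ℤ} {S E G ω W : Finset (ℤ × ℤ)} (hEG : E ⊆ G) (hWE : Disjoint W E)
    (h : ND s S E ω) : ND s S G (ω ∪ W) := by
  unfold ND at h ⊢
  exact SmallAux.Net_mono (SmallAux.du_mono hEG hWE) h

theorem HD_env {φ X h s : ℤ} {E G ω W : Finset (ℤ × ℤ)} (hEG : E ⊆ G) (hWE : Disjoint W E)
    (hH : HD φ X h s E ω) : HD φ X h s G (ω ∪ W) := by
  unfold HD at hH ⊢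
  refine SmallAux.Net_mono ?_ hH
  unfold FR
  rw [map_union]
  refine SmallAux.du_mono (map_subset_map.2 hEG) ?_
  rwa [disjoint_map]

theorem NO_env {s : ℤ} {S ω W : Finset (ℤ × ℤ)} (h : NO s S ω) : NO s S (ω ∪ W) := by
  unfold NO at h ⊢
  exact SmallAux.Net_mono subset_union_left h

theorem HO_env {φ X h s : ℤ} {ω W : Finset (ℤ × ℤ)} (hH : HO φ X h s ω) :
    HO φ X h s (ω ∪ W) := by
  unfold HO at hH ⊢
  refine SmallAux.Net_mono ?_ hH
  unfold FR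
  exact map_subset_map.2 subset_union_left

end Pool.Agent.H81.NC
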