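import Mathlib
import Pool.Agent.H81.NC.ArmO
import Pool.Agent.H81.NC.ArmD
import Pool.Agent.H81.NC.Small
import Pool.Agent.H81.NC.OuterGeo
import Pool.Agent.H81.NC.Piv
import Pool.Agent.H81.NC.Defs3

set_option autoImplicit false
open Finset

/-! Job NC-J1 (helper61): the deterministic gluing of the four arms. -/

namespace Pool.Agent.H81.NC

open Pool.Agent.H75.Perc Pool.Agent.H75.TwoArm Pool.Agent.H75.Four Pool.Agent.H99.NC

namespace JoinDetAux

/-- norm at least `R` -/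
def Out (R : ℤ) (c : ℤ × ℤ) : Prop := R ≤ c.1 ∨ R ≤ -c.1 ∨ R ≤ c.2 ∨ R ≤ -c.2

/-- norm at most `K` -/
def Ins (K : ℤ) (c : ℤ × ℤ) : Prop := c.1 ≤ K ∧ -c.1 ≤ K ∧ c.2 ≤ K ∧ -c.2 ≤ K

lemma mul_out {s R x : ℤ} (hs : 0 ≤ s) (h : R ≤ x) : 8 * s * R ≤ 8 * s * x :=
  mul_le_mul_of_nonneg_left h (by omega)

lemma mul_neg' (s x : ℤ) : 8 * s * -x = -(8 * s * x) := by ring

lemma bx_out {s R d : ℤ} (hs : 0 ≤ s) {c a : ℤ × ℤ} (hc : Out R c)
    (ha : a ∈ Bx (8 * s * c.1 - d) (8 * s * c.1 + d) (8 * s * c.2 - d) (8 * s * c.2 + d)) :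
    Out (2 * (8 * s * R - d)) a := by
  rw [mem_Bx] at ha
  unfold Out at hc ⊢
  rcases hc with h | h | h | h <;> have h1 := mul_out hs h
  · left; omega
  · rw [mul_neg'] at h1; right; left; omega
  · right; right; left; omega
  · rw [mul_neg'] at h1; right; right; right; omega

lemma bx_in {s K d : ℤ} (hs : 0 ≤ s) {c a : ℤ × ℤ} (hc : Ins K c)
    (ha : a ∈ Bx (8 * s * c.1 - d) (8 * s * c.1 + d) (8 * s * c.2 - d) (8 * s * c.2 + d)) :
    Ins (2 * (8 * s * K + d)) a := by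
  rw [mem_Bx] at ha
  unfold Ins at hc ⊢
  obtain ⟨h1, h2, h3, h4⟩ := hc
  have g1 := mul_out hs h1
  have g2 := mul_out hs h2
  have g3 := mul_out hs h3
  have g4 := mul_out hs h4
  rw [mul_neg'] at g2 g4
  omega

lemma cs_out {s R : ℤ} (hs : 0 ≤ s) {S : Finset (ℤ × ℤ)} (hS : ∀ c ∈ S, Out R c) {a : ℤ × ℤ}
    (ha : a ∈ csS s S) : Out (2 * (8 * s * R - 4 * s)) a := by
  unfold csS at ha
  rw [mem_cs] at ha
  obtain ⟨c, hc, h⟩ := ha
  rw [cell_eq] at h
  exact bx_out hs (hS c hc) h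

lemma cs_in {s K : ℤ} (hs : 0 ≤ s) {S : Finset (ℤ × ℤ)} (hS : ∀ c ∈ S, Ins K c) {a : ℤ × ℤ}
    (ha : a ∈ csS s S) : Ins (2 * (8 * s * K + 4 * s)) a := by
  unfold csS at ha
  rw [mem_cs] at ha
  obtain ⟨c, hc, h⟩ := ha
  rw [cell_eq] at h
  exact bx_in hs (hS c hc) h

lemma hkn_out {s R : ℤ} (hs : 0 ≤ s) {c : ℤ × ℤ} (hc : Out R c) {a : ℤ × ℤ}
    (ha : a ∈ hkn s c) : Out (2 * (8 * s * R - 8 * s)) a := bx_out hs hc ha

lemma hkn_in {s K : ℤ} (hs : 0 ≤ s) {c : ℤ × ℤ} (hc : Ins K c) {a : ℤ × ℤ}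
    (ha : a ∈ hkn s c) : Ins (2 * (8 * s * K + 8 * s)) a := bx_in hs hc ha

lemma mem_BBi {r : ℤ} {a : ℤ × ℤ} : a ∈ H75.TwoArm.BB r ↔ Ins (2 * r) a ∧ (a.1 + a.2) % 2 = 1 := by
  unfold H75.TwoArm.BB Ins
  rw [mem_Bx]; omega

lemma U4_sub (B ω : Finset (ℤ × ℤ)) (e : ℤ × ℤ) : U4 B e ω ⊆ B := by
  intro a ha
  unfold U4 at ha
  rw [mem_union, StrandAux.mem_UU, StrandAux.mem_UU] at ha
  rcases ha with ha | ha
  · exact ha.1
  · exact ha.1

lemma comb_ab {a b : Fin 4} {δ : ℤ}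
    (hδ : (δ = 0 ∧ (a = b ∨ a = b + 2)) ∨ (δ = 1 ∧ (a = b + 1 ∨ a = b + 3))) :
    ((b - jj δ (-a) = 0 ∧ b - jj δ (2 - a) = 2) ∨ (b - jj δ (-a) = 2 ∧ b - jj δ (2 - a) = 0)) ∧
    ((b - jj δ (1 - a) = 1 ∧ b - jj δ (3 - a) = 3) ∨
      (b - jj δ (1 - a) = 3 ∧ b - jj δ (3 - a) = 1)) := by
  have k0 : ∀ a b : Fin 4, (a = b ∨ a = b + 2) →
      ((b - jj 0 (-a) = 0 ∧ b - jj 0 (2 - a) = 2) ∨ (b - jj 0 (-a) = 2 ∧ b - jj 0 (2 - a) = 0)) ∧
      ((b - jj 0 (1 - a) = 1 ∧ b - jj 0 (3 - a) = 3) ∨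
        (b - jj 0 (1 - a) = 3 ∧ b - jj 0 (3 - a) = 1)) := by decide
  have k1 : ∀ a b : Fin 4, (a = b + 1 ∨ a = b + 3) →
      ((b - jj 1 (-a) = 0 ∧ b - jj 1 (2 - a) = 2) ∨ (b - jj 1 (-a) = 2 ∧ b - jj 1 (2 - a) = 0)) ∧
      ((b - jj 1 (1 - a) = 1 ∧ b - jj 1 (3 - a) = 3) ∨
        (b - jj 1 (1 - a) = 3 ∧ b - jj 1 (3 - a) = 1)) := by decide
  rcases hδ with ⟨rfl, h⟩ | ⟨rfl, h⟩
  · exact k0 a b h
  · exact k1 a b h

lemma succ_kappa (a i : Fin 4) : i + a + 1 = (i + 1) + a := by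
  rw [add_right_comm]

lemma succ_kappa' (b j : Fin 4) : b - j + 1 = b - (j - 1) := by
  revert b j; decide

end JoinDetAux

open JoinDetAux

theorem join_det {s R0 K0 r k L δ : ℤ} (hs : 3 ≤ s) (hR0 : 45 ≤ R0) (hK0 : R0 + 140 ≤ K0)
    (hr : 4 * s * (2 * R0 + 1) - s ≤ r ∧ r ≤ 4 * s * (2 * R0 + 1) - 2)
    (hk : 4 * s * (2 * K0 + 1) + 2 ≤ k ∧ k ≤ 4 * s * (2 * K0 + 1) + s - 1) (hL : 2 * k ≤ L)
    {e e' : ℤ × ℤ} (he : (e.1 + e.2) % 2 = 1) (heB : e ∈ BB r) {G ω ω'' : Finset (ℤ × ℤ)}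
    (hG : BB L ⊆ G) (hH : Hole k L e' ω) (h'' : ω'' ⊆ BB (L - 1))
    {a b : Fin 4} {σ y h τ z h' : Fin 4 → ℤ}
    (kI : Keys (R0 - 10) 8 σ y) (kO : Keys (K0 - 70) 8 τ z) (gI : GI r s e a σ y h ω)
    (gO : GO k s (BB L \ BB k) e' b τ z h' ω)
    (hδ : (δ = 0 ∧ (a = b ∨ a = b + 2)) ∨ (δ = 1 ∧ (a = b + 1 ∨ a = b + 3)))
    (hO : ∀ i, (i + a = 0 ∨ i + a = 2) → NO s (Arm R0 K0 δ σ y τ z i) ω'' ∧
      HO (σ i) (2 * r) (h i) s ω'' ∧ HO (τ (jj δ i) + 2) (-(2 * k) - 1) (h' (jj δ i)) s ω'')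
    (hD : ∀ i, (i + a = 1 ∨ i + a = 3) → ND s (Arm R0 K0 δ σ y τ z i) G ω'' ∧
      HD (σ i) (2 * r) (h i) s G ω'' ∧ HD (τ (jj δ i) + 2) (-(2 * k) - 1) (h' (jj δ i)) s G ω'') :
    Pv e' e (mix (U4 (BB r) e ω ∪ U4 (BB L \ BB k) e' ω) ω ω'') := by
  set U := U4 (H75.TwoArm.BB r) e ω ∪ U4 (H75.TwoArm.BB L \ H75.TwoArm.BB k) e' ω with hU
  set ωm := mix U ω ω'' with hωm
  have hδ' : δ = 0 ∨ δ = 1 := by
    rcases hδ with h | h
    · exact Or.inl h.1
    · exact Or.inr h.1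
  have hK : 185 ≤ K0 := by omega
  have hs0 : 0 ≤ s := by omega
  have he' := hH.he
  -- sizes
  have x1 : 4 * s * (2 * R0 + 1) = 8 * s * R0 + 4 * s := by ring
  have x2 : 4 * s * (2 * K0 + 1) = 8 * s * K0 + 4 * s := by ring
  have x3 : 8 * s * (R0 + 1) = 8 * s * R0 + 8 * s := by ring
  have x4 : 8 * s * R0 + 8 * s * 140 ≤ 8 * s * K0 := by
    have := mul_out hs0 hK0
    have e1 : 8 * s * (R0 + 140) = 8 * s * R0 + 8 * s * 140 := by ring
    omega
  have x5 : 0 ≤ 8 * s * R0 := mul_nonneg (by omega) (by omega)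
  rw [x1] at hr
  rw [x2] at hk
  have heB' : e ∈ H75.TwoArm.BB r := heB
  have ie := (mem_BBi.1 heB').1
  have rk : r ≤ k := by omega
  have BrBk : ∀ l ∈ H75.TwoArm.BB r, l ∈ H75.TwoArm.BB k := by
    intro l hl
    rw [mem_BBi] at hl ⊢
    unfold Ins at hl ⊢
    omega
  have BrBL : H75.TwoArm.BB r ⊆ H75.TwoArm.BB L := by
    intro l hl
    rw [mem_BBi] at hl ⊢
    unfold Ins at hl ⊢
    omega
  have heL : e' ∈ H75.TwoArm.BB L \ H75.TwoArm.BB k := by
    rw [mem_sdiff]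
    refine ⟨?_, hH.hB⟩
    have := hH.hE
    rw [mem_BBi] at this ⊢
    unfold Ins at this ⊢
    omega
  have hA1 : A4 (H75.TwoArm.BB r) e ω := GI_A4 hs hR0 (by rw [x1]; exact hr) he heB kI gI
  have hA2 : A4 (H75.TwoArm.BB L \ H75.TwoArm.BB k) e' ω :=
    GO_A4 hs hK (by rw [x2]; exact hk) hH kO gO
  have u1 := U4_sub (H75.TwoArm.BB r) ω e
  have u2 := U4_sub (H75.TwoArm.BB L \ H75.TwoArm.BB k) ω e'
  have nek : ¬ Ins (2 * k) e' := fun h => hH.hB (mem_BBi.2 ⟨h, he'⟩)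
  -- members of `U`
  have mU : ∀ l ∈ U, (l ∈ U4 (H75.TwoArm.BB r) e ω ∧ Ins (2 * r) l) ∨
      (l ∈ U4 (H75.TwoArm.BB L \ H75.TwoArm.BB k) e' ω ∧ ¬ Ins (2 * k) l) := by
    intro l hl
    rw [hU, mem_union] at hl
    rcases hl with hl | hl
    · exact Or.inl ⟨hl, (mem_BBi.1 (u1 hl)).1⟩
    · refine Or.inr ⟨hl, fun h => ?_⟩
      have h1 := mem_sdiff.1 (u2 hl)
      exact h1.2 (mem_BBi.2 ⟨h, (mem_BBi.1 h1.1).2⟩)
  -- the cells of an arm
  have hSin : ∀ i, ∀ c ∈ Arm R0 K0 δ σ y τ z i, Ins K0 c := by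
    intro i c hc
    exact (Arm_inA hR0 hK0 hδ' kI kO hc).2
  have hSout : ∀ i, ∀ c ∈ Arm R0 K0 δ σ y τ z i, Out (R0 + 1) c := by
    intro i c hc
    exact (Arm_inA hR0 hK0 hδ' kI kO hc).1
  have csU : ∀ i, ∀ l ∈ U, l ∉ csS s (Arm R0 K0 δ σ y τ z i) := by
    intro i l hl hcs
    have h1 := cs_out hs0 (hSout i) hcs
    have h2 := cs_in hs0 (hSin i) hcs
    rw [x3] at h1
    unfold Out at h1
    unfold Ins at h2
    rcases mU l hl with ⟨-, h3⟩ | ⟨-, h3⟩
    · unfold Ins at h3; omega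
    · unfold Ins at h3; omega
  have csU1 : ∀ i, ∀ l ∈ U, l + (1, 1) ∉ csS s (Arm R0 K0 δ σ y τ z i) := by
    intro i l hl hcs
    have h1 := cs_out hs0 (hSout i) hcs
    have h2 := cs_in hs0 (hSin i) hcs
    rw [x3] at h1
    unfold Out at h1
    unfold Ins at h2
    simp only [Prod.fst_add, Prod.snd_add] at h1 h2
    rcases mU l hl with ⟨-, h3⟩ | ⟨-, h3⟩
    · unfold Ins at h3; omega
    · unfold Ins at h3; omega
  -- the hook boxes
  have hkI : ∀ i, Ins (R0 + 1) (rad (σ i) (y i - 1) (R0 + 1)) := by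
    intro i
    have ki := (kI.1 i).2.1
    exact (rad_inA (kI.1 i).1 (y := y i - 1) (ρ := R0 + 1) (by omega) (by omega)).2
  have hkO : ∀ j, Out K0 (rad (τ j) (z j + 1) K0) := by
    intro j
    have ki := (kO.1 j).2.1
    exact (rad_inA (kO.1 j).1 (y := z j + 1) (ρ := K0) (by omega) (by omega)).1
  -- the four ends
  have geoI := fun i => inner_geo hs hR0 (by rw [x1]; exact hr) he heB' kI gI i
  have geoO := fun j => outer_geo hs hK (by rw [x2]; exact hk) hL hH hA2 kO gO j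
  have xx : -(2 * k) - 1 + 1 = -(2 * k) := by ring
  -- open arms
  have openA : ∀ i, (i + a = 0 ∨ i + a = 2) → (b - jj δ i = 0 ∨ b - jj δ i = 2) →
      Co ((ωm.erase e).erase e') (vend e (i + a)) (vend e' (b - jj δ i)) := by
    intro i hi hj
    obtain ⟨n1, n2, n3⟩ := hO i hi
    obtain ⟨⟨m1, m2, -⟩, ⟨p1, p2, -⟩, lk⟩ := Arm_link hR0 hK0 hδ' kI kO i
    set S := Arm R0 K0 δ σ y τ z i with hS
    obtain ⟨v, hv⟩ := Net.full n1 m1
    -- inner end
    obtain ⟨q1, q2, q3, q4, -⟩ := geoI i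
    obtain ⟨q5, q6, q7⟩ := q4 hi
    have A := arm_end_O (U := U) (ω'' := ω'') hs he heB' hA1 hi q5 (gI i).2
      (by rw [succ_kappa]; exact (gI (i + 1)).2) q6 (by rw [q1]; exact q7) (by rw [q1]; exact q2)
      subset_union_left (by
        intro l hl hh
        rcases mU l hl with ⟨h3, -⟩ | ⟨-, h3⟩
        · exact h3
        · exfalso
          have := hkn_in hs0 (hkI i) hh
          rw [x3] at this
          unfold Ins at h3 this
          omega) (csU i) (gI i).1 q3 n1 m1 m2 n2 (Relation.ReflTransGen.refl) hv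
    -- outer end
    obtain ⟨r1, r2, r3, r4, r5, r6, -⟩ := geoO (jj δ i)
    obtain ⟨r7, r8, r9⟩ := r6 hj
    have B := arm_end_O (U := U) (ω'' := ω'') (φ := τ (jj δ i) + 2) (X := -(2 * k) - 1)
      (y := -z (jj δ i)) (ρ := -K0) hs he' heL hA2 hj r7
      (by rw [xx]; exact (gO (jj δ i)).2)
      (by rw [succ_kappa']; exact (gO (jj δ i - 1)).2) (by rw [xx]; exact r8)
      (by rw [r1, xx]; exact r9) (by rw [r1]; exact r2)
      subset_union_right (by
        intro l hl hh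
        rcases mU l hl with ⟨-, h3⟩ | ⟨h3, -⟩
        · exfalso
          rw [r5] at hh
          have := hkn_out hs0 (hkO (jj δ i)) hh
          unfold Ins at h3
          unfold Out at this
          omega
        · exact h3) (csU i) (gO (jj δ i)).1 r3 n1 (by rw [r4]; exact p1) (by rw [r5]; exact p2) n3
      (by rw [r4]; exact lk.symm) hv
    refine (A.mono ?_).trans ((B.mono ?_).symm)
    · intro l hl
      rw [mem_inter, mem_union, mem_union] at hl
      rw [mem_erase]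
      refine ⟨?_, hl.1⟩
      rintro rfl
      rcases hl.2 with (h1 | h1) | h1
      · exact nek (by have := (mem_BBi.1 (BrBk _ (u1 h1))).1; exact this)
      · have h2 := cs_in hs0 (hSin i) h1
        unfold Ins at nek h2
        omega
      · have h2 := hkn_in hs0 (hkI i) h1
        rw [x3] at h2
        unfold Ins at nek h2
        omega
    · intro l hl
      rw [mem_inter, mem_union, mem_union, mem_erase] at hl
      rw [mem_erase, mem_erase]
      refine ⟨hl.1.1, ?_, hl.1.2⟩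
      rintro rfl
      rcases hl.2 with (h1 | h1) | h1
      · exact (mem_sdiff.1 (u2 h1)).2 (BrBk _ heB')
      · have h2 := cs_out hs0 (hSout i) h1
        rw [x3] at h2
        unfold Out at h2
        unfold Ins at ie
        omega
      · rw [r5] at h1
        have h2 := hkn_out hs0 (hkO (jj δ i)) h1
        unfold Out at h2
        unfold Ins at ie
        omega
  -- dual arms
  have dualA : ∀ i, (i + a = 1 ∨ i + a = 3) → (b - jj δ i = 1 ∨ b - jj δ i = 3) →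
      Co (du G (insert e (insert e' ωm))) (fend e (i + a)) (fend e' (b - jj δ i)) := by
    intro i hi hj
    obtain ⟨n1, n2, n3⟩ := hD i hi
    obtain ⟨⟨m1, m2, -⟩, ⟨p1, p2, -⟩, lk⟩ := Arm_link hR0 hK0 hδ' kI kO i
    set S := Arm R0 K0 δ σ y τ z i with hS
    obtain ⟨v, hv⟩ := Net.full n1 m1
    -- inner end
    obtain ⟨q1, q2, q3, -, q4⟩ := geoI i
    obtain ⟨q5, q6, q7⟩ := q4 hi
    have A := arm_end_D (U := U) (ω'' := ω'') (E := G) hs he heB' (BrBL.trans hG) hA1 hi q5 (gI i).2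
      (by rw [succ_kappa]; exact (gI (i + 1)).2) q6 (by rw [q1]; exact q7) (by rw [q1]; exact q2)
      subset_union_left (by
        intro l hl hh
        rcases mU l hl with ⟨h3, -⟩ | ⟨-, h3⟩
        · exact h3
        · exfalso
          have := hkn_in hs0 (hkI i) hh
          rw [x3] at this
          unfold Ins at h3 this
          omega) (csU1 i) (gI i).1 q3 n1 m1 m2 n2 (Relation.ReflTransGen.refl) hv
    -- outer end
    obtain ⟨r1, r2, r3, r4, r5, -, r6⟩ := geoO (jj δ i)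
    obtain ⟨r7, r8, r9⟩ := r6 hj
    have B := arm_end_D (U := U) (ω'' := ω'') (E := G) (φ := τ (jj δ i) + 2) (X := -(2 * k) - 1)
      (y := -z (jj δ i)) (ρ := -K0) hs he' heL (sdiff_subset.trans hG) hA2 hj r7
      (by rw [xx]; exact (gO (jj δ i)).2)
      (by rw [succ_kappa']; exact (gO (jj δ i - 1)).2) (by rw [xx]; exact r8)
      (by rw [r1, xx]; exact r9) (by rw [r1]; exact r2)
      subset_union_right (by
        intro l hl hh
        rcases mU l hl with ⟨-, h3⟩ | ⟨h3, -⟩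
        · exfalso
          rw [r5] at hh
          have := hkn_out hs0 (hkO (jj δ i)) hh
          unfold Ins at h3
          unfold Out at this
          omega
        · exact h3) (csU1 i) (gO (jj δ i)).1 r3 n1 (by rw [r4]; exact p1) (by rw [r5]; exact p2) n3
      (by rw [r4]; exact lk.symm) hv
    have du_ins : ∀ {x x' l : ℤ × ℤ} {W : Finset (ℤ × ℤ)}, l ∈ du G (insert x W) → l ≠ x' + (1, 1) →
        l ∈ du G (insert x' (insert x W)) := by
      intro x x' l W hl hne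
      unfold du at hl ⊢
      rw [mem_map] at hl ⊢
      obtain ⟨t, ht, rfl⟩ := hl
      refine ⟨t, ?_, rfl⟩
      rw [mem_sdiff] at ht ⊢
      refine ⟨ht.1, fun h => ?_⟩
      rw [mem_insert] at h
      rcases h with h | h
      · exact hne (by rw [h]; rfl)
      · exact ht.2 h
    refine (A.mono ?_).trans ((B.mono ?_).symm)
    · intro l hl
      rw [mem_inter, mem_union, mem_union] at hl
      rw [Finset.insert_comm]
      refine du_ins hl.1 ?_
      rintro rfl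
      rcases hl.2 with (h1 | h1) | h1
      · rw [mem_map] at h1
        obtain ⟨t, ht, h2⟩ := h1
        have h3 : t = e' := by
          have e1 := congrArg Prod.fst h2
          have e2 := congrArg Prod.snd h2
          simp only [sh1, Function.Embedding.coeFn_mk, Prod.fst_add, Prod.snd_add] at e1 e2
          exact Prod.ext (by omega) (by omega)
        rw [h3] at ht
        exact nek (mem_BBi.1 (BrBk _ (u1 ht))).1
      · have h2 := cs_in hs0 (hSin i) h1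
        unfold Ins at nek h2
        simp only [Prod.fst_add, Prod.snd_add] at h2
        omega
      · have h2 := hkn_in hs0 (hkI i) h1
        rw [x3] at h2
        unfold Ins at nek h2
        simp only [Prod.fst_add, Prod.snd_add] at h2
        omega
    · intro l hl
      rw [mem_inter, mem_union, mem_union] at hl
      refine du_ins hl.1 ?_
      rintro rfl
      rcases hl.2 with (h1 | h1) | h1
      · rw [mem_map] at h1
        obtain ⟨t, ht, h2⟩ := h1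
        have h3 : t = e := by
          have e1 := congrArg Prod.fst h2
          have e2 := congrArg Prod.snd h2
          simp only [sh1, Function.Embedding.coeFn_mk, Prod.fst_add, Prod.snd_add] at e1 e2
          exact Prod.ext (by omega) (by omega)
        rw [h3] at ht
        exact (mem_sdiff.1 (u2 ht)).2 (BrBk _ heB')
      · have h2 := cs_out hs0 (hSout i) h1
        rw [x3] at h2
        unfold Out at h2
        unfold Ins at ie
        simp only [Prod.fst_add, Prod.snd_add] at h2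
        omega
      · rw [r5] at h1
        have h2 := hkn_out hs0 (hkO (jj δ i)) h1
        unfold Out at h2
        unfold Ins at ie
        simp only [Prod.fst_add, Prod.snd_add] at h2
        omega
  -- assembly
  have hne : e ≠ e' := by
    rintro rfl
    exact nek (mem_BBi.1 (BrBk _ heB')).1
  obtain ⟨-, -, -, -, v1, v2⟩ := opc_zu he
  obtain ⟨-, -, -, -, v3, v4⟩ := opc_zu he'
  have ve0 : ∀ e : ℤ × ℤ, vend e 0 = vx (zu e) := fun _ => rfl
  have ve2 : ∀ e : ℤ × ℤ, vend e 2 = vx (zv e) := fun _ => rfl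
  have fe1 : ∀ e : ℤ × ℤ, fend e 1 = fi (zu e) := fun _ => rfl
  have fe3 : ∀ e : ℤ × ℤ, fend e 3 = fi (zv e) := fun _ => rfl
  obtain ⟨c1, c2⟩ := comb_ab hδ
  have i0 : -a + a = 0 := neg_add_cancel a
  have i2 : 2 - a + a = 2 := sub_add_cancel 2 a
  have i1 : 1 - a + a = 1 := sub_add_cancel 1 a
  have i3 : 3 - a + a = 3 := sub_add_cancel 3 a
  refine pv_of_arms (E := G) he he' hne ?_ ?_
  · rcases c1 with ⟨c3, c4⟩ | ⟨c3, c4⟩
    · have h1 := openA (-a) (Or.inl i0) (Or.inl c3)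
      have h2 := openA (2 - a) (Or.inr i2) (Or.inr c4)
      rw [i0, c3, ve0, ve0, v1, v3] at h1
      rw [i2, c4, ve2, ve2, v2, v4] at h2
      exact Or.inl ⟨h1, h2⟩
    · have h1 := openA (-a) (Or.inl i0) (Or.inr c3)
      have h2 := openA (2 - a) (Or.inr i2) (Or.inl c4)
      rw [i0, c3, ve0, ve2, v1, v4] at h1
      rw [i2, c4, ve2, ve0, v2, v3] at h2
      exact Or.inr ⟨h1, h2⟩
  · rcases c2 with ⟨c3, c4⟩ | ⟨c3, c4⟩
    · have h1 := dualA (1 - a) (Or.inl i1) (Or.inl c3)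
      have h2 := dualA (3 - a) (Or.inr i3) (Or.inr c4)
      rw [i1, c3, fe1, fe1] at h1
      rw [i3, c4, fe3, fe3] at h2
      exact Or.inl ⟨h1, h2⟩
    · have h1 := dualA (1 - a) (Or.inl i1) (Or.inr c3)
      have h2 := dualA (3 - a) (Or.inr i3) (Or.inl c4)
      rw [i1, c3, fe1, fe3] at h1
      rw [i3, c4, fe3, fe1] at h2
      exact Or.inr ⟨h1, h2⟩

end Pool.Agent.H81.NC
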