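import Mathlib
import Pool.Agent.H81.NC.Win
import Pool.Agent.H81.NC.Defs3
import Pool.Agent.H81.NC.ProbB
import Pool.Agent.H81.NC.Small
import Pool.Agent.H81.NC.JoinDet
import Pool.Agent.H75.Four.FOther
import Pool.Agent.H75.Four.DefsB

set_option autoImplicit false
open Finset

/-! Four arms, gluing: JOIN. Separated exits of the inner box and separated hits of the hole are joined by
the fresh configuration with a probability bounded from below. -/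

namespace Pool.Agent.H81.NC

open Pool.Agent.H75.Perc Pool.Agent.H75.TwoArm Pool.Agent.H75.Four Pool.Agent.H99.NC

namespace JoinAux

lemma mem_BBj {n : ℤ} {a : ℤ × ℤ} : a ∈ BB n ↔
    ((-(2 * n) ≤ a.1 ∧ a.1 ≤ 2 * n) ∧ (-(2 * n) ≤ a.2 ∧ a.2 ≤ 2 * n)) ∧ (a.1 + a.2) % 2 = 1 := by
  unfold H75.TwoArm.BB
  rw [mem_Bx]
  constructor
  · rintro ⟨⟨h1, h2⟩, ⟨h3, h4⟩, h5⟩
    exact ⟨⟨⟨by omega, by omega⟩, by omega, by omega⟩, h5⟩
  · rintro ⟨⟨⟨h1, h2⟩, h3, h4⟩, h5⟩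
    exact ⟨⟨by omega, by omega⟩, ⟨by omega, by omega⟩, h5⟩

lemma BB_mono {m n : ℤ} (h : m ≤ n) : BB m ⊆ BB n := by
  intro a ha
  rw [mem_BBj] at ha ⊢
  omega

/-- the opposite frame -/
lemma rad_opp (τ y ρ : ℤ) : rad (τ + 2) (-y) (-ρ) = rad τ y ρ := by
  unfold rad ro
  have hc : τ % 4 = 0 ∨ τ % 4 = 1 ∨ τ % 4 = 2 ∨ τ % 4 = 3 := by omega
  rcases hc with hc | hc | hc | hc
  · rw [if_neg (by omega), if_neg (by omega), if_pos (by omega), if_pos hc]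
    simp
  · rw [if_neg (by omega), if_neg (by omega), if_neg (by omega), if_neg (by omega), if_pos hc]
    simp
  · rw [if_pos (by omega), if_neg (by omega), if_neg (by omega), if_pos hc]
  · rw [if_neg (by omega), if_pos (by omega), if_neg (by omega), if_neg (by omega),
      if_neg (by omega)]
    simp

/-- the choice of the shift -/
lemma shift (a b : Fin 4) : ∃ δ : ℤ, (δ = 0 ∧ (a = b ∨ a = b + 2)) ∨
    (δ = 1 ∧ (a = b + 1 ∨ a = b + 3)) := by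
  by_cases h : a = b ∨ a = b + 2
  · exact ⟨0, Or.inl ⟨rfl, h⟩⟩
  · refine ⟨1, Or.inr ⟨rfl, ?_⟩⟩
    revert a b
    decide

/-- the stopping set -/
noncomputable def UJ (r k L : ℤ) (e e' : ℤ × ℤ) (W ω : Finset (ℤ × ℤ)) : Finset (ℤ × ℤ) :=
  U4 (BB r) e (ω ∪ W) ∪ U4 (BB L \ BB k) e' (ω ∪ W)

lemma UJ_mix (r k L : ℤ) (e e' : ℤ × ℤ) (W ω ω' : Finset (ℤ × ℤ)) :
    UJ r k L e e' W (mix (UJ r k L e e' W ω) ω ω') = UJ r k L e e' W ω := by
  have h1 : U4 (BB r) e (mix (UJ r k L e e' W ω) ω ω' ∪ W) = U4 (BB r) e (ω ∪ W) := by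
    refine (A4_local ?_).2.1
    intro a ha _
    have : a ∈ UJ r k L e e' W ω := mem_union_left _ ha
    rw [mem_union, mem_union, mem_mix]
    tauto
  have h2 : U4 (BB L \ BB k) e' (mix (UJ r k L e e' W ω) ω ω' ∪ W) =
      U4 (BB L \ BB k) e' (ω ∪ W) := by
    refine (A4_local ?_).2.1
    intro a ha _
    have : a ∈ UJ r k L e e' W ω := mem_union_right _ ha
    rw [mem_union, mem_union, mem_mix]
    tauto
  unfold UJ
  unfold UJ at h1 h2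
  rw [h1, h2]

lemma mix_env (U W ω ω' : Finset (ℤ × ℤ)) : mix U (ω ∪ W) (ω' ∪ W) = mix U ω ω' ∪ W := by
  ext a
  rw [mem_mix, mem_union, mem_union, mem_union, mem_mix]
  tauto

/-- the fresh event -/
def YJ (s R0 K0 r k L : ℤ) (e e' : ℤ × ℤ) (E W ω ω' : Finset (ℤ × ℤ)) : Prop :=
  ∃ (a b : Fin 4) (σ y h τ z h' : Fin 4 → ℤ) (δ : ℤ),
    Keys (R0 - 10) 8 σ y ∧ Keys (K0 - 70) 8 τ z ∧ GI r s e a σ y h (ω ∪ W) ∧
    GO k s (BB L \ BB k) e' b τ z h' (ω ∪ W) ∧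
    ((δ = 0 ∧ (a = b ∨ a = b + 2)) ∨ (δ = 1 ∧ (a = b + 1 ∨ a = b + 3))) ∧
    ∀ i, ArmE s (i + a) (Arm R0 K0 δ σ y τ z i) (σ i) (2 * r) (h i) True
      (τ (jj δ i) + 2) (-(2 * k) - 1) (h' (jj δ i)) E ω'

/-- labels near the cells of the arms -/
lemma near {s K0 k : ℤ} (hs : 3 ≤ s) (hk : 4 * s * (2 * K0 + 1) + 2 ≤ k)
    {l c : ℤ × ℤ} (hp : (l.1 + l.2) % 2 = 1)
    (hc : (-K0 ≤ c.1 ∧ c.1 ≤ K0) ∧ (-K0 ≤ c.2 ∧ c.2 ≤ K0))
    (h1 : 16 * s * c.1 - 16 * s ≤ l.1) (h2 : l.1 ≤ 16 * s * c.1 + 16 * s)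
    (h3 : 16 * s * c.2 - 16 * s ≤ l.2) (h4 : l.2 ≤ 16 * s * c.2 + 16 * s) :
    l ∈ BB (k + 10 * s) := by
  rw [mem_BBj]
  obtain ⟨⟨a1, a2⟩, a3, a4⟩ := hc
  have e1 : 16 * s * c.1 ≤ 16 * s * K0 := by nlinarith
  have e2 : -(16 * s * K0) ≤ 16 * s * c.1 := by nlinarith
  have e3 : 16 * s * c.2 ≤ 16 * s * K0 := by nlinarith
  have e4 : -(16 * s * K0) ≤ 16 * s * c.2 := by nlinarith
  have e5 : 16 * s * K0 + 8 * s + 4 ≤ 2 * k := by nlinarith
  refine ⟨⟨⟨?_, ?_⟩, ?_, ?_⟩, hp⟩ <;> linarith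

end JoinAux

open JoinAux

theorem JOIN {q : ℤ × ℤ → ℝ} (hq : Pb q) {c : ℝ} (hc : 0 ≤ c) (hc1 : c ≤ 1)
    {s R0 K0 r k L : ℤ} (hs : 3 ≤ s) (hR0 : 45 ≤ R0) (hK0 : R0 + 140 ≤ K0)
    (hr : 4 * s * (2 * R0 + 1) - s ≤ r ∧ r ≤ 4 * s * (2 * R0 + 1) - 2)
    (hk : 4 * s * (2 * K0 + 1) + 2 ≤ k ∧ k ≤ 4 * s * (2 * K0 + 1) + s - 1) (hL : 2 * k ≤ L)
    (h : RSM q c (8 * s)) {e e' : ℤ × ℤ} (he : (e.1 + e.2) % 2 = 1) (he' : (e'.1 + e'.2) % 2 = 1)
    (heB : e ∈ BB r) {E W : Finset (ℤ × ℤ)} (hE : BB (k + 10 * s) ⊆ E) (hEL : E ⊆ BB (L - 1))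
    (hWL : W ⊆ BB (L - 1)) (he'L : e' ∈ BB (L - 1)) (hWE : Disjoint W E) (he'E : e' ∉ E)
    (he'W : e' ∉ W) :
    PrP q E (fun ω => OutSep k s K0 (BB L \ BB k) e' (ω ∪ W)) * PrP q E (InSep r s R0 e) *
      c ^ (4 * (4 * ((2 * K0 + 1) ^ 2).toNat + 8 * CC.card)) ≤
      PrP q E (fun ω => Pv e' e (ω ∪ W)) := by
  have hrk : r ≤ k := by nlinarith [hr.2, hk.1]
  have hkE : BB k ⊆ E := (BB_mono (by omega)).trans hE
  have hrE : BB r ⊆ E := (BB_mono hrk).trans hkE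
  have hk1 : 1 ≤ k := by nlinarith [hk.1]
  have hBL : BB (L - 1) ⊆ BB L := BB_mono (by omega)
  -- independence
  have ind1 : PrP q E (fun ω => OutSep k s K0 (BB L \ BB k) e' (ω ∪ W)) * PrP q E (InSep r s R0 e) =
      PrP q E (fun ω => OutSep k s K0 (BB L \ BB k) e' (ω ∪ W) ∧ InSep r s R0 e (ω ∪ W)) := by
    have o1 : ∀ ω, ω ⊆ E → (OutSep k s K0 (BB L \ BB k) e' (ω ∪ W) ↔
        OutSep k s K0 (BB L \ BB k) e' (ω ∩ (E \ BB k) ∪ W)) := by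
      intro ω hω
      refine OutSep_local fun a ha => ?_
      have h1 := (mem_sdiff.1 ha).2
      rw [mem_union, mem_union, mem_inter, mem_sdiff]
      constructor
      · rintro (h2 | h2)
        · exact Or.inl ⟨h2, hω h2, h1⟩
        · exact Or.inr h2
      · rintro (h2 | h2)
        · exact Or.inl h2.1
        · exact Or.inr h2
    have o2 : ∀ ω : Finset (ℤ × ℤ), InSep r s R0 e ω ↔ InSep r s R0 e (ω ∩ BB r) := by
      intro ω
      refine InSep_local fun a ha => ?_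
      rw [mem_inter]
      tauto
    have o3 : ∀ ω : Finset (ℤ × ℤ), InSep r s R0 e (ω ∪ W) ↔ InSep r s R0 e (ω ∩ BB r) := by
      intro ω
      refine InSep_local fun a ha => ?_
      rw [mem_inter, mem_union]
      have : a ∉ W := fun hW => Finset.disjoint_left.1 hWE hW (hrE ha)
      tauto
    have p1 : PrP q E (fun ω => OutSep k s K0 (BB L \ BB k) e' (ω ∪ W)) =
        PrP q (E \ BB k) (fun η => OutSep k s K0 (BB L \ BB k) e' (η ∪ W)) := by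
      rw [← PrP_restrict q (sdiff_subset (s := E) (t := BB k))]
      exact PrP_congr fun ω hω => o1 ω hω
    have p2 : PrP q E (InSep r s R0 e) = PrP q (BB r) (InSep r s R0 e) := by
      rw [← PrP_restrict q hrE]
      exact PrP_congr fun ω _ => o2 ω
    rw [p1, p2, ← PrP_indep q sdiff_subset hrE ?_ (fun η => OutSep k s K0 (BB L \ BB k) e' (η ∪ W))
      (InSep r s R0 e)]
    · refine PrP_congr fun ω hω => ?_
      rw [← o1 ω hω, ← o3 ω]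
    · rw [Finset.disjoint_left]
      intro a h1 h2
      exact (mem_sdiff.1 h1).2 (BB_mono hrk h2)
  rw [ind1]
  refine resampleP hq E (UJ r k L e e' W) (fun ω ω' _ _ => UJ_mix r k L e e' W ω ω')
    (fun ω => Pv e' e (ω ∪ W)) _ (YJ s R0 K0 r k L e e' E W) _ ?_ ?_
  · -- probability of the fresh event
    rintro ω hω ⟨⟨b, τ, z, h', kO, gO⟩, a, σ, y, hh, kI, gI⟩
    obtain ⟨δ, hδ⟩ := shift a b
    have hδ' : δ = 0 ∨ δ = 1 := by rcases hδ with h1 | h1 <;> omega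
    refine (prob_Y hq hc hc1 hs h (E := E) (S := fun i => Arm R0 K0 δ σ y τ z i)
      (κ := fun i => i + a) (φ1 := σ) (X1 := fun _ => 2 * r) (h1 := hh) (y1 := y)
      (ρ1 := fun _ => R0 + 1) (φ2 := fun i => τ (jj δ i) + 2) (X2 := fun _ => -(2 * k) - 1)
      (h2 := fun i => h' (jj δ i)) (y2 := fun i => -z (jj δ i)) (ρ2 := fun _ => -K0) (two := True)
      (fun i => Arm_card hR0 hK0 hδ' kI kO i)
      (fun i j hij c hc c' hc' => Arm_far hR0 hK0 hδ' kI kO hij hc hc')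
      ?_ ?_ ?_ ?_ ?_ ?_ ?_ ?_ ?_).trans ?_
    · intro i l hp ⟨c, hc, ⟨c1, c2⟩, c3, c4⟩
      have hA := Arm_inA hR0 hK0 hδ' kI kO hc
      refine hE (near hs hk.1 hp ?_ c1 c2 c3 c4)
      unfold InA at hA
      omega
    · intro i
      have := (kI.1 i).1
      omega
    · intro i
      have := (kO.1 (jj δ i)).1
      omega
    · intro i
      exact ⟨(Arm_link hR0 hK0 hδ' kI kO i).1.1, (Arm_link hR0 hK0 hδ' kI kO i).1.2.1⟩
    · intro _ i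
      obtain ⟨-, ⟨l1, l2, -⟩, -⟩ := Arm_link hR0 hK0 hδ' kI kO i
      constructor
      · rw [rad_opp]; exact l1
      · have : -z (jj δ i) - 1 = -(z (jj δ i) + 1) := by ring
        rw [this, rad_opp]; exact l2
    · exact fun i => (gI i).1
    · exact fun i => (gO (jj δ i)).1
    · intro i
      constructor <;> nlinarith [hr.1, hr.2]
    · intro i
      constructor <;> nlinarith [hk.1, hk.2]
    · exact PrP_mono hq fun ω' _ hω' => ⟨a, b, σ, y, hh, τ, z, h', δ, kI, kO, gI, gO, hδ, hω'⟩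
  · -- the gluing
    rintro ω ω' hω hω' - ⟨a, b, σ, y, hh, τ, z, h', δ, kI, kO, gI, gO, hδ, hY⟩
    have hEG : E ⊆ BB L := hEL.trans hBL
    have hH : Hole k L e' (ω ∪ W) := ⟨hk1, he', he'L, fun hm => he'E (hkE hm),
      union_subset (hω.trans hEL) hWL⟩
    have hJ := join_det hs hR0 hK0 hr hk hL he heB (G := BB L) (ω := ω ∪ W) (ω'' := ω' ∪ W)
      (Subset.refl _) hH (union_subset (hω'.trans hEL) hWL) kI kO gI gO hδ
      (fun i hi => ⟨NO_env ((hY i).1 hi).1, HO_env ((hY i).1 hi).2.1,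
        HO_env (((hY i).1 hi).2.2 trivial)⟩)
      (fun i hi => ⟨ND_env hEG hWE ((hY i).2 hi).1, HD_env hEG hWE ((hY i).2 hi).2.1,
        HD_env hEG hWE (((hY i).2 hi).2.2 trivial)⟩)
    rw [mix_env] at hJ
    exact hJ

end Pool.Agent.H81.NC
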