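import Mathlib
import Pool.Agent.H81.NC.Win
import Pool.Agent.H99.NC.Russo
import Pool.Agent.H75.TwoArm.Decay
import Pool.Agent.H75.Four.FOther

set_option autoImplicit false
open Finset

/-! JOB C (helper29): the cross event of an edge makes it pivotal for the crossing of the box. -/

namespace Pool.Agent.H81.NC

open Pool.Agent.H75.Perc Pool.Agent.H75.TwoArm Pool.Agent.H75.Four Pool.Agent.H99.NC

namespace CrossPivAux

/-- first exit from a rectangle -/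
lemma stop_box {η C : Finset (ℤ × ℤ)} {u v : ℤ × ℤ} {a b c d : ℤ} (h : Co (η ∩ C) u v)
    (hu : inB a b c d u) (hv : ¬ inB a b c d v) :
    ∃ z z', inB a b c d z ∧ ¬ inB a b c d z' ∧ Ad (η ∩ C) z z' ∧ Co (η ∩ Bx a b c d) u z := by
  obtain ⟨z, z', h1, h2, h3, h4, -⟩ := exit_co (X := inB a b c d) h hu hv
  refine ⟨z, z', h1, h2, h3, ?_⟩
  have h5 := CoX.box (X := inB a b c d) (fun z hz => hz) h4 hu
  exact h5.mono (inter_subset_inter inter_subset_left (Subset.refl _))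

/-- extend the stopped path by one step -/
lemma extend {η C : Finset (ℤ × ℤ)} {u z z' : ℤ × ℤ} {a b c d a' b' c' d' : ℤ}
    (h : Co (η ∩ Bx a b c d) u z) (h1 : a' ≤ a) (h2 : b ≤ b') (h3 : c' ≤ c) (h4 : d ≤ d')
    (hz : inB a b c d z) (hz' : inB a' b' c' d' z') (hAd : Ad (η ∩ C) z z') :
    Co (η ∩ Bx a' b' c' d') u z' := by
  refine (h.mono (inter_subset_inter (Subset.refl _) (Bx_sub h1 h2 h3 h4))).trans
    (Relation.ReflTransGen.single ⟨hAd.1, mem_inter.2 ⟨(mem_inter.1 hAd.2).1, ?_⟩⟩)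
  refine add_mem_Bx hAd.1 ?_ hz'
  unfold inB at hz ⊢
  omega

/-- ends of an edge of a corridor -/
lemma ends {R w : ℤ} (hR : 4 * w ≤ R) {η : Finset (ℤ × ℤ)} {z z' : ℤ × ℤ} {i : Fin 4}
    (h : Ad (η ∩ Pool.Agent.H65.Four.CR R w i) z z') :
    ((i = 0 → -R ≤ z'.1 ∧ -R ≤ z'.2 ∧ z'.2 ≤ R) ∧ (i = 1 → -R ≤ z'.1 ∧ z'.1 ≤ R ∧ -R ≤ z'.2)) ∧
    ((i = 2 → z'.1 ≤ R ∧ -R ≤ z'.2 ∧ z'.2 ≤ R) ∧ (i = 3 → -R ≤ z'.1 ∧ z'.1 ≤ R ∧ z'.2 ≤ R)) := by
  have h1 := (mem_inter.1 h.2).2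
  have h2 := unit_cases h.1
  unfold Pool.Agent.H65.Four.CR at h1
  rw [mem_union] at h1
  unfold Pool.Agent.H75.TwoArm.BB at h1
  refine ⟨⟨?_, ?_⟩, ?_, ?_⟩
  · rintro rfl
    simp only [Matrix.cons_val_zero, mem_Bx, Prod.fst_add, Prod.snd_add] at h1
    omega
  · rintro rfl
    simp only [Matrix.cons_val_one, Matrix.cons_val_zero, mem_Bx, Prod.fst_add, Prod.snd_add] at h1
    omega
  · rintro rfl
    simp only [Matrix.cons_val, mem_Bx, Prod.fst_add, Prod.snd_add] at h1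
    omega
  · rintro rfl
    simp only [Matrix.cons_val, mem_Bx, Prod.fst_add, Prod.snd_add] at h1
    omega

lemma du_mono_left {E ω ω' : Finset (ℤ × ℤ)} (h : ω' ⊆ ω) : du E ω ⊆ du E ω' := by
  unfold du
  exact map_subset_map.2 (sdiff_subset_sdiff (Subset.refl _) h)

end CrossPivAux

open CrossPivAux

theorem CSe_Piv {R w n : ℤ} {e : ℤ × ℤ} {ω : Finset (ℤ × ℤ)} (hw : 1 ≤ w) (hR : 4 * w ≤ R)
    (hn : R + 1 ≤ n ∧ n + 1 ≤ R + 4 * w) (he : (e.1 + e.2) % 2 = 1) (heB : |e.1| ≤ 1 ∧ |e.2| ≤ 1)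
    (h : CSe R w e ω) : Pool.Agent.H99.NC.Piv (HC (-n) n (-n) n) e ω := by
  obtain ⟨a, b, f, g, q0, q1, q2, q3, hab, hfg, ⟨h01, h02⟩, ⟨h11, h12⟩, ⟨h21, h22⟩, ⟨h31, h32⟩⟩ := h
  obtain ⟨o1, o2, l1, l2, v1, v2⟩ := opc_zu he
  obtain ⟨hn1, hn2⟩ := hn
  have he1 := abs_le.1 heB.1
  have he2 := abs_le.1 heB.2
  -- ends and faces of the edge
  have hu : -1 ≤ (eu e).1 ∧ (eu e).1 ≤ 1 ∧ -1 ≤ (eu e).2 ∧ (eu e).2 ≤ 1 := by
    unfold eu; simp only; omega
  have hv : -1 ≤ (ev e).1 ∧ (ev e).1 ≤ 1 ∧ -1 ≤ (ev e).2 ∧ (ev e).2 ≤ 1 := by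
    unfold ev; simp only; omega
  have hfu : -1 ≤ (fi (zu e)).1 ∧ (fi (zu e)).1 ≤ 2 ∧ -1 ≤ (fi (zu e)).2 ∧ (fi (zu e)).2 ≤ 2 := by
    unfold fi zu
    split_ifs <;> simp only <;> omega
  have hfv : -1 ≤ (fi (zv e)).1 ∧ (fi (zv e)).1 ≤ 2 ∧ -1 ≤ (fi (zv e)).2 ∧ (fi (zv e)).2 ≤ 2 := by
    unfold fi zv
    split_ifs <;> simp only <;> omega
  have haB : -1 ≤ a.1 ∧ a.1 ≤ 1 ∧ -1 ≤ a.2 ∧ a.2 ≤ 1 := by
    rcases hab with ⟨rfl, _⟩ | ⟨rfl, _⟩ <;> assumption
  have hbB : -1 ≤ b.1 ∧ b.1 ≤ 1 ∧ -1 ≤ b.2 ∧ b.2 ≤ 1 := by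
    rcases hab with ⟨_, rfl⟩ | ⟨_, rfl⟩ <;> assumption
  have hfB : -1 ≤ f.1 ∧ f.1 ≤ 2 ∧ -1 ≤ f.2 ∧ f.2 ≤ 2 := by
    rcases hfg with ⟨rfl, _⟩ | ⟨rfl, _⟩ <;> assumption
  have hgB : -1 ≤ g.1 ∧ g.1 ≤ 2 ∧ -1 ≤ g.2 ∧ g.2 ≤ 2 := by
    rcases hfg with ⟨_, rfl⟩ | ⟨_, rfl⟩ <;> assumption
  have hn5 : 5 ≤ n := by omega
  -- the edge `ab`
  have hadj : IsUnit4 (b - a) ∧ a + b = e := by
    have h1 := vx_nxO (zu e)
    rw [(nxO_opc (zu e)).1, o1, l1, v1, v2] at h1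
    rcases hab with ⟨rfl, rfl⟩ | ⟨rfl, rfl⟩
    · exact h1
    · refine ⟨?_, by rw [add_comm]; exact h1.2⟩
      have := isUnit4_neg h1.1
      rwa [neg_sub] at this
  have hadjd : IsUnit4 (g - f) ∧ f + g = e + (1, 1) := by
    have h1 := StrandAux.fi_nxC (zu e)
    rw [(nxC_opc (zu e)).2, o1, l1] at h1
    rcases hfg with ⟨rfl, rfl⟩ | ⟨rfl, rfl⟩
    · exact h1
    · refine ⟨?_, by rw [add_comm]; exact h1.2⟩
      have := isUnit4_neg h1.1
      rwa [neg_sub] at this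
  constructor
  · -- the open crossing
    obtain ⟨z, z', hz, hz', hAd, hco⟩ := stop_box (a := -n) (b := n - 1) (c := -n) (d := n) h02
      (by unfold inB; omega) (by unfold inB; omega)
    obtain ⟨y, y', hy, hy', hAd', hco'⟩ := stop_box (a := -n + 1) (b := n) (c := -n) (d := n) h22
      (by unfold inB; omega) (by unfold inB; omega)
    have e1 := (ends hR hAd).1.1 rfl
    have e2 := (ends hR hAd').2.1 rfl
    have u1 := unit_cases hAd.1
    have u2 := unit_cases hAd'.1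
    have z1 : z'.1 = n := by unfold inB at hz hz'; omega
    have y1 : y'.1 = -n := by unfold inB at hy hy'; omega
    have zb : inB (-n) n (-n) n z' := by unfold inB at hz ⊢; omega
    have yb : inB (-n) n (-n) n y' := by unfold inB at hy ⊢; omega
    have c1 := extend hco (a' := -n) (b' := n) (c' := -n) (d' := n) le_rfl (by omega) le_rfl le_rfl
      hz zb hAd
    have c2 := extend hco' (a' := -n) (b' := n) (c' := -n) (d' := n) (by omega) le_rfl le_rfl le_rfl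
      hy yb hAd'
    have sub : ω.erase e ∩ Bx (-n) n (-n) n ⊆ insert e ω ∩ Bx (-n) n (-n) n :=
      inter_subset_inter (fun x hx => mem_insert_of_mem (mem_of_mem_erase hx)) (Subset.refl _)
    refine ⟨y', z', yb, y1, z1, ?_⟩
    refine ((c2.mono sub).symm.trans (Relation.ReflTransGen.single
      (a := b) (b := a) ⟨?_, ?_⟩)).trans (c1.mono sub)
    · have := isUnit4_neg hadj.1
      rwa [neg_sub] at this
    · rw [add_comm, mem_inter]
      refine ⟨by rw [hadj.2]; exact mem_insert_self _ _, ?_⟩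
      exact add_mem_Bx hadj.1 (by unfold inB; omega) (by unfold inB; omega)
  · -- the dual crossing
    intro hHC
    refine no_cross (E := Pool.Agent.H75.TwoArm.BB (R + 8 * w)) hHC ?_
    obtain ⟨z, z', hz, hz', hAd, hco⟩ := stop_box (a := -n + 1) (b := n) (c := -n) (d := n) h12
      (by unfold inB; omega) (by unfold inB; omega)
    obtain ⟨y, y', hy, hy', hAd', hco'⟩ := stop_box (a := -n + 1) (b := n) (c := -n + 1)
      (d := n + 1) h32 (by unfold inB; omega) (by unfold inB; omega)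
    have e1 := (ends hR hAd).1.2 rfl
    have e2 := (ends hR hAd').2.2 rfl
    have u1 := unit_cases hAd.1
    have u2 := unit_cases hAd'.1
    have z1 : z'.2 = n + 1 := by unfold inB at hz hz'; omega
    have y1 : y'.2 = -n := by unfold inB at hy hy'; omega
    have zb : inB (-n + 1) n (-n) (n + 1) z' := by unfold inB at hz ⊢; omega
    have yb : inB (-n + 1) n (-n) (n + 1) y' := by unfold inB at hy ⊢; omega
    have c1 := extend hco (a' := -n + 1) (b' := n) (c' := -n) (d' := n + 1) le_rfl le_rfl le_rfl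
      (by omega) hz zb hAd
    have c2 := extend hco' (a' := -n + 1) (b' := n) (c' := -n) (d' := n + 1) le_rfl le_rfl (by omega)
      le_rfl hy yb hAd'
    have sub : du (Pool.Agent.H75.TwoArm.BB (R + 8 * w)) (insert e ω) ∩ Bx (-n + 1) n (-n) (n + 1) ⊆
        du (Pool.Agent.H75.TwoArm.BB (R + 8 * w)) (ω.erase e) ∩ Bx (-n + 1) n (-n) (n + 1) :=
      inter_subset_inter (du_mono_left (fun x hx => mem_insert_of_mem (mem_of_mem_erase hx)))
        (Subset.refl _)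
    refine ⟨y', z', yb, y1, z1, ?_⟩
    refine ((c2.mono sub).symm.trans (Relation.ReflTransGen.single
      (a := g) (b := f) ⟨?_, ?_⟩)).trans (c1.mono sub)
    · have := isUnit4_neg hadjd.1
      rwa [neg_sub] at this
    · rw [add_comm g f, mem_inter]
      constructor
      · rw [hadjd.2]
        refine StrandAux.mem_du ?_ (notMem_erase e ω)
        unfold Pool.Agent.H75.TwoArm.BB
        rw [mem_Bx]
        omega
      · exact add_mem_Bx hadjd.1 (by unfold inB; omega) (by unfold inB; omega)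

end Pool.Agent.H81.NC
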