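import Mathlib
import Pool.Agent.H81.NC.Defs
import Pool.Agent.H47.NC.Ifc

set_option autoImplicit false
open Finset

/-! Translations of the environment. -/

namespace Pool.Agent.H81.NC

open Pool.Agent.H75.Perc Pool.Agent.H75.TwoArm Pool.Agent.H75.Four Pool.Agent.H99.NC

namespace EnvTrAux

lemma G_eq (x e : ℤ × ℤ) : (syT x).G e = e + x + x := by
  refine Prod.ext ?_ ?_ <;>
    simp only [syT, Function.Embedding.coeFn_mk, Prod.fst_add, Prod.snd_add] <;> ring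

lemma Bx_map (a b c d : ℤ) (x : ℤ × ℤ) :
    (Bx (a - x.1) (b - x.1) (c - x.2) (d - x.2)).map (syT x).G = Bx a b c d := by
  apply (syT x).map_eq
  intro e
  rw [mem_Bx, mem_Bx]
  simp only [syT]
  omega

lemma BB_map (x : ℤ × ℤ) (k : ℤ) : (BB k).map (syT x).G = Pool.Agent.H47.NC.Bq x k := by
  apply (syT x).map_eq
  intro e
  unfold Pool.Agent.H75.TwoArm.BB Pool.Agent.H47.NC.Bq
  rw [mem_Bx, mem_Bx]
  simp only [syT]
  omega

lemma q_eq (q : ℤ × ℤ → ℝ) (x : ℤ × ℤ) : (fun e => q ((syT x).G e)) = fun e => q (e + x + x) := by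
  funext e; rw [G_eq]

lemma Ex_tr (q : ℤ × ℤ → ℝ) (x : ℤ × ℤ) (E : Finset (ℤ × ℤ)) (f : Finset (ℤ × ℤ) → ℝ) :
    Ex q (E.map (syT x).G) f = Ex (fun e => q (e + x + x)) E (fun ω => f (ω.map (syT x).G)) := by
  rw [Ex_map, q_eq]

lemma PrP_tr (q : ℤ × ℤ → ℝ) (x : ℤ × ℤ) (E : Finset (ℤ × ℤ)) (A : Finset (ℤ × ℤ) → Prop) :
    PrP q (E.map (syT x).G) A =
      PrP (fun e => q (e + x + x)) E (fun ω => A (ω.map (syT x).G)) := Ex_tr q x E _

lemma HC_tr (a b c d : ℤ) (x : ℤ × ℤ) (ω : Finset (ℤ × ℤ)) :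
    HC a b c d (ω.map (syT x).G) ↔ HC (a - x.1) (b - x.1) (c - x.2) (d - x.2) ω := by
  have := HC_shift (a - x.1) (b - x.1) (c - x.2) (d - x.2) x.1 x.2 ω
  rw [sub_add_cancel, sub_add_cancel, sub_add_cancel, sub_add_cancel] at this
  exact this

lemma VC_tr (a b c d : ℤ) (x : ℤ × ℤ) (ω : Finset (ℤ × ℤ)) :
    VC a b c d (ω.map (syT x).G) ↔ VC (a - x.1) (b - x.1) (c - x.2) (d - x.2) ω := by
  have hE : ∀ e, e ∈ Bx a b c d ↔
      (syT x).G' e ∈ Bx (a - x.1) (b - x.1) (c - x.2) (d - x.2) := by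
    intro e
    rw [mem_Bx, mem_Bx]
    simp only [syT]
    omega
  unfold VC
  rw [(syT x).map_inter ω hE]
  constructor
  · rintro ⟨p, q, h1, h2, h3, h4⟩
    refine ⟨p - x, q - x, ?_, ?_, ?_, ?_⟩
    · unfold inB at h1 ⊢
      simp only [Prod.fst_sub, Prod.snd_sub]; omega
    · simp only [Prod.snd_sub]; omega
    · simp only [Prod.snd_sub]; omega
    · rw [← (syT x).co_iff]
      simpa [syT] using h4
  · rintro ⟨p, q, h1, h2, h3, h4⟩
    refine ⟨p + x, q + x, ?_, ?_, ?_, ?_⟩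
    · unfold inB at h1 ⊢
      simp only [Prod.fst_add, Prod.snd_add]; omega
    · simp only [Prod.snd_add]; omega
    · simp only [Prod.snd_add]; omega
    · rw [← (syT x).co_iff] at h4
      exact h4

lemma Va_tr (q : ℤ × ℤ → ℝ) (x : ℤ × ℤ) (E : Finset (ℤ × ℤ)) (f : Finset (ℤ × ℤ) → ℝ) :
    Va q (E.map (syT x).G) f =
      Va (fun e => q (e + x + x)) E (fun ω => f (ω.map (syT x).G)) := by
  unfold Va
  rw [Ex_tr, Ex_tr]

lemma RS_tr {q : ℤ × ℤ → ℝ} {c : ℝ} {w : ℤ} (x : ℤ × ℤ) (h : RS q c w) :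
    RS (fun e => q (e + x + x)) c w := by
  intro a b
  obtain ⟨h1, h2⟩ := h (a + x.1) (b + x.2)
  rw [← Bx_map _ _ _ _ x, PrP_tr] at h1 h2
  have e1 : a + x.1 - x.1 = a := by ring
  have e2 : a + x.1 + 2 * w - x.1 = a + 2 * w := by ring
  have e3 : b + x.2 - x.2 = b := by ring
  have e4 : b + x.2 + w - x.2 = b + w := by ring
  have e5 : a + x.1 + w - x.1 = a + w := by ring
  have e6 : b + x.2 + 2 * w - x.2 = b + 2 * w := by ring
  simp only [HC_tr, VC_tr, e1, e2, e3, e4, e5, e6] at h1 h2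
  exact ⟨h1, h2⟩

end EnvTrAux

open EnvTrAux

theorem VD_tr (q : ℤ × ℤ → ℝ) (a b c d : ℤ) (x : ℤ × ℤ) (k : ℤ) :
    Pool.Agent.H47.NC.VD q a b c d x k =
      PrP (fun e => q (e + x + x)) (Bx (a - x.1) (b - x.1) (c - x.2) (d - x.2))
        (Pool.Agent.H47.NC.BP (HC (a - x.1) (b - x.1) (c - x.2) (d - x.2)) (BB k)) := by
  unfold Pool.Agent.H47.NC.VD
  rw [← Bx_map a b c d x, PrP_tr]
  refine PrP_congr fun ω _ => ?_
  unfold Pool.Agent.H47.NC.BP
  rw [← BB_map, ← map_union, ← Finset.map_sdiff, HC_tr, HC_tr]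

theorem Piv_tr (q : ℤ × ℤ → ℝ) (a b c d : ℤ) (x e : ℤ × ℤ) :
    PrP q (Bx a b c d) (Piv (HC a b c d) e) =
      PrP (fun e => q (e + x + x)) (Bx (a - x.1) (b - x.1) (c - x.2) (d - x.2))
        (Piv (HC (a - x.1) (b - x.1) (c - x.2) (d - x.2)) (e - x - x)) := by
  rw [← Bx_map a b c d x, PrP_tr]
  refine PrP_congr fun ω _ => ?_
  unfold Piv
  have he : e = (syT x).G (e - x - x) := by rw [G_eq]; abel
  have h1 : insert e (ω.map (syT x).G) = (insert (e - x - x) ω).map (syT x).G := by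
    rw [map_insert, ← he]
  have h2 : (ω.map (syT x).G).erase e = (ω.erase (e - x - x)).map (syT x).G := by
    rw [map_erase, ← he]
  rw [h1, h2, HC_tr, HC_tr]

theorem cV_tr (q : ℤ × ℤ → ℝ) (a b c d : ℤ) (x : ℤ × ℤ) (k : ℤ) :
    Ex q (Bx a b c d) (cV q (Pool.Agent.H47.NC.Bq x k) (fun ω => ind (HC a b c d ω))) =
      Ex (fun e => q (e + x + x)) (Bx (a - x.1) (b - x.1) (c - x.2) (d - x.2))
        (cV (fun e => q (e + x + x)) (BB k)
          (fun ω => ind (HC (a - x.1) (b - x.1) (c - x.2) (d - x.2) ω))) := by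
  rw [← Bx_map a b c d x, Ex_tr]
  refine Ex_congr fun ω _ => ?_
  unfold cV
  rw [← BB_map, Va_tr]
  congr 1
  funext y
  rw [← Finset.map_sdiff, ← map_union]
  exact ind_congr (HC_tr a b c d x _)

theorem RSM_tr {q : ℤ × ℤ → ℝ} {c : ℝ} {M : ℤ} (x : ℤ × ℤ) (h : Pool.Agent.H47.NC.RSM q c M) :
    Pb (fun e => q (e + x + x)) ∧ RSM (fun e => q (e + x + x)) c M := by
  refine ⟨fun e => h.1 _, fun w h1 h2 => ?_⟩
  obtain ⟨h3, h4⟩ := h.2 w h1 h2
  refine ⟨RS_tr x h3, ?_⟩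
  have h5 := RS_tr x h4
  have h6 : (fun e => Pool.Agent.H69.NC.dq q (e + x + x)) =
      fun e : ℤ × ℤ => 1 - q (e - (1, 1) + x + x) := by
    funext e
    unfold Pool.Agent.H69.NC.dq
    congr 2
    refine Prod.ext ?_ ?_ <;>
      simp only [Prod.fst_add, Prod.snd_add, Prod.fst_sub, Prod.snd_sub] <;> ring
  rw [h6] at h5
  exact h5

end Pool.Agent.H81.NC
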