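import Mathlib
import Pool.Agent.H81.NC.EnvTr0
import Pool.Agent.H75.Four.FArm

set_option autoImplicit false
open Finset

/-! Translations of the four-arm event. -/

namespace Pool.Agent.H81.NC

open Pool.Agent.H75.Perc Pool.Agent.H75.TwoArm Pool.Agent.H75.Four Pool.Agent.H99.NC

open EnvTrAux

namespace EnvTrAux

lemma bd_iff {m : ℤ} {W : Finset (ℤ × ℤ)} (hW : W ⊆ BB m) {u : ℤ × ℤ}
    (hu : inB (-m) m (-m) m u) : (∃ v, Pool.Agent.H47.NC.bq (0, 0) m v ∧ Co W u v) ↔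
      ∃ p : ℤ × ℤ, (|p.1| = m ∨ |p.2| = m) ∧ Co W u p := by
  constructor
  · rintro ⟨v, hv, hc⟩
    refine ⟨v, ?_, hc⟩
    unfold Pool.Agent.H47.NC.bq Pool.Agent.H47.NC.bdB inB at hv
    simp only at hv
    rcases hv with ⟨h1, h2⟩
    rcases abs_cases v.1 with ⟨a1, a2⟩ | ⟨a1, a2⟩ <;>
      rcases abs_cases v.2 with ⟨b1, b2⟩ | ⟨b1, b2⟩ <;> omega
  · rintro ⟨v, hv, hc⟩
    refine ⟨v, ?_, hc⟩
    have h1 := hc.inB (a := -m) (b := m) (c := -m) (d := m) hW hu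
    unfold Pool.Agent.H47.NC.bq Pool.Agent.H47.NC.bdB
    unfold inB at h1 ⊢
    simp only
    rcases abs_cases v.1 with ⟨a1, a2⟩ | ⟨a1, a2⟩ <;>
      rcases abs_cases v.2 with ⟨b1, b2⟩ | ⟨b1, b2⟩ <;> omega

lemma F4_A4 {u : ℤ × ℤ} (hu : IsUnit4 u) {m : ℤ} (hm : 1 ≤ m) (ω : Finset (ℤ × ℤ)) :
    Pool.Agent.H47.NC.F4 (0, 0) u m ω ↔ A4 (BB m) u ω := by
  have hpar : (u.1 + u.2) % 2 = 1 := by
    rcases hu with h | h | h | h <;> rw [h] <;> norm_num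
  have huB : u ∈ BB m := by
    unfold Pool.Agent.H75.TwoArm.BB
    rw [mem_Bx]
    refine ⟨?_, ?_, hpar⟩ <;> (rcases hu with h | h | h | h <;> rw [h] <;> simp only <;> omega)
  have hin : inB (-m) m (-m) m u := by
    unfold inB
    rcases hu with h | h | h | h <;> rw [h] <;> simp only <;> omega
  have h0 : inB (-m) m (-m) m (0, 0) := by
    unfold inB
    simp only; omega
  rw [A4_iff_F4 hm hpar huB]
  have e0 : ((0, 0) : ℤ × ℤ) + u = u := by
    refine Prod.ext ?_ ?_ <;> simp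
  have eB : Pool.Agent.H47.NC.Bq (0, 0) m = BB m := by
    unfold Pool.Agent.H47.NC.Bq Pool.Agent.H75.TwoArm.BB
    simp
  have eW : (ω.erase ((0, 0) + u)) ∩ Pool.Agent.H47.NC.Bq (0, 0) m = (ω ∩ BB m).erase u := by
    rw [e0, eB, erase_inter]
  have hW : (ω ∩ BB m).erase u ⊆ BB m := (erase_subset _ _).trans inter_subset_right
  unfold Pool.Agent.H47.NC.F4 Pool.Agent.H75.Four.F4
  rw [eW, bd_iff hW h0, bd_iff hW hin]
  rcases hu with h | h | h | h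
  · have e1 : eu u = (0, 0) := by rw [h]; rfl
    have e2 : ev u = u := by rw [h]; rfl
    rw [e1, e2]
  · have e1 : eu u = (0, 0) := by rw [h]; rfl
    have e2 : ev u = u := by rw [h]; rfl
    rw [e1, e2]
  · have e1 : eu u = u := by rw [h]; rfl
    have e2 : ev u = (0, 0) := by rw [h]; rfl
    rw [e1, e2]
    constructor
    · rintro ⟨h1, h2, h3⟩
      exact ⟨h2, h1, fun h4 => h3 h4.symm⟩
    · rintro ⟨h1, h2, h3⟩
      exact ⟨h2, h1, fun h4 => h3 h4.symm⟩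
  · have e1 : eu u = u := by rw [h]; rfl
    have e2 : ev u = (0, 0) := by rw [h]; rfl
    rw [e1, e2]
    constructor
    · rintro ⟨h1, h2, h3⟩
      exact ⟨h2, h1, fun h4 => h3 h4.symm⟩
    · rintro ⟨h1, h2, h3⟩
      exact ⟨h2, h1, fun h4 => h3 h4.symm⟩

end EnvTrAux

theorem uQ_tr (q : ℤ × ℤ → ℝ) {x y : ℤ × ℤ} (hxy : IsUnit4 (y - x)) {m : ℤ} (hm : 1 ≤ m) :
    Pool.Agent.H47.NC.uQ q x y m =
      PrP (fun e => q (e + x + x)) (BB m) (A4 (BB m) (y - x)) := by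
  unfold Pool.Agent.H47.NC.uQ
  rw [← BB_map, PrP_tr]
  refine PrP_congr fun ω _ => ?_
  rw [← F4_A4 hxy hm]
  have h1 := Pool.Agent.H47.NC.F4_map (syT x) (Pool.Agent.H47.NC.SqS_T x) (0, 0) (y - x) m ω
  have e1 : (syT x).g (0, 0) = x := by
    simp only [syT]
    refine Prod.ext ?_ ?_ <;> simp
  have e2 : (syT x).g (y - x) = y := by
    simp only [syT, sub_add_cancel]
  rw [e1, e2] at h1
  exact h1

end Pool.Agent.H81.NC
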