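import Mathlib
import Pool.Agent.H81.NC.Win
import Pool.Agent.H81.NC.ProbB
import Pool.Agent.H81.NC.ArmO
import Pool.Agent.H81.NC.ArmD
import Pool.Agent.H81.NC.InnerGeo
import Pool.Agent.H81.NC.TransA
import Pool.Agent.H99.NC.Prob
import Pool.Agent.H75.Four.FOther

set_option autoImplicit false
open Finset

/-! JOB D5 (helper7): OUT, the cross. -/

namespace Pool.Agent.H81.NC

open Pool.Agent.H75.Perc Pool.Agent.H75.TwoArm Pool.Agent.H75.Four Pool.Agent.H99.NC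

/-! ### The cross event at the edge `(1,0)` -/

theorem CSe_eq (R w : ℤ) (ω : Finset (ℤ × ℤ)) : CSe R w (1, 0) ω ↔ Pool.Agent.H65.Four.CS R w ω := by
  have e1 : eu (1, 0) = (0, 0) := by decide
  have e2 : ev (1, 0) = (1, 0) := by decide
  have e3 : fi (zu (1, 0)) = (1, 0) := by decide
  have e4 : fi (zv (1, 0)) = (1, 1) := by decide
  unfold CSe Pool.Agent.H65.Four.CS
  rw [e1, e2, e3, e4]

namespace OutAux

/-- the sides of the outer keys: South, East, North, West -/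
def tau : Fin 4 → ℤ := ![-1, 0, 1, 2]

/-- the arm number `i` with two more cells beyond its outer key -/
noncomputable def SX (R0 K0 δ : ℤ) (σ y : Fin 4 → ℤ) (i : Fin 4) : Finset (ℤ × ℤ) :=
  Arm R0 K0 δ σ y tau (fun _ => 0) i ∪
    {rad (tau (jj δ i)) 0 (K0 + 1), rad (tau (jj δ i)) 0 (K0 + 2)}

lemma keys_tau {R0 K0 : ℤ} (hR : 45 ≤ R0) (hK : R0 + 140 ≤ K0) :
    Keys (K0 - 70) 8 tau (fun _ => 0) := by
  refine ⟨fun i => ?_, fun i j hij => ?_⟩
  · fin_cases i <;> simp [tau, Key] <;> omega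
  · revert i j; decide

lemma tau_bd (j : Fin 4) : -1 ≤ tau j ∧ tau j ≤ 2 := by
  revert j; decide

lemma tau_ne {i j : Fin 4} (h : i ≠ j) : (tau j - tau i) % 4 ≠ 0 := by
  revert i j; decide

/-- the outermost part of an arm -/
lemma arm_outer {R0 K0 δ : ℤ} {σ y : Fin 4 → ℤ} (hR : 45 ≤ R0) (hK : R0 + 140 ≤ K0)
    (hδ : δ = 0 ∨ δ = 1)
    (k : Keys (R0 - 10) 8 σ y) {i : Fin 4} {c : ℤ × ℤ}
    (h : c ∈ Arm R0 K0 δ σ y tau (fun _ => 0) i) :
    InA 0 (K0 - 10) c ∨ (∃ ρ, R0 + 60 ≤ ρ ∧ ρ ≤ K0 ∧ c = rad (tau (jj δ i)) 0 ρ) ∨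
      c = rad (tau (jj δ i)) 1 K0 := by
  have pb := pI_bd i
  have pb2 := pO_bd hδ (jj δ i)
  unfold Arm at h
  rw [mem_union, mem_union] at h
  rcases h with (h | h) | h
  · left
    rcases SI_where hR k h with h1 | ⟨ρ, s1, s2, rfl⟩
    · unfold InA at h1 ⊢; omega
    · have := line_inA pb (ρ := ρ) (by omega)
      unfold InA at this ⊢; omega
  · left
    rcases Mid_cases hδ h with ⟨ρ, r1, r2, rfl⟩ | ⟨ρ, r1, r2, rfl⟩ |
      ⟨-, -, t, t1, t2, t3, rfl⟩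
    · have := line_inA pb (ρ := ρ) (by omega)
      unfold InA at this ⊢; omega
    · have := line_inA pb2 (ρ := ρ) (by omega)
      unfold InA at this ⊢; omega
    · have := rg_inA (R := R0 + 50) (t := t) t1 t2
      unfold InA at this ⊢; omega
  · have b := RO_bd (K0 := K0) (δ := δ) (τ := tau) (z := fun _ => 0) (jj δ i)
    have kt := keys_tau hR hK
    have tb := tau_bd (jj δ i)
    rcases SO_cases hR hK hδ kt h with ⟨h1, h2⟩ | h1
    · rcases h1 with ⟨ρ, r1, r2, rfl⟩ | ⟨t, t1, t2, rfl⟩ | ⟨ρ, r1, r2, rfl⟩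
      · right; left
        refine ⟨ρ, by omega, ?_, rfl⟩
        have n1 := rad_inA (σ := tau (jj δ i)) (y := 0) (ρ := ρ) (by omega) (by omega) (by omega)
        rcases h2 with h2 | ⟨ρ', s1, s2, s3⟩
        · unfold InA at n1 h2; omega
        · have n2 := line_inA pb2 (ρ := ρ') (by omega)
          rw [s3] at n2
          unfold InA at n1 n2; omega
      · left
        have ki := kt.1 (jj δ i)
        have hT := ki.TT (R := RO K0 δ tau (fun _ => 0) (jj δ i)) (by omega)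
        simp only at hT
        have n1 := rg_inA (R := RO K0 δ tau (fun _ => 0) (jj δ i)) (t := t) (by omega)
          (by omega)
        unfold InA at n1 ⊢; omega
      · left
        have n1 := line_inA pb2 (ρ := ρ) (by omega)
        unfold InA at n1 ⊢; omega
    · right; right
      rw [h1]
      simp

lemma SX_far {R0 K0 δ : ℤ} {σ y : Fin 4 → ℤ} (hR : 45 ≤ R0) (hK : R0 + 140 ≤ K0)
    (hδ : δ = 0 ∨ δ = 1)
    (k : Keys (R0 - 10) 8 σ y) {i j : Fin 4} (hij : i ≠ j) {c c' : ℤ × ℤ}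
    (h : c ∈ SX R0 K0 δ σ y i) (h' : c' ∈ SX R0 K0 δ σ y j) : Far 4 c c' := by
  -- extra cell against arm
  have EA : ∀ {i j : Fin 4}, i ≠ j → ∀ {ρ : ℤ}, K0 + 1 ≤ ρ → ∀ {c' : ℤ × ℤ},
      c' ∈ Arm R0 K0 δ σ y tau (fun _ => 0) j → Far 4 (rad (tau (jj δ i)) 0 ρ) c' := by
    intro i j hij ρ hρ c' h'
    have t1 := tau_bd (jj δ i)
    have t2 := tau_bd (jj δ j)
    have tn := tau_ne (jj_ne (δ := δ) hij)
    have n1 := rad_inA (σ := tau (jj δ i)) (y := 0) (ρ := ρ) (by omega) (by omega) (by omega)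
    rcases arm_outer hR hK hδ k h' with h1 | ⟨ρ', r1, r2, rfl⟩ | rfl
    · exact (h1.far n1 (by omega)).symm
    · exact rad_rad_far (Y := 1) (Y' := 1) (by omega) (by omega) (by omega) (by omega) (by omega)
        (by omega) (by omega) (fun h => absurd h tn)
    · exact rad_rad_far (Y := 1) (Y' := 1) (by omega) (by omega) (by omega) (by omega) (by omega)
        (by omega) (by omega) (fun h => absurd h tn)
  have EE : ∀ {i j : Fin 4}, i ≠ j → ∀ {ρ ρ' : ℤ}, K0 + 1 ≤ ρ → K0 + 1 ≤ ρ' →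
      Far 4 (rad (tau (jj δ i)) 0 ρ) (rad (tau (jj δ j)) 0 ρ') := by
    intro i j hij ρ ρ' hρ hρ'
    have t1 := tau_bd (jj δ i)
    have t2 := tau_bd (jj δ j)
    have tn := tau_ne (jj_ne (δ := δ) hij)
    exact rad_rad_far (Y := 1) (Y' := 1) (by omega) (by omega) (by omega) (by omega) (by omega)
        (by omega) (by omega) (fun h => absurd h tn)
  have hji := Ne.symm hij
  unfold SX at h h'
  rw [mem_union, mem_insert, mem_singleton] at h h'
  rcases h with h | rfl | rfl <;> rcases h' with h' | rfl | rfl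
  · exact Arm_far hR hK hδ k (keys_tau hR hK) hij h h'
  · exact (EA hji le_rfl h).symm
  · exact (EA hji (by omega) h).symm
  · exact EA hij le_rfl h'
  · exact EE hij le_rfl le_rfl
  · exact EE hij le_rfl (by omega)
  · exact EA hij (by omega) h'
  · exact EE hij (by omega) le_rfl
  · exact EE hij (by omega) (by omega)

lemma SX_inA {R0 K0 δ : ℤ} {σ y : Fin 4 → ℤ} (hR : 45 ≤ R0) (hK : R0 + 140 ≤ K0)
    (hδ : δ = 0 ∨ δ = 1)
    (k : Keys (R0 - 10) 8 σ y) {i : Fin 4} {c : ℤ × ℤ}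
    (h : c ∈ SX R0 K0 δ σ y i) : InA (R0 + 1) K0 c ∨ c = rad (tau (jj δ i)) 0 (K0 + 1) ∨
      c = rad (tau (jj δ i)) 0 (K0 + 2) := by
  unfold SX at h
  rw [mem_union, mem_insert, mem_singleton] at h
  rcases h with h | h | h
  · exact Or.inl (Arm_inA hR hK hδ k (keys_tau hR hK) h)
  · exact Or.inr (Or.inl h)
  · exact Or.inr (Or.inr h)

lemma SX_norm {R0 K0 δ : ℤ} {σ y : Fin 4 → ℤ} (hR : 45 ≤ R0) (hK : R0 + 140 ≤ K0)
    (hδ : δ = 0 ∨ δ = 1)
    (k : Keys (R0 - 10) 8 σ y) {i : Fin 4} {c : ℤ × ℤ}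
    (h : c ∈ SX R0 K0 δ σ y i) : InA (R0 + 1) (K0 + 2) c := by
  have t1 := tau_bd (jj δ i)
  rcases SX_inA hR hK hδ k h with h | rfl | rfl
  · unfold InA at h ⊢; omega
  · have n1 := rad_inA (σ := tau (jj δ i)) (y := 0) (ρ := K0 + 1) (by omega) (by omega) (by omega)
    unfold InA at n1 ⊢; omega
  · have n1 := rad_inA (σ := tau (jj δ i)) (y := 0) (ρ := K0 + 2) (by omega) (by omega) (by omega)
    unfold InA at n1 ⊢; omega

lemma SX_card {R0 K0 δ : ℤ} {σ y : Fin 4 → ℤ} (hR : 45 ≤ R0) (hK : R0 + 140 ≤ K0)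
    (hδ : δ = 0 ∨ δ = 1)
    (k : Keys (R0 - 10) 8 σ y) (i : Fin 4) :
    (SX R0 K0 δ σ y i).card ≤ ((2 * K0 + 5) ^ 2).toNat := by
  have h1 : SX R0 K0 δ σ y i ⊆ CB (K0 + 2) := by
    intro c hc
    have := SX_norm hR hK hδ k hc
    unfold CB
    rw [mem_product, mem_Icc, mem_Icc]
    unfold InA at this
    omega
  refine (card_le_card h1).trans ?_
  unfold CB
  rw [card_product, Int.card_Icc]
  have h2 : 0 ≤ K0 + 2 := by omega
  obtain ⟨n, hn⟩ := Int.eq_ofNat_of_zero_le h2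
  have h3 : (K0 + 2 + 1 - -(K0 + 2)).toNat = 2 * n + 1 := by omega
  have h4 : ((2 * K0 + 5) ^ 2) = (((2 * n + 1) ^ 2 : ℕ) : ℤ) := by
    have : 2 * K0 + 5 = 2 * (n : ℤ) + 1 := by omega
    rw [this]; push_cast; ring
  rw [h3, h4, Int.toNat_natCast]
  exact le_of_eq (by ring)

lemma SX_link {R0 K0 δ : ℤ} {σ y : Fin 4 → ℤ} (hR : 45 ≤ R0) (hK : R0 + 140 ≤ K0)
    (hδ : δ = 0 ∨ δ = 1)
    (k : Keys (R0 - 10) 8 σ y) (i : Fin 4) :
    rad (σ i) (y i) (R0 + 1) ∈ SX R0 K0 δ σ y i ∧ rad (σ i) (y i - 1) (R0 + 1) ∈ SX R0 K0 δ σ y i ∧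
    rad (tau (jj δ i)) 0 (K0 + 2) ∈ SX R0 K0 δ σ y i ∧
    Lk (SX R0 K0 δ σ y i) (rad (σ i) (y i) (R0 + 1)) (rad (tau (jj δ i)) 0 (K0 + 2)) := by
  obtain ⟨⟨a1, a2, -⟩, ⟨b1, -, -⟩, a4⟩ := Arm_link hR hK hδ k (keys_tau hR hK) i
  have m1 : Arm R0 K0 δ σ y tau (fun _ => 0) i ⊆ SX R0 K0 δ σ y i := by
    unfold SX; exact subset_union_left
  have c1 : rad (tau (jj δ i)) 0 (K0 + 1) ∈ SX R0 K0 δ σ y i := by
    unfold SX; exact mem_union_right _ (mem_insert_self _ _)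
  have c2 : rad (tau (jj δ i)) 0 (K0 + 2) ∈ SX R0 K0 δ σ y i := by
    unfold SX; exact mem_union_right _ (mem_insert_of_mem (mem_singleton_self _))
  have s1 : IsUnit4 (rad (tau (jj δ i)) 0 (K0 + 1) - rad (tau (jj δ i)) 0 K0) := by
    have := rad_step (tau (jj δ i)) 0 K0
    exact this
  have s2 : IsUnit4 (rad (tau (jj δ i)) 0 (K0 + 2) - rad (tau (jj δ i)) 0 (K0 + 1)) := by
    have := rad_step (tau (jj δ i)) 0 (K0 + 1)
    rwa [show K0 + 1 + 1 = K0 + 2 by ring] at this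
  refine ⟨m1 a1, m1 a2, c2, (a4.mono m1).trans ?_⟩
  exact (Relation.ReflTransGen.single ⟨m1 b1, c1, s1⟩).tail ⟨c1, c2, s2⟩

/-! ### Four arms from separated exits -/

lemma exit_ne {r s R0 : ℤ} {a : Fin 4} {e : ℤ × ℤ} {σ y h : Fin 4 → ℤ} {ω : Finset (ℤ × ℤ)}
    (hs : 3 ≤ s)
    (hr : 4 * s * (2 * R0 + 1) - s ≤ r ∧ r ≤ 4 * s * (2 * R0 + 1) - 2)
    (k : Keys (R0 - 10) 8 σ y) (hG : GI r s e a σ y h ω) {i j : Fin 4} (hij : i ≠ j) :
    crn (σ i) (2 * r + 1, h i) ≠ crn (σ j) (2 * r + 1, h j) := by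
  intro hc
  have key : ∀ i j : Fin 4, i < j → crn (σ i) (2 * r + 1, h i) ≠ crn (σ j) (2 * r + 1, h j) := by
    intro i j hij hc
    have hs' := k.sep hij
    have k1 := k.1 i
    have k2 := k.1 j
    have w1 := (hG i).1
    have w2 := (hG j).1
    unfold Row at w1 w2
    have bd : ∀ y : ℤ, -(R0 - 10) ≤ y → y ≤ R0 - 10 → ∀ h : ℤ,
        2 * (8 * s * (y - 1) - 4 * s) ≤ h → h < 2 * (8 * s * (y - 1) + 4 * s) →
        -(2 * r) < h ∧ h < 2 * r ∧ -(2 * r) < 1 - h ∧ 1 - h < 2 * r := by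
      intro y y1 y2 h h1 h2
      have e1 : 8 * s * (y - 1) ≤ 8 * s * (R0 - 11) := by
        apply mul_le_mul_of_nonneg_left _ (by omega); omega
      have e2 : 8 * s * (-(R0 - 9)) ≤ 8 * s * (y - 1) := by
        apply mul_le_mul_of_nonneg_left _ (by omega); omega
      have e3 : 8 * s * (-(R0 - 9)) = -(8 * (s * R0)) + 72 * s := by ring
      have e4 : 8 * s * (R0 - 11) = 8 * (s * R0) - 88 * s := by ring
      have e5 : 4 * s * (2 * R0 + 1) = 8 * (s * R0) + 4 * s := by ring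
      rw [e5] at hr
      omega
    have b1 := bd (y i) k1.2.1.1 k1.2.1.2 (h i) w1.1 w1.2
    have b2 := bd (y j) k2.2.1.1 k2.2.1.2 (h j) w2.1 w2.2
    have hσ : (σ j - σ i) % 4 = 0 ∧ h i = h j := by
      rcases sig_cases k1.1 with e1 | e1 | e1 | e1 | e1 <;>
      rcases sig_cases k2.1 with e2 | e2 | e2 | e2 | e2 <;>
      rw [e1, e2] at hc <;> rw [e1, e2] <;> simp [crn, Prod.ext_iff] at hc ⊢ <;> omega
    have h1 := hs' hσ.1
    have h2 := hσ.2
    have e6 : ∀ u v : ℤ, u + 8 ≤ v → 8 * s * (u - 1) + 64 * s ≤ 8 * s * (v - 1) := by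
      intro u v huv
      have : 8 * s * (u + 8 - 1) ≤ 8 * s * (v - 1) := by
        apply mul_le_mul_of_nonneg_left _ (by omega); omega
      have e7 : 8 * s * (u + 8 - 1) = 8 * s * (u - 1) + 64 * s := by ring
      omega
    rcases h1 with h1 | h1
    · have := e6 _ _ h1; omega
    · have := e6 _ _ h1; omega
  rcases lt_or_gt_of_ne hij with h1 | h1
  · exact key i j h1 hc
  · exact key j i h1 hc.symm

/-- four separated exits: the four arm event -/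
lemma A4_of_GI {r s R0 : ℤ} {a : Fin 4} {e : ℤ × ℤ} {σ y h : Fin 4 → ℤ} {ω : Finset (ℤ × ℤ)}
    (hs : 3 ≤ s)
    (hr : 4 * s * (2 * R0 + 1) - s ≤ r ∧ r ≤ 4 * s * (2 * R0 + 1) - 2)
    (k : Keys (R0 - 10) 8 σ y) (hG : GI r s e a σ y h ω) : A4 (BB r) e ω := by
  have h0 : FX (BB r) (ω.erase e) (zu e) (crn (σ (0 - a)) (2 * r + 1, h (0 - a))) := by
    have := (hG (0 - a)).2.1
    exact this (by simp)
  have h2 : FX (BB r) (ω.erase e) (zv e) (crn (σ (2 - a)) (2 * r + 1, h (2 - a))) := by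
    have := (hG (2 - a)).2.2.2.1
    exact this (by simp)
  refine ⟨?_, ?_, fun hS => ?_⟩
  · obtain ⟨j, h1, h2, -⟩ := h0
    exact ⟨j, by rw [h1]; exact h2⟩
  · obtain ⟨j, h1, h2, -⟩ := h2
    exact ⟨j, by rw [h1]; exact h2⟩
  · have s1 : Str (BB r) (ω.erase e) (zv e) (crn (σ (2 - a)) (2 * r + 1, h (2 - a))) := by
      obtain ⟨j, h1, -, h3⟩ := h2
      exact Or.inl ⟨j, h1, h3⟩
    have s2 := FOtherAux.Str_back hS (Str_symm s1)
    have s3 : lab (crn (σ (2 - a)) (2 * r + 1, h (2 - a))) ∉ BB r := by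
      obtain ⟨j, -, h2, -⟩ := h2
      exact h2
    have s4 := Str_FX h0 s2 s3
    refine exit_ne hs hr k hG ?_ s4
    intro h
    have : (2 : Fin 4) = 0 := by
      have h3 := congrArg (fun t => t + a) h
      simp only [sub_add_cancel] at h3
      exact h3
    exact absurd this (by decide)

/-! ### Labels of cells -/

lemma cell_lab {s : ℤ} {c l : ℤ × ℤ} (hl : l ∈ cell (-(4 * s), -(4 * s)) (8 * s) c) :
    (16 * (s * c.1) - 8 * s ≤ l.1 ∧ l.1 ≤ 16 * (s * c.1) + 8 * s) ∧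
    (16 * (s * c.2) - 8 * s ≤ l.2 ∧ l.2 ≤ 16 * (s * c.2) + 8 * s) ∧ (l.1 + l.2) % 2 = 1 := by
  unfold cell at hl
  rw [mem_Bx] at hl
  simp only at hl
  have e1 : 8 * s * c.1 = 8 * (s * c.1) := by ring
  have e2 : 8 * s * c.2 = 8 * (s * c.2) := by ring
  rw [e1, e2] at hl
  omega

lemma inA_mul {s a b : ℤ} (hs : 0 ≤ s) {c : ℤ × ℤ} (h : InA a b c) :
    InA (s * a) (s * b) (s * c.1, s * c.2) := by
  have m : ∀ x y : ℤ, x ≤ y → s * x ≤ s * y := fun x y h => mul_le_mul_of_nonneg_left h hs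
  obtain ⟨h1, h2, h3, h4, h5⟩ := h
  have e1 : s * -c.1 = -(s * c.1) := by ring
  have e2 : s * -c.2 = -(s * c.2) := by ring
  refine ⟨?_, ?_, ?_, ?_, ?_⟩
  · rcases h1 with h | h | h | h
    · exact Or.inl (m _ _ h)
    · right; left; have := m _ _ h; rw [e1] at this; exact this
    · exact Or.inr (Or.inr (Or.inl (m _ _ h)))
    · right; right; right; have := m _ _ h; rw [e2] at this; exact this
  · exact m _ _ h2
  · have := m _ _ h3; rw [e1] at this; exact this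
  · exact m _ _ h4
  · have := m _ _ h5; rw [e2] at this; exact this

/-- the labels of a cell outside the inner box -/
lemma cell_out {s R0 K0 r : ℤ} (hs : 3 ≤ s)
    (hr : 4 * s * (2 * R0 + 1) - s ≤ r ∧ r ≤ 4 * s * (2 * R0 + 1) - 2) {c l : ℤ × ℤ}
    (hc : InA (R0 + 1) (K0 + 2) c) (hl : l ∈ cell (-(4 * s), -(4 * s)) (8 * s) c) :
    2 * r + 4 ≤ l.1 ∨ l.1 ≤ -(2 * r) - 4 ∨ 2 * r + 4 ≤ l.2 ∨ l.2 ≤ -(2 * r) - 4 := by
  have h1 := cell_lab hl
  have h2 := (inA_mul (s := s) (by omega) hc).1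
  simp only at h2
  have e1 : s * (R0 + 1) = s * R0 + s := by ring
  have e2 : 4 * s * (2 * R0 + 1) = 8 * (s * R0) + 4 * s := by ring
  rw [e1] at h2
  rw [e2] at hr
  omega

/-- the corridor which belongs to the outer key on the side `t` -/
def idx (t : ℤ) : Fin 4 := if t = 0 then 0 else if t = 1 then 1 else if t = 2 then 2 else 3

/-- the labels of the cells of the arm stay in the cross -/
lemma SX_CR {s R0 K0 δ : ℤ} {σ y : Fin 4 → ℤ} (hs : 3 ≤ s) (hR : 45 ≤ R0)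
    (hK : R0 + 140 ≤ K0) (hδ : δ = 0 ∨ δ = 1)
    (k : Keys (R0 - 10) 8 σ y) {i : Fin 4} :
    csS s (SX R0 K0 δ σ y i) ⊆ Pool.Agent.H65.Four.CR (4 * s * (2 * K0 + 1)) (4 * s)
      (idx (tau (jj δ i))) := by
  intro l hl
  unfold csS at hl
  rw [mem_cs] at hl
  obtain ⟨c, hc, hl⟩ := hl
  have e2 : 4 * s * (2 * K0 + 1) = 8 * (s * K0) + 4 * s := by ring
  have h1 := cell_lab hl
  unfold Pool.Agent.H65.Four.CR
  rw [mem_union, e2]
  rcases SX_inA hR hK hδ k hc with h | rfl | rfl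
  · left
    have h2 := (inA_mul (s := s) (by omega) h).2
    simp only at h2
    unfold H75.TwoArm.BB
    rw [mem_Bx]
    omega
  all_goals
    right
    have e3 : s * (K0 + 1) = s * K0 + s := by ring
    have e4 : s * (K0 + 2) = s * K0 + 2 * s := by ring
    have e5 : s * (-1 + -K0) = -(s * K0) - s := by ring
    have e6 : s * (-2 + -K0) = -(s * K0) - 2 * s := by ring
    generalize jj δ i = j at h1 ⊢
    fin_cases j <;> simp [tau, rad_m1, rad_0, rad_1, rad_2, idx, e3, e4, e5, e6, mem_Bx] at h1 ⊢ <;>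
      omega

/-- the end of the corridor -/
lemma end_corr {s K0 : ℤ} {ω : Finset (ℤ × ℤ)} {v : ℤ × ℤ} {j : Fin 4}
    (hv : CFS s (rad (tau j) 0 (K0 + 2)) ω v) :
    ∃ q : ℤ × ℤ, Co (ω ∩ cell (-(4 * s), -(4 * s)) (8 * s) (rad (tau j) 0 (K0 + 2))) v q ∧
      (j = 1 → q.1 = 4 * s * (2 * K0 + 1) + 4 * (4 * s)) ∧
      (j = 2 → q.2 = 4 * s * (2 * K0 + 1) + 4 * (4 * s)) ∧
      (j = 3 → q.1 = -(4 * s * (2 * K0 + 1)) - 4 * (4 * s)) ∧
      (j = 0 → q.2 = -(4 * s * (2 * K0 + 1)) - 4 * (4 * s)) := by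
  unfold CFS CF at hv
  obtain ⟨-, ⟨p1, e1, c1⟩, ⟨p2, e2, c2⟩, ⟨p3, e3, c3⟩, ⟨p4, e4, c4⟩⟩ := hv
  unfold cell
  fin_cases j
  · refine ⟨p3, c3, fun h => absurd h (by decide), fun h => absurd h (by decide),
      fun h => absurd h (by decide), fun _ => ?_⟩
    rw [e3]
    simp only [tau, rad_m1, Matrix.cons_val_zero, Fin.zero_eta]
    ring
  · refine ⟨p2, c2, fun _ => ?_, fun h => absurd h (by decide), fun h => absurd h (by decide),
      fun h => absurd h (by decide)⟩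
    rw [e2]
    simp [tau, rad_0]
    ring
  · refine ⟨p4, c4, fun h => absurd h (by decide), fun _ => ?_, fun h => absurd h (by decide),
      fun h => absurd h (by decide)⟩
    rw [e4]
    simp [tau, rad_1]
    ring
  · refine ⟨p1, c1, fun h => absurd h (by decide), fun h => absurd h (by decide), fun _ => ?_,
      fun h => absurd h (by decide)⟩
    rw [e1]
    simp [tau, rad_2]
    ring

/-! ### The four arms inside the cross -/

lemma BB_CR {R r w : ℤ} (h : r ≤ R) (i : Fin 4) :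
    H75.TwoArm.BB r ⊆ Pool.Agent.H65.Four.CR R w i := by
  intro l hl
  unfold Pool.Agent.H65.Four.CR
  refine mem_union_left _ ?_
  unfold H75.TwoArm.BB at hl ⊢
  rw [mem_Bx] at hl ⊢
  omega

lemma hkn_CR {s R0 K0 : ℤ} (hs : 3 ≤ s) (hK : R0 + 140 ≤ K0) {w : ℤ} {c : ℤ × ℤ}
    (hc : InA 0 (R0 + 1) c) (i : Fin 4) :
    hkn s c ⊆ Pool.Agent.H65.Four.CR (4 * s * (2 * K0 + 1)) w i := by
  intro l hl
  unfold Pool.Agent.H65.Four.CR
  refine mem_union_left _ ?_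
  have h2 := (inA_mul (s := s) (by omega) hc).2
  simp only at h2
  have e1 : s * (R0 + 1) = s * R0 + s := by ring
  have e2 : 4 * s * (2 * K0 + 1) = 8 * (s * K0) + 4 * s := by ring
  have e3 : 8 * s * c.1 = 8 * (s * c.1) := by ring
  have e4 : 8 * s * c.2 = 8 * (s * c.2) := by ring
  have e5 : s * (R0 + 140) ≤ s * K0 := mul_le_mul_of_nonneg_left hK (by omega)
  have e6 : s * (R0 + 140) = s * R0 + 140 * s := by ring
  rw [e1] at h2
  unfold hkn at hl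
  unfold H75.TwoArm.BB
  rw [mem_Bx, e3, e4] at hl
  rw [mem_Bx, e2]
  omega

lemma CR_odd {R w : ℤ} {i : Fin 4} {l : ℤ × ℤ} (h : l ∈ Pool.Agent.H65.Four.CR R w i) :
    (l.1 + l.2) % 2 = 1 := by
  unfold Pool.Agent.H65.Four.CR H75.TwoArm.BB at h
  rw [mem_union] at h
  rcases h with h | h
  · exact (mem_Bx.1 h).2.2
  · fin_cases i <;> exact (mem_Bx.1 h).2.2

lemma CR_sub {R w : ℤ} (hw : 1 ≤ w) (hR : w ≤ R) {i : Fin 4} {l : ℤ × ℤ}
    (h : l ∈ Pool.Agent.H65.Four.CR R w i) :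
    (-(2 * R) - 8 * w ≤ l.1 ∧ l.1 ≤ 2 * R + 8 * w) ∧
    (-(2 * R) - 8 * w ≤ l.2 ∧ l.2 ≤ 2 * R + 8 * w) := by
  unfold Pool.Agent.H65.Four.CR H75.TwoArm.BB at h
  rw [mem_union] at h
  rcases h with h | h
  · have := mem_Bx.1 h
    omega
  · fin_cases i <;> (have := mem_Bx.1 h; omega)

section

variable {s R0 K0 r : ℤ} {a : Fin 4} {e : ℤ × ℤ} {σ y h : Fin 4 → ℤ} {ω ω'' E : Finset (ℤ × ℤ)}
  {δ : ℤ}

/-- an open arm -/
lemma arm_O (hs : 3 ≤ s) (hR0 : 45 ≤ R0) (hK : R0 + 140 ≤ K0)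
    (hr : 4 * s * (2 * R0 + 1) - s ≤ r ∧ r ≤ 4 * s * (2 * R0 + 1) - 2)
    (he : (e.1 + e.2) % 2 = 1) (heB : e ∈ H75.TwoArm.BB r) (hδ : δ = 0 ∨ δ = 1)
    (k : Keys (R0 - 10) 8 σ y) (hG : GI r s e a σ y h ω) (i : Fin 4) (hi : i + a = 0 ∨ i + a = 2)
    (hA : ArmE s (i + a) (SX R0 K0 δ σ y i) (σ i) (2 * r) (h i) False 0 (-(8 * s) - 3) 0 E ω'') :
    ∃ q : ℤ × ℤ, Co ((mix (U4 (H75.TwoArm.BB r) e ω) ω ω'').erase e ∩
        Pool.Agent.H65.Four.CR (4 * s * (2 * K0 + 1)) (4 * s) (idx (tau (jj δ i))))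
          (vend e (i + a)) q ∧
      (jj δ i = 1 → q.1 = 4 * s * (2 * K0 + 1) + 4 * (4 * s)) ∧
      (jj δ i = 3 → q.1 = -(4 * s * (2 * K0 + 1)) - 4 * (4 * s)) := by
  obtain ⟨g1, g2, g3, g4, -⟩ := inner_geo hs hR0 hr he heB k hG i
  obtain ⟨g4, g5, g6⟩ := g4 hi
  obtain ⟨l1, l2, l3, l4⟩ := SX_link hR0 hK hδ k i
  have hA4 := A4_of_GI hs hr k hG
  obtain ⟨N1, N2, -⟩ := hA.1 hi
  have hUB : U4 (H75.TwoArm.BB r) e ω ⊆ H75.TwoArm.BB r := by
    intro l hl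
    unfold U4 at hl
    rw [mem_union, StrandAux.mem_UU, StrandAux.mem_UU] at hl
    tauto
  have hout : ∀ c ∈ SX R0 K0 δ σ y i, ∀ l ∈ cell (-(4 * s), -(4 * s)) (8 * s) c,
      l ∉ H75.TwoArm.BB r := by
    intro c hc l hl hl2
    have h1 := cell_out hs hr (SX_norm hR0 hK hδ k hc) hl
    unfold H75.TwoArm.BB at hl2
    rw [mem_Bx] at hl2
    omega
  obtain ⟨v, hv⟩ := Net.full N1 l3
  obtain ⟨q, q1, q2, q3, q4, q5⟩ := end_corr (j := jj δ i) hv
  have hx2 : Ext (H75.TwoArm.BB r) e ω (i + a + 1)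
      (crn (σ (i + 1)) (2 * r + 1, h (i + 1))) := by
    have := (hG (i + 1)).2
    rwa [add_right_comm] at this
  have hco := arm_end_O (ω'' := ω'') (U := U4 (H75.TwoArm.BB r) e ω) (S := SX R0 K0 δ σ y i)
    (y := y i) (ρ := R0 + 1) hs he heB hA4 hi g4 (hG i).2
    hx2 g5 (by rw [g1]; exact g6) (by rw [g1]; exact g2) (subset_refl _) (fun a h _ => h)
    (fun l hl hl2 => by
      unfold csS at hl2
      rw [mem_cs] at hl2
      obtain ⟨c, hc, hl2⟩ := hl2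
      exact hout c hc l hl2 (hUB hl))
    (hG i).1 g3 N1 l1 l2 N2 l4 hv
  have ki := k.1 i
  have hrR : r ≤ 4 * s * (2 * K0 + 1) := by
    have e1 : 4 * s * (2 * K0 + 1) = 8 * (s * K0) + 4 * s := by ring
    have e2 : 4 * s * (2 * R0 + 1) = 8 * (s * R0) + 4 * s := by ring
    have e3 : s * (R0 + 140) ≤ s * K0 := mul_le_mul_of_nonneg_left hK (by omega)
    have e4 : s * (R0 + 140) = s * R0 + 140 * s := by ring
    omega
  refine ⟨q, (hco.mono ?_).trans (q1.mono ?_), q2, q4⟩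
  · refine inter_subset_inter_left (union_subset (union_subset ?_ ?_) ?_)
    · exact hUB.trans (BB_CR hrR _)
    · exact SX_CR hs hR0 hK hδ k
    · refine hkn_CR hs hK ?_ _
      have := rad_inA ki.1 (y := y i - 1) (ρ := R0 + 1) (by have := ki.2.1; omega)
        (by have := ki.2.1; omega)
      unfold InA at this ⊢
      omega
  · intro l hl
    rw [mem_inter] at hl ⊢
    have hlB := hout _ l3 l hl.2
    refine ⟨mem_erase.2 ⟨fun h => hlB (h ▸ heB), ?_⟩, ?_⟩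
    · rw [mem_mix]
      exact Or.inr ⟨hl.1, fun h => hlB (hUB h)⟩
    · apply SX_CR hs hR0 hK hδ k
      unfold csS
      rw [mem_cs]
      exact ⟨_, l3, hl.2⟩

/-- a dual arm -/
lemma arm_D (hs : 3 ≤ s) (hR0 : 45 ≤ R0) (hK : R0 + 140 ≤ K0)
    (hr : 4 * s * (2 * R0 + 1) - s ≤ r ∧ r ≤ 4 * s * (2 * R0 + 1) - 2)
    (he : (e.1 + e.2) % 2 = 1) (heB : e ∈ H75.TwoArm.BB r) (hδ : δ = 0 ∨ δ = 1)
    (hE : H75.TwoArm.BB (4 * s * (2 * K0 + 1) + 32 * s) ⊆ E)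
    (hE2 : ∀ a ∈ E, (a.1 + a.2) % 2 = 1)
    (k : Keys (R0 - 10) 8 σ y) (hG : GI r s e a σ y h ω) (i : Fin 4) (hi : i + a = 1 ∨ i + a = 3)
    (hA : ArmE s (i + a) (SX R0 K0 δ σ y i) (σ i) (2 * r) (h i) False 0 (-(8 * s) - 3) 0 E ω'') :
    ∃ q : ℤ × ℤ, Co (du (H75.TwoArm.BB (4 * s * (2 * K0 + 1) + 8 * (4 * s)))
        (insert e (mix (U4 (H75.TwoArm.BB r) e ω) ω ω'')) ∩
        Pool.Agent.H65.Four.CR (4 * s * (2 * K0 + 1)) (4 * s) (idx (tau (jj δ i))))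
          (fend e (i + a)) q ∧
      (jj δ i = 2 → q.2 = 4 * s * (2 * K0 + 1) + 4 * (4 * s)) ∧
      (jj δ i = 0 → q.2 = -(4 * s * (2 * K0 + 1)) - 4 * (4 * s)) := by
  obtain ⟨g1, g2, g3, -, g4⟩ := inner_geo hs hR0 hr he heB k hG i
  obtain ⟨g4, g5, g6⟩ := g4 hi
  obtain ⟨l1, l2, l3, l4⟩ := SX_link hR0 hK hδ k i
  have hA4 := A4_of_GI hs hr k hG
  obtain ⟨N1, N2, -⟩ := hA.2 hi
  have eR : 4 * s * (2 * K0 + 1) = 8 * (s * K0) + 4 * s := by ring
  have er : 4 * s * (2 * R0 + 1) = 8 * (s * R0) + 4 * s := by ring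
  have es : 0 ≤ s * R0 := mul_nonneg (by omega) (by omega)
  have es2 : s * (R0 + 140) ≤ s * K0 := mul_le_mul_of_nonneg_left hK (by omega)
  have es3 : s * (R0 + 140) = s * R0 + 140 * s := by ring
  have hrR : r ≤ 4 * s * (2 * K0 + 1) - s := by omega
  have hUB : U4 (H75.TwoArm.BB r) e ω ⊆ H75.TwoArm.BB r := by
    intro l hl
    unfold U4 at hl
    rw [mem_union, StrandAux.mem_UU, StrandAux.mem_UU] at hl
    tauto
  have hBE : H75.TwoArm.BB r ⊆ E := by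
    refine subset_trans ?_ hE
    intro l hl
    unfold H75.TwoArm.BB at hl ⊢
    rw [mem_Bx] at hl ⊢
    omega
  have hout : ∀ c ∈ SX R0 K0 δ σ y i, ∀ l : ℤ × ℤ, sh1 l ∈ cell (-(4 * s), -(4 * s)) (8 * s) c →
      l ∉ H75.TwoArm.BB r := by
    intro c hc l hl hl2
    have h1 := cell_out hs hr (SX_norm hR0 hK hδ k hc) hl
    unfold H75.TwoArm.BB at hl2
    rw [mem_Bx] at hl2
    simp only [sh1, Function.Embedding.coeFn_mk] at h1
    omega
  -- labels of the dual configuration inside the cross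
  have hsub : ∀ (ω1 : Finset (ℤ × ℤ)) (l : ℤ × ℤ), l ∈ du E ω1 →
      l ∈ Pool.Agent.H65.Four.CR (4 * s * (2 * K0 + 1)) (4 * s) (idx (tau (jj δ i))) →
      l ∈ du (H75.TwoArm.BB (4 * s * (2 * K0 + 1) + 8 * (4 * s))) ω1 := by
    intro ω1 l hl hl2
    unfold du at hl ⊢
    rw [mem_map] at hl ⊢
    obtain ⟨b, hb, rfl⟩ := hl
    rw [mem_sdiff] at hb
    refine ⟨b, mem_sdiff.2 ⟨?_, hb.2⟩, rfl⟩
    have h1 := CR_sub (by omega) (by omega) hl2
    have h2 := hE2 b hb.1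
    simp only [sh1, Function.Embedding.coeFn_mk] at h1
    unfold H75.TwoArm.BB
    rw [mem_Bx]
    omega
  obtain ⟨v, hv⟩ := Net.full N1 l3
  obtain ⟨q, q1, q2, q3, q4, q5⟩ := end_corr (j := jj δ i) hv
  have hx2 : Ext (H75.TwoArm.BB r) e ω (i + a + 1)
      (crn (σ (i + 1)) (2 * r + 1, h (i + 1))) := by
    have := (hG (i + 1)).2
    rwa [add_right_comm] at this
  have hco := arm_end_D (ω'' := ω'') (U := U4 (H75.TwoArm.BB r) e ω) (S := SX R0 K0 δ σ y i)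
    (y := y i) (ρ := R0 + 1) hs he heB hBE hA4 hi g4 (hG i).2
    hx2 g5 (by rw [g1]; exact g6) (by rw [g1]; exact g2) (subset_refl _) (fun a h _ => h)
    (fun l hl hl2 => by
      unfold csS at hl2
      rw [mem_cs] at hl2
      obtain ⟨c, hc, hl2⟩ := hl2
      exact hout c hc l hl2 (hUB hl))
    (hG i).1 g3 N1 l1 l2 N2 l4 hv
  have ki := k.1 i
  refine ⟨q, (hco.mono ?_).trans (q1.mono ?_), q3, q5⟩
  · intro l hl
    rw [mem_inter] at hl ⊢
    have hCR : l ∈ Pool.Agent.H65.Four.CR (4 * s * (2 * K0 + 1)) (4 * s)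
        (idx (tau (jj δ i))) := by
      have h1 := hl.2
      rw [mem_union, mem_union] at h1
      rcases h1 with (h1 | h1) | h1
      · rw [mem_map] at h1
        obtain ⟨b, hb, rfl⟩ := h1
        unfold Pool.Agent.H65.Four.CR
        refine mem_union_left _ ?_
        have h2 := hUB hb
        unfold H75.TwoArm.BB at h2 ⊢
        rw [mem_Bx] at h2 ⊢
        simp only [sh1, Function.Embedding.coeFn_mk]
        omega
      · exact SX_CR hs hR0 hK hδ k h1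
      · refine hkn_CR hs hK ?_ _ h1
        have := rad_inA ki.1 (y := y i - 1) (ρ := R0 + 1) (by have := ki.2.1; omega)
          (by have := ki.2.1; omega)
        unfold InA at this ⊢
        omega
    exact ⟨hsub _ l hl.1 hCR, hCR⟩
  · intro l hl
    rw [mem_inter] at hl ⊢
    have hCR : l ∈ Pool.Agent.H65.Four.CR (4 * s * (2 * K0 + 1)) (4 * s)
        (idx (tau (jj δ i))) := by
      apply SX_CR hs hR0 hK hδ k
      unfold csS
      rw [mem_cs]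
      exact ⟨_, l3, hl.2⟩
    refine ⟨hsub _ l ?_ hCR, hCR⟩
    have h1 := hl.1
    unfold du at h1 ⊢
    rw [mem_map] at h1 ⊢
    obtain ⟨b, hb, rfl⟩ := h1
    rw [mem_sdiff] at hb
    refine ⟨b, mem_sdiff.2 ⟨hb.1, fun hb2 => ?_⟩, rfl⟩
    have hbB := hout _ l3 b hl.2
    rw [mem_insert, mem_mix] at hb2
    rcases hb2 with rfl | ⟨-, h⟩ | ⟨h, -⟩
    · exact hbB heB
    · exact hbB (hUB h)
    · exact hb.2 h

end

end OutAux

open OutAux in
/-- OUT: separated exits => cross, for every product measure with RSW in both colours -/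
theorem OUT_cross {q : ℤ × ℤ → ℝ} (hq : Pb q) {c : ℝ} (hc : 0 ≤ c) (hc1 : c ≤ 1)
    {s R0 K0 r : ℤ} (hs : 3 ≤ s) (hR0 : 45 ≤ R0) (hK0 : R0 + 140 ≤ K0)
    (hr : 4 * s * (2 * R0 + 1) - s ≤ r ∧ r ≤ 4 * s * (2 * R0 + 1) - 2)
    (h : RSM q c (8 * s)) {e : ℤ × ℤ} (he : (e.1 + e.2) % 2 = 1) (heB : e ∈ H75.TwoArm.BB r)
    {E : Finset (ℤ × ℤ)} (hE : H75.TwoArm.BB (4 * s * (2 * K0 + 1) + 32 * s) ⊆ E)
    (hE2 : ∀ a ∈ E, (a.1 + a.2) % 2 = 1) :
    PrP q E (InSep r s R0 e) * c ^ (4 * (4 * ((2 * K0 + 5) ^ 2).toNat + 8 * CC.card)) ≤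
      PrP q E (CSe (4 * s * (2 * K0 + 1)) (4 * s) e) := by
  -- the shift
  set dl : Fin 4 → ℤ := fun a => if a = 0 ∨ a = 2 then 1 else 0 with hdl
  have dl01 : ∀ a, dl a = 0 ∨ dl a = 1 := by intro a; simp only [hdl]; split_ifs <;> simp
  refine resampleP hq E (fun ω => U4 (H75.TwoArm.BB r) e ω) (fun ω ω' _ _ => U4_mix ω')
    (CSe (4 * s * (2 * K0 + 1)) (4 * s) e) (InSep r s R0 e)
    (fun ω ω'' => ∃ (a : Fin 4) (σ y hh : Fin 4 → ℤ), Keys (R0 - 10) 8 σ y ∧ GI r s e a σ y hh ω ∧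
      ∀ i, ArmE s (i + a) (SX R0 K0 (dl a) σ y i) (σ i) (2 * r) (hh i) False 0 (-(8 * s) - 3) 0 E ω'') _ ?_ ?_
  · rintro ω - ⟨a, σ, y, hh, k, hG⟩
    refine le_trans ?_ (PrP_mono hq (fun ω'' _ h1 => ⟨a, σ, y, hh, k, hG, h1⟩))
    have ge := inner_geo hs hR0 hr he heB k hG
    refine prob_Y (κ := fun i => i + a) (S := SX R0 K0 (dl a) σ y) (φ1 := σ) (X1 := fun _ => 2 * r)
      (h1 := hh) (y1 := y) (ρ1 := fun _ => R0 + 1) (φ2 := fun _ => 0) (X2 := fun _ => -(8 * s) - 3)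
      (h2 := fun _ => 0) (y2 := fun _ => 1) (ρ2 := fun _ => 0) hq hc hc1 hs h
      (fun i => SX_card hR0 hK0 (dl01 a) k i) (fun i j hij c hc c' hc' => SX_far hR0 hK0 (dl01 a) k hij hc hc')
      ?_ (fun i => ?_) (fun _ => by omega) (fun i => ?_) (fun h => h.elim) (fun i => (hG i).1)
      (fun _ => ?_) (fun i => ?_) (fun _ => ?_)
    · rintro i l hl ⟨c, hc, h1, h2⟩
      apply hE
      have n := (inA_mul (s := s) (by omega) (SX_norm hR0 hK0 (dl01 a) k hc)).2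
      simp only at n
      have e1 : s * (K0 + 2) = s * K0 + 2 * s := by ring
      have e2 : 4 * s * (2 * K0 + 1) = 8 * (s * K0) + 4 * s := by ring
      have e3 : 16 * s * c.1 = 16 * (s * c.1) := by ring
      have e4 : 16 * s * c.2 = 16 * (s * c.2) := by ring
      rw [e1] at n
      rw [e3] at h1
      rw [e4] at h2
      unfold H75.TwoArm.BB
      rw [mem_Bx, e2]
      omega
    · have := (k.1 i).1
      omega
    · have := SX_link hR0 hK0 (dl01 a) k i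
      exact ⟨this.1, this.2.1⟩
    · unfold Row
      omega
    · have := (ge i).2.2.1
      omega
    · omega
  · rintro ω ω'' - - - ⟨a, σ, y, hh, k, hG, hA⟩
    have AO : ∀ κ j : Fin 4, (κ = 0 ∨ κ = 2) → jj (dl a) (κ - a) = j →
        ∃ q : ℤ × ℤ, Co ((mix (U4 (H75.TwoArm.BB r) e ω) ω ω'').erase e ∩
          Pool.Agent.H65.Four.CR (4 * s * (2 * K0 + 1)) (4 * s) (idx (tau j)))
            (vend e κ) q ∧
        (j = 1 → q.1 = 4 * s * (2 * K0 + 1) + 4 * (4 * s)) ∧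
        (j = 3 → q.1 = -(4 * s * (2 * K0 + 1)) - 4 * (4 * s)) := by
      intro κ j hκ hj
      have hi : κ - a + a = κ := sub_add_cancel κ a
      have h1 := arm_O (E := E) hs hR0 hK0 hr he heB (dl01 a) k hG (κ - a) (by rw [hi]; exact hκ)
        (hA (κ - a))
      rw [hi, hj] at h1
      exact h1
    have AD : ∀ κ j : Fin 4, (κ = 1 ∨ κ = 3) → jj (dl a) (κ - a) = j →
        ∃ q : ℤ × ℤ, Co (du (H75.TwoArm.BB (4 * s * (2 * K0 + 1) + 8 * (4 * s)))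
          (insert e (mix (U4 (H75.TwoArm.BB r) e ω) ω ω'')) ∩
          Pool.Agent.H65.Four.CR (4 * s * (2 * K0 + 1)) (4 * s) (idx (tau j)))
            (fend e κ) q ∧
        (j = 2 → q.2 = 4 * s * (2 * K0 + 1) + 4 * (4 * s)) ∧
        (j = 0 → q.2 = -(4 * s * (2 * K0 + 1)) - 4 * (4 * s)) := by
      intro κ j hκ hj
      have hi : κ - a + a = κ := sub_add_cancel κ a
      have h1 := arm_D hs hR0 hK0 hr he heB (dl01 a) hE hE2 k hG (κ - a) (by rw [hi]; exact hκ)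
        (hA (κ - a))
      rw [hi, hj] at h1
      exact h1
    obtain ⟨-, -, -, -, v1, v2⟩ := opc_zu he
    have w0 : vend e 0 = eu e := v1
    have w2 : vend e 2 = ev e := v2
    have w1 : fend e 1 = fi (zu e) := rfl
    have w3 : fend e 3 = fi (zv e) := rfl
    have i0 : idx (tau 1) = 0 := by decide
    have i1 : idx (tau 2) = 1 := by decide
    have i2 : idx (tau 3) = 2 := by decide
    have i3 : idx (tau 0) = 3 := by decide
    by_cases ha : a = 0 ∨ a = 3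
    · have jE : jj (dl a) (0 - a) = 1 := by rcases ha with rfl | rfl <;> decide
      have jN : jj (dl a) (1 - a) = 2 := by rcases ha with rfl | rfl <;> decide
      have jW : jj (dl a) (2 - a) = 3 := by rcases ha with rfl | rfl <;> decide
      have jS : jj (dl a) (3 - a) = 0 := by rcases ha with rfl | rfl <;> decide
      obtain ⟨q0, p0, r0, -⟩ := AO 0 1 (Or.inl rfl) jE
      obtain ⟨q2, p2, -, r2⟩ := AO 2 3 (Or.inr rfl) jW
      obtain ⟨q1, p1, r1, -⟩ := AD 1 2 (Or.inl rfl) jN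
      obtain ⟨q3, p3, -, r3⟩ := AD 3 0 (Or.inr rfl) jS
      rw [w0, i0] at p0
      rw [w2, i2] at p2
      rw [w1, i1] at p1
      rw [w3, i3] at p3
      exact ⟨_, _, _, _, q0, q1, q2, q3, Or.inl ⟨rfl, rfl⟩, Or.inl ⟨rfl, rfl⟩, ⟨r0 rfl, p0⟩,
        ⟨r1 rfl, p1⟩, ⟨r2 rfl, p2⟩, ⟨r3 rfl, p3⟩⟩
    · have ha : a = 1 ∨ a = 2 := by
        have hc4 : ∀ a : Fin 4, ¬ (a = 0 ∨ a = 3) → a = 1 ∨ a = 2 := by decide
        exact hc4 a ha
      have jE : jj (dl a) (2 - a) = 1 := by rcases ha with rfl | rfl <;> decide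
      have jN : jj (dl a) (3 - a) = 2 := by rcases ha with rfl | rfl <;> decide
      have jW : jj (dl a) (0 - a) = 3 := by rcases ha with rfl | rfl <;> decide
      have jS : jj (dl a) (1 - a) = 0 := by rcases ha with rfl | rfl <;> decide
      obtain ⟨q0, p0, r0, -⟩ := AO 2 1 (Or.inr rfl) jE
      obtain ⟨q2, p2, -, r2⟩ := AO 0 3 (Or.inl rfl) jW
      obtain ⟨q1, p1, r1, -⟩ := AD 3 2 (Or.inr rfl) jN
      obtain ⟨q3, p3, -, r3⟩ := AD 1 0 (Or.inl rfl) jS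
      rw [w2, i0] at p0
      rw [w0, i2] at p2
      rw [w3, i1] at p1
      rw [w1, i3] at p3
      exact ⟨_, _, _, _, q0, q1, q2, q3, Or.inr ⟨rfl, rfl⟩, Or.inr ⟨rfl, rfl⟩, ⟨r0 rfl, p0⟩,
        ⟨r1 rfl, p1⟩, ⟨r2 rfl, p2⟩, ⟨r3 rfl, p3⟩⟩

end Pool.Agent.H81.NC
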