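import Mathlib
import Pool.Agent.H81.NC.Defs3
import Pool.Agent.H75.Four.DefsB
import Pool.Agent.H75.Four.FOther
import Pool.Agent.H99.NC.PrP

set_option autoImplicit false
open Finset

/-! Auxiliary lemmas for the recursions `out_rec`, `in_rec` (helper65). -/

namespace Pool.Agent.H81.NC

open Pool.Agent.H75.Perc Pool.Agent.H75.TwoArm Pool.Agent.H75.Four Pool.Agent.H99.NC

lemma FX_touch {B ω : Finset (ℤ × ℤ)} {c x : ℤ × ℤ} (hc : lab c ∈ B) (h : FX B ω c x) :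
    plab x ∈ B := by
  obtain ⟨j, h1, h2, h3⟩ := h
  rcases j with _ | j
  · exact absurd hc (by rw [← h1] at h2; exact h2)
  · rw [← h1, Function.iterate_succ_apply', plab_nx]; exact h3 j (Nat.lt_succ_self j)

lemma BX_touch {B ω : Finset (ℤ × ℤ)} {c x : ℤ × ℤ} (hc : lab c ∈ B) (h : BX B ω c x) :
    lab x ∈ B := by
  obtain ⟨j, h1, h2, h3⟩ := h
  rcases j with _ | j
  · rw [← h1]; exact hc
  · rw [← h1, Function.iterate_succ_apply', lab_pv]; exact h3 j (Nat.lt_succ_self j)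

lemma ExB_touch {B ω : Finset (ℤ × ℤ)} {e x : ℤ × ℤ} (he : (e.1 + e.2) % 2 = 1) (heB : e ∈ B)
    (h : ExB B e ω x) : ∃ a ∈ B, lab x = a ∨ plab x = a := by
  obtain ⟨-, -, hu, hv, -, -⟩ := opc_zu he
  have h1 : lab (zu e) ∈ B := by rw [hu]; exact heB
  have h2 : lab (zv e) ∈ B := by rw [hv]; exact heB
  rcases h with h | h | h | h
  · exact ⟨_, FX_touch h1 h, Or.inr rfl⟩
  · exact ⟨_, BX_touch h1 h, Or.inl rfl⟩
  · exact ⟨_, FX_touch h2 h, Or.inr rfl⟩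
  · exact ⟨_, BX_touch h2 h, Or.inl rfl⟩

lemma Ex4_bd {r : ℤ} {ω : Finset (ℤ × ℤ)} {e x : ℤ × ℤ} (he : (e.1 + e.2) % 2 = 1)
    (heB : e ∈ BB r) (h : Ex4 r e ω x) :
    -(2 * r) ≤ x.1 ∧ x.1 ≤ 2 * r + 1 ∧ -(2 * r) ≤ x.2 ∧ x.2 ≤ 2 * r + 1 := by
  obtain ⟨a, ha, hx⟩ := ExB_touch he heB h
  unfold H75.TwoArm.BB at ha
  rw [mem_Bx] at ha
  have := (corners_iff (z := x) ha.2.2).1 hx
  simp only [Prod.ext_iff] at this
  omega

lemma mix_agree {B ω ω' : Finset (ℤ × ℤ)} {e : ℤ × ℤ} :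
    ∀ a ∈ U4 B e ω, a ≠ e → (a ∈ mix (U4 B e ω) ω ω' ↔ a ∈ ω) := by
  intro a ha _
  rw [mem_mix]
  tauto

lemma U4_sub {B ω : Finset (ℤ × ℤ)} {e : ℤ × ℤ} : U4 B e ω ⊆ B := by
  intro a ha
  unfold U4 at ha
  rcases mem_union.1 ha with h | h
  · exact (StrandAux.mem_UU.1 h).1
  · exact (StrandAux.mem_UU.1 h).1

lemma BB_sub {m n : ℤ} (h : m ≤ n) : BB m ⊆ BB n := by
  intro a ha
  unfold H75.TwoArm.BB at ha ⊢
  rw [mem_Bx] at ha ⊢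
  omega

lemma BB_odd {m : ℤ} : ∀ e ∈ BB m, (e.1 + e.2) % 2 = 1 := by
  intro a ha
  unfold H75.TwoArm.BB at ha
  rw [mem_Bx] at ha
  exact ha.2.2

lemma A4_inter {B ω : Finset (ℤ × ℤ)} {e : ℤ × ℤ} : A4 B e (ω ∩ B) ↔ A4 B e ω := by
  refine (A4_local (ω := ω) (ω1 := ω ∩ B) ?_).1
  intro a ha _
  rw [mem_inter]
  exact ⟨fun h => h.1, fun h => ⟨h, U4_sub ha⟩⟩

/-- an open path from the neighbourhood of a point to distance `D` -/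
def FarP (x : ℤ × ℤ) (ρ D : ℤ) (ω : Finset (ℤ × ℤ)) : Prop :=
  ∃ u v : ℤ × ℤ, |u.1 - x.1| ≤ ρ ∧ |u.2 - x.2| ≤ ρ ∧
    (D ≤ |v.1 - x.1| ∨ D ≤ |v.2 - x.2|) ∧ Co ω u v

end Pool.Agent.H81.NC
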