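import Mathlib
import Pool.Agent.H81.NC.RecAux
import Pool.Agent.H75.Four.FArm
import Pool.Agent.H75.Four.FBox
import Pool.Agent.H81.NC.Sort
import Pool.Agent.H81.NC.ArmE

set_option autoImplicit false
open Finset

/-! Recursion outwards (job R1, helper65): four arms up to a large box have separated exits from an
intermediate box, except for a small proportion of the four-arm probability of a smaller box. -/

namespace Pool.Agent.H81.NC

open Pool.Agent.H75.Perc Pool.Agent.H75.TwoArm Pool.Agent.H75.Four Pool.Agent.H99.NC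

/-- the event `close exits` of the box -/
def CloseE (r s : ℤ) (e : ℤ × ℤ) (ω : Finset (ℤ × ℤ)) : Prop :=
  A4 (BB r) e ω ∧ ∃ x x', Ex4 r e ω x ∧ Ex4 r e ω x' ∧ x ≠ x' ∧
    Close (2 * r + 1) (-(2 * r)) (144 * s) x x'

theorem close_bound {q : ℤ × ℤ → ℝ} (hq : Pb q) {r s m : ℤ} {e : ℤ × ℤ} {δ : ℝ}
    (hr : 1 ≤ r) (hs : 3 ≤ s) (he : (e.1 + e.2) % 2 = 1) (heB : e ∈ BB r) (hrm : r + 3 ≤ m)
    (hδ : ∀ x : ℤ × ℤ, PrP q (BB m) (FarP x (74 * s) (m - r)) ≤ δ ∧
      PrP q (BB m) (fun ω => FarP x (74 * s) (m - r) (du (BB m) ω)) ≤ δ) :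
    PrP q (BB m) (fun ω => A4 (BB m) e ω ∧ CloseE r s e ω) ≤
      PrP q (BB m) (CloseE r s e) * (δ + δ) := by
  classical
  have hch : ∀ ω : Finset (ℤ × ℤ), ∃ x : ℤ × ℤ, CloseE r s e ω → ∃ x', Ex4 r e ω x ∧
      Ex4 r e ω x' ∧ x ≠ x' ∧ Close (2 * r + 1) (-(2 * r)) (144 * s) x x' := by
    intro ω
    by_cases h : CloseE r s e ω
    · obtain ⟨-, x, h2⟩ := h
      exact ⟨x, fun _ => h2⟩
    · exact ⟨(0, 0), fun h' => absurd h' h⟩
  choose X hX using hch
  refine resampleP_le hq (BB m) (fun ω => U4 (BB r) e ω) (fun ω ω' _ _ => U4_mix ω')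
    (A4 (BB m) e) (CloseE r s e)
    (fun ω ω' => FarP ((X ω).1 / 2, (X ω).2 / 2) (74 * s) (m - r) ω' ∨
      FarP ((X ω).1 / 2, (X ω).2 / 2) (74 * s) (m - r) (du (BB m) ω')) (δ + δ) ?_ ?_ ?_
  · intro ω ω' _ _ hB
    obtain ⟨h1, -, h3⟩ := A4_local (mix_agree (B := BB r) (ω := ω) (ω' := ω') (e := e))
    have hE : ∀ x, Ex4 r e (mix (U4 (BB r) e ω) ω ω') x ↔ Ex4 r e ω x := by
      intro x
      unfold Ex4
      rw [(h3 _ (Or.inl rfl) x).1, (h3 _ (Or.inl rfl) x).2, (h3 _ (Or.inr rfl) x).1,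
        (h3 _ (Or.inr rfl) x).2]
    obtain ⟨hA, x, x', h4, h5, h6⟩ := hB
    exact ⟨h1.1 hA, x, x', (hE x).1 h4, (hE x').1 h5, h6⟩
  · intro ω _ _
    refine (PrP_or_le hq _ _ _).trans (add_le_add ?_ ?_)
    · exact (hδ _).1
    · exact (hδ _).2
  · intro ω ω' _ _ hB hA
    obtain ⟨x', h1, h2, h3, h4⟩ := hX ω hB
    have hb := Ex4_bd he heB h1
    set x := X ω with hxdef
    have hs' : (x.1 = 2 * r + 1 ∧ x'.1 = 2 * r + 1) ∨ (x.2 = 2 * r + 1 ∧ x'.2 = 2 * r + 1) ∨
      (x.1 = -(2 * r) ∧ x'.1 = -(2 * r)) ∨ (x.2 = -(2 * r) ∧ x'.2 = -(2 * r)) := h4.1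
    rcases survive_any hr he heB hB.1 h1 h2 h3 hs' h4.2 hrm hA with
      ⟨p, t, h5, h6, h7, h8⟩ | ⟨p, t, h5, h6, h7, h8⟩
    · refine Or.inl ⟨p, t, ?_, ?_, ?_, h8.mono inter_subset_left⟩
      · rw [abs_le] at h5 ⊢; simp only; omega
      · rw [abs_le] at h6 ⊢; simp only; omega
      · simp only
        rcases h7 with h7 | h7
        · left
          rcases abs_cases t.1 with h9 | h9 <;>
          rcases abs_cases (t.1 - x.1 / 2) with h10 | h10 <;> omega
        · right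
          rcases abs_cases t.2 with h9 | h9 <;>
          rcases abs_cases (t.2 - x.2 / 2) with h10 | h10 <;> omega
    · refine Or.inr ⟨p, t, ?_, ?_, ?_, h8⟩
      · rw [abs_le] at h5 ⊢; simp only; omega
      · rw [abs_le] at h6 ⊢; simp only; omega
      · simp only
        rcases h7 with h7 | h7 | h7 | h7
        · left
          rcases abs_cases (t.1 - x.1 / 2) with h10 | h10 <;> omega
        · left
          rcases abs_cases (t.1 - x.1 / 2) with h10 | h10 <;> omega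
        · right
          rcases abs_cases (t.2 - x.2 / 2) with h10 | h10 <;> omega
        · right
          rcases abs_cases (t.2 - x.2 / 2) with h10 | h10 <;> omega

/-- an exit near a corner: an arm near one of the four corners outside the smaller box -/
theorem corner_arm {r s n m : ℤ} {e : ℤ × ℤ} {ω : Finset (ℤ × ℤ)} (hn : 1 ≤ n)
    (hnr : n ≤ r) (hrm : r ≤ m) (he : (e.1 + e.2) % 2 = 1) (heB : e ∈ BB n)
    (hA : A4 (BB r) e ω) {x : ℤ × ℤ} (hx : Ex4 r e ω x) (hc : NCor r (200 * s) x) :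
    ∃ a b : Bool, FarP (if a then r else -r, if b then r else -r) (101 * s) (r - n)
      (ω ∩ (BB m \ BB n)) := by
  have hb := Ex4_bd he (BB_sub hnr heB) hx
  obtain ⟨t, h1, h2, h3⟩ := arm_outer hnr hn he heB hA hx
  have hsub : (ω ∩ BB r) \ BB n ⊆ ω ∩ (BB m \ BB n) := by
    intro a ha
    rw [mem_sdiff, mem_inter] at ha
    rw [mem_inter, mem_sdiff]
    exact ⟨ha.1.1, BB_sub hrm ha.1.2, ha.2⟩
  have h4 := h3.mono hsub
  obtain ⟨c1, c2⟩ := hc
  rw [abs_le] at h1 h2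
  refine ⟨decide (0 ≤ x.1), decide (0 ≤ x.2), vx x, t, ?_, ?_, ?_, h4⟩
  · unfold vx
    simp only [decide_eq_true_eq]
    rw [abs_le]
    split_ifs with h5
    · rw [abs_of_nonneg h5] at c1
      omega
    · rw [abs_of_neg (not_le.1 h5)] at c1
      omega
  · unfold vx
    simp only [decide_eq_true_eq]
    rw [abs_le]
    split_ifs with h5
    · rw [abs_of_nonneg h5] at c2
      omega
    · rw [abs_of_neg (not_le.1 h5)] at c2
      omega
  · left
    simp only [decide_eq_true_eq]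
    split_ifs with h5
    · rcases abs_cases (t.1 - r) with h10 | h10 <;> omega
    · rcases abs_cases (t.1 - -r) with h10 | h10 <;> omega

/-- four arms in the small box and an arm near a corner of the intermediate box -/
def FarC (r n m s : ℤ) (e : ℤ × ℤ) (a b : Bool) (ω : Finset (ℤ × ℤ)) : Prop :=
  A4 (BB n) e (ω ∩ BB n) ∧
    FarP (if a then r else -r, if b then r else -r) (101 * s) (r - n) (ω ∩ (BB m \ BB n))

theorem out_rec {c ε : ℝ} (hc : 0 < c) (hε : 0 < ε) : ∃ Λ : ℤ, 1 ≤ Λ ∧ ∀ (q : ℤ × ℤ → ℝ)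
    (s R0 r m n : ℤ) (e : ℤ × ℤ), Pb q → RSM q c m → 3 ≤ s → 45 ≤ R0 →
    4 * s * (2 * R0 + 1) - s ≤ r → r ≤ 4 * s * (2 * R0 + 1) - 2 → (e.1 + e.2) % 2 = 1 →
    1 ≤ n → e ∈ BB n → n + Λ * s ≤ r → r + Λ * s ≤ m →
    PrP q (BB m) (A4 (BB m) e) ≤
      PrP q (BB m) (InSep r s R0 e) + ε * PrP q (BB m) (A4 (BB n) e) := by
  obtain ⟨Λ, hΛ, harm⟩ := armE (c := c) (ε := ε / 6) hc (by positivity)
  refine ⟨102 * Λ, by omega, ?_⟩
  intro q s R0 r m n e hq hR hs hR0 hr1 hr2 he hn heB hnr hrm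
  have hr0 : 300 * s ≤ r := by nlinarith
  have hr : 1 ≤ r := by omega
  have e1 : 102 * Λ * s = 102 * (Λ * s) := by ring
  rw [e1] at hnr hrm
  have hΛs : s ≤ Λ * s := by nlinarith
  have e2 : Λ * (74 * s) = 74 * (Λ * s) := by ring
  have e3 : Λ * (101 * s) = 101 * (Λ * s) := by ring
  have heR : e ∈ BB r := BB_sub (by omega) heB
  -- close exits
  have hclose : PrP q (BB m) (fun ω => A4 (BB m) e ω ∧ CloseE r s e ω) ≤
      PrP q (BB m) (CloseE r s e) * (ε / 6 + ε / 6) := by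
    refine close_bound hq hr hs he heR (by omega) ?_
    intro x
    have := harm q m hq hR (BB m) BB_odd x (74 * s) (m - r) (by omega) (by
      rw [e2]; omega) (by rw [e2]; omega)
    exact this
  have hclose' : PrP q (BB m) (CloseE r s e) ≤ PrP q (BB m) (A4 (BB n) e) :=
    PrP_mono hq fun ω _ h => A4_mono (BB_sub (by omega)) h.1
  -- corners
  have hcor : ∀ a b : Bool, PrP q (BB m) (FarC r n m s e a b) ≤
      PrP q (BB m) (A4 (BB n) e) * (ε / 6) := by
    intro a b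
    have hnm : BB n ⊆ BB m := BB_sub (by omega)
    have h0 : PrP q (BB m) (FarC r n m s e a b) = PrP q (BB n) (A4 (BB n) e) *
        PrP q (BB m \ BB n)
          (FarP (if a then r else -r, if b then r else -r) (101 * s) (r - n)) := by
      unfold FarC
      exact PrP_indep q hnm (sdiff_subset (s := BB m) (t := BB n)) disjoint_sdiff _ _
    have h1 : PrP q (BB m) (A4 (BB n) e) = PrP q (BB n) (A4 (BB n) e) :=
      PrP_local hnm (fun ω _ => A4_inter.symm)
    rw [h0, h1]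
    refine mul_le_mul_of_nonneg_left ?_ (PrP_nonneg hq _ _)
    exact (harm q m hq hR (BB m \ BB n) (fun e he => BB_odd e (mem_sdiff.1 he).1) _ (101 * s)
      (r - n) (by omega) (by rw [e3]; omega) (by rw [e3]; omega)).1
  have hmain : PrP q (BB m) (A4 (BB m) e) ≤ PrP q (BB m) (fun ω => InSep r s R0 e ω ∨
      ((A4 (BB m) e ω ∧ CloseE r s e ω) ∨
        ((FarC r n m s e true true ω ∨ FarC r n m s e true false ω) ∨
        (FarC r n m s e false true ω ∨ FarC r n m s e false false ω)))) := by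
    refine PrP_mono hq fun ω _ hA => ?_
    have hAr : A4 (BB r) e ω := A4_mono (BB_sub (by omega)) hA
    rcases InSep_or hs hR0 ⟨hr1, hr2⟩ he heR hAr with h | h | ⟨x, h1, h2⟩
    · exact Or.inl h
    · exact Or.inr (Or.inl ⟨hA, hAr, h⟩)
    · have hAn : A4 (BB n) e (ω ∩ BB n) := A4_inter.2 (A4_mono (BB_sub (by omega)) hA)
      obtain ⟨a, b, h3⟩ := corner_arm hn (by omega) (show r ≤ m by omega) he heB hAr
        h1 h2
      refine Or.inr (Or.inr ?_)
      cases a <;> cases b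
      · exact Or.inr (Or.inr ⟨hAn, h3⟩)
      · exact Or.inr (Or.inl ⟨hAn, h3⟩)
      · exact Or.inl (Or.inr ⟨hAn, h3⟩)
      · exact Or.inl (Or.inl ⟨hAn, h3⟩)
  have hadd : ∀ {A B : Finset (ℤ × ℤ) → Prop} {x y : ℝ}, PrP q (BB m) A ≤ x →
      PrP q (BB m) B ≤ y → PrP q (BB m) (fun ω => A ω ∨ B ω) ≤ x + y :=
    fun {A B} x y hA hB => (PrP_or_le hq (BB m) A B).trans (add_le_add hA hB)
  generalize PrP q (BB m) (A4 (BB n) e) = P at *
  have h10 : PrP q (BB m) (fun ω => A4 (BB m) e ω ∧ CloseE r s e ω) ≤ P * (ε / 6 + ε / 6) :=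
    hclose.trans (mul_le_mul_of_nonneg_right hclose' (by positivity))
  have h11 : PrP q (BB m) (fun ω => (FarC r n m s e true true ω ∨ FarC r n m s e true false ω) ∨
        (FarC r n m s e false true ω ∨ FarC r n m s e false false ω)) ≤
      (P * (ε / 6) + P * (ε / 6)) + (P * (ε / 6) + P * (ε / 6)) :=
    hadd (hadd (hcor true true) (hcor true false)) (hadd (hcor false true) (hcor false false))
  have e4 : ε * P = P * (ε / 6 + ε / 6) + ((P * (ε / 6) + P * (ε / 6)) +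
      (P * (ε / 6) + P * (ε / 6))) := by ring
  rw [e4]
  exact hmain.trans (hadd le_rfl (hadd h10 h11))

end Pool.Agent.H81.NC
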