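import Mathlib
import Pool.Agent.H81.NC.OutRec
import Pool.Agent.H81.NC.Small
import Pool.Agent.H81.NC.Out
import Pool.Agent.H81.NC.CrossPiv
import Pool.Agent.H81.NC.EnvTr
import Pool.Agent.H75.Four.FPath

set_option autoImplicit false
open Finset

/-! The recursion outwards with the cross: `OutStep`. -/

namespace Pool.Agent.H81.NC

open Pool.Agent.H75.Perc Pool.Agent.H75.Four Pool.Agent.H99.NC

lemma RSM.le_one {q : ℤ × ℤ → ℝ} {c : ℝ} {M : ℤ} (hq : Pb q) (hM : 1 ≤ M) (h : RSM q c M) :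
    c ≤ 1 := ((h 1 le_rfl hM).1 0 0).1.trans (PrP_le_one hq _ _)

lemma RSM.mono {q : ℤ × ℤ → ℝ} {c : ℝ} {M M' : ℤ} (hM : M' ≤ M) (h : RSM q c M) : RSM q c M' :=
  fun w h1 h2 => h w h1 (h2.trans hM)

lemma BB_mono' {m n : ℤ} (h : m ≤ n) : H75.TwoArm.BB m ⊆ H75.TwoArm.BB n := by
  intro a ha
  unfold H75.TwoArm.BB at ha ⊢
  rw [mem_Bx] at ha ⊢
  omega

lemma PrP_A4_local {q : ℤ × ℤ → ℝ} {B E : Finset (ℤ × ℤ)} (h : B ⊆ E) (e : ℤ × ℤ) :
    PrP q E (A4 B e) = PrP q B (A4 B e) := by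
  refine PrP_local h fun ω _ => ((A4_local (ω1 := ω ∩ B) fun a ha _ => ?_).1).symm
  have := Pool.Agent.H75.Four.PathAux.U4_sub _ _ _ ha
  rw [mem_inter]
  exact ⟨fun h => h.1, fun h => ⟨h, this⟩⟩

lemma PrP_InSep_local {q : ℤ × ℤ → ℝ} {E : Finset (ℤ × ℤ)} {r s R0 : ℤ}
    (h : H75.TwoArm.BB r ⊆ E) (e : ℤ × ℤ) :
    PrP q E (InSep r s R0 e) = PrP q (H75.TwoArm.BB r) (InSep r s R0 e) := by
  refine PrP_local h fun ω _ => (InSep_local fun a ha => ?_).symm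
  rw [mem_inter]
  exact ⟨fun h => h.1, fun h => ⟨h, ha⟩⟩

lemma PrP_Piv_local {q : ℤ × ℤ → ℝ} {E : Finset (ℤ × ℤ)} {a b c d : ℤ} (h : Bx a b c d ⊆ E)
    {e : ℤ × ℤ} :
    PrP q E (Piv (HC a b c d) e) = PrP q (Bx a b c d) (Piv (HC a b c d) e) := by
  refine PrP_local h fun ω _ => ?_
  unfold Piv
  have h1 : ∀ η : Finset (ℤ × ℤ), HC a b c d (η ∩ Bx a b c d) ↔ HC a b c d η := fun η =>
    HC_inter (subset_refl _)
  rw [← h1 (insert e ω), ← h1 (ω.erase e), ← h1 (insert e (ω ∩ _)), ← h1 ((ω ∩ _).erase e)]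
  have e1 : insert e (ω ∩ Bx a b c d) ∩ Bx a b c d = insert e ω ∩ Bx a b c d := by
    ext z; simp only [mem_inter, mem_insert]; tauto
  have e2 : (ω ∩ Bx a b c d).erase e ∩ Bx a b c d = ω.erase e ∩ Bx a b c d := by
    ext z; simp only [mem_inter, mem_erase]; tauto
  rw [e1, e2]

/-- **Outwards**, with the cross event, for an edge `e` at the origin and a general product measure. -/
theorem out_CSe {c0 ε : ℝ} (hc : 0 < c0) (hε : 0 < ε) : ∃ (u : ℤ) (C : ℝ) (m0 : ℤ),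
    22 ≤ u ∧ 0 < C ∧ 100 ≤ m0 ∧ ∀ (q : ℤ × ℤ → ℝ) (e : ℤ × ℤ) (m : ℤ), m0 ≤ m → Pb q →
      RSM q c0 m → (e.1 + e.2) % 2 = 1 → |e.1| ≤ 1 → |e.2| ≤ 1 →
      ∃ s : ℤ, 1 ≤ s ∧ 4 * s ≤ m ∧ 68 * s * (6 * u + 3) + 1 ≤ 17 * m ∧
        17 * m + 1 ≤ 68 * s * (6 * u + 3) + 16 * s ∧
        PrP q (H75.TwoArm.BB m) (A4 (H75.TwoArm.BB m) e) ≤
          C * PrP q (H75.TwoArm.BB (68 * s * (6 * u + 3) + 32 * s))
            (CSe (68 * s * (6 * u + 3)) (4 * s) e) +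
          ε * PrP q (H75.TwoArm.BB (m / 2)) (A4 (H75.TwoArm.BB (m / 2)) e) := by
  obtain ⟨Λ, hΛ, H⟩ := out_rec hc hε
  obtain ⟨u, hu⟩ : ∃ u : ℤ, u = Λ + 22 := ⟨_, rfl⟩
  obtain ⟨N, hN⟩ : ∃ N : ℕ, N = 4 * (4 * ((2 * (51 * u + 25) + 5) ^ 2).toNat + 8 * CC.card) :=
    ⟨_, rfl⟩
  refine ⟨u, (c0 ^ N)⁻¹, (100 * u + 100) * (4 * (6 * u + 3)) + 1, by omega, by positivity,
    by nlinarith, ?_⟩
  intro q e m hm hq hR he he1 he2
  have hm1 : 1 ≤ m := by nlinarith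
  have heB : ∀ n : ℤ, 1 ≤ n → e ∈ H75.TwoArm.BB n := by
    intro n hn
    unfold H75.TwoArm.BB
    rw [mem_Bx]
    rw [abs_le] at he1 he2
    omega
  have c1 : c0 ≤ 1 := hR.le_one hq (by omega)
  -- the scale
  obtain ⟨s, hs⟩ : ∃ s : ℤ, s = (m - 1) / (4 * (6 * u + 3)) := ⟨_, rfl⟩
  have hu0 : 0 < 4 * (6 * u + 3) := by omega
  have s1 : s * (4 * (6 * u + 3)) ≤ m - 1 := by rw [hs]; exact Int.ediv_mul_le _ (by omega)
  have s2 : m - 1 < (s + 1) * (4 * (6 * u + 3)) := by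
    rw [hs]; exact Int.lt_ediv_add_one_mul_self _ hu0
  have s3 : 100 * u + 100 ≤ s := by
    rw [hs]; exact Int.le_ediv_of_mul_le hu0 (by omega)
  obtain ⟨a, ha⟩ : ∃ a : ℤ, a = s * u := ⟨_, rfl⟩
  have ha0 : 0 ≤ a := by rw [ha]; exact mul_nonneg (by omega) (by omega)
  have t1 : s * (4 * (6 * u + 3)) = 24 * a + 12 * s := by rw [ha]; ring
  have t2 : (s + 1) * (4 * (6 * u + 3)) = 24 * a + 12 * s + 24 * u + 12 := by rw [ha]; ring
  have t3 : 4 * s * (2 * (2 * u + 1) + 1) = 16 * a + 12 * s := by rw [ha]; ring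
  have t4 : 4 * s * (2 * (51 * u + 25) + 1) = 408 * a + 204 * s := by rw [ha]; ring
  have t4' : 68 * s * (6 * u + 3) = 408 * a + 204 * s := by rw [ha]; ring
  have t5 : Λ * s = a - 22 * s := by rw [ha, hu]; ring
  have ha' : 2222 * s ≤ 101 * a := by
    rw [ha]
    nlinarith
  rw [t1] at s1
  rw [t2] at s2
  refine ⟨s, by omega, by omega, by rw [t4']; omega, by rw [t4']; omega, ?_⟩
  rw [t4']
  have r1 : H75.TwoArm.BB (m / 2) ⊆ H75.TwoArm.BB m := BB_mono' (by omega)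
  have key := H q s (2 * u + 1) (16 * a + 12 * s - 2) m (m / 2) e hq (hR.mono (by omega))
    (by omega) (by omega) (by omega) (by omega) he (by omega) (heB _ (by omega)) (by omega)
    (by omega)
  have cross := OUT_cross hq hc.le c1 (s := s) (R0 := 2 * u + 1) (K0 := 51 * u + 25)
    (r := 16 * a + 12 * s - 2) (by omega) (by omega) (by omega) (by omega)
    (hR.mono (by omega)) he (heB _ (by omega)) (subset_refl _)
    (fun b hb => by unfold H75.TwoArm.BB at hb; rw [mem_Bx] at hb; omega)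
  rw [t4, ← hN] at cross
  rw [PrP_InSep_local (BB_mono' (by omega)) e, PrP_A4_local r1 e] at key
  rw [PrP_InSep_local (BB_mono' (by omega)) e] at cross
  have hpow : 0 < c0 ^ N := by positivity
  have h4 : PrP q (H75.TwoArm.BB (16 * a + 12 * s - 2)) (InSep (16 * a + 12 * s - 2) s (2 * u + 1) e)
      ≤ (c0 ^ N)⁻¹ * PrP q (H75.TwoArm.BB (408 * a + 204 * s + 32 * s))
        (CSe (408 * a + 204 * s) (4 * s) e) := by
    rw [← div_eq_inv_mul, le_div_iff₀ hpow]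
    exact cross
  linarith

/-- the interface with the scaling argument -/
theorem out_step : Pool.Agent.H47.NC.OutStep := by
  intro c0 ε hc hε
  obtain ⟨u, C, m0, hu, hC, hm0, H⟩ := out_CSe hc hε
  refine ⟨17, C, m0, by norm_num, hC, by omega, ?_⟩
  intro q x y m hm hxy hR
  obtain ⟨hq', hR'⟩ := RSM_tr x hR
  set q' : ℤ × ℤ → ℝ := fun e => q (e + x + x) with hq'def
  obtain ⟨e, hedef⟩ : ∃ e, e = y - x := ⟨_, rfl⟩
  have heo : (e.1 + e.2) % 2 = 1 ∧ |e.1| ≤ 1 ∧ |e.2| ≤ 1 := by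
    rw [hedef]
    have := unit_cases hxy
    rw [abs_le, abs_le]
    simp only [Prod.fst_sub, Prod.snd_sub]
    omega
  obtain ⟨he, he1, he2⟩ := heo
  have heB : ∀ n : ℤ, 1 ≤ n → e ∈ H75.TwoArm.BB n := by
    intro n hn
    unfold H75.TwoArm.BB
    rw [mem_Bx]
    rw [abs_le] at he1 he2
    omega
  obtain ⟨s, s1, s2, s3, s4, key⟩ := H q' e m hm hq' (hR'.mono (by omega)) he he1 he2
  obtain ⟨R, hRR⟩ : ∃ R : ℤ, R = 68 * s * (6 * u + 3) := ⟨_, rfl⟩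
  rw [← hRR] at s3 s4 key
  have hR16 : 16 * s ≤ R := by rw [hRR]; nlinarith
  have cp : PrP q' (H75.TwoArm.BB (R + 32 * s)) (CSe R (4 * s) e) ≤
      PrP q' (H75.TwoArm.BB (R + 32 * s)) (Piv (HC (-(17 * m)) (17 * m) (-(17 * m)) (17 * m)) e) :=
    PrP_mono hq' fun ω _ h => CSe_Piv (by omega) (by omega) (by omega) he ⟨he1, he2⟩ h
  have hph : Pool.Agent.H47.NC.ph q x y (17 * m) =
      PrP q' (H75.TwoArm.BB (R + 32 * s))
        (Piv (HC (-(17 * m)) (17 * m) (-(17 * m)) (17 * m)) e) := by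
    rw [PrP_Piv_local (a := -(17 * m)) (b := 17 * m) (c := -(17 * m)) (d := 17 * m)
      (BB_mono' (m := 17 * m) (by omega))]
    unfold Pool.Agent.H47.NC.ph Pool.Agent.H47.NC.Bq Pool.Agent.H47.NC.HR
    rw [Piv_tr q _ _ _ _ x (x + y)]
    have e1 : x.1 - 17 * m - x.1 = -(17 * m) := by ring
    have e2 : x.1 + 17 * m - x.1 = 17 * m := by ring
    have e3 : x.2 - 17 * m - x.2 = -(17 * m) := by ring
    have e4 : x.2 + 17 * m - x.2 = 17 * m := by ring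
    have e5 : x + y - x - x = e := by rw [hedef]; ring
    rw [e1, e2, e3, e4, e5]
  rw [uQ_tr q hxy (by omega), uQ_tr q hxy (m := m / 2) (by omega), ← hedef, hph]
  have := mul_le_mul_of_nonneg_left cp hC.le
  linarith

/-- **Outwards**, with the cross event of the edge `(1,0)` (`H65/Four/Defs`). -/
theorem out_CS {c0 ε : ℝ} (hc : 0 < c0) (hε : 0 < ε) : ∃ (N : ℕ) (C : ℝ) (m0 : ℤ),
    0 < C ∧ 100 ≤ m0 ∧ ∀ (q : ℤ × ℤ → ℝ) (m : ℤ), m0 ≤ m → Pool.Agent.H47.NC.RSM q c0 m →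
      ∃ w R : ℤ, 1 ≤ w ∧ 16 * w ≤ R ∧ R ≤ N * w ∧ m ≤ R ∧ R ≤ 17 * m ∧
        Pool.Agent.H47.NC.uQ q (0, 0) (1, 0) m ≤
          C * PrP q (H75.TwoArm.BB (R + 8 * w)) (Pool.Agent.H65.Four.CS R w) +
          ε * Pool.Agent.H47.NC.uQ q (0, 0) (1, 0) (m / 2) := by
  obtain ⟨u, C, m0, hu, hC, hm0, H⟩ := out_CSe hc hε
  refine ⟨(17 * (6 * u + 3)).toNat, C, m0, hC, hm0, ?_⟩
  intro q m hm hR
  obtain ⟨hq', hR'⟩ := RSM_tr (0, 0) hR
  have hqq : (fun e : ℤ × ℤ => q (e + (0, 0) + (0, 0))) = q := by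
    funext e; congr 1; ext <;> simp
  rw [hqq] at hq' hR'
  obtain ⟨s, s1, s2, s3, s4, key⟩ := H q (1, 0) m hm hq' hR' (by norm_num) (by norm_num)
    (by norm_num)
  refine ⟨4 * s, 68 * s * (6 * u + 3), by omega, by nlinarith, ?_, by omega, by omega, ?_⟩
  · have h1 : (((17 * (6 * u + 3)).toNat : ℕ) : ℤ) = 17 * (6 * u + 3) := Int.toNat_of_nonneg (by omega)
    rw [h1]
    nlinarith
  · have hu1 : IsUnit4 (((1, 0) : ℤ × ℤ) - (0, 0)) := by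
      unfold IsUnit4; simp
    rw [uQ_tr q hu1 (by omega), uQ_tr q hu1 (m := m / 2) (by omega), hqq]
    have e1 : ((1, 0) : ℤ × ℤ) - (0, 0) = (1, 0) := by simp
    rw [e1]
    have e2 : 68 * s * (6 * u + 3) + 8 * (4 * s) = 68 * s * (6 * u + 3) + 32 * s := by ring
    rw [e2, ← PrP_congr fun ω _ => CSe_eq (68 * s * (6 * u + 3)) (4 * s) ω]
    exact key

end Pool.Agent.H81.NC
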