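import Mathlib
import Pool.Agent.H81.NC.ArmO
import Pool.Agent.H81.NC.ArmD
import Pool.Agent.H81.NC.Small
import Pool.Agent.H81.NC.OuterGeo
import Pool.Agent.H81.NC.Piv
import Pool.Agent.H81.NC.SepDual
import Pool.Agent.H81.NC.Defs3

set_option autoImplicit false
open Finset

/-! Job NC-V1 (helper68): the deterministic part of the variance bound. If the arms `i`, `i + 2` are
joined by an open network through the inner box, the ends of `e'` are connected; if the other two are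
joined by a dual network, they are not. -/

namespace Pool.Agent.H81.NC

open Pool.Agent.H75.Perc Pool.Agent.H75.TwoArm Pool.Agent.H75.Four Pool.Agent.H99.NC

namespace VarDetAux

/-- norm at least `R` -/
def Out (R : ℤ) (c : ℤ × ℤ) : Prop := R ≤ c.1 ∨ R ≤ -c.1 ∨ R ≤ c.2 ∨ R ≤ -c.2

/-- norm at most `K` -/
def Ins (K : ℤ) (c : ℤ × ℤ) : Prop := c.1 ≤ K ∧ -c.1 ≤ K ∧ c.2 ≤ K ∧ -c.2 ≤ K

lemma mul_out {s R x : ℤ} (hs : 0 ≤ s) (h : R ≤ x) : 8 * s * R ≤ 8 * s * x :=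
  mul_le_mul_of_nonneg_left h (by omega)

lemma mul_neg' (s x : ℤ) : 8 * s * -x = -(8 * s * x) := by ring

lemma bx_in {s K d : ℤ} (hs : 0 ≤ s) {c a : ℤ × ℤ} (hc : Ins K c)
    (ha : a ∈ Bx (8 * s * c.1 - d) (8 * s * c.1 + d) (8 * s * c.2 - d) (8 * s * c.2 + d)) :
    Ins (2 * (8 * s * K + d)) a := by
  rw [mem_Bx] at ha
  unfold Ins at hc ⊢
  obtain ⟨h1, h2, h3, h4⟩ := hc
  have g1 := mul_out hs h1
  have g2 := mul_out hs h2
  have g3 := mul_out hs h3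
  have g4 := mul_out hs h4
  rw [mul_neg'] at g2 g4
  omega

lemma cs_in {s K : ℤ} (hs : 0 ≤ s) {S : Finset (ℤ × ℤ)} (hS : ∀ c ∈ S, Ins K c) {a : ℤ × ℤ}
    (ha : a ∈ csS s S) : Ins (2 * (8 * s * K + 4 * s)) a := by
  unfold csS at ha
  rw [mem_cs] at ha
  obtain ⟨c, hc, h⟩ := ha
  rw [cell_eq] at h
  exact bx_in hs (hS c hc) h

lemma mem_BBi {r : ℤ} {a : ℤ × ℤ} : a ∈ H75.TwoArm.BB r ↔ Ins (2 * r) a ∧ (a.1 + a.2) % 2 = 1 := by
  unfold H75.TwoArm.BB Ins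
  rw [mem_Bx]; omega

lemma U4_sub (B ω : Finset (ℤ × ℤ)) (e : ℤ × ℤ) : U4 B e ω ⊆ B := by
  intro a ha
  unfold U4 at ha
  rw [mem_union, StrandAux.mem_UU, StrandAux.mem_UU] at ha
  rcases ha with ha | ha
  · exact ha.1
  · exact ha.1

lemma succ_kappa' (b j : Fin 4) : b - j + 1 = b - (j - 1) := by
  revert b j; decide

lemma j0 (i : Fin 4) : jj 0 i = i := by unfold jj; rw [if_neg (by norm_num)]

lemma kkeys {R0 : ℤ} (hR0 : 45 ≤ R0) : Keys (R0 - 10) 8 kσ (fun _ => 0) := by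
  have h4 : ∀ i : Fin 4, ((i : ℕ) : ℤ) < 4 := fun i => by have := i.isLt; omega
  refine ⟨fun i => ?_, fun i j hij => ?_⟩
  · have := h4 i
    show Key (R0 - 10) (kσ i) 0
    unfold Key kσ
    omega
  · have h1 : (i : ℕ) < (j : ℕ) := hij
    have := h4 i
    unfold kσ
    omega

section

variable {R0 K0 : ℤ} {τ z : Fin 4 → ℤ}

lemma TN_link (hR0 : 45 ≤ R0) (hK0 : R0 + 140 ≤ K0) (kO : Keys (K0 - 70) 8 τ z) {i : Fin 4}
    (hi : i = 0 ∨ i = 1) :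
    (∀ j, (j = i ∨ j = i + 2) → rad (τ j) (z j) K0 ∈ TN R0 K0 τ z i ∧
      rad (τ j) (z j + 1) K0 ∈ TN R0 K0 τ z i) ∧
    Lk (TN R0 K0 τ z i) (rad (τ i) (z i) K0) (rad (τ (i + 2)) (z (i + 2)) K0) := by
  have kI := kkeys hR0
  obtain ⟨-, ⟨p1, p2, -⟩, l1⟩ := Arm_link hR0 hK0 (Or.inl rfl) kI kO i
  obtain ⟨-, ⟨q1, q2, -⟩, l2⟩ := Arm_link hR0 hK0 (Or.inl rfl) kI kO (i + 2)
  rw [j0] at p1 p2 l1 q1 q2 l2
  have s1 : Arm R0 K0 0 kσ (fun _ => 0) τ z i ⊆ TN R0 K0 τ z i := by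
    unfold TN; exact subset_union_left.trans subset_union_left
  have s2 : Arm R0 K0 0 kσ (fun _ => 0) τ z (i + 2) ⊆ TN R0 K0 τ z i := by
    unfold TN; exact subset_union_right.trans subset_union_left
  have s3 : Line R0 i ⊆ TN R0 K0 τ z i := by
    unfold TN; exact subset_union_right
  refine ⟨?_, ?_⟩
  · rintro j (rfl | rfl)
    · exact ⟨s1 p1, s1 p2⟩
    · exact ⟨s2 q1, s2 q2⟩
  · have l3 : Lk (Line R0 i) (rad (kσ i) 0 (R0 + 1)) (rad (kσ i) 0 (-(R0 + 1))) := by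
      unfold Line
      exact pc_lk (fun t _ _ => rad_step (kσ i) 0 t) (by omega) le_rfl le_rfl (by omega)
    have e3 : rad (kσ i) 0 (-(R0 + 1)) = rad (kσ (i + 2)) 0 (R0 + 1) := by
      rcases hi with rfl | rfl
      · show ro (-1) (-(R0 + 1), 0) = ro 1 (R0 + 1, 0)
        unfold ro
        norm_num
      · show ro 0 (-(R0 + 1), 0) = ro 2 (R0 + 1, 0)
        unfold ro
        norm_num
    rw [e3] at l3
    exact ((l1.mono s1).symm.trans (l3.mono s3)).trans (l2.mono s2)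

lemma TN_in (hR0 : 45 ≤ R0) (hK0 : R0 + 140 ≤ K0) (kO : Keys (K0 - 70) 8 τ z) {i : Fin 4} :
    ∀ c ∈ TN R0 K0 τ z i, Ins K0 c := by
  intro c hc
  have kI := kkeys hR0
  unfold TN at hc
  rw [mem_union, mem_union] at hc
  rcases hc with (hc | hc) | hc
  · exact (Arm_inA hR0 hK0 (Or.inl rfl) kI kO hc).2
  · exact (Arm_inA hR0 hK0 (Or.inl rfl) kI kO hc).2
  · unfold Line at hc
    rw [mem_pc] at hc
    obtain ⟨t, h1, h2, rfl⟩ := hc
    unfold rad ro Ins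
    split_ifs <;> simp only <;> omega

end

end VarDetAux

open VarDetAux

theorem var_det {s R0 K0 k L : ℤ} (hs : 3 ≤ s) (hR0 : 45 ≤ R0) (hK0 : R0 + 140 ≤ K0)
    (hk : 4 * s * (2 * K0 + 1) + 2 ≤ k ∧ k ≤ 4 * s * (2 * K0 + 1) + s - 1) (hL : 2 * k ≤ L)
    {e' : ℤ × ℤ} {G ω ω'' x : Finset (ℤ × ℤ)} (hG : BB L ⊆ G) (hH : Hole k L e' ω)
    (h'' : ω'' ⊆ BB (L - 1)) (hx : x ⊆ BB (4 * s * (2 * R0 + 1)))
    {b : Fin 4} {τ z h' : Fin 4 → ℤ} (kO : Keys (K0 - 70) 8 τ z)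
    (gO : GO k s (BB L \ BB k) e' b τ z h' ω) {i i' : Fin 4}
    (hi : (i = 0 ∧ i' = 1 ∧ (b = 0 ∨ b = 2)) ∨ (i = 1 ∧ i' = 0 ∧ (b = 1 ∨ b = 3)))
    (hO : NO s (TN R0 K0 τ z i) ω'' ∧ HO (τ i + 2) (-(2 * k) - 1) (h' i) s ω'' ∧
      HO (τ (i + 2) + 2) (-(2 * k) - 1) (h' (i + 2)) s ω'')
    (hD : ND s (TN R0 K0 τ z i') G ((ω'' \ BB (4 * s * (2 * R0 + 1))) ∪ x) ∧
      HD (τ i' + 2) (-(2 * k) - 1) (h' i') s G ((ω'' \ BB (4 * s * (2 * R0 + 1))) ∪ x) ∧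
      HD (τ (i' + 2) + 2) (-(2 * k) - 1) (h' (i' + 2)) s G
        ((ω'' \ BB (4 * s * (2 * R0 + 1))) ∪ x)) :
    Co ((mix (U4 (BB L \ BB k) e' ω) ω ω'').erase e') (vx (zu e')) (vx (zv e')) ∧
    ¬ Co (((mix (U4 (BB L \ BB k) e' ω) ω ω'' \ BB (4 * s * (2 * R0 + 1))) ∪ x).erase e')
      (vx (zu e')) (vx (zv e')) := by
  set U := U4 (H75.TwoArm.BB L \ H75.TwoArm.BB k) e' ω with hU
  have hK : 185 ≤ K0 := by omega
  have hs0 : 0 ≤ s := by omega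
  have he' := hH.he
  -- sizes
  have x1 : 4 * s * (2 * R0 + 1) = 8 * s * R0 + 4 * s := by ring
  have x2 : 4 * s * (2 * K0 + 1) = 8 * s * K0 + 4 * s := by ring
  have x4 : 8 * s * R0 + 8 * s * 140 ≤ 8 * s * K0 := by
    have := mul_out hs0 hK0
    have e1 : 8 * s * (R0 + 140) = 8 * s * R0 + 8 * s * 140 := by ring
    omega
  have x5 : 0 ≤ 8 * s * R0 := mul_nonneg (by omega) (by omega)
  have hk' := hk
  rw [x2] at hk'
  have heL : e' ∈ H75.TwoArm.BB L \ H75.TwoArm.BB k := by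
    rw [mem_sdiff]
    refine ⟨?_, hH.hB⟩
    have := hH.hE
    rw [mem_BBi] at this ⊢
    unfold Ins at this ⊢
    omega
  have hA2 : A4 (H75.TwoArm.BB L \ H75.TwoArm.BB k) e' ω := GO_A4 hs hK hk hH kO gO
  have u2 : U ⊆ H75.TwoArm.BB L \ H75.TwoArm.BB k := U4_sub _ ω e'
  -- members of `U`
  have mU : ∀ l ∈ U, ¬ Ins (2 * k) l := by
    intro l hl h
    have h1 := mem_sdiff.1 (u2 hl)
    exact h1.2 (mem_BBi.2 ⟨h, (mem_BBi.1 h1.1).2⟩)
  have csU : ∀ i, ∀ l ∈ U, l ∉ csS s (TN R0 K0 τ z i) := by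
    intro i l hl hcs
    have h2 := cs_in (S := TN R0 K0 τ z i) (K := K0) (s := s) (a := l) hs0
      (TN_in (i := i) hR0 hK0 kO) (by assumption)
    have h3 := mU l hl
    unfold Ins at h2 h3
    omega
  have csU1 : ∀ i, ∀ l ∈ U, l + (1, 1) ∉ csS s (TN R0 K0 τ z i) := by
    intro i l hl hcs
    have h2 := cs_in (S := TN R0 K0 τ z i) (K := K0) (s := s) (a := l + (1, 1)) hs0
      (TN_in (i := i) hR0 hK0 kO) (by assumption)
    have h3 := mU l hl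
    unfold Ins at h2 h3
    simp only [Prod.fst_add, Prod.snd_add] at h2
    omega
  have geoO := fun j => outer_geo hs hK hk hL hH hA2 kO gO j
  have xx : -(2 * k) - 1 + 1 = -(2 * k) := by ring
  -- the open ends
  have openE : ∀ j, ∀ i, (b - j = 0 ∨ b - j = 2) → NO s (TN R0 K0 τ z i) ω'' →
      HO (τ j + 2) (-(2 * k) - 1) (h' j) s ω'' → rad (τ j) (z j) K0 ∈ TN R0 K0 τ z i →
      rad (τ j) (z j + 1) K0 ∈ TN R0 K0 τ z i → ∀ c v, Lk (TN R0 K0 τ z i) (rad (τ j) (z j) K0) c →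
      CFS s c ω'' v → Co ((mix U ω ω'').erase e') (vend e' (b - j)) v := by
    intro j i hj n1 n3 p1 p2 c v lk hv
    obtain ⟨r1, r2, r3, r4, r5, r6, -⟩ := geoO j
    obtain ⟨r7, r8, r9⟩ := r6 hj
    have B := arm_end_O (U := U) (ω'' := ω'') (φ := τ j + 2) (X := -(2 * k) - 1)
      (y := -z j) (ρ := -K0) hs he' heL hA2 hj r7
      (by rw [xx]; exact (gO j).2)
      (by rw [succ_kappa']; exact (gO (j - 1)).2) (by rw [xx]; exact r8)
      (by rw [r1, xx]; exact r9) (by rw [r1]; exact r2)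
      subset_rfl (fun l hl _ => hl) (csU i) (gO j).1 r3 n1 (by rw [r4]; exact p1)
      (by rw [r5]; exact p2) n3 (by rw [r4]; exact lk) hv
    exact B.mono inter_subset_left
  -- the dual ends
  have dualE : ∀ (ω1 : Finset (ℤ × ℤ)), ∀ j, ∀ i, (b - j = 1 ∨ b - j = 3) →
      ND s (TN R0 K0 τ z i) G ω1 →
      HD (τ j + 2) (-(2 * k) - 1) (h' j) s G ω1 → rad (τ j) (z j) K0 ∈ TN R0 K0 τ z i →
      rad (τ j) (z j + 1) K0 ∈ TN R0 K0 τ z i → ∀ c v, Lk (TN R0 K0 τ z i) (rad (τ j) (z j) K0) c →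
      CFS s c (du G ω1) v → Co (du G (insert e' (mix U ω ω1))) (fend e' (b - j)) v := by
    intro ω1 j i hj n1 n3 p1 p2 c v lk hv
    obtain ⟨r1, r2, r3, r4, r5, -, r6⟩ := geoO j
    obtain ⟨r7, r8, r9⟩ := r6 hj
    have B := arm_end_D (U := U) (ω'' := ω1) (E := G) (φ := τ j + 2) (X := -(2 * k) - 1)
      (y := -z j) (ρ := -K0) hs he' heL (sdiff_subset.trans hG) hA2 hj r7
      (by rw [xx]; exact (gO j).2)
      (by rw [succ_kappa']; exact (gO (j - 1)).2) (by rw [xx]; exact r8)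
      (by rw [r1, xx]; exact r9) (by rw [r1]; exact r2)
      subset_rfl (fun l hl _ => hl) (csU1 i) (gO j).1 r3 n1 (by rw [r4]; exact p1)
      (by rw [r5]; exact p2) n3 (by rw [r4]; exact lk) hv
    exact B.mono inter_subset_left
  have hi0 : i = 0 ∨ i = 1 := by
    rcases hi with h | h
    · exact Or.inl h.1
    · exact Or.inr h.1
  have hi0' : i' = 0 ∨ i' = 1 := by
    rcases hi with h | h
    · exact Or.inr h.2.1
    · exact Or.inl h.2.1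
  have cmb : ((b - i = 0 ∧ b - (i + 2) = 2) ∨ (b - i = 2 ∧ b - (i + 2) = 0)) ∧
      ((b - i' = 1 ∧ b - (i' + 2) = 3) ∨ (b - i' = 3 ∧ b - (i' + 2) = 1)) := by
    have key : ∀ b i i' : Fin 4, ((i = 0 ∧ i' = 1 ∧ (b = 0 ∨ b = 2)) ∨
        (i = 1 ∧ i' = 0 ∧ (b = 1 ∨ b = 3))) →
      ((b - i = 0 ∧ b - (i + 2) = 2) ∨ (b - i = 2 ∧ b - (i + 2) = 0)) ∧
      ((b - i' = 1 ∧ b - (i' + 2) = 3) ∨ (b - i' = 3 ∧ b - (i' + 2) = 1)) := by decide
    exact key b i i' hi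
  have ve0 : ∀ e : ℤ × ℤ, vend e 0 = vx (zu e) := fun _ => rfl
  have ve2 : ∀ e : ℤ × ℤ, vend e 2 = vx (zv e) := fun _ => rfl
  have fe1 : ∀ e : ℤ × ℤ, fend e 1 = fi (zu e) := fun _ => rfl
  have fe3 : ∀ e : ℤ × ℤ, fend e 3 = fi (zv e) := fun _ => rfl
  refine ⟨?_, ?_⟩
  · obtain ⟨n1, n2, n3⟩ := hO
    obtain ⟨tm, tl⟩ := TN_link hR0 hK0 kO hi0
    obtain ⟨a1, a2⟩ := tm i (Or.inl rfl)
    obtain ⟨b1, b2⟩ := tm (i + 2) (Or.inr rfl)
    obtain ⟨v, hv⟩ := Net.full n1 a1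
    have hj1 : b - i = 0 ∨ b - i = 2 := by
      rcases cmb.1 with h | h
      · exact Or.inl h.1
      · exact Or.inr h.1
    have hj2 : b - (i + 2) = 0 ∨ b - (i + 2) = 2 := by
      rcases cmb.1 with h | h
      · exact Or.inr h.2
      · exact Or.inl h.2
    have A := openE i i hj1 n1 n2 a1 a2 _ v Relation.ReflTransGen.refl hv
    have B := openE (i + 2) i hj2 n1 n3 b1 b2 _ v tl.symm hv
    rcases cmb.1 with ⟨h1, h2⟩ | ⟨h1, h2⟩
    · rw [h1, ve0] at A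
      rw [h2, ve2] at B
      exact A.trans B.symm
    · rw [h1, ve2] at A
      rw [h2, ve0] at B
      exact B.trans A.symm
  · set C := H75.TwoArm.BB (4 * s * (2 * R0 + 1)) with hC
    have hUC : ∀ l ∈ U, l ∉ C := by
      intro l hl hlC
      have h1 := (mem_BBi.1 hlC).1
      have h3 := mU l hl
      unfold Ins at h1 h3
      omega
    have hmix : (mix U ω ω'' \ C) ∪ x = mix U ω ((ω'' \ C) ∪ x) := by
      ext l
      rw [mem_union, mem_sdiff, mem_mix, mem_mix, mem_union, mem_sdiff]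
      constructor
      · rintro (⟨⟨h1, h2⟩ | ⟨h1, h2⟩, h3⟩ | h1)
        · exact Or.inl ⟨h1, h2⟩
        · exact Or.inr ⟨Or.inl ⟨h1, h3⟩, h2⟩
        · exact Or.inr ⟨Or.inr h1, fun h => hUC l h (hx h1)⟩
      · rintro (⟨h1, h2⟩ | ⟨⟨h1, h3⟩ | h1, h2⟩)
        · exact Or.inl ⟨Or.inl ⟨h1, h2⟩, hUC l h2⟩
        · exact Or.inl ⟨Or.inr ⟨h1, h2⟩, h3⟩
        · exact Or.inr h1
    rw [hmix]
    apply sep_of_dual (E := G) he'
    obtain ⟨n1, n2, n3⟩ := hD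
    obtain ⟨tm, tl⟩ := TN_link hR0 hK0 kO hi0'
    obtain ⟨a1, a2⟩ := tm i' (Or.inl rfl)
    obtain ⟨b1, b2⟩ := tm (i' + 2) (Or.inr rfl)
    obtain ⟨v, hv⟩ := Net.full n1 a1
    have hj1 : b - i' = 1 ∨ b - i' = 3 := by
      rcases cmb.2 with h | h
      · exact Or.inl h.1
      · exact Or.inr h.1
    have hj2 : b - (i' + 2) = 1 ∨ b - (i' + 2) = 3 := by
      rcases cmb.2 with h | h
      · exact Or.inr h.2
      · exact Or.inl h.2
    have A := dualE _ i' i' hj1 n1 n2 a1 a2 _ v Relation.ReflTransGen.refl hv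
    have B := dualE _ (i' + 2) i' hj2 n1 n3 b1 b2 _ v tl.symm hv
    rcases cmb.2 with ⟨h1, h2⟩ | ⟨h1, h2⟩
    · rw [h1, fe1] at A
      rw [h2, fe3] at B
      exact A.trans B.symm
    · rw [h1, fe3] at A
      rw [h2, fe1] at B
      exact B.trans A.symm

end Pool.Agent.H81.NC
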