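import Mathlib
import Pool.Agent.H81.NC.Defs3
import Pool.Agent.H81.NC.ProbA
import Pool.Agent.H81.NC.TransA
import Pool.Agent.H75.Four.DefsB
import Pool.Agent.H75.Four.FOther
import Pool.Agent.H99.NC.VarP2

set_option autoImplicit false
open Finset

/-! Job V2 (VAR), probabilistic part: the two networks of the two colours through the inner box are
realised simultaneously with probability bounded below, the dual one after resampling the inner box. -/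

namespace Pool.Agent.H81.NC

open Pool.Agent.H75.Perc Pool.Agent.H75.TwoArm Pool.Agent.H75.Four Pool.Agent.H99.NC

namespace VarAux

/-! ### Two networks with an independent copy inside a block -/

/-- `A` depends on `E1`, `D` on `E2`, the two sets only meet inside the block `B`, which is resampled
for `D`. -/
lemma two_prob {α : Type*} [DecidableEq α] (q : α → ℝ) {E B E1 E2 : Finset α} (hB : B ⊆ E)
    (h1 : E1 ⊆ E) (h2 : E2 ⊆ E) (hd : Disjoint E1 (E2 \ B)) (A D : Finset α → Prop)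
    (hA : ∀ ω, ω ⊆ E → (A (ω ∩ E1) ↔ A ω)) (hD : ∀ ω, ω ⊆ E → (D (ω ∩ E2) ↔ D ω)) :
    Ex q E (fun ω => Ex q B (fun x => ind (A ω ∧ D ((ω \ B) ∪ x)))) = PrP q E A * PrP q E D := by
  have hsub : ∀ ω x : Finset α, ω ⊆ E → x ⊆ B → (ω \ B) ∪ x ⊆ E := fun ω x hω hx =>
    union_subset (sdiff_subset.trans hω) (hx.trans hB)
  set g : Finset α → ℝ := fun y => Ex q B (fun x => ind (D (y ∪ (x ∩ E2)))) with hg
  have e1 : Ex q E (fun ω => Ex q B (fun x => ind (A ω ∧ D ((ω \ B) ∪ x)))) =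
      Ex q E (fun ω => ind (A (ω ∩ E1)) * g (ω ∩ (E2 \ B))) := by
    refine Ex_congr fun ω hω => ?_
    rw [hg]
    simp only
    rw [← Ex_smul]
    refine Ex_congr fun x hx => ?_
    rw [ind_and, ind_congr (hA ω hω), ind_congr (hD _ (hsub ω x hω hx)).symm]
    congr 2
    have : ((ω \ B) ∪ x) ∩ E2 = ω ∩ (E2 \ B) ∪ x ∩ E2 := by
      ext y
      simp only [mem_union, mem_sdiff, mem_inter]
      tauto
    rw [this]
  have h3 : E2 \ B ⊆ E := sdiff_subset.trans h2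
  rw [e1, Ex_indep q h1 h3 hd (fun ω => ind (A ω)) g]
  have e2 : Ex q E1 (fun ω => ind (A ω)) = PrP q E A := by
    unfold PrP
    rw [← Ex_restrict q h1 (fun ω => ind (A ω))]
    exact Ex_congr fun ω hω => ind_congr (hA ω hω)
  have e3 : Ex q (E2 \ B) g = PrP q E D := by
    rw [← Ex_restrict q h3 g]
    have e4 : PrP q E D = Ex q E (fun ω => ind (D (ω ∩ E2))) :=
      Ex_congr fun ω hω => (ind_congr (hD ω hω)).symm
    rw [e4, ← Ex_block q hB (fun ω => ind (D (ω ∩ E2)))]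
    refine Ex_congr fun ω hω => ?_
    rw [hg]
    simp only
    refine Ex_congr fun x hx => ?_
    have : ((ω \ B) ∪ x) ∩ E2 = ω ∩ (E2 \ B) ∪ x ∩ E2 := by
      ext y
      simp only [mem_union, mem_sdiff, mem_inter]
      tauto
    rw [this]
  rw [e2, e3]

/-- Harris inequality for three increasing events -/
lemma harris3 {q : ℤ × ℤ → ℝ} (hq : Pb q) {E : Finset (ℤ × ℤ)} {A B C : Finset (ℤ × ℤ) → Prop}
    (hA : Inc A) (hB : Inc B) (hC : Inc C) {x y z : ℝ} (hx : 0 ≤ x) (hy : 0 ≤ y) (hz : 0 ≤ z)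
    (h1 : x ≤ PrP q E A) (h2 : y ≤ PrP q E B) (h3 : z ≤ PrP q E C) :
    x * (y * z) ≤ PrP q E (fun ω => A ω ∧ B ω ∧ C ω) :=
  PrP_mul_le hq hA (fun ω ω' h hh => ⟨hB ω ω' h hh.1, hC ω ω' h hh.2⟩) hx (mul_nonneg hy hz) h1
    (PrP_mul_le hq hB hC hy hz h2 h3)

/-- the same for three increasing events of the complement -/
lemma harris3d {q : ℤ × ℤ → ℝ} (hq : Pb q) {E : Finset (ℤ × ℤ)} {A B C : Finset (ℤ × ℤ) → Prop}
    (hA : Inc A) (hB : Inc B) (hC : Inc C) {x y z : ℝ} (hx : 0 ≤ x) (hy : 0 ≤ y) (hz : 0 ≤ z)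
    (h1 : x ≤ PrP q E (fun ω => A (E \ ω))) (h2 : y ≤ PrP q E (fun ω => B (E \ ω)))
    (h3 : z ≤ PrP q E (fun ω => C (E \ ω))) :
    x * (y * z) ≤ PrP q E (fun ω => A (E \ ω) ∧ B (E \ ω) ∧ C (E \ ω)) := by
  rw [← PrP_compl] at h1 h2 h3
  have := harris3 (q := fun e => 1 - q e) hq.compl hA hB hC hx hy hz h1 h2 h3
  rw [PrP_compl] at this
  exact this

lemma HO_inc (φ X h s : ℤ) : Inc (HO φ X h s) := fun _ _ hs hh =>
  Net_inc _ _ _ _ _ (FR_mono hs) hh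

lemma NO_inc (s : ℤ) (S : Finset (ℤ × ℤ)) : Inc (NO s S) := Net_inc _ _ _

/-! ### Labels near a cell -/

/-- the label `l` is at distance at most `d` from the cell `c` (mesh `8s`, centred) -/
def Nr (s d : ℤ) (c l : ℤ × ℤ) : Prop :=
  (16 * s * c.1 - 8 * s - 2 * d ≤ l.1 ∧ l.1 ≤ 16 * s * c.1 + 8 * s + 2 * d) ∧
  (16 * s * c.2 - 8 * s - 2 * d ≤ l.2 ∧ l.2 ≤ 16 * s * c.2 + 8 * s + 2 * d)

lemma Nr.mono {s d d' : ℤ} {c l : ℤ × ℤ} (h : Nr s d c l) (hd : d ≤ d') : Nr s d' c l := by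
  unfold Nr at *; omega

lemma Nr.ro {s d : ℤ} {c l : ℤ × ℤ} (h : Nr s d c l) (φ : ℤ) : Nr s d (NC.ro φ c) (NC.ro φ l) := by
  unfold Nr NC.ro at *
  split_ifs <;> (try simp only [mul_neg]) <;> omega

lemma Nr_far {s d d' m : ℤ} (hs : 0 ≤ s) {c c' l : ℤ × ℤ} (h : Nr s d c l) (h' : Nr s d' c' l)
    (hf : Far m c c') : 16 * s * m ≤ 16 * s + 2 * d + 2 * d' := by
  unfold Nr at h h'
  obtain ⟨⟨a1, a2⟩, a3, a4⟩ := h
  obtain ⟨⟨b1, b2⟩, b3, b4⟩ := h'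
  rcases hf with hf | hf | hf | hf <;>
  · have := mul_le_mul_of_nonneg_left hf (show (0 : ℤ) ≤ 16 * s by omega)
    rw [mul_add] at this
    omega

lemma cell_Nr {s : ℤ} {c l : ℤ × ℤ} (h : l ∈ cell (-(4 * s), -(4 * s)) (8 * s) c) : Nr s 0 c l := by
  unfold cell at h
  rw [mem_Bx] at h
  unfold Nr
  simp only at h
  have e1 : 16 * s * c.1 = 2 * (8 * s * c.1) := by ring
  have e2 : 16 * s * c.2 = 2 * (8 * s * c.2) := by ring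
  rw [e1, e2]
  omega

lemma Nr_sh {s : ℤ} {c l : ℤ × ℤ} (h : Nr s 0 c l) : Nr s 1 c (l - (1, 1)) := by
  unfold Nr at *
  simp only [Prod.fst_sub, Prod.snd_sub]
  omega

lemma sh1_sub (l : ℤ × ℤ) : sh1 (l - (1, 1)) = l := by
  change ((l - (1, 1)).1 + 1, (l - (1, 1)).2 + 1) = l
  refine Prod.ext ?_ ?_ <;> simp only [Prod.fst_sub, Prod.snd_sub] <;> omega

lemma CC_bd {c : ℤ × ℤ} (h : c ∈ CC) : (-2 ≤ c.1 ∧ c.1 ≤ 9) ∧ (-2 ≤ c.2 ∧ c.2 ≤ 1) := by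
  unfold CC at h
  simp only [mem_union, mem_pc] at h
  rcases h with (⟨t, h1, h2, rfl⟩ | ⟨t, h1, h2, rfl⟩) | ⟨t, h1, h2, rfl⟩ <;> simp only <;> omega

/-- the labels of a fine hook -/
lemma hook_bd {o : ℤ × ℤ} {s : ℤ} (hs : 0 ≤ s) {l : ℤ × ℤ} (h : l ∈ cs o s CC) :
    (2 * o.1 - 4 * s ≤ l.1 ∧ l.1 ≤ 2 * o.1 + 20 * s) ∧
    (2 * o.2 - 4 * s ≤ l.2 ∧ l.2 ≤ 2 * o.2 + 4 * s) ∧ (l.1 + l.2) % 2 = 1 := by
  obtain ⟨c, hc, hl⟩ := mem_cs.1 h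
  have hb := CC_bd hc
  unfold cell at hl
  rw [mem_Bx] at hl
  have m1 := mul_le_mul_of_nonneg_left hb.1.1 hs
  have m2 := mul_le_mul_of_nonneg_left hb.1.2 hs
  have m3 := mul_le_mul_of_nonneg_left hb.2.1 hs
  have m4 := mul_le_mul_of_nonneg_left hb.2.2 hs
  omega

lemma ro_shift (τ ρ y : ℤ) : NC.ro (τ + 2) (-ρ, -y) = NC.ro τ (ρ, y) := by
  unfold NC.ro
  split_ifs <;> first | (exfalso; omega) | (refine Prod.ext ?_ ?_ <;> simp only <;> omega)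

/-- geometry of the hook of a hit of the hole -/
lemma hook_Nr {s K0 k z h τ : ℤ} (hs : 3 ≤ s)
    (hk : 4 * s * (2 * K0 + 1) + 2 ≤ k ∧ k ≤ 4 * s * (2 * K0 + 1) + s - 1) (hr : Row s (-z) h)
    {o : ℤ × ℤ} (ho1 : o.1 = -k) (ho2 : h - 1 ≤ 2 * o.2 ∧ 2 * o.2 ≤ h + 1) {l t : ℤ × ℤ}
    (hl : l ∈ cs o s CC) (ht : (0 ≤ t.1 ∧ t.1 ≤ 1) ∧ (0 ≤ t.2 ∧ t.2 ≤ 1)) :
    Nr s (4 * s) (rad τ (z + 1) K0) (NC.ro (τ + 2) (l - t)) := by
  have hb := hook_bd (by omega) hl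
  have key : Nr s (4 * s) (-K0, -(z + 1)) (l - t) := by
    unfold Nr
    unfold Row at hr
    simp only [Prod.fst_sub, Prod.snd_sub]
    have e1 : 4 * s * (2 * K0 + 1) = 8 * (s * K0) + 4 * s := by ring
    have e2 : 16 * s * -K0 = -(16 * (s * K0)) := by ring
    have e3 : 16 * s * (-(z + 1)) = 2 * (8 * s * (-z - 1)) := by ring
    rw [e1] at hk
    rw [e2, e3]
    omega
  have h2 := key.ro (τ + 2)
  rw [ro_shift] at h2
  exact h2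

lemma ro_par (φ : ℤ) {l : ℤ × ℤ} (h : (l.1 + l.2) % 2 = 1) :
    ((NC.ro φ l).1 + (NC.ro φ l).2) % 2 = 1 := by
  unfold NC.ro
  split_ifs <;> (try simp only) <;> omega

/-- labels near the cells of norm at most `K0` belong to `E` -/
lemma Nr_BB {s K0 k d a : ℤ} (hs : 3 ≤ s)
    (hk : 4 * s * (2 * K0 + 1) + 2 ≤ k ∧ k ≤ 4 * s * (2 * K0 + 1) + s - 1) (hd : d ≤ 4 * s)
    {c l : ℤ × ℤ} (hc : InA a K0 c) (h : Nr s d c l) (hp : (l.1 + l.2) % 2 = 1) :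
    l ∈ H75.TwoArm.BB (k + 10 * s) := by
  unfold H75.TwoArm.BB
  rw [mem_Bx]
  unfold Nr at h
  obtain ⟨-, h1, h2, h3, h4⟩ := hc
  have e1 : 4 * s * (2 * K0 + 1) = 8 * (s * K0) + 4 * s := by ring
  rw [e1] at hk
  have m0 : (0 : ℤ) ≤ 16 * s := by omega
  have m1 := mul_le_mul_of_nonneg_left h1 m0
  have m2 := mul_le_mul_of_nonneg_left h2 m0
  have m3 := mul_le_mul_of_nonneg_left h3 m0
  have m4 := mul_le_mul_of_nonneg_left h4 m0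
  have e2 : 16 * s * K0 = 16 * (s * K0) := by ring
  rw [mul_neg] at m2 m4
  rw [e2] at m1 m2 m3 m4
  omega

/-! ### The two networks -/

lemma keys_kσ {R0 : ℤ} (hR0 : 45 ≤ R0) : Keys (R0 - 10) 8 kσ (fun _ => 0) := by
  refine ⟨fun i => ⟨?_, ?_, ?_, ?_⟩, fun i j hij => ⟨Or.inl ?_, fun h => ?_⟩⟩
  · unfold kσ; have := fin4 i; omega
  · simp only; omega
  · intro _; simp only; omega
  · intro h; unfold kσ at h; omega
  · unfold kσ; have : (i : ℕ) < j := hij; omega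
  · unfold kσ at h; omega

lemma rad_kσ0 (ρ : ℤ) : rad (kσ 0) 0 ρ = (0, -ρ) := rfl
lemma rad_kσ1 (ρ : ℤ) : rad (kσ 1) 0 ρ = (ρ, 0) := rfl
lemma rad_kσ2 (ρ : ℤ) : rad (kσ 2) 0 ρ = (0, ρ) := rfl
lemma rad_kσ3 (ρ : ℤ) : rad (kσ 3) 0 ρ = (-ρ, 0) := rfl

section

variable {R0 K0 : ℤ} {τ z : Fin 4 → ℤ}

/-- the cells of a line which are not cells of the arms -/
lemma Line_cases (hR0 : 45 ≤ R0) (hK0 : R0 + 140 ≤ K0) (kO : Keys (K0 - 70) 8 τ z) {i : Fin 4}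
    (hi : i = 0 ∨ i = 1) {c : ℤ × ℤ} (hc : c ∈ Line R0 i) :
    (∃ ρ, -R0 ≤ ρ ∧ ρ ≤ R0 ∧ c = rad (kσ i) 0 ρ) ∨
    c ∈ Arm R0 K0 0 kσ (fun _ => 0) τ z i ∨ c ∈ Arm R0 K0 0 kσ (fun _ => 0) τ z (i + 2) := by
  unfold Line at hc
  rw [mem_pc] at hc
  obtain ⟨ρ, h1, h2, rfl⟩ := hc
  by_cases h3 : ρ = R0 + 1
  · subst h3
    exact Or.inr (Or.inl (Arm_link hR0 hK0 (Or.inl rfl) (keys_kσ hR0) kO i).1.1)
  · by_cases h4 : ρ = -(R0 + 1)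
    · subst h4
      refine Or.inr (Or.inr ?_)
      have := (Arm_link hR0 hK0 (Or.inl rfl) (keys_kσ hR0) kO (i + 2)).1.1
      rcases hi with rfl | rfl
      · have e : rad (kσ 0) 0 (-(R0 + 1)) = rad (kσ (0 + 2)) 0 (R0 + 1) := by
          rw [rad_kσ0]
          have : (0 : Fin 4) + 2 = 2 := rfl
          rw [this, rad_kσ2, neg_neg]
        rw [e]; exact this
      · have e : rad (kσ 1) 0 (-(R0 + 1)) = rad (kσ (1 + 2)) 0 (R0 + 1) := by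
          rw [rad_kσ1]
          have : (1 : Fin 4) + 2 = 3 := rfl
          rw [this, rad_kσ3]
        rw [e]; exact this
    · exact Or.inl ⟨ρ, by omega, by omega, rfl⟩

lemma TN_cases (hR0 : 45 ≤ R0) (hK0 : R0 + 140 ≤ K0) (kO : Keys (K0 - 70) 8 τ z) {i : Fin 4}
    (hi : i = 0 ∨ i = 1) {c : ℤ × ℤ} (hc : c ∈ TN R0 K0 τ z i) :
    (∃ ρ, -R0 ≤ ρ ∧ ρ ≤ R0 ∧ c = rad (kσ i) 0 ρ) ∨
    c ∈ Arm R0 K0 0 kσ (fun _ => 0) τ z i ∨ c ∈ Arm R0 K0 0 kσ (fun _ => 0) τ z (i + 2) := by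
  unfold TN at hc
  rw [mem_union, mem_union] at hc
  rcases hc with (hc | hc) | hc
  · exact Or.inr (Or.inl hc)
  · exact Or.inr (Or.inr hc)
  · exact Line_cases hR0 hK0 kO hi hc

lemma line_InA {i : Fin 4} {ρ : ℤ} (h1 : -R0 ≤ ρ) (h2 : ρ ≤ R0) :
    -R0 ≤ (rad (kσ i) 0 ρ).1 ∧ (rad (kσ i) 0 ρ).1 ≤ R0 ∧ -R0 ≤ (rad (kσ i) 0 ρ).2 ∧
      (rad (kσ i) 0 ρ).2 ≤ R0 := by
  unfold rad NC.ro
  split_ifs <;> simp only <;> omega

/-- the cells of the network of the colour `i` have norm at most `K0` -/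
lemma TN_InA (hR0 : 45 ≤ R0) (hK0 : R0 + 140 ≤ K0) (kO : Keys (K0 - 70) 8 τ z) {i : Fin 4}
    (hi : i = 0 ∨ i = 1) {c : ℤ × ℤ} (hc : c ∈ TN R0 K0 τ z i) : InA 0 K0 c := by
  rcases TN_cases hR0 hK0 kO hi hc with ⟨ρ, h1, h2, rfl⟩ | hc | hc
  · have := line_InA (i := i) h1 h2
    unfold InA; omega
  · have := Arm_inA hR0 hK0 (Or.inl rfl) (keys_kσ hR0) kO hc
    unfold InA at *; omega
  · have := Arm_inA hR0 hK0 (Or.inl rfl) (keys_kσ hR0) kO hc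
    unfold InA at *; omega

/-- a line is far from the arms of the other colour -/
lemma line_far' (hR0 : 45 ≤ R0) (hK0 : R0 + 140 ≤ K0) (kO : Keys (K0 - 70) 8 τ z) {i i' : Fin 4}
    (hi : (i = 0 ∧ i' = 1) ∨ (i = 1 ∧ i' = 0)) {j : Fin 4} (hj : j = i ∨ j = i + 2) {ρ : ℤ}
    (h1 : -R0 ≤ ρ) (h2 : ρ ≤ R0) {c : ℤ × ℤ}
    (hc : c ∈ Arm R0 K0 0 kσ (fun _ => 0) τ z j) : Far 2 c (rad (kσ i') 0 ρ) := by
  have kk := keys_kσ hR0
  have a1 := Arm_inA hR0 hK0 (Or.inl rfl) kk kO hc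
  have n1 : j ≠ i' := by
    rcases hi with ⟨rfl, rfl⟩ | ⟨rfl, rfl⟩ <;> rcases hj with rfl | rfl <;> decide
  have n2 : j ≠ i' + 2 := by
    rcases hi with ⟨rfl, rfl⟩ | ⟨rfl, rfl⟩ <;> rcases hj with rfl | rfl <;> decide
  have f1 := Arm_far hR0 hK0 (Or.inl rfl) kk kO n1 hc
    (Arm_link hR0 hK0 (Or.inl rfl) kk kO i').1.1
  have f2 := Arm_far hR0 hK0 (Or.inl rfl) kk kO n2 hc
    (Arm_link hR0 hK0 (Or.inl rfl) kk kO (i' + 2)).1.1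
  rcases hi with ⟨rfl, rfl⟩ | ⟨rfl, rfl⟩
  · have e : (1 : Fin 4) + 2 = 3 := rfl
    rw [e, rad_kσ3] at f2
    rw [rad_kσ1] at f1 ⊢
    unfold Far InA at *
    simp only at *
    omega
  · have e : (0 : Fin 4) + 2 = 2 := rfl
    rw [e, rad_kσ2] at f2
    rw [rad_kσ0] at f1 ⊢
    unfold Far InA at *
    simp only at *
    omega

lemma toNat_le {a b : ℤ} (h : a ≤ b) : a.toNat ≤ b.toNat := Int.toNat_le_toNat h

lemma TN_card (hR0 : 45 ≤ R0) (hK0 : R0 + 140 ≤ K0) (kO : Keys (K0 - 70) 8 τ z) (i : Fin 4) :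
    (TN R0 K0 τ z i).card ≤ 3 * ((2 * K0 + 1) ^ 2).toNat := by
  have c1 := Arm_card hR0 hK0 (Or.inl rfl) (keys_kσ hR0) kO i
  have c2 := Arm_card hR0 hK0 (Or.inl rfl) (keys_kσ hR0) kO (i + 2)
  have c3 : (Line R0 i).card ≤ ((2 * K0 + 1) ^ 2).toNat := by
    unfold Line
    refine pc_card.trans (toNat_le ?_)
    nlinarith
  unfold TN
  refine (card_union_le _ _).trans ?_
  have := card_union_le (Arm R0 K0 0 kσ (fun _ => 0) τ z i) (Arm R0 K0 0 kσ (fun _ => 0) τ z (i + 2))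
  omega

/-- labels of the open network of the colour `i`, or in the block `B0` -/
noncomputable def EO (s R0 K0 : ℤ) (τ z : Fin 4 → ℤ) (i : Fin 4) (E B0 : Finset (ℤ × ℤ)) :
    Finset (ℤ × ℤ) := @Finset.filter _ (fun l => l ∈ B0 ∨
    ∃ c, (c ∈ Arm R0 K0 0 kσ (fun _ => 0) τ z i ∨ c ∈ Arm R0 K0 0 kσ (fun _ => 0) τ z (i + 2)) ∧
      Nr s (4 * s) c l) (Classical.decPred _) E

/-- labels of the dual network of the colour `i`, or in the block `B0` -/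
noncomputable def ED (s R0 K0 : ℤ) (τ z : Fin 4 → ℤ) (i : Fin 4) (E B0 : Finset (ℤ × ℤ)) :
    Finset (ℤ × ℤ) := @Finset.filter _ (fun l => l ∈ B0 ∨
    (∃ c, (c ∈ Arm R0 K0 0 kσ (fun _ => 0) τ z i ∨ c ∈ Arm R0 K0 0 kσ (fun _ => 0) τ z (i + 2)) ∧
      Nr s (4 * s) c l) ∨ ∃ ρ, -R0 ≤ ρ ∧ ρ ≤ R0 ∧ Nr s 1 (rad (kσ i) 0 ρ) l)
    (Classical.decPred _) E

lemma mem_EO {s : ℤ} {i : Fin 4} {E B0 : Finset (ℤ × ℤ)} {l : ℤ × ℤ} :
    l ∈ EO s R0 K0 τ z i E B0 ↔ l ∈ E ∧ (l ∈ B0 ∨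
    ∃ c, (c ∈ Arm R0 K0 0 kσ (fun _ => 0) τ z i ∨ c ∈ Arm R0 K0 0 kσ (fun _ => 0) τ z (i + 2)) ∧
      Nr s (4 * s) c l) := by
  unfold EO; exact @mem_filter _ _ (Classical.decPred _) _ _

lemma mem_ED {s : ℤ} {i : Fin 4} {E B0 : Finset (ℤ × ℤ)} {l : ℤ × ℤ} :
    l ∈ ED s R0 K0 τ z i E B0 ↔ l ∈ E ∧ (l ∈ B0 ∨
    (∃ c, (c ∈ Arm R0 K0 0 kσ (fun _ => 0) τ z i ∨ c ∈ Arm R0 K0 0 kσ (fun _ => 0) τ z (i + 2)) ∧
      Nr s (4 * s) c l) ∨ ∃ ρ, -R0 ≤ ρ ∧ ρ ≤ R0 ∧ Nr s 1 (rad (kσ i) 0 ρ) l) := by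
  unfold ED; exact @mem_filter _ _ (Classical.decPred _) _ _

lemma disj {s : ℤ} (hs : 3 ≤ s) (hR0 : 45 ≤ R0) (hK0 : R0 + 140 ≤ K0) (kO : Keys (K0 - 70) 8 τ z)
    {i i' : Fin 4} (hi : (i = 0 ∧ i' = 1) ∨ (i = 1 ∧ i' = 0)) (E B0 : Finset (ℤ × ℤ)) :
    Disjoint (EO s R0 K0 τ z i E B0) (ED s R0 K0 τ z i' E B0 \ B0) := by
  rw [disjoint_left]
  intro l h1 h2
  rw [mem_sdiff, mem_ED] at h2
  rw [mem_EO] at h1
  obtain ⟨⟨-, h3⟩, h4⟩ := h2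
  obtain ⟨-, h5⟩ := h1
  obtain ⟨c, hc, hcl⟩ := h5.resolve_left h4
  obtain ⟨j, hj, hcj⟩ : ∃ j : Fin 4, (j = i ∨ j = i + 2) ∧
      c ∈ Arm R0 K0 0 kσ (fun _ => 0) τ z j := by
    rcases hc with hc | hc
    · exact ⟨_, Or.inl rfl, hc⟩
    · exact ⟨_, Or.inr rfl, hc⟩
  rcases h3.resolve_left h4 with ⟨c', hc', hcl'⟩ | ⟨ρ, r1, r2, hcl'⟩
  · obtain ⟨j', hj', hcj'⟩ : ∃ j : Fin 4, (j = i' ∨ j = i' + 2) ∧
        c' ∈ Arm R0 K0 0 kσ (fun _ => 0) τ z j := by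
      rcases hc' with hc' | hc'
      · exact ⟨_, Or.inl rfl, hc'⟩
      · exact ⟨_, Or.inr rfl, hc'⟩
    have hne : j ≠ j' := by
      rcases hi with ⟨rfl, rfl⟩ | ⟨rfl, rfl⟩ <;> rcases hj with rfl | rfl <;>
      rcases hj' with rfl | rfl <;> decide
    have := Nr_far (by omega) hcl hcl'
      (Arm_far hR0 hK0 (Or.inl rfl) (keys_kσ hR0) kO hne hcj hcj')
    omega
  · have := Nr_far (by omega) hcl hcl' (line_far' hR0 hK0 kO hi hj r1 r2 hcj)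
    omega

lemma cell_line {s : ℤ} (hs : 3 ≤ s) {i : Fin 4} {ρ : ℤ} (h1 : -R0 ≤ ρ) (h2 : ρ ≤ R0) {l : ℤ × ℤ}
    (h : Nr s 0 (rad (kσ i) 0 ρ) l) (hp : (l.1 + l.2) % 2 = 1) :
    l ∈ H75.TwoArm.BB (4 * s * (2 * R0 + 1)) := by
  unfold H75.TwoArm.BB
  rw [mem_Bx]
  obtain ⟨b1, b2, b3, b4⟩ := line_InA (i := i) h1 h2
  unfold Nr at h
  have e1 : 4 * s * (2 * R0 + 1) = 8 * (s * R0) + 4 * s := by ring
  have m0 : (0 : ℤ) ≤ 16 * s := by omega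
  have m1 := mul_le_mul_of_nonneg_left b1 m0
  have m2 := mul_le_mul_of_nonneg_left b2 m0
  have m3 := mul_le_mul_of_nonneg_left b3 m0
  have m4 := mul_le_mul_of_nonneg_left b4 m0
  have e2 : 16 * s * R0 = 16 * (s * R0) := by ring
  rw [mul_neg] at m1 m3
  rw [e2] at m1 m2 m3 m4
  rw [e1]
  omega

section loc

variable {s k : ℤ} (hs : 3 ≤ s) (hR0 : 45 ≤ R0) (hK0 : R0 + 140 ≤ K0)
  (hk : 4 * s * (2 * K0 + 1) + 2 ≤ k ∧ k ≤ 4 * s * (2 * K0 + 1) + s - 1)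
  (kO : Keys (K0 - 70) 8 τ z) {E : Finset (ℤ × ℤ)} (hE : H75.TwoArm.BB (k + 10 * s) ⊆ E)

include hs hR0 hK0 hk kO hE

lemma NO_sub {i : Fin 4} (hi : i = 0 ∨ i = 1) :
    cs (-(4 * s), -(4 * s)) (8 * s) (TN R0 K0 τ z i) ⊆
      EO s R0 K0 τ z i E (H75.TwoArm.BB (4 * s * (2 * R0 + 1))) := by
  intro l hl
  obtain ⟨c, hc, hl⟩ := mem_cs.1 hl
  have hn := cell_Nr hl
  have hp : (l.1 + l.2) % 2 = 1 := by
    unfold cell at hl; rw [mem_Bx] at hl; exact hl.2.2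
  rw [mem_EO]
  refine ⟨hE (Nr_BB hs hk (by omega) (TN_InA hR0 hK0 kO hi hc) hn hp), ?_⟩
  rcases TN_cases hR0 hK0 kO hi hc with ⟨ρ, h1, h2, rfl⟩ | hc | hc
  · exact Or.inl (cell_line hs h1 h2 hn hp)
  · exact Or.inr ⟨c, Or.inl hc, hn.mono (by omega)⟩
  · exact Or.inr ⟨c, Or.inr hc, hn.mono (by omega)⟩

lemma ND_sub {i : Fin 4} (hi : i = 0 ∨ i = 1) :
    cs (-(4 * s), -(4 * s)) (8 * s) (TN R0 K0 τ z i) ⊆
      (ED s R0 K0 τ z i E (H75.TwoArm.BB (4 * s * (2 * R0 + 1)))).map sh1 := by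
  intro l hl
  obtain ⟨c, hc, hl⟩ := mem_cs.1 hl
  have hn := Nr_sh (cell_Nr hl)
  have hp : (l.1 + l.2) % 2 = 1 := by
    unfold cell at hl; rw [mem_Bx] at hl; exact hl.2.2
  have hp' : ((l - (1, 1)).1 + (l - (1, 1)).2) % 2 = 1 := by
    simp only [Prod.fst_sub, Prod.snd_sub]; omega
  rw [mem_map]
  refine ⟨l - (1, 1), ?_, ?_⟩
  · rw [mem_ED]
    refine ⟨hE (Nr_BB hs hk (by omega) (TN_InA hR0 hK0 kO hi hc) hn hp'), Or.inr ?_⟩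
    rcases TN_cases hR0 hK0 kO hi hc with ⟨ρ, h1, h2, rfl⟩ | hc | hc
    · exact Or.inr ⟨ρ, h1, h2, hn⟩
    · exact Or.inl ⟨c, Or.inl hc, hn.mono (by omega)⟩
    · exact Or.inl ⟨c, Or.inr hc, hn.mono (by omega)⟩
  · exact sh1_sub l

omit hs hk hE in
lemma key_InA (j : Fin 4) : rad (τ j) (z j + 1) K0 ∈ Arm R0 K0 0 kσ (fun _ => 0) τ z j ∧
    InA (R0 + 1) K0 (rad (τ j) (z j + 1) K0) := by
  have h1 := (Arm_link hR0 hK0 (δ := 0) (Or.inl rfl) (keys_kσ hR0) kO j).2.1.2.1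
  have e : jj 0 j = j := by unfold jj; norm_num
  rw [e] at h1
  exact ⟨h1, Arm_inA hR0 hK0 (Or.inl rfl) (keys_kσ hR0) kO h1⟩

lemma HO_sub {i j : Fin 4} (hj : j = i ∨ j = i + 2) {h : ℤ} (hr : Row s (-z j) h)
    (B0 : Finset (ℤ × ℤ)) :
    cs ((-(2 * k) - 1 + 1) / 2, h / 2) s CC ⊆ FR (τ j + 2) (EO s R0 K0 τ z i E B0) := by
  intro l hl
  obtain ⟨a1, a2⟩ := key_InA hR0 hK0 kO j
  have hp := (hook_bd (by omega) hl).2.2
  have hn := hook_Nr (τ := τ j) hs hk hr (by simp only; omega) (by simp only; omega) hl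
    (t := (0, 0)) (by simp)
  have e0 : l - (0, 0) = l := by
    have : ((0 : ℤ), (0 : ℤ)) = 0 := rfl
    rw [this, sub_zero]
  rw [e0] at hn
  rw [mem_FR, mem_EO]
  refine ⟨hE (Nr_BB hs hk le_rfl a2 hn (ro_par _ hp)), Or.inr ⟨_, ?_, hn⟩⟩
  rcases hj with rfl | rfl
  · exact Or.inl a1
  · exact Or.inr a1

lemma HD_sub {i j : Fin 4} (hj : j = i ∨ j = i + 2) {h : ℤ} (hr : Row s (-z j) h)
    (B0 : Finset (ℤ × ℤ)) :
    cs ((-(2 * k) - 1 + 2) / 2, (h + 1) / 2) s CC ⊆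
      (FR (τ j + 2) (ED s R0 K0 τ z i E B0)).map sh1 := by
  intro l hl
  obtain ⟨a1, a2⟩ := key_InA hR0 hK0 kO j
  have hp := (hook_bd (by omega) hl).2.2
  have hp' : ((l - (1, 1)).1 + (l - (1, 1)).2) % 2 = 1 := by
    simp only [Prod.fst_sub, Prod.snd_sub]; omega
  have hn := hook_Nr (τ := τ j) hs hk hr (by simp only; omega) (by simp only; omega) hl
    (t := (1, 1)) (by simp)
  rw [mem_map]
  refine ⟨l - (1, 1), ?_, sh1_sub l⟩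
  rw [mem_FR, mem_ED]
  refine ⟨hE (Nr_BB hs hk le_rfl a2 hn (ro_par _ hp')), Or.inr (Or.inl ⟨_, ?_, hn⟩)⟩
  rcases hj with rfl | rfl
  · exact Or.inl a1
  · exact Or.inr a1

end loc

lemma EO_sub (s : ℤ) (i : Fin 4) (E B0 : Finset (ℤ × ℤ)) : EO s R0 K0 τ z i E B0 ⊆ E := by
  intro l hl; exact (mem_EO.1 hl).1

lemma ED_sub (s : ℤ) (i : Fin 4) (E B0 : Finset (ℤ × ℤ)) : ED s R0 K0 τ z i E B0 ⊆ E := by
  intro l hl; exact (mem_ED.1 hl).1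

end

/-! ### Locality -/

lemma du_loc (E E2 ω : Finset (ℤ × ℤ)) :
    du E (ω ∩ E2) ∩ E2.map sh1 = du E ω ∩ E2.map sh1 := by
  unfold du
  rw [← map_inter, ← map_inter]
  congr 1
  ext l
  simp only [mem_inter, mem_sdiff]
  tauto

lemma NO_loc {s : ℤ} {S E1 ω : Finset (ℤ × ℤ)} (h : cs (-(4 * s), -(4 * s)) (8 * s) S ⊆ E1) :
    NO s S (ω ∩ E1) ↔ NO s S ω := Net_inter h

lemma HO_loc {φ X h s : ℤ} {E1 ω : Finset (ℤ × ℤ)}
    (hE : cs ((X + 1) / 2, h / 2) s CC ⊆ FR φ E1) : HO φ X h s (ω ∩ E1) ↔ HO φ X h s ω := by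
  unfold HO
  rw [FR_inter]
  exact Net_inter hE

lemma ND_loc {s : ℤ} {S E E2 ω : Finset (ℤ × ℤ)}
    (h : cs (-(4 * s), -(4 * s)) (8 * s) S ⊆ E2.map sh1) :
    ND s S E (ω ∩ E2) ↔ ND s S E ω := by
  unfold ND
  rw [← Net_inter h, du_loc, Net_inter h]

lemma HD_loc {φ X h s : ℤ} {E E2 ω : Finset (ℤ × ℤ)}
    (hE : cs ((X + 2) / 2, (h + 1) / 2) s CC ⊆ (FR φ E2).map sh1) :
    HD φ X h s E (ω ∩ E2) ↔ HD φ X h s E ω := by
  unfold HD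
  rw [FR_inter, ← Net_inter hE, du_loc, Net_inter hE]

/-! ### Probability of the fresh event -/

lemma pow_bd {c : ℝ} (hc : 0 ≤ c) (hc1 : c ≤ 1) {a m n N : ℕ} (hm : m ≤ 3 * N) (hn : n ≤ 3 * N) :
    c ^ (4 * (8 * N + 8 * a)) ≤
      (c ^ (4 * m) * (c ^ (4 * a) * c ^ (4 * a))) * (c ^ (4 * n) * (c ^ (4 * a) * c ^ (4 * a))) := by
  have e : (c ^ (4 * m) * (c ^ (4 * a) * c ^ (4 * a))) * (c ^ (4 * n) *
      (c ^ (4 * a) * c ^ (4 * a))) = c ^ (4 * m + (4 * a + 4 * a) + (4 * n + (4 * a + 4 * a))) := by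
    simp only [pow_add]
  rw [e]
  exact pow_le_pow_of_le_one hc hc1 (by omega)

theorem fresh {q : ℤ × ℤ → ℝ} (hq : Pb q) {c : ℝ} (hc : 0 ≤ c) (hc1 : c ≤ 1)
    {s R0 K0 k : ℤ} (hs : 3 ≤ s) (hR0 : 45 ≤ R0) (hK0 : R0 + 140 ≤ K0)
    (hk : 4 * s * (2 * K0 + 1) + 2 ≤ k ∧ k ≤ 4 * s * (2 * K0 + 1) + s - 1)
    (h : RSM q c (8 * s)) {E : Finset (ℤ × ℤ)} (hE : H75.TwoArm.BB (k + 10 * s) ⊆ E)
    {τ z h' : Fin 4 → ℤ} (kO : Keys (K0 - 70) 8 τ z) (hrow : ∀ j, Row s (-z j) (h' j))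
    {i i' : Fin 4} (hi : (i = 0 ∧ i' = 1) ∨ (i = 1 ∧ i' = 0)) :
    c ^ (4 * (8 * ((2 * K0 + 1) ^ 2).toNat + 8 * CC.card)) ≤
      Ex q E (fun ω'' => Ex q (H75.TwoArm.BB (4 * s * (2 * R0 + 1))) (fun x => ind (
        (NO s (TN R0 K0 τ z i) ω'' ∧ HO (τ i + 2) (-(2 * k) - 1) (h' i) s ω'' ∧
          HO (τ (i + 2) + 2) (-(2 * k) - 1) (h' (i + 2)) s ω'') ∧
        (ND s (TN R0 K0 τ z i') E ((ω'' \ H75.TwoArm.BB (4 * s * (2 * R0 + 1))) ∪ x) ∧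
          HD (τ i' + 2) (-(2 * k) - 1) (h' i') s E
            ((ω'' \ H75.TwoArm.BB (4 * s * (2 * R0 + 1))) ∪ x) ∧
          HD (τ (i' + 2) + 2) (-(2 * k) - 1) (h' (i' + 2)) s E
            ((ω'' \ H75.TwoArm.BB (4 * s * (2 * R0 + 1))) ∪ x))))) := by
  set B0 := H75.TwoArm.BB (4 * s * (2 * R0 + 1)) with hB0
  have hB0E : B0 ⊆ E := by
    refine Subset.trans ?_ hE
    intro l hl
    rw [hB0] at hl
    unfold H75.TwoArm.BB at hl ⊢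
    rw [mem_Bx] at hl ⊢
    have m1 : s * R0 ≤ s * K0 := mul_le_mul_of_nonneg_left (by omega) (by omega)
    have e1 : 4 * s * (2 * R0 + 1) = 8 * (s * R0) + 4 * s := by ring
    have e2 : 4 * s * (2 * K0 + 1) = 8 * (s * K0) + 4 * s := by ring
    rw [e1] at hl
    rw [e2] at hk
    omega
  have hi1 : i = 0 ∨ i = 1 := by rcases hi with ⟨h1, -⟩ | ⟨h1, -⟩ <;> omega
  have hi2 : i' = 0 ∨ i' = 1 := by rcases hi with ⟨-, h1⟩ | ⟨-, h1⟩ <;> omega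
  have sO := NO_sub hs hR0 hK0 hk kO hE hi1
  have sO1 := HO_sub hs hR0 hK0 hk kO hE (i := i) (Or.inl rfl) (hrow i) B0
  have sO2 := HO_sub hs hR0 hK0 hk kO hE (i := i) (Or.inr rfl) (hrow (i + 2)) B0
  have sD := ND_sub hs hR0 hK0 hk kO hE hi2
  have sD1 := HD_sub hs hR0 hK0 hk kO hE (i := i') (Or.inl rfl) (hrow i') B0
  have sD2 := HD_sub hs hR0 hK0 hk kO hE (i := i') (Or.inr rfl) (hrow (i' + 2)) B0
  have hEO := EO_sub (R0 := R0) (K0 := K0) (τ := τ) (z := z) s i E B0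
  have hED := ED_sub (R0 := R0) (K0 := K0) (τ := τ) (z := z) s i' E B0
  rw [two_prob q hB0E hEO hED (disj hs hR0 hK0 kO hi E B0)
    (fun ω => NO s (TN R0 K0 τ z i) ω ∧ HO (τ i + 2) (-(2 * k) - 1) (h' i) s ω ∧
          HO (τ (i + 2) + 2) (-(2 * k) - 1) (h' (i + 2)) s ω)
    (fun ω => ND s (TN R0 K0 τ z i') E ω ∧ HD (τ i' + 2) (-(2 * k) - 1) (h' i') s E ω ∧
          HD (τ (i' + 2) + 2) (-(2 * k) - 1) (h' (i' + 2)) s E ω)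
    (fun ω _ => and_congr (NO_loc sO) (and_congr (HO_loc sO1) (HO_loc sO2)))
    (fun ω _ => and_congr (ND_loc sD) (and_congr (HD_loc sD1) (HD_loc sD2)))]
  have r8 := h (8 * s) (by omega) le_rfl
  have r1 := h s (by omega) (by omega)
  have c8 : (0 : ℝ) ≤ c ^ (4 * CC.card) := pow_nonneg hc _
  have pO : c ^ (4 * (TN R0 K0 τ z i).card) * (c ^ (4 * CC.card) * c ^ (4 * CC.card)) ≤
      PrP q E (fun ω => NO s (TN R0 K0 τ z i) ω ∧ HO (τ i + 2) (-(2 * k) - 1) (h' i) s ω ∧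
          HO (τ (i + 2) + 2) (-(2 * k) - 1) (h' (i + 2)) s ω) :=
    harris3 hq (NO_inc _ _) (HO_inc _ _ _ _) (HO_inc _ _ _ _) (pow_nonneg hc _) c8 c8
      (RS.Net hq hc hc1 (by omega) r8.1 (sO.trans hEO))
      (prob_HO hq hc hc1 (by omega) r1.1 (sO1.trans (FR_mono hEO)))
      (prob_HO hq hc hc1 (by omega) r1.1 (sO2.trans (FR_mono hEO)))
  have iD : ∀ S : Finset (ℤ × ℤ), Inc (fun ζ : Finset (ℤ × ℤ) =>
      Net (-(4 * s), -(4 * s)) (8 * s) S (ζ.map sh1)) := fun S ω ω' hs hh =>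
    Net_inc _ _ _ _ _ (map_subset_map.2 hs) hh
  have iH : ∀ (φ h : ℤ), Inc (fun ζ : Finset (ℤ × ℤ) =>
      Net ((-(2 * k) - 1 + 2) / 2, (h + 1) / 2) s CC ((FR φ ζ).map sh1)) := fun φ h ω ω' hs hh =>
    Net_inc _ _ _ _ _ (map_subset_map.2 (FR_mono hs)) hh
  have eH : ∀ (φ h : ℤ) (ω : Finset (ℤ × ℤ)), HD φ (-(2 * k) - 1) h s E ω ↔
      Net ((-(2 * k) - 1 + 2) / 2, (h + 1) / 2) s CC ((FR φ (E \ ω)).map sh1) := by
    intro φ h ω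
    unfold HD
    rw [du_FRA]
  have pD : c ^ (4 * (TN R0 K0 τ z i').card) * (c ^ (4 * CC.card) * c ^ (4 * CC.card)) ≤
      PrP q E (fun ω => ND s (TN R0 K0 τ z i') E ω ∧ HD (τ i' + 2) (-(2 * k) - 1) (h' i') s E ω ∧
          HD (τ (i' + 2) + 2) (-(2 * k) - 1) (h' (i' + 2)) s E ω) := by
    have := harris3d (E := E) hq (iD (TN R0 K0 τ z i')) (iH (τ i' + 2) (h' i'))
      (iH (τ (i' + 2) + 2) (h' (i' + 2))) (pow_nonneg hc (4 * (TN R0 K0 τ z i').card)) c8 c8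
      (prob_ND hq hc hc1 (by omega) r8.2 (sD.trans (map_subset_map.2 hED))) (by
        refine (prob_HD hq hc hc1 (by omega) r1.2
          (sD1.trans (map_subset_map.2 (FR_mono hED)))).trans (le_of_eq ?_)
        exact PrP_congr fun ω _ => eH _ _ ω) (by
        refine (prob_HD hq hc hc1 (by omega) r1.2
          (sD2.trans (map_subset_map.2 (FR_mono hED)))).trans (le_of_eq ?_)
        exact PrP_congr fun ω _ => eH _ _ ω)
    refine this.trans (le_of_eq ?_)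
    refine PrP_congr fun ω _ => ?_
    rw [eH, eH]
    rfl
  refine (pow_bd hc hc1 (TN_card hR0 hK0 kO i) (TN_card hR0 hK0 kO i')).trans ?_
  exact mul_le_mul pO pD (mul_nonneg (pow_nonneg hc _) (mul_nonneg c8 c8)) (PrP_nonneg hq _ _)

end VarAux

namespace VarAux

lemma ND_up {s : ℤ} {S E G ω W : Finset (ℤ × ℤ)} (hEG : E ⊆ G) (hWE : Disjoint W E)
    (h : ND s S E ω) : ND s S G (ω ∪ W) := by
  unfold ND at *
  refine Net_inc _ _ _ _ _ ?_ h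
  unfold du
  refine map_subset_map.2 fun l hl => ?_
  rw [mem_sdiff, mem_union] at *
  exact ⟨hEG hl.1, fun h1 => h1.elim hl.2 fun h2 => (disjoint_left.1 hWE) h2 hl.1⟩

lemma HD_up {φ X h s : ℤ} {E G ω W : Finset (ℤ × ℤ)} (hEG : E ⊆ G) (hWE : Disjoint W E)
    (hH : HD φ X h s E ω) : HD φ X h s G (ω ∪ W) := by
  unfold HD at *
  refine Net_inc _ _ _ _ _ ?_ hH
  rw [du_FRA, du_FRA]
  refine map_subset_map.2 (FR_mono fun l hl => ?_)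
  rw [mem_sdiff, mem_union] at *
  exact ⟨hEG hl.1, fun h1 => h1.elim hl.2 fun h2 => (disjoint_left.1 hWE) h2 hl.1⟩

lemma set1 {α : Type*} [DecidableEq α] {B W ω x : Finset α} (h : Disjoint W B) :
    ((ω \ B) ∪ x) ∪ W = ((ω ∪ W) \ B) ∪ x := by
  ext l
  have hW : l ∈ W → l ∉ B := fun h1 h2 => (disjoint_left.1 h) h1 h2
  simp only [mem_union, mem_sdiff]
  tauto

lemma set2 {α : Type*} [DecidableEq α] (U W ω ω' : Finset α) :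
    mix U (ω ∪ W) (ω' ∪ W) = mix U ω ω' ∪ W := by
  ext l
  simp only [mem_union, mem_mix]
  tauto

lemma U4_loc {B W : Finset (ℤ × ℤ)} {e : ℤ × ℤ} (ω ω' : Finset (ℤ × ℤ)) :
    U4 B e (mix (U4 B e (ω ∪ W)) ω ω' ∪ W) = U4 B e (ω ∪ W) := by
  refine (A4_local ?_).2.1
  intro a ha _
  rw [mem_union, mem_mix, mem_union]
  tauto

end VarAux

end Pool.Agent.H81.NC
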