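import Mathlib
import Pool.Agent.H81.NC.VarProb
import Pool.Agent.H81.NC.VarDet

set_option autoImplicit false
open Finset

/-! Job V2 (VAR): separated hits of the hole give a lower bound for the expected conditional variance of
the connection of the ends of `e'` when the box of radius `4s(2R0+1)` is resampled. -/

namespace Pool.Agent.H81.NC

open Pool.Agent.H75.Perc Pool.Agent.H75.TwoArm Pool.Agent.H75.Four Pool.Agent.H99.NC

open VarAux in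
/-- V2: separated hits => conditional variance of the connection of the ends of `e'`, resampling the box
of radius `4s(2R0+1)` only -/
theorem VAR {q : ℤ × ℤ → ℝ} (hq : Pb q) {c : ℝ} (hc : 0 ≤ c) (hc1 : c ≤ 1)
    {s R0 K0 k L : ℤ} (hs : 3 ≤ s) (hR0 : 45 ≤ R0) (hK0 : R0 + 140 ≤ K0)
    (hk : 4 * s * (2 * K0 + 1) + 2 ≤ k ∧ k ≤ 4 * s * (2 * K0 + 1) + s - 1) (hL : 2 * k ≤ L)
    (h : RSM q c (8 * s)) {e' : ℤ × ℤ} (he' : (e'.1 + e'.2) % 2 = 1)
    {E W : Finset (ℤ × ℤ)} (hE : BB (k + 10 * s) ⊆ E) (hEL : E ⊆ BB (L - 1))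
    (hWL : W ⊆ BB (L - 1)) (he'L : e' ∈ BB (L - 1)) (hWE : Disjoint W E) (he'E : e' ∉ E)
    (he'W : e' ∉ W) :
    PrP q E (fun ω => OutSep k s K0 (BB L \ BB k) e' (ω ∪ W)) *
      c ^ (4 * (8 * ((2 * K0 + 1) ^ 2).toNat + 8 * CC.card)) ≤
      Ex q E (cV q (BB (4 * s * (2 * R0 + 1)))
        (fun ω => ind (Co ((ω ∪ W).erase e') (vx (zu e')) (vx (zv e'))))) := by
  set B0 := BB (4 * s * (2 * R0 + 1)) with hB0
  have hkk : (0 : ℤ) ≤ s * K0 := mul_nonneg (by omega) (by omega)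
  have hk0 : 1 ≤ k := by
    have e2 : 4 * s * (2 * K0 + 1) = 8 * (s * K0) + 4 * s := by ring
    rw [e2] at hk; omega
  have hBk : BB k ⊆ E := by
    refine Subset.trans ?_ hE
    intro l hl
    unfold H75.TwoArm.BB at hl ⊢
    rw [mem_Bx] at hl ⊢
    omega
  have hB0E : B0 ⊆ E := by
    refine Subset.trans ?_ hBk
    intro l hl
    rw [hB0] at hl
    unfold H75.TwoArm.BB at hl ⊢
    rw [mem_Bx] at hl ⊢
    have m1 : s * R0 ≤ s * K0 := mul_le_mul_of_nonneg_left (by omega) (by omega)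
    have e1 : 4 * s * (2 * R0 + 1) = 8 * (s * R0) + 4 * s := by ring
    have e2 : 4 * s * (2 * K0 + 1) = 8 * (s * K0) + 4 * s := by ring
    rw [e1] at hl
    rw [e2] at hk
    omega
  have hEG : E ⊆ BB L := by
    refine hEL.trans fun l hl => ?_
    unfold H75.TwoArm.BB at hl ⊢
    rw [mem_Bx] at hl ⊢
    omega
  rw [Ex_cV_ind q hB0E (fun ω => Co ((ω ∪ W).erase e') (vx (zu e')) (vx (zv e')))]
  set U : Finset (ℤ × ℤ) → Finset (ℤ × ℤ) := fun ω => U4 (BB L \ BB k) e' (ω ∪ W) with hU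
  have hUm : ∀ ω ω', ω ⊆ E → ω' ⊆ E → U (mix (U ω) ω ω') = U ω := fun ω ω' _ _ =>
    U4_loc ω ω'
  rw [← Ex_resample1 q E U hUm (fun ω => Ex q B0 (fun x => ind (
    Co ((ω ∪ W).erase e') (vx (zu e')) (vx (zv e')) ∧
    ¬ Co ((((ω \ B0) ∪ x) ∪ W).erase e') (vx (zu e')) (vx (zv e')))))]
  unfold PrP
  rw [← Ex_smul']
  refine Ex_mono hq fun ω hω => ?_
  by_cases hO : OutSep k s K0 (BB L \ BB k) e' (ω ∪ W)
  · rw [ind_true hO, one_mul]
    obtain ⟨b, τ, z, h', kO, gO⟩ := hO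
    obtain ⟨i, i', hi⟩ : ∃ i i' : Fin 4,
        (i = 0 ∧ i' = 1 ∧ (b = 0 ∨ b = 2)) ∨ (i = 1 ∧ i' = 0 ∧ (b = 1 ∨ b = 3)) := by
      have hb : b = 0 ∨ b = 1 ∨ b = 2 ∨ b = 3 := by omega
      rcases hb with hb | hb | hb | hb
      · exact ⟨0, 1, Or.inl ⟨rfl, rfl, Or.inl hb⟩⟩
      · exact ⟨1, 0, Or.inr ⟨rfl, rfl, Or.inl hb⟩⟩
      · exact ⟨0, 1, Or.inl ⟨rfl, rfl, Or.inr hb⟩⟩
      · exact ⟨1, 0, Or.inr ⟨rfl, rfl, Or.inr hb⟩⟩
    have hi' : (i = 0 ∧ i' = 1) ∨ (i = 1 ∧ i' = 0) := by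
      rcases hi with ⟨h1, h2, -⟩ | ⟨h1, h2, -⟩
      · exact Or.inl ⟨h1, h2⟩
      · exact Or.inr ⟨h1, h2⟩
    refine (fresh hq hc hc1 hs hR0 hK0 hk h hE kO (fun j => (gO j).1) hi').trans ?_
    refine Ex_mono hq fun ω'' hω'' => Ex_mono hq fun x hx => ind_mono ?_
    rintro ⟨⟨o1, o2, o3⟩, d1, d2, d3⟩
    have hH : Hole k L e' (ω ∪ W) := by
      refine ⟨hk0, he', he'L, fun hb => he'E (hBk hb), ?_⟩
      exact union_subset (hω.trans hEL) hWL
    have hWB : Disjoint W B0 := disjoint_left.2 fun l h1 h2 => (disjoint_left.1 hWE) h1 (hB0E h2)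
    have e1 := ND_up hEG hWE d1
    have e2 := HD_up hEG hWE d2
    have e3 := HD_up hEG hWE d3
    rw [set1 hWB] at e1 e2 e3
    have := var_det hs hR0 hK0 hk hL (Subset.refl (BB L)) hH
      (union_subset (hω''.trans hEL) hWL) hx kO gO hi
      ⟨NO_inc _ _ _ _ subset_union_left o1, HO_inc _ _ _ _ _ _ subset_union_left o2,
        HO_inc _ _ _ _ _ _ subset_union_left o3⟩ ⟨e1, e2, e3⟩
    rw [set2, ← hB0, ← set1 hWB] at this
    exact this
  · rw [ind_false hO, zero_mul]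
    exact Ex_nonneg hq fun _ _ => Ex_nonneg hq fun _ _ => ind_nonneg _

end Pool.Agent.H81.NC
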