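import Mathlib
import Pool.Agent.H81.NC.StepOut
import Pool.Agent.H81.NC.Env
import Pool.Agent.H81.NC.Join
import Pool.Agent.H81.NC.Var
import Pool.Agent.H81.NC.InRec
import Pool.Agent.H47.NC.Uq

set_option autoImplicit false
open Finset

/-! The recursion inwards with the gluing: `InStep`. -/

namespace Pool.Agent.H81.NC

open Pool.Agent.H75.Perc Pool.Agent.H75.Four Pool.Agent.H99.NC

lemma Bq_zero (m : ℤ) : Pool.Agent.H47.NC.Bq (0, 0) m = H75.TwoArm.BB m := by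
  unfold Pool.Agent.H47.NC.Bq H75.TwoArm.BB
  simp

/-- the numbers -/
lemma in_numbers {Λi u k s : ℤ} (hΛ : 1 ≤ Λi) (hu : 22 ≤ u)
    (hs : s = (k / (8 * (2 * Λi + 1)) - 1) / (4 * (6 * u + 3)))
    (hk : 8 * (2 * Λi + 1) * (100 * (4 * (6 * u + 3)) + 2) ≤ k) :
    100 ≤ s ∧ 32 * (s * (12 * Λi * u + 6 * Λi + 6 * u + 3)) + 8 * (2 * Λi + 1) ≤ k ∧
    k < 32 * (s * (12 * Λi * u + 6 * Λi + 6 * u + 3)) +
      32 * (12 * Λi * u + 6 * Λi + 6 * u + 3) + 8 * (2 * Λi + 1) ∧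
    24 * (s * u) + 12 * s ≤ k / (8 * (2 * Λi + 1)) - 1 ∧
    k / (8 * (2 * Λi + 1)) - 1 < 24 * (s * u) + 12 * s + 24 * u + 12 := by
  obtain ⟨v, hv⟩ : ∃ v, v = 8 * (2 * Λi + 1) := ⟨_, rfl⟩
  rw [← hv] at hs hk ⊢
  obtain ⟨w, hw⟩ : ∃ w, w = 4 * (6 * u + 3) := ⟨_, rfl⟩
  rw [← hw] at hs hk
  have hv0 : 0 < v := by omega
  have hw0 : 0 < w := by omega
  obtain ⟨m, hm⟩ : ∃ m, m = k / v := ⟨_, rfl⟩
  rw [← hm] at hs ⊢
  have m1 : m * v ≤ k := by rw [hm]; exact Int.ediv_mul_le _ (by omega)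
  have m2 : k < (m + 1) * v := by rw [hm]; exact Int.lt_ediv_add_one_mul_self _ hv0
  have s1 : s * w ≤ m - 1 := by rw [hs]; exact Int.ediv_mul_le _ (by omega)
  have s2 : m - 1 < (s + 1) * w := by rw [hs]; exact Int.lt_ediv_add_one_mul_self _ hw0
  have m3 : 100 * w + 2 ≤ m := by rw [hm]; exact Int.le_ediv_of_mul_le hv0 (by linarith)
  have s3 : 100 ≤ s := by rw [hs]; exact Int.le_ediv_of_mul_le hw0 (by omega)
  refine ⟨s3, ?_, ?_, ?_, ?_⟩
  · have : (s * w + 1) * v ≤ k := le_trans (mul_le_mul_of_nonneg_right (by omega) hv0.le) m1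
    have e : (s * w + 1) * v = 32 * (s * (12 * Λi * u + 6 * Λi + 6 * u + 3)) + v := by
      rw [hw, hv]; ring
    linarith
  · have h1 : (m + 1) * v ≤ ((s + 1) * w + 1) * v := mul_le_mul_of_nonneg_right (by omega) hv0.le
    have e : ((s + 1) * w + 1) * v = 32 * (s * (12 * Λi * u + 6 * Λi + 6 * u + 3)) +
      32 * (12 * Λi * u + 6 * Λi + 6 * u + 3) + v := by
      rw [hw, hv]; ring
    linarith
  · have e : s * w = 24 * (s * u) + 12 * s := by rw [hw]; ring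
    linarith
  · have e : (s + 1) * w = 24 * (s * u) + 12 * s + 24 * u + 12 := by rw [hw]; ring
    linarith

/-- the recursion in the environment of a crossing, centred at the origin -/
lemma in_core {q : ℤ × ℤ → ℝ} {ε : ℝ} {s K0 k1 k2 m a b c d : ℤ}
    (a1 : a ≤ -m) (b1 : m ≤ b) (c1 : c ≤ -m) (d1 : m ≤ d) (hk1 : 1 ≤ k1) (hk2 : k1 ≤ m)
    (hL : ∀ L : ℤ, 2 * (|a| + |b| + |c| + |d|) + 2 * m + 10 ≤ L → ∀ (e' : ℤ × ℤ)
      (E W : Finset (ℤ × ℤ)), (e'.1 + e'.2) % 2 = 1 → H75.TwoArm.BB m ⊆ E →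
      E ⊆ H75.TwoArm.BB (L - 1) → W ⊆ H75.TwoArm.BB (L - 1) →
      (∀ a ∈ E, (a.1 + a.2) % 2 = 1) → e' ∈ H75.TwoArm.BB (L - 1) → Disjoint W E → e' ∉ E →
      e' ∉ W →
      PrP q E (fun ω => A4 (H75.TwoArm.BB L \ H75.TwoArm.BB k1) e' (ω ∪ W)) ≤
        PrP q E (fun ω => OutSep k2 s K0 (H75.TwoArm.BB L \ H75.TwoArm.BB k2) e' (ω ∪ W)) +
        ε * PrP q E (fun ω => A4 (H75.TwoArm.BB L \ H75.TwoArm.BB m) e' (ω ∪ W)))
    {L : ℤ} (hLL : 2 * (|a| + |b| + |c| + |d|) + 2 * m + 10 ≤ L) :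
    PrP q (Bx a b c d) (Pool.Agent.H47.NC.BP (HC a b c d) (H75.TwoArm.BB k1)) ≤
      PrP q (Bx a b c d) (fun ω => OutSep k2 s K0 (H75.TwoArm.BB L \ H75.TwoArm.BB k2)
        (2 * a - 1, 2 * c - 2) (ω ∪ WW a b c d)) +
      ε * PrP q (Bx a b c d) (Pool.Agent.H47.NC.BP (HC a b c d) (H75.TwoArm.BB m)) := by
  obtain ⟨g1, g2, g3, g4, g5, g6, g7, -, g9⟩ := WW_geo a1 b1 c1 d1 (by omega) hLL
  have key := hL L hLL (2 * a - 1, 2 * c - 2) (Bx a b c d) (WW a b c d) g9 g2 g1 g3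
    (fun z hz => by rw [mem_Bx] at hz; omega) g5 g4 g6 g7
  have e1 : PrP q (Bx a b c d) (Pool.Agent.H47.NC.BP (HC a b c d) (H75.TwoArm.BB k1)) =
      PrP q (Bx a b c d) (fun ω => A4 (H75.TwoArm.BB L \ H75.TwoArm.BB k1)
        (2 * a - 1, 2 * c - 2) (ω ∪ WW a b c d)) :=
    PrP_congr fun ω hω => BP_env (by omega) (by omega) (by omega) (by omega) hk1 (by omega) hω
  have e2 : PrP q (Bx a b c d) (Pool.Agent.H47.NC.BP (HC a b c d) (H75.TwoArm.BB m)) =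
      PrP q (Bx a b c d) (fun ω => A4 (H75.TwoArm.BB L \ H75.TwoArm.BB m)
        (2 * a - 1, 2 * c - 2) (ω ∪ WW a b c d)) :=
    PrP_congr fun ω hω => BP_env a1 b1 c1 d1 (by omega) (by omega) hω
  rw [e1, e2]
  exact key

lemma cV_congr {q : ℤ × ℤ → ℝ} {E B : Finset (ℤ × ℤ)} (hB : B ⊆ E) {f g : Finset (ℤ × ℤ) → ℝ}
    (h : ∀ ω, ω ⊆ E → f ω = g ω) : Ex q E (cV q B f) = Ex q E (cV q B g) := by
  refine Ex_congr fun ω hω => ?_
  unfold cV
  refine Va_congr fun x hx => h _ ?_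
  exact union_subset ((sdiff_subset).trans hω) (hx.trans hB)

theorem in_step : Pool.Agent.H47.NC.InStep := by
  intro c0 ε ε' hc hε hε'
  obtain ⟨Λo, hΛo, HO⟩ := out_rec hc hε'
  obtain ⟨Λi, hΛi, HI⟩ := in_rec hc hε
  obtain ⟨u, hu⟩ : ∃ u : ℤ, u = Λo + 22 := ⟨_, rfl⟩
  obtain ⟨Q, hQ⟩ : ∃ Q : ℤ, Q = 12 * Λi * u + 6 * Λi + 6 * u + 3 := ⟨_, rfl⟩
  obtain ⟨K0, hK0⟩ : ∃ K0 : ℤ, K0 = 54 * Λi * u + 27 * Λi + 27 * u + 13 := ⟨_, rfl⟩
  have hKQ : 2 * K0 + 1 = 9 * Q := by rw [hK0, hQ]; ring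
  obtain ⟨N, hN⟩ : ∃ N : ℕ, N = 4 * (8 * ((2 * K0 + 1) ^ 2).toNat + 8 * CC.card) := ⟨_, rfl⟩
  obtain ⟨N', hN'⟩ : ∃ N' : ℕ, N' = 4 * (4 * ((2 * K0 + 1) ^ 2).toNat + 8 * CC.card) := ⟨_, rfl⟩
  have hNN : N' ≤ N := by omega
  have hLu : 0 ≤ Λi * u := mul_nonneg (by omega) (by omega)
  have hK0' : (2 * u + 1) + 140 ≤ K0 := by
    rw [hK0]
    nlinarith only [hLu, hΛi, hΛo, hu]
  have hQ1 : 6 * u + 3 + 6 * Λi ≤ Q := by
    rw [hQ]
    nlinarith only [hLu, hΛi, hΛo, hu]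
  refine ⟨8 * (2 * Λi + 1), (c0 ^ N)⁻¹, 8 * (2 * Λi + 1) * (100 * (4 * (6 * u + 3)) + 2),
    by omega, by positivity, by nlinarith only [hLu, hΛi, hΛo, hu], ?_⟩
  intro q a b c d x k hk hR ha hb hc' hd
  obtain ⟨s, hs⟩ : ∃ s : ℤ, s = (k / (8 * (2 * Λi + 1)) - 1) / (4 * (6 * u + 3)) := ⟨_, rfl⟩
  obtain ⟨s3, k1, k2, m1, m2⟩ := in_numbers hΛi (by omega) hs hk
  rw [← hQ] at k1 k2
  obtain ⟨m', hm'⟩ : ∃ m', m' = k / (8 * (2 * Λi + 1)) := ⟨_, rfl⟩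
  rw [← hm'] at m1 m2
  obtain ⟨g, hg⟩ : ∃ g, g = s * Q := ⟨_, rfl⟩
  obtain ⟨α, hα⟩ : ∃ α, α = s * u := ⟨_, rfl⟩
  obtain ⟨β, hβ⟩ : ∃ β, β = Λi * s := ⟨_, rfl⟩
  rw [← hg] at k1 k2
  rw [← hα] at m1 m2
  have f1 : 6 * α + 3 * s + 6 * β ≤ g := by
    rw [hα, hβ, hg]
    linarith only [mul_le_mul_of_nonneg_left hQ1 (show (0 : ℤ) ≤ s by omega)]
  have f2 : 100 * Q ≤ g := by
    rw [hg]; linarith only [mul_nonneg (show (0 : ℤ) ≤ s - 100 by omega) (show (0 : ℤ) ≤ Q by omega)]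
  have f3 : 22 * s ≤ α := by
    rw [hα]; linarith only [mul_nonneg (show (0 : ℤ) ≤ s by omega) (show (0 : ℤ) ≤ u - 22 by omega)]
  have f4 : 100 * u ≤ α := by
    rw [hα]; linarith only [mul_nonneg (show (0 : ℤ) ≤ s - 100 by omega) (show (0 : ℤ) ≤ u by omega)]
  have f5 : 0 ≤ β := by rw [hβ]; exact mul_nonneg (by omega) (by omega)
  have t1 : 4 * s * (2 * (2 * u + 1) + 1) = 16 * α + 12 * s := by rw [hα]; ring
  have t2 : 4 * s * (2 * K0 + 1) = 36 * g := by rw [hKQ, hg]; ring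
  have t3 : Λo * s = α - 22 * s := by rw [hα, hu]; ring
  -- the recursion around `x'`
  have main : ∀ x' : ℤ × ℤ, |x'.1 - x.1| ≤ k / 4 → |x'.2 - x.2| ≤ k / 4 →
      ∃ L : ℤ, 4 * k ≤ L ∧ 2 * (|a - x'.1| + |b - x'.1| + |c - x'.2| + |d - x'.2|) +
          2 * (2 * k) + 10 ≤ L ∧
        Pool.Agent.H47.NC.VD q a b c d x (k / 2) ≤
        PrP (fun e => q (e + x' + x')) (Bx (a - x'.1) (b - x'.1) (c - x'.2) (d - x'.2))
          (fun ω => OutSep (36 * g + 2) s K0 (H75.TwoArm.BB L \ H75.TwoArm.BB (36 * g + 2))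
          (2 * (a - x'.1) - 1, 2 * (c - x'.2) - 2)
          (ω ∪ WW (a - x'.1) (b - x'.1) (c - x'.2) (d - x'.2))) +
        ε * Pool.Agent.H47.NC.VD q a b c d x (4 * k) := by
    intro x' h1 h2
    rw [abs_le] at h1 h2
    obtain ⟨hq', hR'⟩ := RSM_tr x' hR
    set q' : ℤ × ℤ → ℝ := fun e => q (e + x' + x') with hq'def
    set L := 2 * (|a - x'.1| + |b - x'.1| + |c - x'.2| + |d - x'.2|) + 2 * (2 * k) + 10 with hL
    have L0 : 4 * k ≤ L := by
      have := abs_nonneg (a - x'.1)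
      have := abs_nonneg (b - x'.1)
      have := abs_nonneg (c - x'.2)
      have := abs_nonneg (d - x'.2)
      omega
    refine ⟨L, L0, le_rfl, ?_⟩
    have hI := in_core (q := q') (ε := ε) (s := s) (K0 := K0) (k1 := k / 2 + k / 4)
      (k2 := 36 * g + 2) (m := 2 * k) (a := a - x'.1) (b := b - x'.1) (c := c - x'.2)
      (d := d - x'.2) (by omega) (by omega) (by omega) (by omega) (by omega) (by omega)
      (fun L' hL' e' E W he' hE hE' hW hEo heL hd heE heW =>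
        HI q' s K0 (k / 2 + k / 4) (36 * g + 2) (2 * k) L' e' E W hq' (hR'.mono (by omega))
          (by omega) (by omega) (by omega) (by omega) he' (by omega) (by omega) (by omega)
          hE hE' hW hEo heL hd heE heW) (L := L) le_rfl
    have v1 : Pool.Agent.H47.NC.VD q a b c d x (k / 2) ≤
        Pool.Agent.H47.NC.VD q a b c d x' (k / 2 + k / 4) := by
      refine PrP_mono hR.1 fun ω _ hb' => Pool.Agent.H47.NC.BP_mono (HC_inc _ _ _ _) ?_ hb'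
      unfold Pool.Agent.H47.NC.Bq
      intro z hz
      rw [mem_Bx] at hz ⊢
      omega
    have v2 : Pool.Agent.H47.NC.VD q a b c d x' (2 * k) ≤
        Pool.Agent.H47.NC.VD q a b c d x (4 * k) := by
      refine PrP_mono hR.1 fun ω _ hb' => Pool.Agent.H47.NC.BP_mono (HC_inc _ _ _ _) ?_ hb'
      unfold Pool.Agent.H47.NC.Bq
      intro z hz
      rw [mem_Bx] at hz ⊢
      omega
    rw [VD_tr q a b c d x'] at v1 v2
    have := mul_le_mul_of_nonneg_left v2 hε.le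
    linarith
  have hpow : 0 < c0 ^ N := by positivity
  constructor
  · intro x' y' hxy h1 h2
    obtain ⟨L, L0, hL, hrec⟩ := main x' h1 h2
    rw [abs_le] at h1 h2
    obtain ⟨hq', hR'⟩ := RSM_tr x' hR
    have c1 : c0 ≤ 1 := hR'.le_one hq' (by omega)
    set q' : ℤ × ℤ → ℝ := fun e => q (e + x' + x') with hq'def
    obtain ⟨e, hedef⟩ : ∃ e, e = y' - x' := ⟨_, rfl⟩
    have heo : (e.1 + e.2) % 2 = 1 ∧ |e.1| ≤ 1 ∧ |e.2| ≤ 1 := by
      rw [hedef]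
      have := unit_cases hxy
      rw [abs_le, abs_le]
      simp only [Prod.fst_sub, Prod.snd_sub]
      omega
    obtain ⟨he, he1, he2⟩ := heo
    have heB : ∀ n : ℤ, 1 ≤ n → e ∈ H75.TwoArm.BB n := by
      intro n hn
      unfold H75.TwoArm.BB
      rw [mem_Bx]
      rw [abs_le] at he1 he2
      omega
    refine ⟨_, PrP_nonneg hq' _ _, hrec, ?_⟩
    obtain ⟨g1, g2, g3, g4, g5, g6, g7, -, g9⟩ := WW_geo (a := a - x'.1) (b := b - x'.1)
      (c := c - x'.2) (d := d - x'.2) (k := 2 * k) (L := L) (by omega) (by omega) (by omega)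
      (by omega) (by omega) hL
    have hJ := JOIN hq' hc.le c1 (s := s) (R0 := 2 * u + 1) (K0 := K0) (r := 16 * α + 12 * s - 2)
      (k := 36 * g + 2) (L := L) (by omega) (by omega) (by omega) (by omega) (by omega)
      (by omega) (hR'.mono (by omega)) he g9 (heB _ (by omega))
      (E := Bx (a - x'.1) (b - x'.1) (c - x'.2) (d - x'.2))
      (W := WW (a - x'.1) (b - x'.1) (c - x'.2) (d - x'.2))
      ((BB_mono' (by omega)).trans g2) g1 g3 g5 g4 g6 g7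
    have hO := HO q' s (2 * u + 1) (16 * α + 12 * s - 2) m' (m' / 2) e hq' (hR'.mono (by omega))
      (by omega) (by omega) (by omega) (by omega) he (by omega) (heB _ (by omega)) (by omega)
      (by omega)
    have hm1 : 1 ≤ m' := by omega
    have hm2 : 1 ≤ m' / 2 := by omega
    rw [← hm', uQ_tr q hxy hm1, uQ_tr q hxy hm2, ← hedef, Piv_tr q a b c d x' (x' + y')]
    have e5 : x' + y' - x' - x' = e := by rw [hedef]; ring
    rw [e5, ← hN'] at *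
    rw [PrP_InSep_local (BB_mono' (by omega)) e,
      PrP_A4_local (BB_mono' (m := m' / 2) (n := m') (by omega)) e] at hO
    rw [PrP_InSep_local ((BB_mono' (by omega)).trans g2) e] at hJ
    have eP : PrP q' (Bx (a - x'.1) (b - x'.1) (c - x'.2) (d - x'.2))
        (Piv (HC (a - x'.1) (b - x'.1) (c - x'.2) (d - x'.2)) e) =
        PrP q' (Bx (a - x'.1) (b - x'.1) (c - x'.2) (d - x'.2))
        (fun ω => Pv (2 * (a - x'.1) - 1, 2 * (c - x'.2) - 2) e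
          (ω ∪ WW (a - x'.1) (b - x'.1) (c - x'.2) (d - x'.2))) :=
      PrP_congr fun ω hω => Piv_env (by omega) (by omega) hω (g2 (heB _ (by omega)))
    rw [eP, ← div_eq_inv_mul, le_div_iff₀ hpow]
    refine le_trans ?_ hJ
    have p1 := PrP_nonneg hq' (Bx (a - x'.1) (b - x'.1) (c - x'.2) (d - x'.2))
      (fun ω => OutSep (36 * g + 2) s K0 (H75.TwoArm.BB L \ H75.TwoArm.BB (36 * g + 2))
          (2 * (a - x'.1) - 1, 2 * (c - x'.2) - 2)
          (ω ∪ WW (a - x'.1) (b - x'.1) (c - x'.2) (d - x'.2)))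
    have p2 := PrP_nonneg hq' (H75.TwoArm.BB (16 * α + 12 * s - 2))
      (InSep (16 * α + 12 * s - 2) s (2 * u + 1) e)
    have hpp : c0 ^ N ≤ c0 ^ N' := pow_le_pow_of_le_one hc.le c1 hNN
    refine (mul_le_mul_of_nonneg_right (mul_le_mul_of_nonneg_left (sub_le_iff_le_add.2 hO) p1)
      hpow.le).trans ?_
    exact mul_le_mul_of_nonneg_left hpp (mul_nonneg p1 p2)
  · have hk0 : 0 ≤ k / 4 := by omega
    obtain ⟨L, L0, hL, hrec⟩ := main x (by simpa using hk0) (by simpa using hk0)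
    obtain ⟨hq', hR'⟩ := RSM_tr x hR
    have c1 : c0 ≤ 1 := hR'.le_one hq' (by omega)
    set q' : ℤ × ℤ → ℝ := fun e => q (e + x + x) with hq'def
    refine ⟨_, PrP_nonneg hq' _ _, hrec, ?_⟩
    obtain ⟨g1, g2, g3, g4, g5, g6, g7, -, g9⟩ := WW_geo (a := a - x.1) (b := b - x.1)
      (c := c - x.2) (d := d - x.2) (k := 2 * k) (L := L) (by omega) (by omega) (by omega)
      (by omega) (by omega) hL
    have hV := VAR hq' hc.le c1 (s := s) (R0 := 2 * u + 1) (K0 := K0)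
      (k := 36 * g + 2) (L := L) (by omega) (by omega) (by omega) (by omega)
      (by omega) (hR'.mono (by omega)) g9
      (E := Bx (a - x.1) (b - x.1) (c - x.2) (d - x.2))
      (W := WW (a - x.1) (b - x.1) (c - x.2) (d - x.2))
      ((BB_mono' (by omega)).trans g2) g1 g3 g5 g4 g6 g7
    rw [← hN, t1] at hV
    rw [cV_tr q a b c d x (k / 8), ← div_eq_inv_mul, le_div_iff₀ hpow]
    refine hV.trans ?_
    have hkk : H75.TwoArm.BB (k / 8) ⊆ Bx (a - x.1) (b - x.1) (c - x.2) (d - x.2) :=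
      (BB_mono' (by omega)).trans g2
    refine (cV_mono hq' (BB_mono' (m := 16 * α + 12 * s) (n := k / 8) (by omega)) hkk _).trans
      (le_of_eq ?_)
    refine cV_congr hkk fun ω hω => ind_congr ?_
    exact (HC_env (by omega) (by omega) hω).symm

end Pool.Agent.H81.NC
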